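import Pool.Agent.Lib.H21D.Defs

/-! # A1: equivariance of all notions -/
namespace H21D
namespace Sys
variable {G C : Type*} [Group G] [LinearOrder C] [MulAction G C] (S : Sys G C)
include S

theorem cyc_smul_iff (g : G) {x y z : C} : cyc (g • x) (g • y) (g • z) ↔ cyc x y z := by
  constructor
  · intro h
    have := S.cyc_smul g⁻¹ h
    simpa only [inv_smul_smul] using this
  · exact S.cyc_smul g

theorem cyc4_smul_iff (g : G) {w x y z : C} :
    cyc4 (g • w) (g • x) (g • y) (g • z) ↔ cyc4 w x y z := by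
  unfold cyc4
  rw [S.cyc_smul_iff, S.cyc_smul_iff]

theorem arc_smul_iff (g : G) {p q x : C} : arc (g • p) (g • q) (g • x) ↔ arc p q x := by
  unfold arc
  rw [S.cyc_smul_iff, smul_left_cancel_iff, smul_left_cancel_iff]

theorem inv_ne_one' {g : G} (hg : g ≠ 1) : g⁻¹ ≠ 1 := inv_ne_one.2 hg

theorem conj_ne_one (h : G) {g : G} (hg : g ≠ 1) : h * g * h⁻¹ ≠ 1 := by
  intro e
  apply hg
  have := congrArg (fun x => h⁻¹ * x * h) e
  simpa [mul_assoc] using this

theorem smul_att {g : G} (hg : g ≠ 1) : g • S.att g = S.att g := by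
  have := S.att_conj g hg
  rw [mul_inv_cancel_right] at this
  exact this.symm

theorem att_conj_inv (h : G) {g : G} (hg : g ≠ 1) :
    S.att (h * g * h⁻¹)⁻¹ = h • S.att g⁻¹ := by
  have e : (h * g * h⁻¹)⁻¹ = h * g⁻¹ * h⁻¹ := by group
  rw [e]
  exact S.att_conj h (inv_ne_one.2 hg)

theorem smul_att_inv {g : G} (hg : g ≠ 1) : g • S.att g⁻¹ = S.att g⁻¹ := by
  have := S.att_conj_inv g hg
  rw [mul_inv_cancel_right] at this
  exact this.symm

theorem inv_smul_att {g : G} (hg : g ≠ 1) : g⁻¹ • S.att g = S.att g := by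
  rw [inv_smul_eq_iff, S.smul_att hg]

theorem inv_smul_att_inv {g : G} (hg : g ≠ 1) : g⁻¹ • S.att g⁻¹ = S.att g⁻¹ := by
  rw [inv_smul_eq_iff, S.smul_att_inv hg]

theorem zpow_smul_att {g : G} (hg : g ≠ 1) (k : ℤ) : g ^ k • S.att g = S.att g := by
  induction k using Int.induction_on with
  | zero => simp
  | succ i ih => rw [zpow_add_one, mul_smul, S.smul_att hg, ih]
  | pred i ih => rw [zpow_sub_one, mul_smul, S.inv_smul_att hg, ih]

theorem zpow_smul_att_inv {g : G} (hg : g ≠ 1) (k : ℤ) : g ^ k • S.att g⁻¹ = S.att g⁻¹ := by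
  induction k using Int.induction_on with
  | zero => simp
  | succ i ih => rw [zpow_add_one, mul_smul, S.smul_att_inv hg, ih]
  | pred i ih => rw [zpow_sub_one, mul_smul, S.inv_smul_att_inv hg, ih]

theorem pow_smul_att {g : G} (hg : g ≠ 1) (k : ℕ) : g ^ k • S.att g = S.att g := by
  have := S.zpow_smul_att hg (k : ℤ)
  simpa using this

theorem pow_smul_att_inv {g : G} (hg : g ≠ 1) (k : ℕ) : g ^ k • S.att g⁻¹ = S.att g⁻¹ := by
  have := S.zpow_smul_att_inv hg (k : ℤ)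
  simpa using this

theorem PosX_conj (h : G) {u w : G} (hu : u ≠ 1) (hw : w ≠ 1) :
    S.PosX (h * u * h⁻¹) (h * w * h⁻¹) ↔ S.PosX u w := by
  unfold PosX
  rw [S.att_conj h hu, S.att_conj h hw, S.att_conj_inv h hu, S.att_conj_inv h hw, S.cyc4_smul_iff]

theorem PosX_symm {u w : G} (h : S.PosX u w) : S.PosX w u⁻¹ := by
  unfold PosX at *
  rw [inv_inv]
  generalize S.att u = a at *; generalize S.att u⁻¹ = b at *
  generalize S.att w = c at *; generalize S.att w⁻¹ = d at *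
  (obtain ⟨lab, hlab⟩ := H21D.exists_lab [a, b, c, d]; simp only [List.forall_mem_cons, List.not_mem_nil, IsEmpty.forall_iff, implies_true, and_true, forall_eq_or_imp, List.mem_cons, forall_eq, or_false] at hlab; simp only [H21D.cyc, H21D.cyc4, H21D.arc, ne_eq, hlab] at *; omega)

theorem PosX_inv_inv {u w : G} (h : S.PosX u w) : S.PosX u⁻¹ w⁻¹ := S.PosX_symm (S.PosX_symm h)

theorem PosX_symm' {u w : G} (h : S.PosX u w) : S.PosX w⁻¹ u := by
  have := S.PosX_symm (S.PosX_symm (S.PosX_symm h))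
  simpa using this

theorem not_PosX_inv {u w : G} (h : S.PosX u w) : ¬ S.PosX u w⁻¹ := by
  unfold PosX at *
  rw [inv_inv]
  generalize S.att u = a at *; generalize S.att u⁻¹ = b at *
  generalize S.att w = c at *; generalize S.att w⁻¹ = d at *
  (obtain ⟨lab, hlab⟩ := H21D.exists_lab [a, b, c, d]; simp only [List.forall_mem_cons, List.not_mem_nil, IsEmpty.forall_iff, implies_true, and_true, forall_eq_or_imp, List.mem_cons, forall_eq, or_false] at hlab; simp only [H21D.cyc, H21D.cyc4, H21D.arc, ne_eq, hlab] at *; omega)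

theorem Bef_conj (h : G) {c u w : G} (hc : c ≠ 1) (hu : u ≠ 1) (hw : w ≠ 1) :
    S.Bef (h * c * h⁻¹) (h * u * h⁻¹) (h * w * h⁻¹) ↔ S.Bef c u w := by
  unfold Bef
  rw [S.att_conj h hu, S.att_conj h hw, S.att_conj_inv h hu, S.att_conj_inv h hw,
    S.att_conj h hc, S.att_conj_inv h hc, S.cyc4_smul_iff, S.cyc4_smul_iff]

theorem Opp_conj (h : G) {c u w : G} (hc : c ≠ 1) (hu : u ≠ 1) (hw : w ≠ 1) :
    S.Opp (h * c * h⁻¹) (h * u * h⁻¹) (h * w * h⁻¹) ↔ S.Opp c u w := by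
  unfold Opp
  rw [S.att_conj h hu, S.att_conj h hw, S.att_conj_inv h hu, S.att_conj_inv h hw,
    S.att_conj h hc, S.att_conj_inv h hc, S.cyc4_smul_iff, S.cyc4_smul_iff]

theorem In_conj (h : G) {δ : G} (hδ : δ ≠ 1) (ξ : C) :
    S.In (h * δ * h⁻¹) (h • ξ) ↔ S.In δ ξ := by
  unfold In
  rw [S.att_conj h hδ, S.att_conj_inv h hδ, S.cyc_smul_iff, smul_left_cancel_iff]

theorem In_inv {δ : G} (hδ : δ ≠ 1) (ξ : C) : S.In δ⁻¹ ξ ↔ ¬ S.In δ ξ := by
  have h := S.att_ne hδ
  unfold In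
  rw [inv_inv]
  generalize S.att δ = a at *; generalize S.att δ⁻¹ = b at *
  (obtain ⟨lab, hlab⟩ := H21D.exists_lab [a, b, ξ]; simp only [List.forall_mem_cons, List.not_mem_nil, IsEmpty.forall_iff, implies_true, and_true, forall_eq_or_imp, List.mem_cons, forall_eq, or_false] at hlab; simp only [H21D.cyc, H21D.cyc4, H21D.arc, ne_eq, hlab] at *; omega)

theorem maj_conj (h : G) {δ : G} (hδ : δ ≠ 1) (T : C × C × C) :
    S.maj (h * δ * h⁻¹) (h • T) ↔ S.maj δ T := by
  unfold maj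
  simp only [Prod.smul_fst, Prod.smul_snd, S.In_conj h hδ]

theorem maj_inv {δ : G} (hδ : δ ≠ 1) (T : C × C × C) : S.maj δ⁻¹ T ↔ ¬ S.maj δ T := by
  unfold maj
  simp only [S.In_inv hδ]
  tauto

end Sys

theorem mem_cls_self {G : Type*} [Group G] (b : G) : b ∈ cls b := ⟨1, by simp⟩

theorem cls_conj {G : Type*} [Group G] {b w : G} (h : G) (hw : w ∈ cls b) : h * w * h⁻¹ ∈ cls b := by
  obtain ⟨k, hk | hk⟩ := hw
  · exact ⟨h * k, Or.inl (by rw [hk]; group)⟩
  · exact ⟨h * k, Or.inr (by rw [hk]; group)⟩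

theorem cls_inv {G : Type*} [Group G] {b w : G} (hw : w ∈ cls b) : w⁻¹ ∈ cls b := by
  obtain ⟨k, hk | hk⟩ := hw
  · exact ⟨k, Or.inr (by rw [hk]; group)⟩
  · exact ⟨k, Or.inl (by rw [hk]; group)⟩

theorem cls_eq {G : Type*} [Group G] {b w : G} (hw : w ∈ cls b) : cls w = cls b := by
  ext x
  constructor
  · rintro ⟨h, rfl | rfl⟩
    · exact cls_conj h hw
    · exact cls_conj h (cls_inv hw)
  · rintro ⟨h, rfl | rfl⟩
    · obtain ⟨k, rfl | rfl⟩ := hw
      · exact ⟨h * k⁻¹, Or.inl (by group)⟩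
      · exact ⟨h * k⁻¹, Or.inr (by group)⟩
    · obtain ⟨k, rfl | rfl⟩ := hw
      · exact ⟨h * k⁻¹, Or.inr (by group)⟩
      · exact ⟨h * k⁻¹, Or.inl (by group)⟩

theorem cls_ne_one {G : Type*} [Group G] {b w : G} (hb : b ≠ 1) (hw : w ∈ cls b) : w ≠ 1 := by
  obtain ⟨k, rfl | rfl⟩ := hw
  · intro e
    apply hb
    have := congrArg (fun x => k⁻¹ * x * k) e
    simpa [mul_assoc] using this
  · intro e
    apply hb
    have := congrArg (fun x => k⁻¹ * x * k) e
    simpa [mul_assoc] using this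

end H21D
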