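import Pool.Agent.Lib.H21D.A1

/-! # A2: dynamics of one element -/
namespace H21D
namespace Sys
variable {G C : Type*} [Group G] [LinearOrder C] [MulAction G C] (S : Sys G C)
include S

/-- on the left side `g` moves points towards `g⁺`.
(`g • ξ` is on the left side; if it is `ξ` or farther than `ξ`, so are all `g ^ n • ξ`,
against `S.dyn` for the interval `(g⁻, ξ)`.) -/
theorem mono_left {g : G} (hg : g ≠ 1) {ξ : C} (h : cyc (S.att g) ξ (S.att g⁻¹)) :
    cyc4 (S.att g) (g • ξ) ξ (S.att g⁻¹) := by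
  have hab := S.att_ne hg
  have ha := S.smul_att hg
  have hb := S.smul_att_inv hg
  generalize ea : S.att g = a at *
  generalize eb : S.att g⁻¹ = b at *
  have h1 : cyc a (g • ξ) b := by
    have h2 := S.cyc_smul g h
    rwa [ha, hb] at h2
  refine ⟨?_, h⟩
  by_contra hcon
  have hη : g • ξ = ξ ∨ cyc a ξ (g • ξ) := by
    clear ea eb ha hb
    generalize g • ξ = η at *
    (obtain ⟨lab, hlab⟩ := H21D.exists_lab [a, b, ξ, η]; simp only [List.forall_mem_cons, List.not_mem_nil, IsEmpty.forall_iff, implies_true, and_true, forall_eq_or_imp, List.mem_cons, forall_eq, or_false] at hlab; simp only [H21D.cyc, H21D.cyc4, H21D.arc, ne_eq, hlab] at *; omega)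
  have hind : ∀ n : ℕ, (g ^ n • ξ = ξ ∨ cyc a ξ (g ^ n • ξ)) ∧ cyc a (g ^ n • ξ) b := by
    intro n
    induction n with
    | zero =>
      rw [pow_zero, one_smul]
      exact ⟨Or.inl rfl, h⟩
    | succ n ih =>
      obtain ⟨ih1, ih2⟩ := ih
      rw [pow_succ', mul_smul]
      constructor
      · rcases ih1 with e | e
        · rw [e]
          exact hη
        · have h3 := S.cyc_smul g e
          rw [ha] at h3
          rcases hη with e2 | e2
          · rw [e2] at h3
            exact Or.inr h3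
          · exact Or.inr (cyc_trans e2 h3)
      · have h3 := S.cyc_smul g ih2
        rwa [ha, hb] at h3
  have hξb : ξ ≠ S.att g⁻¹ := by
    rw [eb]
    exact cyc_ne₂₃ h
  have hint : cyc b (S.att g) ξ := by
    rw [ea]
    exact cyc_rot' h
  obtain ⟨N, hN⟩ := S.dyn hg hξb hint
  have h3 := hN N le_rfl
  obtain ⟨h4, h5⟩ := hind N
  clear hN hind ea eb ha hb hη hcon h1 hξb hint
  generalize g ^ N • ξ = x at *
  (obtain ⟨lab, hlab⟩ := H21D.exists_lab [a, b, ξ, x]; simp only [List.forall_mem_cons, List.not_mem_nil, IsEmpty.forall_iff, implies_true, and_true, forall_eq_or_imp, List.mem_cons, forall_eq, or_false] at hlab; simp only [H21D.cyc, H21D.cyc4, H21D.arc, ne_eq, hlab] at *; omega)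

theorem mono_right {g : G} (hg : g ≠ 1) {ξ : C} (h : cyc (S.att g⁻¹) ξ (S.att g)) :
    cyc4 (S.att g⁻¹) ξ (g • ξ) (S.att g) := by
  have hab := S.att_ne hg
  have ha := S.smul_att hg
  have hb := S.smul_att_inv hg
  generalize ea : S.att g = a at *
  generalize eb : S.att g⁻¹ = b at *
  have h1 : cyc b (g • ξ) a := by
    have h2 := S.cyc_smul g h
    rwa [ha, hb] at h2
  refine ⟨?_, h1⟩
  by_contra hcon
  have hη : g • ξ = ξ ∨ cyc b (g • ξ) ξ := by
    clear ea eb ha hb
    generalize g • ξ = η at *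
    (obtain ⟨lab, hlab⟩ := H21D.exists_lab [a, b, ξ, η]; simp only [List.forall_mem_cons, List.not_mem_nil, IsEmpty.forall_iff, implies_true, and_true, forall_eq_or_imp, List.mem_cons, forall_eq, or_false] at hlab; simp only [H21D.cyc, H21D.cyc4, H21D.arc, ne_eq, hlab] at *; omega)
  have hind : ∀ n : ℕ, (g ^ n • ξ = ξ ∨ cyc b (g ^ n • ξ) ξ) ∧ cyc b (g ^ n • ξ) a := by
    intro n
    induction n with
    | zero =>
      rw [pow_zero, one_smul]
      exact ⟨Or.inl rfl, h⟩
    | succ n ih =>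
      obtain ⟨ih1, ih2⟩ := ih
      rw [pow_succ', mul_smul]
      constructor
      · rcases ih1 with e | e
        · rw [e]
          exact hη
        · have h3 := S.cyc_smul g e
          rw [hb] at h3
          rcases hη with e2 | e2
          · rw [e2] at h3
            exact Or.inr h3
          · exact Or.inr (cyc_trans h3 e2)
      · have h3 := S.cyc_smul g ih2
        rwa [ha, hb] at h3
  have hξb : ξ ≠ S.att g⁻¹ := by
    rw [eb]
    exact (cyc_ne₁₂ h).symm
  have hint : cyc ξ (S.att g) b := by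
    rw [ea]
    exact cyc_rot h
  obtain ⟨N, hN⟩ := S.dyn hg hξb hint
  have h3 := hN N le_rfl
  obtain ⟨h4, h5⟩ := hind N
  clear hN hind ea eb ha hb hη hcon h1 hξb hint
  generalize g ^ N • ξ = x at *
  (obtain ⟨lab, hlab⟩ := H21D.exists_lab [a, b, ξ, x]; simp only [List.forall_mem_cons, List.not_mem_nil, IsEmpty.forall_iff, implies_true, and_true, forall_eq_or_imp, List.mem_cons, forall_eq, or_false] at hlab; simp only [H21D.cyc, H21D.cyc4, H21D.arc, ne_eq, hlab] at *; omega)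

theorem fix_iff {g : G} (hg : g ≠ 1) {ξ : C} : g • ξ = ξ ↔ (ξ = S.att g ∨ ξ = S.att g⁻¹) := by
  constructor
  · intro h
    by_contra hcon
    rw [not_or] at hcon
    have hab := S.att_ne hg
    rcases cyc_total (x := S.att g) (y := ξ) (z := S.att g⁻¹) (Ne.symm hcon.1) hcon.2 hab with h1 | h1
    · have h2 := (S.mono_left hg h1).1
      rw [h] at h2
      exact cyc_ne₂₃ h2 rfl
    · have h2 := (S.mono_right hg h1).1
      rw [h] at h2
      exact cyc_ne₂₃ h2 rfl
  · rintro (rfl | rfl)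
    · exact S.smul_att hg
    · exact S.smul_att_inv hg

theorem pow_ne_one {g : G} (hg : g ≠ 1) {n : ℕ} (hn : 0 < n) : g ^ n ≠ 1 := by
  intro h1
  obtain ⟨q, hq⟩ := S.dense (S.att_ne hg)
  have h2 : cyc (S.att g⁻¹) (S.att g) q := cyc_rot' hq
  obtain ⟨N, hN⟩ := S.dyn hg (cyc_ne₂₃ hq) h2
  have h3 := hN (n * N) (Nat.le_mul_of_pos_left _ hn)
  rw [pow_mul, h1, one_pow, one_smul] at h3
  exact cyc_ne₂₃ h3 rfl

theorem zpow_ne_one {g : G} (hg : g ≠ 1) {k : ℤ} (hk : k ≠ 0) : g ^ k ≠ 1 := by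
  intro h
  have hn : 0 < k.natAbs := Int.natAbs_pos.2 hk
  apply S.pow_ne_one hg hn
  rcases Int.natAbs_eq k with e | e
  · rw [e, zpow_natCast] at h
    exact h
  · rw [e, zpow_neg, zpow_natCast, inv_eq_one] at h
    exact h

theorem att_pow {g : G} (hg : g ≠ 1) {n : ℕ} (hn : 0 < n) : S.att (g ^ n) = S.att g := by
  have hgn := S.pow_ne_one hg hn
  have h1 : g ^ n • S.att g = S.att g := S.pow_smul_att hg n
  have h2 : g ^ n • S.att g⁻¹ = S.att g⁻¹ := S.pow_smul_att_inv hg n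
  rcases (S.fix_iff hgn).1 h1 with h3 | h3
  · exact h3.symm
  exfalso
  rcases (S.fix_iff hgn).1 h2 with h4 | h4
  swap
  · exact S.att_ne hg (h3.trans h4.symm)
  obtain ⟨x, hx⟩ := S.dense (S.att_ne hg)
  obtain ⟨y, hy⟩ := S.dense (S.att_ne hg).symm
  have hint1 : cyc y (S.att g) x := by
    generalize S.att g = a at *
    generalize S.att g⁻¹ = b at *
    clear h1 h2 h3 h4
    (obtain ⟨lab, hlab⟩ := H21D.exists_lab [a, b, x, y]; simp only [List.forall_mem_cons, List.not_mem_nil, IsEmpty.forall_iff, implies_true, and_true, forall_eq_or_imp, List.mem_cons, forall_eq, or_false] at hlab; simp only [H21D.cyc, H21D.cyc4, H21D.arc, ne_eq, hlab] at *; omega)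
  have hint2 : cyc x (S.att (g ^ n)) y := by
    rw [← h4]
    generalize S.att g = a at *
    generalize S.att g⁻¹ = b at *
    clear h1 h2 h3 h4
    (obtain ⟨lab, hlab⟩ := H21D.exists_lab [a, b, x, y]; simp only [List.forall_mem_cons, List.not_mem_nil, IsEmpty.forall_iff, implies_true, and_true, forall_eq_or_imp, List.mem_cons, forall_eq, or_false] at hlab; simp only [H21D.cyc, H21D.cyc4, H21D.arc, ne_eq, hlab] at *; omega)
  have hx2 : x ≠ S.att (g ^ n)⁻¹ := by
    rw [← h3]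
    exact (cyc_ne₁₂ hx).symm
  obtain ⟨N1, hN1⟩ := S.dyn hg (cyc_ne₂₃ hx) hint1
  obtain ⟨N2, hN2⟩ := S.dyn hgn hx2 hint2
  have h5 := hN1 (n * (N1 + N2)) (le_trans (Nat.le_add_right N1 N2) (Nat.le_mul_of_pos_left _ hn))
  have h6 := hN2 (N1 + N2) (Nat.le_add_left _ _)
  rw [← pow_mul] at h6
  exact cyc_asymm h5 h6

theorem att_pow_inv {g : G} (hg : g ≠ 1) {n : ℕ} (hn : 0 < n) :
    S.att (g ^ n)⁻¹ = S.att g⁻¹ := by
  have h := S.att_pow (inv_ne_one.2 hg) hn
  rwa [inv_pow] at h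

/-- an element that fixes `g⁺` has the same two fixed points as `g`. -/
theorem fix_cases {g h : G} (hg : g ≠ 1) (hh : h ≠ 1) (e : h • S.att g = S.att g) :
    (S.att h = S.att g ∧ S.att h⁻¹ = S.att g⁻¹) ∨ (S.att h = S.att g⁻¹ ∧ S.att h⁻¹ = S.att g) := by
  obtain ⟨r, hr, hr1, hr2, hr3⟩ := S.root hg
  obtain ⟨k, hk⟩ := hr3 h e
  have hk0 : k ≠ 0 := by
    rintro rfl
    rw [zpow_zero] at hk
    exact hh hk
  have hn : 0 < k.natAbs := Int.natAbs_pos.2 hk0
  rcases Int.natAbs_eq k with e1 | e1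
  · left
    rw [e1, zpow_natCast] at hk
    rw [hk, S.att_pow hr hn, S.att_pow_inv hr hn]
    exact ⟨hr1, hr2⟩
  · right
    rw [e1, zpow_neg, zpow_natCast] at hk
    rw [hk, inv_inv, S.att_pow hr hn, S.att_pow_inv hr hn]
    exact ⟨hr2, hr1⟩

/-- two elements with the same attracting point have the same repelling point. -/
theorem shared {g h : G} (hg : g ≠ 1) (hh : h ≠ 1) (e : S.att g = S.att h) :
    S.att g⁻¹ = S.att h⁻¹ := by
  have h1 : h • S.att g = S.att g := by rw [e]; exact S.smul_att hh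
  rcases S.fix_cases hg hh h1 with h2 | h2
  · exact h2.2.symm
  · exact absurd (e.trans h2.1) (S.att_ne hg)

/-- same with the repelling point of `h`. -/
theorem shared' {g h : G} (hg : g ≠ 1) (hh : h ≠ 1) (e : S.att g = S.att h⁻¹) :
    S.att g⁻¹ = S.att h := by
  have := S.shared hg (inv_ne_one.2 hh) e
  simpa using this

/-- `h g h⁻¹` and `g⁻¹` would have the same attracting point, so `h` swaps `g⁺` and `g⁻`, so
`h ^ 2` is a power `r ^ k` of the root `r` of `g` and `h r h⁻¹ = r⁻¹`, so `k = 0`. -/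
theorem no_flip {g h : G} (hg : g ≠ 1) : h • S.att g ≠ S.att g⁻¹ := by
  intro e
  have hh : h ≠ 1 := by
    rintro rfl
    rw [one_smul] at e
    exact S.att_ne hg e
  obtain ⟨r, hr, hr1, hr2, hr3⟩ := S.root hg
  have hc : h * r * h⁻¹ ≠ 1 := S.conj_ne_one h hr
  have h1 : S.att (h * r * h⁻¹) = S.att r⁻¹ := by
    rw [S.att_conj h hr, hr1, e, hr2]
  have h2 : S.att (h * r * h⁻¹)⁻¹ = S.att r := by
    have h3 := S.shared hc (inv_ne_one.2 hr) h1
    rwa [inv_inv] at h3
  have h3 : h • S.att g⁻¹ = S.att g := by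
    rw [S.att_conj_inv h hr, hr2, hr1] at h2
    exact h2
  have h4 : (h * h) • S.att g = S.att g := by
    rw [mul_smul, e, h3]
  obtain ⟨k, hk⟩ := hr3 _ h4
  have h5 : (h * r * h⁻¹) • S.att g = S.att g := by
    rw [← hr1, ← h2]
    exact S.smul_att_inv hc
  obtain ⟨j, hj⟩ := hr3 _ h5
  have h6 : ∀ m : ℤ, h * r ^ m * h⁻¹ = r ^ (j * m) := by
    intro m
    rw [zpow_mul, ← hj, conj_zpow]
  have h7 : r ^ (j * j) = r := by
    rw [← h6 j, ← hj]
    have h8 : h * (h * r * h⁻¹) * h⁻¹ = (h * h) * r * (h * h)⁻¹ := by group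
    rw [h8, hk]
    group
  have h8 : j * j - 1 = 0 := by
    by_contra hcon
    apply S.zpow_ne_one hr hcon
    rw [zpow_sub_one, h7, mul_inv_cancel]
  have h9 : j = 1 ∨ j = -1 := by
    have h10 : (j - 1) * (j + 1) = 0 := by linear_combination h8
    rcases mul_eq_zero.1 h10 with h11 | h11
    · left; omega
    · right; omega
  rcases h9 with rfl | rfl
  · rw [zpow_one] at hj
    rw [hj] at h1
    exact S.att_ne hr h1
  · have h10 := h6 k
    rw [← hk] at h10
    have h11 : h * (h * h) * h⁻¹ = h * h := by group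
    rw [h11, hk] at h10
    have h12 : k + k = 0 := by
      by_contra hcon
      apply S.zpow_ne_one hr hcon
      rw [zpow_add]
      nth_rw 1 [h10]
      rw [← zpow_add]
      have h13 : (-1 : ℤ) * k + k = 0 := by ring
      rw [h13, zpow_zero]
    have h13 : k = 0 := by omega
    rw [h13, zpow_zero, ← pow_two] at hk
    exact S.pow_ne_one hh two_pos hk

theorem att_eq_iff {g h : G} (hg : g ≠ 1) (hh : h ≠ 1) :
    S.att g = S.att h ↔ ∃ i j : ℕ, 0 < i ∧ 0 < j ∧ g ^ i = h ^ j := by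
  constructor
  · intro e
    obtain ⟨r, hr, hr1, hr2, hr3⟩ := S.root hg
    obtain ⟨k, hk⟩ := hr3 g (S.smul_att hg)
    obtain ⟨l, hl⟩ := hr3 h (by rw [e]; exact S.smul_att hh)
    have key : ∀ (x : G) (m : ℤ), x ≠ 1 → S.att x = S.att r → x = r ^ m →
        ∃ n : ℕ, 0 < n ∧ x = r ^ n := by
      intro x m hx hax hm
      have hm0 : m ≠ 0 := by
        rintro rfl
        rw [zpow_zero] at hm
        exact hx hm
      have hn : 0 < m.natAbs := Int.natAbs_pos.2 hm0
      rcases Int.natAbs_eq m with e1 | e1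
      · exact ⟨m.natAbs, hn, by rw [← zpow_natCast, ← e1]; exact hm⟩
      · exfalso
        rw [e1, zpow_neg, zpow_natCast] at hm
        rw [hm, S.att_pow_inv hr hn] at hax
        exact S.att_ne hr hax.symm
    obtain ⟨i, hi, hi2⟩ := key g k hg hr1.symm hk
    obtain ⟨j, hj, hj2⟩ := key h l hh (e.symm.trans hr1.symm) hl
    refine ⟨j, i, hj, hi, ?_⟩
    rw [hi2, hj2, ← pow_mul, ← pow_mul, mul_comm]
  · rintro ⟨i, j, hi, hj, e⟩
    rw [← S.att_pow hg hi, e, S.att_pow hh hj]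

theorem dyn_inv {g : G} (hg : g ≠ 1) {ξ a b : C} (hξ : ξ ≠ S.att g) (h : cyc a (S.att g⁻¹) b) :
    ∃ N : ℕ, ∀ n : ℕ, N ≤ n → cyc a ((g ^ n)⁻¹ • ξ) b := by
  have hξ' : ξ ≠ S.att (g⁻¹)⁻¹ := by
    rwa [inv_inv]
  obtain ⟨N, hN⟩ := S.dyn (inv_ne_one.2 hg) hξ' h
  refine ⟨N, fun n hn => ?_⟩
  have h1 := hN n hn
  rwa [inv_pow] at h1

end Sys
end H21D
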