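import Pool.Agent.Lib.H21D.A2

/-! # A3: primitive elements -/
namespace H21D
namespace Sys
variable {G C : Type*} [Group G] [LinearOrder C] [MulAction G C] (S : Sys G C)

theorem Prim.ne_one {S : Sys G C} {g : G} (hg : S.Prim g) : g ≠ 1 := hg.1

theorem Prim.inv {S : Sys G C} {g : G} (hg : S.Prim g) : S.Prim g⁻¹ := by
  refine ⟨inv_ne_one.2 hg.1, fun h hh => ?_⟩
  by_cases h1 : h = 1
  · exact ⟨0, by rw [h1, zpow_zero]⟩
  have key : h • S.att g = S.att g := by
    rcases S.fix_cases (inv_ne_one.2 hg.1) h1 hh with h2 | h2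
    · have h3 := h2.2
      rw [inv_inv] at h3
      rw [← h3]
      exact S.smul_att_inv h1
    · have h3 := h2.1
      rw [inv_inv] at h3
      rw [← h3]
      exact S.smul_att h1
  obtain ⟨k, hk⟩ := hg.2 h key
  exact ⟨-k, by rw [hk, inv_zpow', neg_neg]⟩

theorem Prim.conj {S : Sys G C} {g : G} (h : G) (hg : S.Prim g) : S.Prim (h * g * h⁻¹) := by
  refine ⟨S.conj_ne_one h hg.1, fun k hk => ?_⟩
  rw [S.att_conj h hg.1] at hk
  have h1 : (h⁻¹ * k * h) • S.att g = S.att g := by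
    rw [mul_smul, mul_smul, hk, inv_smul_smul]
  obtain ⟨m, hm⟩ := hg.2 _ h1
  refine ⟨m, ?_⟩
  rw [conj_zpow, ← hm]
  group

theorem Prim.cls {S : Sys G C} {g w : G} (hg : S.Prim g) (hw : w ∈ cls g) : S.Prim w := by
  obtain ⟨h, rfl | rfl⟩ := hw
  · exact hg.conj h
  · exact hg.inv.conj h

theorem Prim.ext {S : Sys G C} {g h : G} (hg : S.Prim g) (hh : S.Prim h)
    (e : S.att g = S.att h) : g = h := by
  obtain ⟨k, hk⟩ := hh.2 g (by rw [← e]; exact S.smul_att hg.1)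
  obtain ⟨l, hl⟩ := hg.2 h (by rw [e]; exact S.smul_att hh.1)
  have h1 : g ^ (l * k - 1) = 1 := by
    rw [zpow_sub_one, zpow_mul, ← hl, ← hk, mul_inv_cancel]
  have h2 : l * k = 1 := by
    by_contra hne
    exact S.zpow_ne_one hg.1 (sub_ne_zero.2 hne) h1
  rcases Int.mul_eq_one_iff_eq_one_or_neg_one.1 h2 with ⟨_, rfl⟩ | ⟨_, rfl⟩
  · rw [hk, zpow_one]
  · exfalso
    rw [zpow_neg_one] at hk
    rw [hk] at e
    exact S.att_ne hh.1 e.symm

/-- the four end points of two different primitive axes are distinct. -/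
theorem Prim.four {S : Sys G C} {g h : G} (hg : S.Prim g) (hh : S.Prim h)
    (h1 : g ≠ h) (h2 : g ≠ h⁻¹) :
    S.att g ≠ S.att h ∧ S.att g ≠ S.att h⁻¹ ∧ S.att g⁻¹ ≠ S.att h ∧ S.att g⁻¹ ≠ S.att h⁻¹ := by
  refine ⟨fun e => h1 (hg.ext hh e), fun e => h2 (hg.ext hh.inv e), fun e => h2 ?_, fun e => h1 ?_⟩
  · rw [← hg.inv.ext hh e, inv_inv]
  · exact inv_injective (hg.inv.ext hh.inv e)

theorem Prim.ne_inv {S : Sys G C} {g : G} (hg : S.Prim g) : g ≠ g⁻¹ := by
  intro e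
  exact S.att_ne hg.1 (by rw [← e])

/-- the stabiliser of the axis -/
theorem Prim.stab {S : Sys G C} {g h : G} (hg : S.Prim g) (e : h * g * h⁻¹ = g) :
    ∃ k : ℤ, h = g ^ k := by
  apply hg.2
  rw [← S.att_conj h hg.1, e]

theorem Prim.not_conj_inv {S : Sys G C} {g h : G} (hg : S.Prim g) : h * g * h⁻¹ ≠ g⁻¹ := by
  intro e
  apply S.no_flip (h := h) hg.1
  rw [← S.att_conj h hg.1, e]

/-- the powers of `a` act freely on the lines crossing `a`. -/
theorem free_of_PosX {a w : G} (ha : a ≠ 1) (hw : w ≠ 1) (h : S.PosX a w) {k : ℤ}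
    (e : a ^ k * w * (a ^ k)⁻¹ = w) : k = 0 := by
  by_contra hk
  have hak := S.zpow_ne_one ha hk
  have h1 : a ^ k • S.att w = S.att w := by
    rw [← S.att_conj (a ^ k) hw, e]
  have h2 := S.fix_cases hw hak h1
  have h3 := S.fix_cases ha hak (S.zpow_smul_att ha k)
  unfold PosX at h
  clear h1 e hak
  generalize S.att (a ^ k) = p at *
  generalize S.att (a ^ k)⁻¹ = q at *
  generalize S.att a = x at *
  generalize S.att a⁻¹ = y at *
  generalize S.att w = z at *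
  generalize S.att w⁻¹ = t at *
  clear ha hw hk
  (obtain ⟨lab, hlab⟩ := H21D.exists_lab [p, q, x, y, z, t]; simp only [List.forall_mem_cons, List.not_mem_nil, IsEmpty.forall_iff, implies_true, and_true, forall_eq_or_imp, List.mem_cons, forall_eq, or_false] at hlab; simp only [H21D.cyc, H21D.cyc4, H21D.arc, ne_eq, hlab] at *; omega)

/-- every `g ≠ 1` is a positive power of a primitive element with the same fixed points. -/
theorem exists_root {g : G} (hg : g ≠ 1) : ∃ r : G, S.Prim r ∧ S.att r = S.att g ∧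
    S.att r⁻¹ = S.att g⁻¹ ∧ ∃ n : ℕ, 0 < n ∧ g = r ^ n := by
  obtain ⟨r, hr, h1, h2, h3⟩ := S.root hg
  refine ⟨r, ⟨hr, fun h hh => h3 h (by rw [← h1]; exact hh)⟩, h1, h2, ?_⟩
  obtain ⟨k, hk⟩ := h3 g (S.smul_att hg)
  rcases lt_trichotomy k 0 with hneg | rfl | hpos
  · exfalso
    obtain ⟨n, rfl⟩ : ∃ n : ℕ, k = -(n : ℤ) := ⟨k.natAbs, by omega⟩
    rw [zpow_neg, zpow_natCast] at hk
    have h4 := S.att_pow_inv hr (n := n) (by omega)
    rw [← hk, h2] at h4
    exact S.att_ne hg h4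
  · exact absurd hk (by rw [zpow_zero]; exact hg)
  · obtain ⟨n, rfl⟩ : ∃ n : ℕ, k = (n : ℤ) := ⟨k.natAbs, by omega⟩
    exact ⟨n, by omega, by rw [hk, zpow_natCast]⟩

end Sys
end H21D
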