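import Pool.Agent.Lib.H21D.A3

/-! # A4: automorphisms -/
namespace H21D
namespace Sys
variable {G C : Type*} [Group G] [LinearOrder C] [MulAction G C] (S : Sys G C)

theorem aut_ne (τ : G ≃* G) {g : G} : τ g ≠ 1 ↔ g ≠ 1 := by
  rw [Ne, Ne, not_iff_not]
  constructor
  · intro h
    apply τ.injective
    rw [h, map_one]
  · rintro rfl
    exact map_one τ

/-- by `att_eq_iff` -/
theorem att_aut_eq_iff (τ : G ≃* G) {g h : G} (hg : g ≠ 1) (hh : h ≠ 1) :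
    S.att (τ g) = S.att (τ h) ↔ S.att g = S.att h := by
  rw [S.att_eq_iff ((aut_ne τ).2 hg) ((aut_ne τ).2 hh), S.att_eq_iff hg hh]
  refine exists_congr fun i => exists_congr fun j => and_congr_right fun _ => and_congr_right fun _ => ?_
  rw [← map_pow, ← map_pow]
  exact τ.injective.eq_iff

/-- `h` fixes `g⁺` iff `h = 1` or `h⁺ = g⁺` or `h⁺ = g⁻`. -/
theorem Prim_aut (τ : G ≃* G) {g : G} : S.Prim (τ g) ↔ S.Prim g := by
  unfold Prim
  rw [aut_ne τ]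
  refine and_congr_right fun hg => ?_
  have key : ∀ h : G, τ h • S.att (τ g) = S.att (τ g) ↔ h • S.att g = S.att g := by
    intro h
    rw [← S.att_conj (τ h) ((aut_ne τ).2 hg), ← S.att_conj h hg, ← S.att_aut_eq_iff τ (S.conj_ne_one h hg) hg]
    rw [map_mul, map_mul, map_inv]
  have key2 : ∀ (h : G) (k : ℤ), τ h = τ g ^ k ↔ h = g ^ k := by
    intro h k
    rw [← map_zpow]
    exact τ.injective.eq_iff
  constructor
  · intro H h hh
    obtain ⟨k, hk⟩ := H (τ h) ((key h).2 hh)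
    exact ⟨k, (key2 h k).1 hk⟩
  · intro H h hh
    obtain ⟨h', rfl⟩ := τ.surjective h
    obtain ⟨k, hk⟩ := H h' ((key h').1 hh)
    exact ⟨k, (key2 h' k).2 hk⟩

theorem mem_cls_aut (τ : G ≃* G) {b w : G} : τ w ∈ cls (τ b) ↔ w ∈ cls b := by
  constructor
  · rintro ⟨h, hw⟩
    obtain ⟨h', rfl⟩ := τ.surjective h
    refine ⟨h', ?_⟩
    rcases hw with hw | hw
    · left
      apply τ.injective
      rw [hw, map_mul, map_mul, map_inv]
    · right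
      apply τ.injective
      rw [hw, map_mul, map_mul, map_inv, map_inv]
  · rintro ⟨h, rfl | rfl⟩
    · exact ⟨τ h, Or.inl (by rw [map_mul, map_mul, map_inv])⟩
    · exact ⟨τ h, Or.inr (by rw [map_mul, map_mul, map_inv, map_inv])⟩

theorem OP.refl : S.OP (MulEquiv.refl G) := by
  intro g h k _ _ _; rfl

theorem OP.symm {S : Sys G C} {τ : G ≃* G} (h : S.OP τ) : S.OP τ.symm := by
  intro a b c ha hb hc
  have h1 := h (g := τ.symm a) (h := τ.symm b) (k := τ.symm c) ((aut_ne τ.symm).2 ha) ((aut_ne τ.symm).2 hb)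
    ((aut_ne τ.symm).2 hc)
  rw [MulEquiv.apply_symm_apply, MulEquiv.apply_symm_apply, MulEquiv.apply_symm_apply] at h1
  exact h1.symm

theorem OP.trans {S : Sys G C} {τ σ : G ≃* G} (h : S.OP τ) (h' : S.OP σ) : S.OP (τ.trans σ) := by
  intro a b c ha hb hc
  exact (h' ((aut_ne τ).2 ha) ((aut_ne τ).2 hb) ((aut_ne τ).2 hc)).trans (h ha hb hc)

theorem OP.conj (h : G) : S.OP (MulAut.conj h) := by
  intro a b c ha hb hc
  rw [MulAut.conj_apply, MulAut.conj_apply, MulAut.conj_apply, S.att_conj h ha, S.att_conj h hb, S.att_conj h hc,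
    S.cyc_smul_iff]

variable {S}

theorem OP.cyc4 {τ : G ≃* G} (H : S.OP τ) {g h k l : G} (hg : g ≠ 1) (hh : h ≠ 1) (hk : k ≠ 1)
    (hl : l ≠ 1) : cyc4 (S.att (τ g)) (S.att (τ h)) (S.att (τ k)) (S.att (τ l)) ↔
      cyc4 (S.att g) (S.att h) (S.att k) (S.att l) := by
  unfold H21D.cyc4
  rw [H hg hh hk, H hg hk hl]

theorem OP.PosX {τ : G ≃* G} (H : S.OP τ) {u w : G} (hu : u ≠ 1) (hw : w ≠ 1) :
    S.PosX (τ u) (τ w) ↔ S.PosX u w := by
  unfold Sys.PosX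
  rw [← map_inv, ← map_inv]
  exact OP.cyc4 H hu hw (inv_ne_one.2 hu) (inv_ne_one.2 hw)

theorem OP.Bef {τ : G ≃* G} (H : S.OP τ) {c u w : G} (hc : c ≠ 1) (hu : u ≠ 1) (hw : w ≠ 1) :
    S.Bef (τ c) (τ u) (τ w) ↔ S.Bef c u w := by
  unfold Sys.Bef
  rw [← map_inv, ← map_inv, ← map_inv, OP.cyc4 H hc hw hu (inv_ne_one.2 hc),
    OP.cyc4 H (inv_ne_one.2 hc) (inv_ne_one.2 hu) (inv_ne_one.2 hw) hc]

theorem OP.Opp {τ : G ≃* G} (H : S.OP τ) {c u w : G} (hc : c ≠ 1) (hu : u ≠ 1) (hw : w ≠ 1) :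
    S.Opp (τ c) (τ u) (τ w) ↔ S.Opp c u w := by
  unfold Sys.Opp
  rw [← map_inv, ← map_inv, ← map_inv, OP.cyc4 H hc hw hu (inv_ne_one.2 hc),
    OP.cyc4 H (inv_ne_one.2 hc) (inv_ne_one.2 hw) (inv_ne_one.2 hu) hc]

theorem a4_cross {τ : G ≃* G} (H : S.OP τ) {x y : G} (hx : x ≠ 1) (hy : y ≠ 1) :
    (∀ w ∈ cls (τ y), ¬ S.PosX (τ x) w) ↔ ∀ w ∈ cls y, ¬ S.PosX x w := by
  constructor
  · intro h w hw hp
    exact h (τ w) ((mem_cls_aut τ).2 hw) ((OP.PosX H hx (cls_ne_one hy hw)).2 hp)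
  · intro h w hw hp
    obtain ⟨w', rfl⟩ := τ.surjective w
    have hw' := (mem_cls_aut τ).1 hw
    exact h w' hw' ((OP.PosX H hx (cls_ne_one hy hw')).1 hp)

theorem OP.Simp {τ : G ≃* G} (H : S.OP τ) {x : G} : S.Simp (τ x) ↔ S.Simp x := by
  unfold Sys.Simp
  rw [S.Prim_aut τ]
  exact and_congr_right fun hx => a4_cross H hx.1 hx.1

theorem OP.Disj {τ : G ≃* G} (H : S.OP τ) {x y : G} (hx : x ≠ 1) (hy : y ≠ 1) :
    S.Disj (τ x) (τ y) ↔ S.Disj x y := by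
  exact a4_cross H hx hy

theorem OP.iN {τ : G ≃* G} (H : S.OP τ) {a b : G} (ha : a ≠ 1) (hb : b ≠ 1) :
    S.iN (τ a) (τ b) = S.iN a b := by
  unfold Sys.iN orbCard
  have hm : ∀ w : G, w ∈ S.PosSet a b ↔ τ w ∈ S.PosSet (τ a) (τ b) := by
    intro w
    constructor
    · rintro ⟨h1, h2⟩
      exact ⟨(mem_cls_aut τ).2 h1, (OP.PosX H ha (cls_ne_one hb h1)).2 h2⟩
    · rintro ⟨h1, h2⟩
      have h1' := (mem_cls_aut τ).1 h1
      exact ⟨h1', (OP.PosX H ha (cls_ne_one hb h1')).1 h2⟩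
  let e : S.PosSet a b ≃ S.PosSet (τ a) (τ b) := τ.toEquiv.subtypeEquiv hm
  refine (Nat.card_congr (Quotient.congr e fun w w' => ?_)).symm
  change (∃ k : ℤ, (w' : G) = a ^ k * w * (a ^ k)⁻¹) ↔ ∃ k : ℤ, τ (w' : G) = τ a ^ k * τ w * (τ a ^ k)⁻¹
  refine exists_congr fun k => ?_
  rw [← map_zpow, ← map_inv, ← map_mul, ← map_mul]
  exact τ.injective.eq_iff.symm

end Sys
end H21D
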