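import Pool.Agent.Lib.H21D.A3

/-! # B1: half spaces of a family -/
namespace H21D
theorem b1_inv {C : Type*} [LinearOrder C] {a b x : C} (h1 : x ≠ a) (h2 : x ≠ b) (hab : a ≠ b) :
    cyc b x a ↔ ¬ cyc a x b := by
  constructor
  · intro h
    exact cyc_asymm h
  · intro h
    rcases cyc_total h1.symm h2 hab with h3 | h3
    · exact absurd h3 h
    · exact h3

theorem b1_same {C : Type*} [LinearOrder C] {a a' b b' : C} (h0 : a ≠ a') (h : a ≠ b) (h' : a ≠ b')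
    (k : a' ≠ b) (k' : a' ≠ b') (n1 : ¬ cyc4 a b a' b') (n2 : ¬ cyc4 a b' a' b) :
    (cyc a b a' ∧ cyc a b' a') ∨ (cyc a' b a ∧ cyc a' b' a) := by
  rcases cyc_total h k.symm h0 with h1 | h1
  · rcases cyc_total h' k'.symm h0 with h2 | h2
    · exact Or.inl ⟨h1, h2⟩
    · exact absurd ⟨h1, cyc_rot' h2⟩ n1
  · rcases cyc_total h' k'.symm h0 with h2 | h2
    · exact absurd ⟨h2, cyc_rot' h1⟩ n2
    · exact Or.inr ⟨h1, h2⟩

theorem b1_nest' {C : Type*} [LinearOrder C] {u u' w w' v : C} (n2 : cyc u' w' u)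
    (p1 : cyc w u w') (hv : cyc u v u') : cyc w v w' := by
  (obtain ⟨lab, hlab⟩ := H21D.exists_lab [u, u', w, w', v]; simp only [List.forall_mem_cons, List.not_mem_nil, IsEmpty.forall_iff, implies_true, and_true, forall_eq_or_imp, List.mem_cons, forall_eq, or_false] at hlab; simp only [H21D.cyc, H21D.cyc4, H21D.arc, ne_eq, hlab] at *; omega)

theorem b1_nest {C : Type*} [LinearOrder C] {u u' w w' v : C} (hu : u ≠ u') (h2 : u ≠ w')
    (h4 : u' ≠ w') (n2 : ¬ cyc u w' u') (p1 : cyc w u w')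
    (hv : cyc u v u') : cyc w v w' := by
  have a2 : cyc u' w' u := (b1_inv h2.symm h4.symm hu).2 n2
  exact b1_nest' a2 p1 hv

namespace Fam
variable {G C : Type*} [Group G] [LinearOrder C] [MulAction G C] {S : Sys G C} (F : Fam S)

theorem H_self (u : G) : F.H u u := Or.inl rfl

theorem not_H_inv_self {u : G} (hu : u ∈ F.U) : ¬ F.H u u⁻¹ := by
  rintro (h | ⟨h, -⟩)
  · exact (F.prim hu).ne_inv h.symm
  · exact h rfl

theorem H_inv_iff {u v : G} (hu : u ∈ F.U) (hv : v ∈ F.U) : F.H u⁻¹ v ↔ ¬ F.H u v := by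
  unfold H
  rw [inv_inv]
  by_cases h1 : v = u
  · subst h1
    constructor
    · rintro (h | ⟨h, -⟩)
      · exact absurd h (F.prim hu).ne_inv
      · exact absurd rfl h
    · intro h
      exact absurd (Or.inl rfl) h
  by_cases h2 : v = u⁻¹
  · subst h2
    constructor
    · rintro - (h | ⟨h, -⟩)
      · exact h1 h
      · exact h rfl
    · intro _
      exact Or.inl rfl
  obtain ⟨k1, k2, k3, k4⟩ := (F.prim hv).four (F.prim hu) h1 h2
  have h3 := b1_inv k1 k2 (S.att_ne (F.prim hu).ne_one)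
  simp only [h1, h2, false_or, not_false_eq_true, ne_eq, true_and]
  exact h3

theorem H_conj_iff (h : G) {u v : G} (hu : u ∈ F.U) (hv : v ∈ F.U) :
    F.H (h * u * h⁻¹) (h * v * h⁻¹) ↔ F.H u v := by
  have e : ∀ x y : G, h * x * h⁻¹ = h * y * h⁻¹ ↔ x = y := by
    intro x y
    rw [mul_left_inj, mul_right_inj]
  have e2 : (h * u * h⁻¹)⁻¹ = h * u⁻¹ * h⁻¹ := by group
  unfold H
  rw [e, e2, ne_eq, e, S.att_conj h (F.prim hu).ne_one, S.att_conj h (F.prim hv).ne_one,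
    S.att_conj h (inv_ne_one.2 (F.prim hu).ne_one), S.cyc_smul_iff]

/-- the regions on both sides of `u` are on the same side of every other line `z`. -/
theorem H_side {z u : G} (hz : z ∈ F.U) (hu : u ∈ F.U) (h1 : u ≠ z) (h2 : u ≠ z⁻¹) :
    F.H z u⁻¹ ↔ F.H z u := by
  have h3 : u⁻¹ ≠ z := fun e => h2 (by rw [← e, inv_inv])
  have h4 : u⁻¹ ≠ z⁻¹ := fun e => h1 (inv_injective e)
  obtain ⟨k1, k2, k3, k4⟩ := (F.prim hz).four (F.prim hu) h1.symm (fun e => h3 e.symm)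
  have hs := b1_same (S.att_ne (F.prim hz).ne_one) k1 k2 k3 k4 (F.unl hz hu)
    (by have := F.unl hz (F.inv hu); unfold Sys.PosX at this; rwa [inv_inv] at this)
  unfold H
  simp only [h1, h2, h3, h4, false_or, not_false_eq_true, ne_eq, true_and]
  rcases hs with ⟨a1, a2⟩ | ⟨a1, a2⟩
  · exact ⟨fun _ => a1, fun _ => a2⟩
  · exact ⟨fun h => absurd h (cyc_asymm a2), fun h => absurd h (cyc_asymm a1)⟩

theorem H_iff {z u : G} (h1 : u ≠ z) (h2 : u ≠ z⁻¹) :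
    F.H z u ↔ cyc (S.att z) (S.att u) (S.att z⁻¹) := by
  unfold H
  simp only [h1, h2, false_or, not_false_eq_true, ne_eq, true_and]

/-- both end points of `u` are on the same side of `z`. -/
theorem same_side {z u : G} (hz : z ∈ F.U) (hu : u ∈ F.U) (h1 : u ≠ z) (h2 : u ≠ z⁻¹) :
    (cyc (S.att z) (S.att u) (S.att z⁻¹) ∧ cyc (S.att z) (S.att u⁻¹) (S.att z⁻¹)) ∨
    (cyc (S.att z⁻¹) (S.att u) (S.att z) ∧ cyc (S.att z⁻¹) (S.att u⁻¹) (S.att z)) := by
  have h3 : u⁻¹ ≠ z := fun e => h2 (by rw [← e, inv_inv])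
  obtain ⟨k1, k2, k3, k4⟩ := (F.prim hz).four (F.prim hu) h1.symm (fun e => h3 e.symm)
  exact b1_same (S.att_ne (F.prim hz).ne_one) k1 k2 k3 k4 (F.unl hz hu)
    (by have := F.unl hz (F.inv hu); unfold Sys.PosX at this; rwa [inv_inv] at this)

theorem b1_aux {u w : G} (hu : u ∈ F.U) (hw : w ∈ F.U) (h1 : u ≠ w) (h2 : u ≠ w⁻¹) (hn : ¬ F.H u w)
    (hp : F.H w u) : ∀ v ∈ F.U, F.H u v → F.H w v := by
  have h1' : w ≠ u := h1.symm
  have h2' : w ≠ u⁻¹ := fun e => h2 (by rw [e, inv_inv])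
  have hn' : ¬ F.H u w⁻¹ := fun h => hn ((F.H_side hu hw h1' h2').1 h)
  have h3 : u⁻¹ ≠ w := fun e => h2 (by rw [← e, inv_inv])
  have h4 : u⁻¹ ≠ w⁻¹ := fun e => h1 (inv_injective e)
  intro v hv h
  by_cases e1 : v = u
  · rw [e1]
    exact hp
  by_cases e2 : v = w
  · exact Or.inl e2
  by_cases e3 : v = w⁻¹
  · rw [e3] at h
    exact absurd h hn'
  rcases h with h | ⟨e4, h⟩
  · exact absurd h e1
  rw [F.H_iff h2.symm (fun e => h4 e.symm)] at hn'
  rw [F.H_iff h1 h2] at hp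
  obtain ⟨-, k2, -, k4⟩ := (F.prim hu).four (F.prim hw) h1 h2
  rw [F.H_iff e2 e3]
  exact b1_nest (S.att_ne (F.prim hu).ne_one) k2 k4 hn' hp h

/-- half spaces of two different lines are nested. -/
theorem nest {u w : G} (hu : u ∈ F.U) (hw : w ∈ F.U) (h1 : u ≠ w) (h2 : u ≠ w⁻¹) :
    (∀ v ∈ F.U, F.H u v → F.H w v) ∨ (∀ v ∈ F.U, F.H u v → F.H w⁻¹ v) ∨
    (∀ v ∈ F.U, F.H u⁻¹ v → F.H w v) ∨ (∀ v ∈ F.U, F.H u⁻¹ v → F.H w⁻¹ v) := by
  have h1' : w ≠ u := h1.symm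
  have h2' : w ≠ u⁻¹ := fun e => h2 (by rw [e, inv_inv])
  have h3 : u⁻¹ ≠ w := fun e => h2 (by rw [← e, inv_inv])
  have h4 : u⁻¹ ≠ w⁻¹ := fun e => h1 (inv_injective e)
  by_cases a : F.H u w
  · have a1 : ¬ F.H u⁻¹ w := by rw [F.H_inv_iff hu hw]; exact not_not.2 a
    by_cases b : F.H w u
    · have b1 : F.H w u⁻¹ := (F.H_side hw hu h1 h2).2 b
      exact Or.inr (Or.inr (Or.inl (F.b1_aux (F.inv hu) hw h3 h4 a1 b1)))
    · have b1 : F.H w⁻¹ u⁻¹ := by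
        rw [F.H_inv_iff hw (F.inv hu), F.H_side hw hu h1 h2]
        exact b
      have a2 : ¬ F.H u⁻¹ w⁻¹ := by
        rw [F.H_inv_iff hu (F.inv hw), F.H_side hu hw h1' h2']
        exact not_not.2 a
      exact Or.inr (Or.inr (Or.inr (F.b1_aux (F.inv hu) (F.inv hw) h4 (by rwa [inv_inv]) a2 b1)))
  · by_cases b : F.H w u
    · exact Or.inl (F.b1_aux hu hw h1 h2 a b)
    · have b1 : F.H w⁻¹ u := by
        rw [F.H_inv_iff hw hu]
        exact b
      have a2 : ¬ F.H u w⁻¹ := by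
        rw [F.H_side hu hw h1' h2']
        exact a
      exact Or.inr (Or.inl (F.b1_aux hu (F.inv hw) h2 (by rwa [inv_inv]) a2 b1))

end Fam
end H21D
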