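import Pool.Agent.Lib.H21D.B1

/-! # B2: only finitely many lines separate two regions -/
namespace H21D
namespace Fam
variable {G C : Type*} [Group G] [LinearOrder C] [MulAction G C] {S : Sys G C} (F : Fam S)

theorem b2_ord {C : Type*} [LinearOrder C] {a b c d p m : C} (h : cyc4 d a b c) (h1 : cyc p a m) (h2 : cyc p b m)
    (h3 : cyc m c p) (h4 : cyc m d p) : arc d a p ∧ arc b c m := by
  (obtain ⟨lab, hlab⟩ := H21D.exists_lab [a, b, c, d, p, m]; simp only [List.forall_mem_cons, List.not_mem_nil, IsEmpty.forall_iff, implies_true, and_true, forall_eq_or_imp, List.mem_cons, forall_eq, or_false] at hlab; simp only [H21D.cyc, H21D.cyc4, H21D.arc, ne_eq, hlab] at *; omega)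

theorem b2_o1 {C : Type*} [LinearOrder C] {vp vm wp wm : C} (h1 : cyc vp wp vm) (h2 : cyc vp wm vm)
    (h : cyc vp wp wm) : cyc4 wm vm vp wp := by
  (obtain ⟨lab, hlab⟩ := H21D.exists_lab [vp, vm, wp, wm]; simp only [List.forall_mem_cons, List.not_mem_nil, IsEmpty.forall_iff, implies_true, and_true, forall_eq_or_imp, List.mem_cons, forall_eq, or_false] at hlab; simp only [H21D.cyc, H21D.cyc4, H21D.arc, ne_eq, hlab] at *; omega)

theorem b2_o2 {C : Type*} [LinearOrder C] {vp vm wp wm : C} (h1 : cyc vp wp vm) (h2 : cyc vp wm vm)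
    (hn : wp ≠ wm) (h : ¬ cyc vp wp wm) : cyc4 wp vm vp wm := by
  (obtain ⟨lab, hlab⟩ := H21D.exists_lab [vp, vm, wp, wm]; simp only [List.forall_mem_cons, List.not_mem_nil, IsEmpty.forall_iff, implies_true, and_true, forall_eq_or_imp, List.mem_cons, forall_eq, or_false] at hlab; simp only [H21D.cyc, H21D.cyc4, H21D.arc, ne_eq, hlab] at *; omega)

theorem H_iff_b2 {u : G} (hu : u ∈ F.U) : F.H u u⁻¹ ↔ False :=
  ⟨fun h => F.not_H_inv_self hu h, fun h => h.elim⟩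

/-- If `w ≠ v, v⁻¹` then every `u ∈ Sep v w` other than `v, v⁻¹, w, w⁻¹` has its end points in the
two (closed, disjoint) gaps between the lines `v` and `w`: use `F.fin`.
`Sep v v = ∅`, `Sep v v⁻¹ = {v}`. -/
theorem sep_finite {v w : G} (hv : v ∈ F.U) (hw : w ∈ F.U) : (F.Sep v w).Finite := by
  have hv1 : v ≠ 1 := (F.prim hv).1
  have hw1 : w ≠ 1 := (F.prim hw).1
  by_cases e1 : w = v
  · have : F.Sep v w = ∅ := by
      ext u
      constructor
      · rintro ⟨-, h1, h2⟩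
        rw [e1] at h2
        exact absurd h1 h2
      · exact fun h => h.elim
    rw [this]
    exact Set.finite_empty
  by_cases e2 : w = v⁻¹
  · have : F.Sep v w ⊆ {v} := by
      rintro u ⟨hu, h1, h2⟩
      rw [e2] at h2
      by_contra h3
      have h3' : v ≠ u := fun h => h3 h.symm
      by_cases h4 : v = u⁻¹
      · rw [h4, F.H_iff_b2 hu] at h1
        exact h1
      · exact h2 ((F.H_side hu hv h3' h4).2 h1)
    exact (Set.finite_singleton v).subset this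
  have hvn := S.att_ne hv1
  have hwn := S.att_ne hw1
  obtain ⟨a, b, c, d, hab, hcd, hc4⟩ : ∃ a b c d : C,
      ((a = S.att v ∧ b = S.att v⁻¹) ∨ (a = S.att v⁻¹ ∧ b = S.att v)) ∧
      ((c = S.att w ∧ d = S.att w⁻¹) ∨ (c = S.att w⁻¹ ∧ d = S.att w)) ∧ cyc4 d a b c := by
    have hs := F.same_side hv hw e1 e2
    generalize S.att v = vp at hs hvn ⊢
    generalize S.att v⁻¹ = vm at hs hvn ⊢
    generalize S.att w = wp at hs hwn ⊢
    generalize S.att w⁻¹ = wm at hs hwn ⊢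
    rcases hs with ⟨s1, s2⟩ | ⟨s1, s2⟩
    · by_cases h : cyc vp wp wm
      · exact ⟨vm, vp, wp, wm, Or.inr ⟨rfl, rfl⟩, Or.inl ⟨rfl, rfl⟩, b2_o1 s1 s2 h⟩
      · exact ⟨vm, vp, wm, wp, Or.inr ⟨rfl, rfl⟩, Or.inr ⟨rfl, rfl⟩, b2_o2 s1 s2 hwn h⟩
    · by_cases h : cyc vm wp wm
      · exact ⟨vp, vm, wp, wm, Or.inl ⟨rfl, rfl⟩, Or.inl ⟨rfl, rfl⟩, b2_o1 s1 s2 h⟩
      · exact ⟨vp, vm, wm, wp, Or.inl ⟨rfl, rfl⟩, Or.inr ⟨rfl, rfl⟩, b2_o2 s1 s2 hwn h⟩
  have hfin := F.fin hc4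
  have h4 : ({v, v⁻¹, w, w⁻¹} : Set G).Finite := Set.toFinite _
  refine (h4.union hfin).subset ?_
  rintro u ⟨hu, h1, h2⟩
  by_cases m : u ∈ ({v, v⁻¹, w, w⁻¹} : Set G)
  · exact Or.inl m
  right
  simp only [Set.mem_insert_iff, Set.mem_singleton_iff, not_or] at m
  obtain ⟨m1, m2, m3, m4⟩ := m
  have n1 : v ≠ u := fun h => m1 h.symm
  have n2 : v ≠ u⁻¹ := fun h => m2 (by rw [h, inv_inv])
  have n3 : w ≠ u := fun h => m3 h.symm
  have n4 : w ≠ u⁻¹ := fun h => m4 (by rw [h, inv_inv])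
  rw [F.H_iff n1 n2] at h1
  rw [F.H_iff n3 n4] at h2
  have s1 : cyc (S.att u) (S.att v) (S.att u⁻¹) ∧ cyc (S.att u) (S.att v⁻¹) (S.att u⁻¹) := by
    rcases F.same_side hu hv n1 n2 with h | h
    · exact h
    · exact absurd h1 (cyc_asymm h.1)
  have s2 : cyc (S.att u⁻¹) (S.att w) (S.att u) ∧ cyc (S.att u⁻¹) (S.att w⁻¹) (S.att u) := by
    rcases F.same_side hu hw n3 n4 with h | h
    · exact absurd h.1 h2
    · exact h
  refine ⟨hu, ?_⟩
  have k1 : cyc (S.att u) a (S.att u⁻¹) ∧ cyc (S.att u) b (S.att u⁻¹) := by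
    rcases hab with ⟨rfl, rfl⟩ | ⟨rfl, rfl⟩
    · exact s1
    · exact ⟨s1.2, s1.1⟩
  have k2 : cyc (S.att u⁻¹) c (S.att u) ∧ cyc (S.att u⁻¹) d (S.att u) := by
    rcases hcd with ⟨rfl, rfl⟩ | ⟨rfl, rfl⟩
    · exact s2
    · exact ⟨s2.2, s2.1⟩
  exact b2_ord hc4 k1.1 k1.2 k2.1 k2.2

theorem sep_self (v : G) : F.Sep v v = ∅ := by
  ext u
  constructor
  · rintro ⟨-, h1, h2⟩
    exact absurd h1 h2
  · exact fun h => h.elim

theorem sep_inv_self {v : G} (hv : v ∈ F.U) : F.Sep v v⁻¹ = {v} := by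
  ext u
  rw [Set.mem_singleton_iff]
  constructor
  · rintro ⟨hu, h1, h2⟩
    by_contra h3
    have h3' : v ≠ u := fun h => h3 h.symm
    by_cases h4 : v = u⁻¹
    · rw [h4] at h1
      exact F.not_H_inv_self hu h1
    · exact h2 ((F.H_side hu hv h3' h4).2 h1)
  · rintro rfl
    exact ⟨hv, F.H_self u, F.not_H_inv_self hv⟩

theorem sep_eq_empty_iff {v w : G} (hv : v ∈ F.U) (hw : w ∈ F.U) :
    F.Sep v w = ∅ ↔ F.Adj v w := by
  constructor
  · intro h u hu
    have key : ∀ z ∈ F.U, F.H z v → F.H z w := by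
      intro z hz h1
      by_contra h2
      have : z ∈ F.Sep v w := ⟨hz, h1, h2⟩
      rw [h] at this
      exact this.elim
    refine ⟨key u hu, fun h1 => ?_⟩
    by_contra h2
    have h3 := key u⁻¹ (F.inv hu) ((F.H_inv_iff hu hv).2 h2)
    exact (F.H_inv_iff hu hw).1 h3 h1
  · intro h
    ext u
    constructor
    · rintro ⟨hu, h1, h2⟩
      exact absurd ((h u hu).1 h1) h2
    · exact fun h => h.elim

theorem Adj.symm {F : Fam S} {v w : G} (h : F.Adj v w) : F.Adj w v := fun u hu => (h u hu).symm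

theorem Adj.trans {F : Fam S} {v w z : G} (h : F.Adj v w) (h' : F.Adj w z) : F.Adj v z :=
  fun u hu => (h u hu).trans (h' u hu)

theorem Adj.refl (v : G) : F.Adj v v := fun _ _ => Iff.rfl

theorem Adj_conj_iff (h : G) {v w : G} (hv : v ∈ F.U) (hw : w ∈ F.U) :
    F.Adj (h * v * h⁻¹) (h * w * h⁻¹) ↔ F.Adj v w := by
  constructor
  · intro a u hu
    have h1 := a _ (F.conj h hu)
    rwa [F.H_conj_iff h hu hv, F.H_conj_iff h hu hw] at h1
  · intro a u hu
    have hu' : h⁻¹ * u * h ∈ F.U := by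
      have := F.conj h⁻¹ hu
      rwa [inv_inv] at this
    have e : h * (h⁻¹ * u * h) * h⁻¹ = u := by group
    have h1 := a _ hu'
    rw [← F.H_conj_iff h hu' hv, ← F.H_conj_iff h hu' hw, e] at h1
    exact h1

end Fam
end H21D
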