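import Pool.Agent.Lib.H21D.B2

/-! # B3: the first line on the way from a region to another one -/
namespace H21D
namespace Fam
variable {G C : Type*} [Group G] [LinearOrder C] [MulAction G C] {S : Sys G C} (F : Fam S)

/-- a line `z` that separates `v` from `u`, where `v` is on the left of `u`, has a smaller left side. -/
theorem b3_small {v u z : G} (hv : v ∈ F.U) (hu : u ∈ F.U) (h : F.H u v) (hz : z ∈ F.Sep v u) :
    ∀ x ∈ F.U, F.H z x → F.H u x := by
  obtain ⟨hzU, hzv, hzu⟩ := hz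
  have hne : u ≠ z := by
    rintro rfl
    exact hzu (F.H_self u)
  have hne' : u ≠ z⁻¹ := by
    intro e
    have e' : z = u⁻¹ := by rw [e, inv_inv]
    rw [e'] at hzv
    exact (F.H_inv_iff hu hv).1 hzv h
  have hside : ¬ F.H z u⁻¹ := fun h' => hzu ((F.H_side hzU hu hne hne').1 h')
  rcases F.nest hzU hu (Ne.symm hne) (fun e => hne' (by rw [e, inv_inv])) with h1 | h1 | h1 | h1
  · exact h1
  · exact absurd h ((F.H_inv_iff hu hv).1 (h1 v hv hzv))
  · exact absurd (h1 u⁻¹ (F.inv hu) ((F.H_inv_iff hzU (F.inv hu)).2 hside)) (F.not_H_inv_self hu)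
  · exact absurd (F.H_self u) ((F.H_inv_iff hu hu).1 (h1 u hu ((F.H_inv_iff hzU hu).2 hzu)))

/-- general form: a nonempty finite set `A` of lines having `v` on their left, closed under going
towards `v`, contains a line next to the region of `v`. -/
theorem exists_adj {v : G} (hv : v ∈ F.U) (A : Set G) (hA : A.Finite) (hne : A.Nonempty)
    (hAU : ∀ u ∈ A, u ∈ F.U ∧ F.H u v)
    (hcl : ∀ u ∈ A, ∀ z ∈ F.Sep v u, z ∈ A) : ∃ u ∈ A, F.Adj v u := by
  obtain ⟨u, huA, hmin⟩ := Set.Finite.exists_minimalFor (fun u => {x | x ∈ F.U ∧ F.H u x}) A hA hne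
  refine ⟨u, huA, ?_⟩
  have hu := (hAU u huA).1
  rw [← F.sep_eq_empty_iff hv hu, Set.eq_empty_iff_forall_notMem]
  intro z hz
  have hzA := hcl u huA z hz
  have hle : {x | x ∈ F.U ∧ F.H z x} ≤ {x | x ∈ F.U ∧ F.H u x} :=
    fun x hx => ⟨hx.1, F.b3_small hv hu (hAU u huA).2 hz x hx.1 hx.2⟩
  have h1 := hmin hzA hle
  exact hz.2.2 (h1 (⟨hu, F.H_self u⟩ : u ∈ {x | x ∈ F.U ∧ F.H u x})).2

/-- if `u` is next to the region of `v` (which is on its left) and `w` is on the right of `u`. -/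
theorem sep_step {v u w : G} (hv : v ∈ F.U) (hu : u ∈ F.U) (hw : w ∈ F.U) (h : F.Adj v u)
    (hw' : ¬ F.H u w) : F.Sep u⁻¹ w = F.Sep v w \ {u} := by
  have _ := hv
  ext z
  constructor
  · rintro ⟨hzU, h1, h2⟩
    have hzu : z ≠ u := by
      rintro rfl
      exact F.not_H_inv_self hu h1
    have hzu' : z ≠ u⁻¹ := by
      rintro rfl
      exact h2 ((F.H_inv_iff hu hw).2 hw')
    refine ⟨⟨hzU, ?_, h2⟩, hzu⟩
    rw [h z hzU]
    exact (F.H_side hzU hu (Ne.symm hzu) (fun e => hzu' (by rw [e, inv_inv]))).1 h1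
  · rintro ⟨⟨hzU, h1, h2⟩, hzu⟩
    have hzu : z ≠ u := hzu
    have hzu' : z ≠ u⁻¹ := by
      rintro rfl
      rw [h _ hzU] at h1
      exact (F.H_inv_iff hu hu).1 h1 (F.H_self u)
    refine ⟨hzU, ?_, h2⟩
    rw [h z hzU] at h1
    exact (F.H_side hzU hu (Ne.symm hzu) (fun e => hzu' (by rw [e, inv_inv]))).2 h1

theorem exists_first {v w : G} (hv : v ∈ F.U) (hw : w ∈ F.U) (hne : (F.Sep v w).Nonempty) :
    ∃ u ∈ F.Sep v w, F.Adj v u ∧ F.Sep u⁻¹ w = F.Sep v w \ {u} := by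
  obtain ⟨u, hu, hadj⟩ := F.exists_adj hv (F.Sep v w) (F.sep_finite hv hw) hne
    (fun u hu => ⟨hu.1, hu.2.1⟩)
    (fun u hu z hz => ⟨hz.1, hz.2.1, fun h => hu.2.2 (F.b3_small hv hu.1 hu.2.1 hz w hw h)⟩)
  exact ⟨u, hu, hadj, F.sep_step hv hu.1 hw hadj hu.2.2⟩

/-- induction along the way from `v` to `w`. -/
theorem induct (P : G → G → Prop)
    (h0 : ∀ v ∈ F.U, ∀ w ∈ F.U, F.Adj v w → P v w)
    (h1 : ∀ v ∈ F.U, ∀ u ∈ F.U, ∀ w ∈ F.U, F.Adj v u → ¬ F.H u w → P u⁻¹ w → P v w)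
    {v w : G} (hv : v ∈ F.U) (hw : w ∈ F.U) : P v w := by
  have key : ∀ (n : ℕ) (v : G), v ∈ F.U → (F.Sep v w).ncard = n → P v w := by
    intro n
    induction n with
    | zero =>
      intro v hv hn
      have : F.Sep v w = ∅ := (Set.ncard_eq_zero (F.sep_finite hv hw)).1 hn
      exact h0 v hv w hw ((F.sep_eq_empty_iff hv hw).1 this)
    | succ n ih =>
      intro v hv hn
      have hne : (F.Sep v w).Nonempty := by
        rw [Set.nonempty_iff_ne_empty]
        intro e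
        rw [e, Set.ncard_empty] at hn
        omega
      obtain ⟨u, hu, hadj, hsep⟩ := F.exists_first hv hw hne
      refine h1 v hv u hu.1 w hw hadj hu.2.2 (ih u⁻¹ (F.inv hu.1) ?_)
      rw [hsep, Set.ncard_sdiff_singleton_of_mem hu, hn]
      rfl
  exact key _ v hv rfl

end Fam
end H21D
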