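import Pool.Agent.Lib.H21D.B3

/-! # B4: the cocycle -/
namespace H21D
namespace Fam
variable {G C : Type*} [Group G] [LinearOrder C] [MulAction G C] {S : Sys G C} (F : Fam S)

theorem b4_uniq {v v0 u z : G} (hv : v ∈ F.U) (hv0 : v0 ∈ F.U) (hu : u ∈ F.Sep v v0) (hz : z ∈ F.Sep v v0)
    (au : F.Adj v u) (az : F.Adj v z) : u = z := by
  by_contra hne
  have hne2 : u ≠ z⁻¹ := by
    intro e
    have h1 : ¬ F.H u z := by
      rw [e]
      intro h2
      rw [F.H_inv_iff hz.1 hz.1] at h2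
      exact h2 (F.H_self z)
    exact h1 ((az u hu.1).1 hu.2.1)
  have hne3 : z ≠ u⁻¹ := fun e => hne2 (by rw [e, inv_inv])
  rcases F.nest hu.1 hz.1 hne hne2 with h | h | h | h
  · have h1 : F.H u z⁻¹ := (F.H_side hu.1 hz.1 (Ne.symm hne) hne3).2 ((az u hu.1).1 hu.2.1)
    exact F.not_H_inv_self hz.1 (h _ (F.inv hz.1) h1)
  · have h1 := h v hv hu.2.1
    rw [F.H_inv_iff hz.1 hv] at h1
    exact h1 hz.2.1
  · exact hz.2.2 (h v0 hv0 ((F.H_inv_iff hu.1 hv0).2 hu.2.2))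
  · have h1 : F.H z u⁻¹ := (F.H_side hz.1 hu.1 hne hne2).2 ((au z hz.1).1 hz.2.1)
    exact (F.H_inv_iff hz.1 (F.inv hu.1)).1 (h _ (F.inv hu.1) (F.H_self _)) h1

theorem b4_sep {v w v0 : G} (h : F.Adj v w) : F.Sep v v0 = F.Sep w v0 := by
  ext u
  constructor
  · rintro ⟨h1, h2, h3⟩
    exact ⟨h1, (h u h1).1 h2, h3⟩
  · rintro ⟨h1, h2, h3⟩
    exact ⟨h1, (h u h1).2 h2, h3⟩

open Classical in
/-- one step -/
noncomputable def b4g (θ f : G → G) (A : Set G) : G :=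
  if h : A.Nonempty then f (h.some)⁻¹ * (θ h.some)⁻¹ else 1

/-- potential with fuel `n` -/
noncomputable def b4f (θ : G → G) (v0 : G) : ℕ → G → G
  | 0, _ => 1
  | n + 1, v => b4g θ (b4f θ v0 n) {u | u ∈ F.Sep v v0 ∧ F.Adj v u}

theorem b4f_adj (θ : G → G) (v0 : G) (n : ℕ) {v w : G} (h : F.Adj v w) : F.b4f θ v0 n v = F.b4f θ v0 n w := by
  have e : {u | u ∈ F.Sep v v0 ∧ F.Adj v u} = {u | u ∈ F.Sep w v0 ∧ F.Adj w u} := by
    ext u
    rw [Set.mem_setOf_eq, Set.mem_setOf_eq, F.b4_sep h]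
    exact and_congr_right fun _ => ⟨fun h1 => h.symm.trans h1, fun h1 => h.trans h1⟩
  cases n with
  | zero => rfl
  | succ n =>
    rw [b4f, b4f, e]

theorem b4f_step (θ : G → G) {v0 u : G} (hv0 : v0 ∈ F.U) (hu : u ∈ F.U) (h : ¬ F.H u v0) (n : ℕ) :
    F.b4f θ v0 (n + 1) u = F.b4f θ v0 n u⁻¹ * (θ u)⁻¹ := by
  have hu' : u ∈ F.Sep u v0 := ⟨hu, F.H_self u, h⟩
  have hne : {z | z ∈ F.Sep u v0 ∧ F.Adj u z}.Nonempty := ⟨u, hu', Adj.refl F u⟩
  have e : hne.some = u := F.b4_uniq hu hv0 hne.some_mem.1 hu' hne.some_mem.2 (Adj.refl F u)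
  rw [b4f, b4g, dif_pos hne, e]

/-- define `φ v w` by recursion on `(F.Sep v w).ncard`: `1` if `Sep v w = ∅` and
`θ u * φ u⁻¹ w` for the first line `u` otherwise. -/
theorem exists_cocycle (θ : G → G) (hθ : ∀ u ∈ F.U, θ u⁻¹ = (θ u)⁻¹) :
    ∃ φ : G → G → G, (∀ v ∈ F.U, ∀ w ∈ F.U, ∀ z ∈ F.U, φ v w * φ w z = φ v z) ∧
      (∀ v ∈ F.U, ∀ w ∈ F.U, F.Adj v w → φ v w = 1) ∧ (∀ u ∈ F.U, φ u u⁻¹ = θ u) := by
  rcases F.U.eq_empty_or_nonempty with he | ⟨v0, hv0⟩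
  · refine ⟨fun _ _ => 1, ?_, ?_, ?_⟩
    · intro v hv
      rw [he] at hv
      exact absurd hv (Set.notMem_empty v)
    · intro v hv
      rw [he] at hv
      exact absurd hv (Set.notMem_empty v)
    · intro v hv
      rw [he] at hv
      exact absurd hv (Set.notMem_empty v)
  · have key : ∀ u ∈ F.U, ¬ F.H u v0 → F.b4f θ v0 (F.Sep u v0).ncard u =
        F.b4f θ v0 (F.Sep u⁻¹ v0).ncard u⁻¹ * (θ u)⁻¹ := by
      intro u hu h
      have hu' : u ∈ F.Sep u v0 := ⟨hu, F.H_self u, h⟩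
      have e1 := F.sep_step hu hu hv0 (Adj.refl F u) h
      have hfin := F.sep_finite hu hv0
      have e2 : (F.Sep u v0).ncard = (F.Sep u⁻¹ v0).ncard + 1 := by
        rw [e1]
        exact (Set.ncard_sdiff_singleton_add_one hu' hfin).symm
      rw [e2, F.b4f_step θ hv0 hu h]
    refine ⟨fun v w => (F.b4f θ v0 (F.Sep v v0).ncard v)⁻¹ * F.b4f θ v0 (F.Sep w v0).ncard w, ?_, ?_, ?_⟩
    · intro v _ w _ z _
      group
    · intro v _ w _ h
      change (F.b4f θ v0 (F.Sep v v0).ncard v)⁻¹ * F.b4f θ v0 (F.Sep w v0).ncard w = 1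
      rw [F.b4_sep (v0 := v0) h, F.b4f_adj θ v0 _ h, inv_mul_cancel]
    · intro u hu
      change (F.b4f θ v0 (F.Sep u v0).ncard u)⁻¹ * F.b4f θ v0 (F.Sep u⁻¹ v0).ncard u⁻¹ = θ u
      by_cases h : F.H u v0
      · have h' : ¬ F.H u⁻¹ v0 := by
          rw [F.H_inv_iff hu hv0, not_not]
          exact h
        have h1 := key u⁻¹ (F.inv hu) h'
        rw [inv_inv, hθ u hu, inv_inv] at h1
        rw [h1, inv_mul_cancel_left]
      · rw [key u hu h]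
        group

theorem cocycle_unique (θ : G → G) (φ φ' : G → G → G)
    (h1 : ∀ v ∈ F.U, ∀ w ∈ F.U, ∀ z ∈ F.U, φ v w * φ w z = φ v z)
    (h2 : ∀ v ∈ F.U, ∀ w ∈ F.U, F.Adj v w → φ v w = 1) (h3 : ∀ u ∈ F.U, φ u u⁻¹ = θ u)
    (h1' : ∀ v ∈ F.U, ∀ w ∈ F.U, ∀ z ∈ F.U, φ' v w * φ' w z = φ' v z)
    (h2' : ∀ v ∈ F.U, ∀ w ∈ F.U, F.Adj v w → φ' v w = 1) (h3' : ∀ u ∈ F.U, φ' u u⁻¹ = θ u)
    {v w : G} (hv : v ∈ F.U) (hw : w ∈ F.U) : φ v w = φ' v w := by
  refine F.induct (fun v w => φ v w = φ' v w) ?_ ?_ hv hw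
  · intro v hv w hw h
    rw [h2 v hv w hw h, h2' v hv w hw h]
  · intro v hv u hu w hw h _ ih
    rw [← h1 v hv u hu w hw, ← h1 u hu u⁻¹ (F.inv hu) w hw, h2 v hv u hu h, h3 u hu,
      ← h1' v hv u hu w hw, ← h1' u hu u⁻¹ (F.inv hu) w hw, h2' v hv u hu h, h3' u hu, ih]

end Fam

namespace Wt
variable {G : Type*} [Group G]

instance : Add (Wt G) := ⟨fun a b => ⟨fun g => a.e g + b.e g, fun h g => by rw [a.conj, b.conj],
  fun g => by rw [a.inv, b.inv]⟩⟩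
instance : Zero (Wt G) := ⟨⟨fun _ => 0, fun _ _ => rfl, fun _ => rfl⟩⟩
instance : Neg (Wt G) := ⟨fun a => ⟨fun g => -a.e g, fun h g => by rw [a.conj],
  fun g => by rw [a.inv]⟩⟩
@[simp] theorem add_e (a b : Wt G) (g : G) : (a + b).e g = a.e g + b.e g := rfl
@[simp] theorem zero_e (g : G) : (0 : Wt G).e g = 0 := rfl
@[simp] theorem neg_e (a : Wt G) (g : G) : (-a).e g = -a.e g := rfl
@[ext] theorem ext {a b : Wt G} (h : ∀ g, a.e g = b.e g) : a = b := by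
  cases a; cases b; congr; funext g; exact h g
/-- the constant exponent one -/
def one : Wt G := ⟨fun _ => 1, fun _ _ => rfl, fun _ => rfl⟩
@[simp] theorem one_e (g : G) : (one : Wt G).e g = 1 := rfl
end Wt

namespace Fam
variable {G C : Type*} [Group G] [LinearOrder C] [MulAction G C] {S : Sys G C} (F : Fam S)

/-- `phi e v w` = product of the `u ^ e u` over the lines `u` crossed on the way from the region of
`v` to the region of `w`, `u⁺` being the end point on the left. -/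
noncomputable def phi (e : Wt G) : G → G → G :=
  (F.exists_cocycle (fun u => u ^ e.e u) (fun u _ => by simp [e.inv])).choose

theorem phi_trans (e : Wt G) {v w z : G} (hv : v ∈ F.U) (hw : w ∈ F.U) (hz : z ∈ F.U) :
    F.phi e v w * F.phi e w z = F.phi e v z :=
  (F.exists_cocycle (fun u => u ^ e.e u) (fun u _ => by simp [e.inv])).choose_spec.1 v hv w hw z hz

theorem phi_adj (e : Wt G) {v w : G} (hv : v ∈ F.U) (hw : w ∈ F.U) (h : F.Adj v w) :
    F.phi e v w = 1 :=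
  (F.exists_cocycle (fun u => u ^ e.e u) (fun u _ => by simp [e.inv])).choose_spec.2.1 v hv w hw h

theorem phi_flip (e : Wt G) {u : G} (hu : u ∈ F.U) : F.phi e u u⁻¹ = u ^ e.e u :=
  (F.exists_cocycle (fun u => u ^ e.e u) (fun u _ => by simp [e.inv])).choose_spec.2.2 u hu

end Fam
end H21D
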