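import Pool.Agent.Lib.H21D.B4

/-! # B5: the cocycle `phi` -/
namespace H21D
namespace Fam
variable {G C : Type*} [Group G] [LinearOrder C] [MulAction G C] {S : Sys G C} (F : Fam S)

theorem phi_self (e : Wt G) {v : G} (hv : v ∈ F.U) : F.phi e v v = 1 := by
  exact F.phi_adj e hv hv (Adj.refl F v)

theorem phi_symm (e : Wt G) {v w : G} (hv : v ∈ F.U) (hw : w ∈ F.U) :
    F.phi e w v = (F.phi e v w)⁻¹ := by
  rw [eq_inv_iff_mul_eq_one, F.phi_trans e hw hv hw, F.phi_self e hw]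

/-- by `cocycle_unique` -/
theorem phi_conj (e : Wt G) (h : G) {v w : G} (hv : v ∈ F.U) (hw : w ∈ F.U) :
    F.phi e (h * v * h⁻¹) (h * w * h⁻¹) = h * F.phi e v w * h⁻¹ := by
  have key := F.cocycle_unique (fun u => u ^ e.e u) (fun v w => h⁻¹ * F.phi e (h * v * h⁻¹) (h * w * h⁻¹) * h) (F.phi e)
    ?_ ?_ ?_ (fun v hv w hw z hz => F.phi_trans e hv hw hz) (fun v hv w hw => F.phi_adj e hv hw)
    (fun u hu => F.phi_flip e hu) hv hw
  · rw [← key]
    group
  · intro v hv w hw z hz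
    change h⁻¹ * F.phi e (h * v * h⁻¹) (h * w * h⁻¹) * h * (h⁻¹ * F.phi e (h * w * h⁻¹) (h * z * h⁻¹) * h) =
      h⁻¹ * F.phi e (h * v * h⁻¹) (h * z * h⁻¹) * h
    rw [← F.phi_trans e (F.conj h hv) (F.conj h hw) (F.conj h hz)]
    group
  · intro v hv w hw hvw
    change h⁻¹ * F.phi e (h * v * h⁻¹) (h * w * h⁻¹) * h = 1
    rw [F.phi_adj e (F.conj h hv) (F.conj h hw) ((F.Adj_conj_iff h hv hw).2 hvw), mul_one, inv_mul_cancel]
  · intro u hu
    change h⁻¹ * F.phi e (h * u * h⁻¹) (h * u⁻¹ * h⁻¹) * h = u ^ e.e u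
    have e1 : h * u⁻¹ * h⁻¹ = (h * u * h⁻¹)⁻¹ := by group
    rw [e1, F.phi_flip e (F.conj h hu), e.conj, conj_zpow]
    group

theorem phi_step (e : Wt G) {v u w : G} (hv : v ∈ F.U) (hu : u ∈ F.U) (hw : w ∈ F.U)
    (h : F.Adj v u) : F.phi e v w = u ^ e.e u * F.phi e u⁻¹ w := by
  rw [← F.phi_trans e hv hu hw, ← F.phi_trans e hu (F.inv hu) hw, F.phi_adj e hv hu h, F.phi_flip e hu, one_mul]

theorem phi_zero {v w : G} (hv : v ∈ F.U) (hw : w ∈ F.U) : F.phi (0 : Wt G) v w = 1 := by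
  exact F.cocycle_unique (fun u => u ^ (0 : Wt G).e u) (F.phi 0) (fun _ _ => 1)
    (fun v hv w hw z hz => F.phi_trans 0 hv hw hz) (fun v hv w hw => F.phi_adj 0 hv hw)
    (fun u hu => F.phi_flip 0 hu) (fun _ _ _ _ _ _ => one_mul 1) (fun _ _ _ _ _ => rfl) (fun u _ => (zpow_zero u).symm) hv hw

/-- the image of the line `a` under the twist seen from the region of `v` -/
noncomputable def tl (e : Wt G) (v a : G) : G := F.phi e v a * a * (F.phi e v a)⁻¹

theorem tl_mem (e : Wt G) {v a : G} (ha : a ∈ F.U) : F.tl e v a ∈ F.U := F.conj _ ha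

theorem tl_step (e : Wt G) {v u a : G} (hv : v ∈ F.U) (hu : u ∈ F.U) (ha : a ∈ F.U)
    (h : F.Adj v u) : F.tl e v a = u ^ e.e u * F.tl e u⁻¹ a * (u ^ e.e u)⁻¹ := by
  unfold tl
  rw [F.phi_step e hv hu ha h]
  group

theorem tl_base (e : Wt G) {v w a : G} (hv : v ∈ F.U) (hw : w ∈ F.U) (ha : a ∈ F.U) :
    F.tl e v a = F.phi e v w * F.tl e w a * (F.phi e v w)⁻¹ := by
  unfold tl
  rw [← F.phi_trans e hv hw ha]
  group

/-- composition law; by `induct` (see the proof in PROOF.md, section 3):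
`phi e' v (u^e • b) = u^e' * u^e * phi e' u⁻¹ b * u^-e` for `v` next to `u`. -/
theorem phi_comp (e e' : Wt G) {v a : G} (hv : v ∈ F.U) (ha : a ∈ F.U) :
    F.phi e' v (F.tl e v a) * F.phi e v a = F.phi (e + e') v a := by
  refine F.induct (fun v a => F.phi e' v (F.tl e v a) * F.phi e v a = F.phi (e + e') v a) ?_ ?_ hv ha
  · intro v hv a ha h
    have e1 : F.tl e v a = a := by
      unfold tl
      rw [F.phi_adj e hv ha h, one_mul, inv_one, mul_one]
    change F.phi e' v (F.tl e v a) * F.phi e v a = F.phi (e + e') v a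
    rw [e1, F.phi_adj e hv ha h, F.phi_adj e' hv ha h, F.phi_adj (e + e') hv ha h, one_mul]
  · intro v hv u hu a ha h _ ih
    change F.phi e' v (F.tl e v a) * F.phi e v a = F.phi (e + e') v a
    change F.phi e' u⁻¹ (F.tl e u⁻¹ a) * F.phi e u⁻¹ a = F.phi (e + e') u⁻¹ a at ih
    have hb := F.tl_mem e (v := u⁻¹) ha
    have e1 : u ^ e.e u * u⁻¹ * (u ^ e.e u)⁻¹ = u⁻¹ := by
      group
    have e2 := F.phi_conj e' (u ^ e.e u) (F.inv hu) hb
    rw [e1] at e2
    rw [F.tl_step e hv hu ha h, F.phi_step e' hv hu (F.conj _ hb) h, F.phi_step e hv hu ha h,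
      F.phi_step (e + e') hv hu ha h, ← ih, e2, Wt.add_e, add_comm, zpow_add]
    group

end Fam
end H21D
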