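import Pool.Agent.Lib.H21D.B5

/-! # B6: the twist automorphism `tau` -/
namespace H21D
namespace Fam
variable {G C : Type*} [Group G] [LinearOrder C] [MulAction G C] {S : Sys G C} (F : Fam S)

/-- the action of the twist on the group, seen from the region on the left of `v`:
`g ↦ (product of the u ^ e u over the lines u crossed on the way from v to g • v) * g`. -/
noncomputable def tauHom (e : Wt G) {v : G} (hv : v ∈ F.U) : G →* G where
  toFun g := F.phi e v (g * v * g⁻¹) * g
  map_one' := by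
    simp only [one_mul, inv_one, mul_one]
    exact F.phi_self e hv
  map_mul' g h := by
    have h1 : F.phi e v (g * h * v * (g * h)⁻¹) =
        F.phi e v (g * v * g⁻¹) * F.phi e (g * v * g⁻¹) (g * (h * v * h⁻¹) * g⁻¹) := by
      rw [F.phi_trans e hv (F.conj g hv) (F.conj g (F.conj h hv))]
      congr 1
      group
    rw [h1, F.phi_conj e g hv (F.conj h hv)]
    group

theorem tauHom_apply (e : Wt G) {v : G} (hv : v ∈ F.U) (g : G) :
    F.tauHom e hv g = F.phi e v (g * v * g⁻¹) * g := rfl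

theorem tauHom_comp (e e' : Wt G) {v : G} (hv : v ∈ F.U) (g : G) :
    F.tauHom e' hv (F.tauHom e hv g) = F.tauHom (e + e') hv g := by
  rw [F.tauHom_apply e' hv, F.tauHom_apply (e + e') hv, ← F.phi_comp e e' hv (F.conj g hv)]
  have h1 : F.tauHom e hv g * v * (F.tauHom e hv g)⁻¹ = F.tl e v (g * v * g⁻¹) := by
    rw [F.tauHom_apply e hv]
    unfold tl
    group
  rw [h1, F.tauHom_apply e hv]
  group

theorem tauHom_zero {v : G} (hv : v ∈ F.U) (g : G) : F.tauHom 0 hv g = g := by
  rw [F.tauHom_apply, F.phi_zero hv (F.conj g hv), one_mul]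

noncomputable def tau (e : Wt G) {v : G} (hv : v ∈ F.U) : G ≃* G :=
  { F.tauHom e hv with
    toFun := F.tauHom e hv
    invFun := F.tauHom (-e) hv
    left_inv := fun g => by
      rw [F.tauHom_comp]
      have : e + -e = 0 := by ext g; simp
      rw [this, F.tauHom_zero]
    right_inv := fun g => by
      rw [F.tauHom_comp]
      have : -e + e = 0 := by ext g; simp
      rw [this, F.tauHom_zero] }

theorem tau_apply (e : Wt G) {v : G} (hv : v ∈ F.U) (g : G) :
    F.tau e hv g = F.phi e v (g * v * g⁻¹) * g := rfl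

theorem tau_tau (e e' : Wt G) {v : G} (hv : v ∈ F.U) (g : G) :
    F.tau e' hv (F.tau e hv g) = F.tau (e + e') hv g := F.tauHom_comp e e' hv g

theorem tau_zero {v : G} (hv : v ∈ F.U) (g : G) : F.tau 0 hv g = g := F.tauHom_zero hv g

theorem tau_base (e : Wt G) {v w : G} (hv : v ∈ F.U) (hw : w ∈ F.U) (g : G) :
    F.tau e hw g = F.phi e w v * F.tau e hv g * (F.phi e w v)⁻¹ := by
  rw [F.tau_apply, F.tau_apply, ← F.phi_trans e hw hv (F.conj g hw),
    ← F.phi_trans e hv (F.conj g hv) (F.conj g hw), F.phi_conj e g hv hw, F.phi_symm e hw hv]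
  group

theorem tl_conj (e : Wt G) {v : G} (hv : v ∈ F.U) (g : G) {a : G} (ha : a ∈ F.U) :
    F.tl e v (g * a * g⁻¹) = F.tau e hv g * F.tl e v a * (F.tau e hv g)⁻¹ := by
  unfold tl
  rw [F.tau_apply, ← F.phi_trans e hv (F.conj g hv) (F.conj g ha), F.phi_conj e g hv ha]
  group

theorem tau_mem (e : Wt G) {v : G} (hv : v ∈ F.U) {a : G} (ha : a ∈ F.U) :
    F.tau e hv a = F.tl e v a := by
  unfold tl
  rw [F.tau_apply, ← F.phi_trans e hv ha (F.conj a hv)]
  have h1 : a * v * a⁻¹ = a * v * a⁻¹ := rfl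
  have h2 : F.phi e a (a * v * a⁻¹) = a * F.phi e a v * a⁻¹ := by
    have := F.phi_conj e a ha hv
    rwa [mul_inv_cancel_right] at this
  rw [h2, F.phi_symm e hv ha]
  group

end Fam
end H21D
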