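import Pool.Agent.Lib.H21D.B6

/-! # C1: the twist keeps points on their side of the lines next to the base region -/
namespace H21D
namespace Fam
variable {G C : Type*} [Group G] [LinearOrder C] [MulAction G C] {S : Sys G C} (F : Fam S)

theorem c1_cyc_behind {z z' u u' ξ : C}
    (hzu : cyc z u z') (huz : cyc u z u') (hss : (cyc z u z' ∧ cyc z u' z') ∨
      (cyc z' u z ∧ cyc z' u' z)) (hξ : cyc u' ξ u) : cyc z ξ z' := by
  (obtain ⟨lab, hlab⟩ := H21D.exists_lab [z, z', u, u', ξ]; simp only [List.forall_mem_cons, List.not_mem_nil, IsEmpty.forall_iff, implies_true, and_true, forall_eq_or_imp, List.mem_cons, forall_eq, or_false] at hlab; simp only [H21D.cyc, H21D.cyc4, H21D.arc, ne_eq, hlab] at *; omega)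

/-- two different lines next to the same region: everything behind `u` is in front of `z`. -/
theorem behind_of_adj {v z u : G} (hv : v ∈ F.U) (hz : z ∈ F.U) (hu : u ∈ F.U)
    (h1 : F.Adj v z) (h2 : F.Adj v u) (hne : u ≠ z) {ξ : C}
    (hξ : cyc (S.att u⁻¹) ξ (S.att u)) : cyc (S.att z) ξ (S.att z⁻¹) := by
  have hzu : F.H z u := (h2 z hz).1 ((h1 z hz).2 (F.H_self z))
  have huz : F.H u z := (h1 u hu).1 ((h2 u hu).2 (F.H_self u))
  have hne' : u ≠ z⁻¹ := by
    intro e
    rw [e] at hzu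
    exact F.not_H_inv_self hz hzu
  have hne'' : z ≠ u⁻¹ := by
    intro e
    apply hne'
    rw [e, inv_inv]
  exact c1_cyc_behind ((F.H_iff hne hne').1 hzu) ((F.H_iff hne.symm hne'').1 huz)
    (F.same_side hz hu hne hne') hξ

/-- the points strictly behind `u` are permuted by the powers of `u`. -/
theorem c1_behind_zpow {u : G} (hu : u ≠ 1) (k : ℤ) {ξ : C} (hξ : cyc (S.att u⁻¹) ξ (S.att u)) :
    cyc (S.att u⁻¹) (u ^ k • ξ) (S.att u) := by
  have := S.cyc_smul (u ^ k) hξ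
  rwa [S.zpow_smul_att_inv hu, S.zpow_smul_att hu] at this

/-- if `a` is on the right of `u` and not on the line `u`, then `a⁺` is strictly behind `u`. -/
theorem c1_behind_of_not_H {u a : G} (hu : u ∈ F.U) (ha : a ∈ F.U) (h : ¬ F.H u a)
    (hne : a ≠ u⁻¹) : cyc (S.att u⁻¹) (S.att a) (S.att u) := by
  have h1 : a ≠ u := by
    intro e
    rw [e] at h
    exact h (F.H_self u)
  rcases F.same_side hu ha h1 hne with h2 | h2
  · exact absurd ((F.H_iff h1 hne).2 h2.1) h
  · exact h2.1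

/-- if `a⁺` is strictly behind `u`, then `a` is on the right of `u`. -/
theorem c1_not_H_of_behind {u a : G} (_hu : u ∈ F.U)
    (h : cyc (S.att u⁻¹) (S.att a) (S.att u)) : ¬ F.H u a := by
  rintro (h1 | h1)
  · rw [h1] at h
    exact cyc_ne₂₃ h rfl
  · exact cyc_asymm h h1.2

/-- by `induct` on the way from `v` to `a` (statement for all `z`). -/
theorem keep_side (e : Wt G) {v z a : G} (hv : v ∈ F.U) (hz : z ∈ F.U) (ha : a ∈ F.U)
    (h : F.Adj v z) (hs : cyc (S.att z) (S.att a) (S.att z⁻¹)) :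
    cyc (S.att z) (S.att (F.tl e v a)) (S.att z⁻¹) := by
  revert z
  refine F.induct (fun v a => ∀ {z : G}, z ∈ F.U → F.Adj v z →
    cyc (S.att z) (S.att a) (S.att z⁻¹) →
    cyc (S.att z) (S.att (F.tl e v a)) (S.att z⁻¹)) ?_ ?_ hv ha
  · intro v hv w hw hvw z hz _ hs
    unfold tl
    rw [F.phi_adj e hv hw hvw]
    simpa using hs
  · intro v hv u hu w hw hvu huw ih z hz hvz hs
    have hu1 : u ≠ 1 := (F.prim hu).1
    have hw1 : w ≠ 1 := (F.prim hw).1
    have htl : F.tl e u⁻¹ w ≠ 1 := (F.prim (F.tl_mem e hw)).1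
    by_cases hwu : w = u⁻¹
    · have h1 : F.tl e v w = w := by
        rw [F.tl_step e hv hu hw hvu, hwu]
        unfold tl
        rw [F.phi_self e (F.inv hu)]
        group
      rwa [h1]
    · have hb := F.c1_behind_of_not_H hu hw huw hwu
      have h2 : cyc (S.att u⁻¹) (S.att (F.tl e u⁻¹ w)) (S.att u) := by
        have := ih (F.inv hu) (Adj.refl (F := F) u⁻¹) (by rwa [inv_inv])
        rwa [inv_inv] at this
      rw [F.tl_step e hv hu hw hvu, S.att_conj _ htl]
      refine F.behind_of_adj hv hz hu hvz hvu ?_ (c1_behind_zpow hu1 _ h2)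
      intro e
      rw [← e] at hs
      exact cyc_asymm hb hs

theorem c1_cyc_closed {u u' z z' v a : C} (huv : v = u ∨ cyc u v u') (hzv : v = z ∨ cyc z v z')
    (hzu : ¬ cyc z u z') (hss : (cyc z u z' ∧ cyc z u' z') ∨ (cyc z' u z ∧ cyc z' u' z))
    (hb : cyc u' a u) : cyc z' a z := by
  (obtain ⟨lab, hlab⟩ := H21D.exists_lab [u, u', z, z', v, a]; simp only [List.forall_mem_cons, List.not_mem_nil, IsEmpty.forall_iff, implies_true, and_true, forall_eq_or_imp, List.mem_cons, forall_eq, or_false] at hlab; simp only [H21D.cyc, H21D.cyc4, H21D.arc, ne_eq, hlab] at *; omega)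

/-- lines strictly in front of `a⁺` are closed under going towards `v`. -/
theorem c1_closed {v a u z : G} (hu : u ∈ F.U) (huv : F.H u v)
    (hb : cyc (S.att u⁻¹) (S.att a) (S.att u)) (hv : v ∈ F.U) (hz : z ∈ F.Sep v u) :
    z ∈ F.U ∧ F.H z v ∧ cyc (S.att z⁻¹) (S.att a) (S.att z) := by
  obtain ⟨hzU, hzv, hzu⟩ := hz
  refine ⟨hzU, hzv, ?_⟩
  have h1 : u ≠ z := by
    intro e
    rw [e] at hzu
    exact hzu (F.H_self z)
  have h2 : u ≠ z⁻¹ := by
    intro e
    rw [e] at huv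
    exact (F.H_inv_iff hzU hv).1 huv hzv
  have h3 : ¬ cyc (S.att z) (S.att u) (S.att z⁻¹) := fun h => hzu ((F.H_iff h1 h2).2 h)
  refine c1_cyc_closed (v := S.att v) ?_ ?_ h3 (F.same_side hzU hu h1 h2) hb
  · rcases huv with h | h
    · exact Or.inl (by rw [h])
    · exact Or.inr h.2
  · rcases hzv with h | h
    · exact Or.inl (by rw [h])
    · exact Or.inr h.2

/-- either the end point `a⁺` is not behind any line seen from `v`, and then it does not move, or
it moves within the arc behind the first line `u` in front of it. -/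
theorem tl_cases (e : Wt G) {v a : G} (hv : v ∈ F.U) (ha : a ∈ F.U) :
    (S.att (F.tl e v a) = S.att a ∧
      ∀ u ∈ F.U, F.H u v → ¬ cyc (S.att u⁻¹) (S.att a) (S.att u)) ∨
    ∃ u ∈ F.U, F.Adj v u ∧ cyc (S.att u⁻¹) (S.att a) (S.att u) ∧
      cyc (S.att u⁻¹) (S.att (F.tl e v a)) (S.att u) := by
  by_cases hex : ∃ u ∈ F.U, F.H u v ∧ cyc (S.att u⁻¹) (S.att a) (S.att u)
  · right
    have hsub : {u | u ∈ F.U ∧ F.H u v ∧ cyc (S.att u⁻¹) (S.att a) (S.att u)} ⊆ F.Sep v a := by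
      rintro u ⟨h1, h2, h3⟩
      exact ⟨h1, h2, F.c1_not_H_of_behind h1 h3⟩
    obtain ⟨u, ⟨hu, huv, hb⟩, hadj⟩ := F.exists_adj hv
      {u | u ∈ F.U ∧ F.H u v ∧ cyc (S.att u⁻¹) (S.att a) (S.att u)}
      ((F.sep_finite hv ha).subset hsub) (by
        obtain ⟨u, h1, h2, h3⟩ := hex
        exact ⟨u, h1, h2, h3⟩) (fun u hu => ⟨hu.1, hu.2.1⟩)
      (fun u hu z hz => F.c1_closed hu.1 hu.2.1 hu.2.2 hv hz)
    refine ⟨u, hu, hadj, hb, ?_⟩
    have htl : F.tl e u⁻¹ a ≠ 1 := (F.prim (F.tl_mem e ha)).1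
    rw [F.tl_step e hv hu ha hadj, S.att_conj _ htl]
    refine c1_behind_zpow (F.prim hu).1 _ ?_
    have := F.keep_side e (F.inv hu) (F.inv hu) ha (Adj.refl (F := F) u⁻¹) (by rwa [inv_inv])
    rwa [inv_inv] at this
  · left
    have hno : ∀ u ∈ F.U, F.H u v → ¬ cyc (S.att u⁻¹) (S.att a) (S.att u) := by
      intro u hu huv hb
      exact hex ⟨u, hu, huv, hb⟩
    refine ⟨?_, hno⟩
    have ha1 : a ≠ 1 := (F.prim ha).1
    unfold tl
    rw [S.att_conj _ ha1]
    rcases (F.Sep v a).eq_empty_or_nonempty with he | hne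
    · rw [F.phi_adj e hv ha ((F.sep_eq_empty_iff hv ha).1 he), one_smul]
    · obtain ⟨u, ⟨hu, huv, hua⟩, hadj, _⟩ := F.exists_first hv ha hne
      have h1 : a = u⁻¹ := by
        by_contra h1
        exact hno u hu huv (F.c1_behind_of_not_H hu ha hua h1)
      have h2 : u = a⁻¹ := by rw [h1, inv_inv]
      rw [F.phi_step e hv hu ha hadj, ← h1, F.phi_self e ha, mul_one, h2]
      have := S.zpow_smul_att_inv (inv_ne_one.2 ha1) (e.e a⁻¹)
      rwa [inv_inv] at this

end Fam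
end H21D
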