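import Pool.Agent.Lib.H21D.C1

/-! # C2: the median region of three end points -/
namespace H21D
namespace Fam
variable {G C : Type*} [Group G] [LinearOrder C] [MulAction G C] {S : Sys G C} (F : Fam S)

/-- lines seen from `v` that have the end point `a⁺` strictly behind them -/
def Beh (v a : G) : Set G := {u | u ∈ F.U ∧ F.H u v ∧ cyc (S.att u⁻¹) (S.att a) (S.att u)}

theorem Beh_finite {v a : G} (hv : v ∈ F.U) (ha : a ∈ F.U) : (F.Beh v a).Finite := by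
  refine (F.sep_finite hv ha).subset ?_
  rintro u ⟨h1, h2, h3⟩
  exact ⟨h1, h2, F.c1_not_H_of_behind h1 h3⟩

/-- going from the region of `v` to the region of `u⁻¹`, where `u` is next to `v`. -/
theorem c2_H_iff {v u w : G} (hu : u ∈ F.U) (hw : w ∈ F.U) (h : F.Adj v u) (h1 : w ≠ u)
    (h2 : w ≠ u⁻¹) : F.H w u⁻¹ ↔ F.H w v := by
  have h2' : u ≠ w⁻¹ := by
    intro e
    apply h2
    rw [e, inv_inv]
  rw [F.H_side hw hu h1.symm h2', h w hw]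

/-- crossing the line `u` next to `v`: from behind. -/
theorem Beh_step {v u a : G} (hv : v ∈ F.U) (hu : u ∈ F.U) (ha : a ∈ F.U) (h : F.Adj v u)
    (hb : cyc (S.att u⁻¹) (S.att a) (S.att u)) : F.Beh u⁻¹ a = F.Beh v a \ {u} := by
  ext w
  constructor
  · rintro ⟨hw, hwu, hwb⟩
    have h1 : w ≠ u := by
      intro e
      rw [e] at hwu
      exact F.not_H_inv_self hu hwu
    have h2 : w ≠ u⁻¹ := by
      intro e
      rw [e, inv_inv] at hwb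
      exact cyc_asymm hb hwb
    exact ⟨⟨hw, (F.c2_H_iff hu hw h h1 h2).1 hwu, hwb⟩, h1⟩
  · rintro ⟨⟨hw, hwv, hwb⟩, h1⟩
    have h1' : w ≠ u := h1
    have h2 : w ≠ u⁻¹ := by
      intro e
      rw [e] at hwv
      exact (F.H_inv_iff hu hv).1 hwv ((h u hu).2 (F.H_self u))
    exact ⟨hw, (F.c2_H_iff hu hw h h1' h2).2 hwv, hwb⟩

theorem Beh_step' {v u a : G} (hv : v ∈ F.U) (hu : u ∈ F.U) (ha : a ∈ F.U) (h : F.Adj v u) :
    F.Beh u⁻¹ a ⊆ F.Beh v a ∪ {u⁻¹} := by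
  rintro w ⟨hw, hwu, hwb⟩
  by_cases h2 : w = u⁻¹
  · exact Or.inr h2
  · have h1 : w ≠ u := by
      intro e
      rw [e] at hwu
      exact F.not_H_inv_self hu hwu
    exact Or.inl ⟨hw, (F.c2_H_iff hu hw h h1 h2).1 hwu, hwb⟩

/-- one step towards the median. -/
theorem c2_step {v a b c : G} (hv : v ∈ F.U) (ha : a ∈ F.U) (hb : b ∈ F.U) (hc : c ∈ F.U)
    (h : ∃ u ∈ F.U, F.H u v ∧ cyc (S.att u⁻¹) (S.att a) (S.att u) ∧
      cyc (S.att u⁻¹) (S.att b) (S.att u)) :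
    ∃ w ∈ F.U, (F.Beh w a).ncard + 1 ≤ (F.Beh v a).ncard ∧
      (F.Beh w b).ncard + 1 ≤ (F.Beh v b).ncard ∧ (F.Beh w c).ncard ≤ (F.Beh v c).ncard + 1 := by
  obtain ⟨u, ⟨hua, hub⟩, hadj⟩ := F.exists_adj hv (F.Beh v a ∩ F.Beh v b)
    ((F.Beh_finite hv ha).subset Set.inter_subset_left) (by
      obtain ⟨u, h1, h2, h3, h4⟩ := h
      exact ⟨u, ⟨h1, h2, h3⟩, ⟨h1, h2, h4⟩⟩) (fun u hu => ⟨hu.1.1, hu.1.2.1⟩)
    (fun u hu z hz => ⟨F.c1_closed hu.1.1 hu.1.2.1 hu.1.2.2 hv hz,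
      F.c1_closed hu.2.1 hu.2.2.1 hu.2.2.2 hv hz⟩)
  have hu : u ∈ F.U := hua.1
  refine ⟨u⁻¹, F.inv hu, ?_, ?_, ?_⟩
  · rw [F.Beh_step hv hu ha hadj hua.2.2, Set.ncard_diff_singleton_add_one hua
      (F.Beh_finite hv ha)]
  · rw [F.Beh_step hv hu hb hadj hub.2.2, Set.ncard_diff_singleton_add_one hub
      (F.Beh_finite hv hb)]
  · refine (Set.ncard_le_ncard (F.Beh_step' hv hu hc hadj)
      ((F.Beh_finite hv hc).union (Set.finite_singleton _))).trans ?_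
    refine (Set.ncard_union_le _ _).trans ?_
    rw [Set.ncard_singleton]

/-- minimise the sum of the three cardinalities of `Beh v ·`. -/
theorem exists_median {a b c : G} (ha : a ∈ F.U) (hb : b ∈ F.U) (hc : c ∈ F.U) :
    ∃ v ∈ F.U, ∀ u ∈ F.U, F.H u v →
      ¬ (cyc (S.att u⁻¹) (S.att a) (S.att u) ∧ cyc (S.att u⁻¹) (S.att b) (S.att u)) ∧
      ¬ (cyc (S.att u⁻¹) (S.att b) (S.att u) ∧ cyc (S.att u⁻¹) (S.att c) (S.att u)) ∧
      ¬ (cyc (S.att u⁻¹) (S.att a) (S.att u) ∧ cyc (S.att u⁻¹) (S.att c) (S.att u)) := by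
  classical
  have hex : ∃ n, ∃ v ∈ F.U,
      (F.Beh v a).ncard + (F.Beh v b).ncard + (F.Beh v c).ncard = n := ⟨_, a, ha, rfl⟩
  obtain ⟨v, hv, hn⟩ := Nat.find_spec hex
  have hmin : ∀ w ∈ F.U, (F.Beh v a).ncard + (F.Beh v b).ncard + (F.Beh v c).ncard ≤
      (F.Beh w a).ncard + (F.Beh w b).ncard + (F.Beh w c).ncard := by
    intro w hw
    rw [hn]
    exact Nat.find_min' hex ⟨w, hw, rfl⟩
  refine ⟨v, hv, fun u hu huv => ⟨?_, ?_, ?_⟩⟩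
  · rintro ⟨h1, h2⟩
    obtain ⟨w, hw, h3, h4, h5⟩ := F.c2_step hv ha hb hc ⟨u, hu, huv, h1, h2⟩
    have := hmin w hw
    omega
  · rintro ⟨h1, h2⟩
    obtain ⟨w, hw, h3, h4, h5⟩ := F.c2_step hv hb hc ha ⟨u, hu, huv, h1, h2⟩
    have := hmin w hw
    omega
  · rintro ⟨h1, h2⟩
    obtain ⟨w, hw, h3, h4, h5⟩ := F.c2_step hv ha hc hb ⟨u, hu, huv, h1, h2⟩
    have := hmin w hw
    omega

end Fam
end H21D
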