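import Pool.Agent.Lib.H21D.C1
import Pool.Agent.Lib.H21D.C2

/-! # C3: the twist preserves the cyclic order of the end points of the family -/
namespace H21D
namespace Fam
variable {G C : Type*} [Group G] [LinearOrder C] [MulAction G C] {S : Sys G C} (F : Fam S)

/-- if `y⁺` is behind the adjacent line `u` and `x⁺` is not, the image of `x⁺` is not. -/
theorem C3_not (e : Wt G) {v x u : G} (hv : v ∈ F.U) (hx : x ∈ F.U) (hu : u ∈ F.U)
    (hA : F.Adj v u) (hn : ¬ cyc (S.att u⁻¹) (S.att x) (S.att u)) :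
    ¬ cyc (S.att u⁻¹) (S.att (F.tl e v x)) (S.att u) := by
  have hHu : F.H u v := (hA u hu).2 (F.H_self u)
  rcases F.tl_cases e hv hx with ⟨h1, -⟩ | ⟨z, hz, hAz, h1, h2⟩
  · rw [h1]
    exact hn
  · have hne : z ≠ u := by
      rintro rfl
      exact hn h1
    intro h3
    have h4 := F.behind_of_adj hv hu hz hA hAz hne h2
    exact cyc_asymm h4 h3

/-- one point is moved -/
theorem C3_move (e : Wt G) {v x : G} (hv : v ∈ F.U) (hx : x ∈ F.U) {η ζ : C}
    (hη : ∀ u ∈ F.U, F.Adj v u → cyc (S.att u⁻¹) (S.att x) (S.att u) →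
      ¬ cyc (S.att u⁻¹) η (S.att u))
    (hζ : ∀ u ∈ F.U, F.Adj v u → cyc (S.att u⁻¹) (S.att x) (S.att u) →
      ¬ cyc (S.att u⁻¹) ζ (S.att u))
    (h : cyc (S.att x) η ζ) : cyc (S.att (F.tl e v x)) η ζ := by
  rcases F.tl_cases e hv hx with ⟨h1, -⟩ | ⟨z, hz, hAz, h1, h2⟩
  · rw [h1]
    exact h
  · exact (cyc_swap h1 h2 (hη z hz hAz h1) (hζ z hz hAz h1) (cyc_ne₂₃ h)).1 h

/-- seen from the median region: `tl_cases` + `cyc_swap`. -/
theorem order_median (e : Wt G) {v a b c : G} (hv : v ∈ F.U) (ha : a ∈ F.U) (hb : b ∈ F.U)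
    (hc : c ∈ F.U)
    (hm : ∀ u ∈ F.U, F.H u v →
      ¬ (cyc (S.att u⁻¹) (S.att a) (S.att u) ∧ cyc (S.att u⁻¹) (S.att b) (S.att u)) ∧
      ¬ (cyc (S.att u⁻¹) (S.att b) (S.att u) ∧ cyc (S.att u⁻¹) (S.att c) (S.att u)) ∧
      ¬ (cyc (S.att u⁻¹) (S.att a) (S.att u) ∧ cyc (S.att u⁻¹) (S.att c) (S.att u)))
    (h : cyc (S.att a) (S.att b) (S.att c)) :
    cyc (S.att (F.tl e v a)) (S.att (F.tl e v b)) (S.att (F.tl e v c)) := by
  have hadj : ∀ u ∈ F.U, F.Adj v u → F.H u v := fun u hu hA => (hA u hu).2 (F.H_self u)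
  have h1 : cyc (S.att (F.tl e v a)) (S.att b) (S.att c) := by
    refine F.C3_move e hv ha ?_ ?_ h
    · intro u hu hA h2 h3
      exact (hm u hu (hadj u hu hA)).1 ⟨h2, h3⟩
    · intro u hu hA h2 h3
      exact (hm u hu (hadj u hu hA)).2.2 ⟨h2, h3⟩
  have h2 : cyc (S.att (F.tl e v b)) (S.att c) (S.att (F.tl e v a)) := by
    refine F.C3_move e hv hb ?_ ?_ (cyc_rot h1)
    · intro u hu hA h2 h3
      exact (hm u hu (hadj u hu hA)).2.1 ⟨h2, h3⟩
    · intro u hu hA h2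
      refine F.C3_not e hv ha hu hA ?_
      intro h3
      exact (hm u hu (hadj u hu hA)).1 ⟨h3, h2⟩
  have h3 : cyc (S.att (F.tl e v c)) (S.att (F.tl e v a)) (S.att (F.tl e v b)) := by
    refine F.C3_move e hv hc ?_ ?_ (cyc_rot h2)
    · intro u hu hA h2
      refine F.C3_not e hv ha hu hA ?_
      intro h3
      exact (hm u hu (hadj u hu hA)).2.2 ⟨h3, h2⟩
    · intro u hu hA h2
      refine F.C3_not e hv hb hu hA ?_
      intro h3
      exact (hm u hu (hadj u hu hA)).2.1 ⟨h3, h2⟩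
  exact cyc_rot h3

/-- `exists_median`, `order_median` and `tl_base`. -/
theorem order_U (e : Wt G) {v a b c : G} (hv : v ∈ F.U) (ha : a ∈ F.U) (hb : b ∈ F.U)
    (hc : c ∈ F.U) :
    cyc (S.att (F.tl e v a)) (S.att (F.tl e v b)) (S.att (F.tl e v c)) ↔
      cyc (S.att a) (S.att b) (S.att c) := by
  have fwd : ∀ {a b c : G}, a ∈ F.U → b ∈ F.U → c ∈ F.U →
      cyc (S.att a) (S.att b) (S.att c) →
      cyc (S.att (F.tl e v a)) (S.att (F.tl e v b)) (S.att (F.tl e v c)) := by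
    intro a b c ha hb hc h
    obtain ⟨w, hw, hm⟩ := F.exists_median ha hb hc
    have h1 := F.order_median e hw ha hb hc hm h
    have h2 := S.cyc_smul (F.phi e v w) h1
    have key : ∀ x : G, x ∈ F.U →
        F.phi e v w • S.att (F.tl e w x) = S.att (F.tl e v x) := by
      intro x hx
      rw [F.tl_base e hv hw hx, S.att_conj _ (F.prim (F.tl_mem e hx)).1]
    rw [key a ha, key b hb, key c hc] at h2
    exact h2
  refine ⟨fun h => ?_, fwd ha hb hc⟩
  by_contra hcon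
  have hne : ∀ {x y : G}, x ∈ F.U → y ∈ F.U →
      S.att (F.tl e v x) ≠ S.att (F.tl e v y) → S.att x ≠ S.att y := by
    intro x y hx hy h1 h2
    apply h1
    rw [(F.prim hx).ext (F.prim hy) h2]
  rcases cyc_total (hne ha hb (cyc_ne₁₂ h)) (hne hb hc (cyc_ne₂₃ h)) (hne ha hc (cyc_ne₁₃ h)) with
    h1 | h1
  · exact hcon h1
  · exact cyc_asymm h (fwd hc hb ha h1)

end Fam
end H21D
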