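import Pool.Agent.Lib.H21D.A4

/-! # C4: from one conjugacy class to the whole group -/
namespace H21D
namespace Sys
variable {G C : Type*} [Group G] [LinearOrder C] [MulAction G C] (S : Sys G C)

theorem C4_comb {C : Type*} [LinearOrder C] {x y z p q r : C} (h1 : cyc r x p) (h2 : cyc p y q)
    (h3 : cyc q z r) (h4 : cyc p q r) : cyc x y z := by
  (obtain ⟨lab, hlab⟩ := H21D.exists_lab [x, y, z, p, q, r]; simp only [List.forall_mem_cons, List.not_mem_nil, IsEmpty.forall_iff, implies_true, and_true, forall_eq_or_imp, List.mem_cons, forall_eq, or_false] at hlab; simp only [H21D.cyc, H21D.cyc4, H21D.arc, ne_eq, hlab] at *; omega)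

theorem C4_pqr {C : Type*} [LinearOrder C] {a b c p q r : C} (h : cyc a b c) (h1 : cyc a p b)
    (h2 : cyc b q c) (h3 : cyc c r a) : cyc p q r ∧ cyc r a p ∧ cyc p b q ∧ cyc q c r := by
  (obtain ⟨lab, hlab⟩ := H21D.exists_lab [a, b, c, p, q, r]; simp only [List.forall_mem_cons, List.not_mem_nil, IsEmpty.forall_iff, implies_true, and_true, forall_eq_or_imp, List.mem_cons, forall_eq, or_false] at hlab; simp only [H21D.cyc, H21D.cyc4, H21D.arc, ne_eq, hlab] at *; omega)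

/-- choose points between `g⁺, h⁺, k⁺` (`S.dense`) and use `S.dyn`. -/
theorem eventually_cyc {g h k : G} (hg : g ≠ 1) (hh : h ≠ 1) (hk : k ≠ 1)
    (H : cyc (S.att g) (S.att h) (S.att k)) {ξ η ζ : C} (hξ : ξ ≠ S.att g⁻¹)
    (hη : η ≠ S.att h⁻¹) (hζ : ζ ≠ S.att k⁻¹) :
    ∃ N : ℕ, ∀ n : ℕ, N ≤ n → cyc (g ^ n • ξ) (h ^ n • η) (k ^ n • ζ) := by
  obtain ⟨p, hp⟩ := S.dense (cyc_ne₁₂ H)
  obtain ⟨q, hq⟩ := S.dense (cyc_ne₂₃ H)
  obtain ⟨r, hr⟩ := S.dense (cyc_ne₁₃ H).symm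
  obtain ⟨h1, h2, h3, h4⟩ := C4_pqr H hp hq hr
  obtain ⟨N1, hN1⟩ := S.dyn hg hξ h2
  obtain ⟨N2, hN2⟩ := S.dyn hh hη h3
  obtain ⟨N3, hN3⟩ := S.dyn hk hζ h4
  refine ⟨N1 + N2 + N3, fun n hn => ?_⟩
  exact C4_comb (hN1 n (by omega)) (hN2 n (by omega)) (hN3 n (by omega)) h1

theorem C4_choose {y x : G} (hy : y ≠ 1) : ∃ a ∈ cls y, S.att a ≠ S.att x⁻¹ ∧ a ≠ 1 := by
  by_cases h : S.att y = S.att x⁻¹
  · refine ⟨y⁻¹, cls_inv (mem_cls_self y), ?_, inv_ne_one.2 hy⟩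
    rw [← h]
    exact (S.att_ne hy).symm
  · exact ⟨y, mem_cls_self y, h, hy⟩

theorem C4_half (τ : G ≃* G) {y : G} (hy : y ≠ 1)
    (H : ∀ a ∈ cls y, ∀ b ∈ cls y, ∀ c ∈ cls y,
      (cyc (S.att (τ a)) (S.att (τ b)) (S.att (τ c)) ↔ cyc (S.att a) (S.att b) (S.att c)))
    {g h k : G} (hg : g ≠ 1) (hh : h ≠ 1) (hk : k ≠ 1)
    (h1 : cyc (S.att g) (S.att h) (S.att k)) :
    cyc (S.att (τ g)) (S.att (τ h)) (S.att (τ k)) := by
  obtain ⟨a, ha, ha1, ha2⟩ := S.C4_choose (x := g) hy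
  obtain ⟨b, hb, hb1, hb2⟩ := S.C4_choose (x := h) hy
  obtain ⟨c, hc, hc1, hc2⟩ := S.C4_choose (x := k) hy
  have hτ : ∀ {u : G}, u ≠ 1 → τ u ≠ 1 := fun {u} hu => (aut_ne τ).2 hu
  have hinv : ∀ {u v : G}, u ≠ 1 → v ≠ 1 → S.att u ≠ S.att v⁻¹ → S.att (τ u) ≠ S.att (τ v)⁻¹ := by
    intro u v hu hv h2 h3
    apply h2
    rw [← map_inv] at h3
    exact (S.att_aut_eq_iff τ hu (inv_ne_one.2 hv)).1 h3
  obtain ⟨N, hN⟩ := S.eventually_cyc hg hh hk h1 ha1 hb1 hc1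
  by_contra hcon
  have hne : ∀ {u v : G}, u ≠ 1 → v ≠ 1 → S.att u ≠ S.att v → S.att (τ u) ≠ S.att (τ v) := by
    intro u v hu hv h2 h3
    exact h2 ((S.att_aut_eq_iff τ hu hv).1 h3)
  have h2 : cyc (S.att (τ k)) (S.att (τ h)) (S.att (τ g)) := by
    rcases cyc_total (hne hg hh (cyc_ne₁₂ h1)) (hne hh hk (cyc_ne₂₃ h1))
      (hne hg hk (cyc_ne₁₃ h1)) with h2 | h2
    · exact absurd h2 hcon
    · exact h2
  obtain ⟨M, hM⟩ := S.eventually_cyc (hτ hk) (hτ hh) (hτ hg) h2 (hinv hc2 hk hc1)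
    (hinv hb2 hh hb1) (hinv ha2 hg ha1)
  have h3 := hN (N + M) (Nat.le_add_right _ _)
  have h4 := hM (N + M) (Nat.le_add_left _ _)
  rw [← S.att_conj _ ha2, ← S.att_conj _ hb2, ← S.att_conj _ hc2,
    ← H _ (cls_conj _ ha) _ (cls_conj _ hb) _ (cls_conj _ hc)] at h3
  have key : ∀ u v : G, v ≠ 1 → S.att (τ (u ^ (N + M) * v * (u ^ (N + M))⁻¹)) =
      τ u ^ (N + M) • S.att (τ v) := by
    intro u v hv
    rw [map_mul, map_mul, map_inv, map_pow, S.att_conj _ (hτ hv)]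
  rw [key g a ha2, key h b hb2, key k c hc2] at h3
  exact cyc_asymm h3 h4

/-- For `g ≠ 1` one of `a = y, y⁻¹` has `a⁺ ≠ g⁻`; then `(g ^ n a g ^ -n)⁺ = g ^ n • a⁺ → g⁺`, and
the same for the images. -/
theorem OP_of_cls (τ : G ≃* G) {y : G} (hy : y ≠ 1)
    (H : ∀ a ∈ cls y, ∀ b ∈ cls y, ∀ c ∈ cls y,
      (cyc (S.att (τ a)) (S.att (τ b)) (S.att (τ c)) ↔ cyc (S.att a) (S.att b) (S.att c))) :
    S.OP τ := by
  intro g h k hg hh hk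
  refine ⟨fun h1 => ?_, S.C4_half τ hy H hg hh hk⟩
  by_contra hcon
  have hne : ∀ {u v : G}, u ≠ 1 → v ≠ 1 → S.att (τ u) ≠ S.att (τ v) → S.att u ≠ S.att v := by
    intro u v hu hv h2 h3
    exact h2 ((S.att_aut_eq_iff τ hu hv).2 h3)
  rcases cyc_total (hne hg hh (cyc_ne₁₂ h1)) (hne hh hk (cyc_ne₂₃ h1))
      (hne hg hk (cyc_ne₁₃ h1)) with h2 | h2
  · exact hcon h2
  · exact cyc_asymm h1 (S.C4_half τ hy H hk hh hg h2)

end Sys
end H21D
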