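import Pool.Agent.Lib.H21D.C3
import Pool.Agent.Lib.H21D.C4

/-! # C5: `tau` preserves the cyclic order -/
namespace H21D
namespace Fam
variable {G C : Type*} [Group G] [LinearOrder C] [MulAction G C] {S : Sys G C} (F : Fam S)

theorem OP_tau (e : Wt G) {v : G} (hv : v ∈ F.U) : S.OP (F.tau e hv) := by
  have hcls : ∀ a ∈ cls v, a ∈ F.U := by
    rintro a ⟨h, rfl | rfl⟩
    · exact F.conj h hv
    · exact F.conj h (F.inv hv)
  intro g h k hg hh hk
  refine S.OP_of_cls (F.tau e hv) (F.prim hv).1 (fun a ha b hb c hc => ?_) hg hh hk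
  rw [F.tau_mem e hv (hcls a ha), F.tau_mem e hv (hcls b hb), F.tau_mem e hv (hcls c hc)]
  exact F.order_U e hv (hcls a ha) (hcls b hb) (hcls c hc)

end Fam
end H21D
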