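import Mathlib

/-!
Cyclic orders obtained from linear orders.
-/
namespace H21D

variable {C : Type*} [LinearOrder C]

/-- the (strict) cyclic order defined by a linear order: `x, y, z` are met in this order. -/
def cyc (x y z : C) : Prop := (x < y ∧ y < z) ∨ (y < z ∧ z < x) ∨ (z < x ∧ x < y)

/-- `a, b, c, d` are distinct and met in this order. -/
def cyc4 (a b c d : C) : Prop := cyc a b c ∧ cyc a c d

/-- the closed arc from `p` to `q`. -/
def arc (p q x : C) : Prop := x = p ∨ x = q ∨ cyc p x q

/-- labels: every finite list of points can be replaced by integers. -/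
theorem exists_lab (l : List C) : ∃ lab : C → ℤ, ∀ x ∈ l, ∀ y ∈ l,
    ((x < y ↔ lab x < lab y) ∧ (x = y ↔ lab x = lab y)) := by
  classical
  refine ⟨fun x => ((l.toFinset.filter (fun y => y < x)).card : ℤ), ?_⟩
  have key : ∀ x ∈ l, ∀ y ∈ l, x < y →
      (l.toFinset.filter (fun z => z < x)).card < (l.toFinset.filter (fun z => z < y)).card := by
    intro x hx y hy h
    apply Finset.card_lt_card
    refine ⟨?_, ?_⟩
    · intro z hz
      simp only [Finset.mem_filter, List.mem_toFinset] at hz ⊢
      exact ⟨hz.1, hz.2.trans h⟩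
    · intro hsub
      have : x ∈ l.toFinset.filter (fun z => z < x) := hsub (by simp [hx, h])
      simp at this
  intro x hx y hy
  rcases lt_trichotomy x y with h | h | h
  · have := key x hx y hy h
    constructor
    · constructor
      · intro _; simpa using this
      · intro _; exact h
    · constructor
      · intro e; exact absurd e (ne_of_lt h)
      · intro e; simp only [Nat.cast_inj] at e; omega
  · subst h; simp
  · have := key y hy x hx h
    constructor
    · constructor
      · intro h'; exact absurd (h'.trans h) (lt_irrefl _)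
      · intro h'; simp only [Nat.cast_lt] at h'; omega
    · constructor
      · intro e; exact absurd e.symm (ne_of_lt h)
      · intro e; simp only [Nat.cast_inj] at e; omega

end H21D

namespace H21D


variable {C : Type*} [LinearOrder C]

theorem cyc_rot {x y z : C} (h : cyc x y z) : cyc y z x := by (obtain ⟨lab, hlab⟩ := H21D.exists_lab [x, y, z]; simp only [List.forall_mem_cons, List.not_mem_nil, IsEmpty.forall_iff, implies_true, and_true, forall_eq_or_imp, List.mem_cons, forall_eq, or_false] at hlab; simp only [H21D.cyc, H21D.cyc4, H21D.arc, ne_eq, hlab] at *; omega)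
theorem cyc_rot' {x y z : C} (h : cyc x y z) : cyc z x y := by (obtain ⟨lab, hlab⟩ := H21D.exists_lab [x, y, z]; simp only [List.forall_mem_cons, List.not_mem_nil, IsEmpty.forall_iff, implies_true, and_true, forall_eq_or_imp, List.mem_cons, forall_eq, or_false] at hlab; simp only [H21D.cyc, H21D.cyc4, H21D.arc, ne_eq, hlab] at *; omega)
theorem cyc_asymm {x y z : C} (h : cyc x y z) : ¬ cyc z y x := by (obtain ⟨lab, hlab⟩ := H21D.exists_lab [x, y, z]; simp only [List.forall_mem_cons, List.not_mem_nil, IsEmpty.forall_iff, implies_true, and_true, forall_eq_or_imp, List.mem_cons, forall_eq, or_false] at hlab; simp only [H21D.cyc, H21D.cyc4, H21D.arc, ne_eq, hlab] at *; omega)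
theorem cyc_ne₁₂ {x y z : C} (h : cyc x y z) : x ≠ y := by (obtain ⟨lab, hlab⟩ := H21D.exists_lab [x, y, z]; simp only [List.forall_mem_cons, List.not_mem_nil, IsEmpty.forall_iff, implies_true, and_true, forall_eq_or_imp, List.mem_cons, forall_eq, or_false] at hlab; simp only [H21D.cyc, H21D.cyc4, H21D.arc, ne_eq, hlab] at *; omega)
theorem cyc_ne₂₃ {x y z : C} (h : cyc x y z) : y ≠ z := by (obtain ⟨lab, hlab⟩ := H21D.exists_lab [x, y, z]; simp only [List.forall_mem_cons, List.not_mem_nil, IsEmpty.forall_iff, implies_true, and_true, forall_eq_or_imp, List.mem_cons, forall_eq, or_false] at hlab; simp only [H21D.cyc, H21D.cyc4, H21D.arc, ne_eq, hlab] at *; omega)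
theorem cyc_ne₁₃ {x y z : C} (h : cyc x y z) : x ≠ z := by (obtain ⟨lab, hlab⟩ := H21D.exists_lab [x, y, z]; simp only [List.forall_mem_cons, List.not_mem_nil, IsEmpty.forall_iff, implies_true, and_true, forall_eq_or_imp, List.mem_cons, forall_eq, or_false] at hlab; simp only [H21D.cyc, H21D.cyc4, H21D.arc, ne_eq, hlab] at *; omega)
theorem cyc_total {x y z : C} (h1 : x ≠ y) (h2 : y ≠ z) (h3 : x ≠ z) : cyc x y z ∨ cyc z y x := by
  (obtain ⟨lab, hlab⟩ := H21D.exists_lab [x, y, z]; simp only [List.forall_mem_cons, List.not_mem_nil, IsEmpty.forall_iff, implies_true, and_true, forall_eq_or_imp, List.mem_cons, forall_eq, or_false] at hlab; simp only [H21D.cyc, H21D.cyc4, H21D.arc, ne_eq, hlab] at *; omega)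
theorem cyc_trans {a b c d : C} (h : cyc a b c) (h2 : cyc a c d) : cyc a b d := by
  (obtain ⟨lab, hlab⟩ := H21D.exists_lab [a, b, c, d]; simp only [List.forall_mem_cons, List.not_mem_nil, IsEmpty.forall_iff, implies_true, and_true, forall_eq_or_imp, List.mem_cons, forall_eq, or_false] at hlab; simp only [H21D.cyc, H21D.cyc4, H21D.arc, ne_eq, hlab] at *; omega)

/-- arc swap -/
theorem cyc_swap {p q x x' y z : C} (hx : cyc p x q) (hx' : cyc p x' q) (hy : ¬ cyc p y q)
    (hz : ¬ cyc p z q) (hyz : y ≠ z) : cyc x y z ↔ cyc x' y z := by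
  (obtain ⟨lab, hlab⟩ := H21D.exists_lab [p, q, x, x', y, z]; simp only [List.forall_mem_cons, List.not_mem_nil, IsEmpty.forall_iff, implies_true, and_true, forall_eq_or_imp, List.mem_cons, forall_eq, or_false] at hlab; simp only [H21D.cyc, H21D.cyc4, H21D.arc, ne_eq, hlab] at *; omega)

end H21D
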