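import Pool.Agent.Lib.H21D.A3

/-! # D1: the order of the lines crossing an axis -/
namespace H21D

section cyclemmas
variable {C : Type*} [LinearOrder C]

theorem d1_a {c d u v w : C} (h : cyc4 c v u d) (h' : cyc4 c w v d) : cyc4 c w u d := by
  (obtain ⟨lab, hlab⟩ := H21D.exists_lab [c, d, u, v, w]; simp only [List.forall_mem_cons, List.not_mem_nil, IsEmpty.forall_iff, implies_true, and_true, forall_eq_or_imp, List.mem_cons, forall_eq, or_false] at hlab; simp only [H21D.cyc, H21D.cyc4, H21D.arc, ne_eq, hlab] at *; omega)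

theorem d1_b {c d u v w : C} (h : cyc4 d u v c) (h' : cyc4 d v w c) : cyc4 d u w c := by
  (obtain ⟨lab, hlab⟩ := H21D.exists_lab [c, d, u, v, w]; simp only [List.forall_mem_cons, List.not_mem_nil, IsEmpty.forall_iff, implies_true, and_true, forall_eq_or_imp, List.mem_cons, forall_eq, or_false] at hlab; simp only [H21D.cyc, H21D.cyc4, H21D.arc, ne_eq, hlab] at *; omega)

theorem d1_c {c d u v : C} (h : cyc4 c v u d) (h' : cyc4 c u v d) : False := by
  (obtain ⟨lab, hlab⟩ := H21D.exists_lab [c, d, u, v]; simp only [List.forall_mem_cons, List.not_mem_nil, IsEmpty.forall_iff, implies_true, and_true, forall_eq_or_imp, List.mem_cons, forall_eq, or_false] at hlab; simp only [H21D.cyc, H21D.cyc4, H21D.arc, ne_eq, hlab] at *; omega)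

theorem d1_d {c d w x : C} (h : cyc4 c w d x) : cyc c w d := by
  (obtain ⟨lab, hlab⟩ := H21D.exists_lab [c, d, w, x]; simp only [List.forall_mem_cons, List.not_mem_nil, IsEmpty.forall_iff, implies_true, and_true, forall_eq_or_imp, List.mem_cons, forall_eq, or_false] at hlab; simp only [H21D.cyc, H21D.cyc4, H21D.arc, ne_eq, hlab] at *; omega)

theorem d1_e {c d w x : C} (h : cyc4 c w d x) : cyc d x c := by
  (obtain ⟨lab, hlab⟩ := H21D.exists_lab [c, d, w, x]; simp only [List.forall_mem_cons, List.not_mem_nil, IsEmpty.forall_iff, implies_true, and_true, forall_eq_or_imp, List.mem_cons, forall_eq, or_false] at hlab; simp only [H21D.cyc, H21D.cyc4, H21D.arc, ne_eq, hlab] at *; omega)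

theorem d1_f1 {c c' u w : C} (h1 : cyc c u c') (h2 : cyc c w c') (h3 : u ≠ w) :
    cyc4 c w u c' ∨ cyc4 c u w c' := by
  (obtain ⟨lab, hlab⟩ := H21D.exists_lab [c, c', u, w]; simp only [List.forall_mem_cons, List.not_mem_nil, IsEmpty.forall_iff, implies_true, and_true, forall_eq_or_imp, List.mem_cons, forall_eq, or_false] at hlab; simp only [H21D.cyc, H21D.cyc4, H21D.arc, ne_eq, hlab] at *; omega)

theorem d1_f2 {c c' u u' w w' : C} (h1 : cyc4 c w u c') (h2 : cyc4 c' w' u' c) :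
    cyc4 u w' u' w := by
  (obtain ⟨lab, hlab⟩ := H21D.exists_lab [c, c', u, u', w, w']; simp only [List.forall_mem_cons, List.not_mem_nil, IsEmpty.forall_iff, implies_true, and_true, forall_eq_or_imp, List.mem_cons, forall_eq, or_false] at hlab; simp only [H21D.cyc, H21D.cyc4, H21D.arc, ne_eq, hlab] at *; omega)

theorem d1_f3 {c c' u u' w w' : C} (h1 : cyc4 c u w c') (h2 : cyc4 c' u' w' c) :
    cyc4 u w u' w' := by
  (obtain ⟨lab, hlab⟩ := H21D.exists_lab [c, c', u, u', w, w']; simp only [List.forall_mem_cons, List.not_mem_nil, IsEmpty.forall_iff, implies_true, and_true, forall_eq_or_imp, List.mem_cons, forall_eq, or_false] at hlab; simp only [H21D.cyc, H21D.cyc4, H21D.arc, ne_eq, hlab] at *; omega)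

theorem d1_f {c c' u u' w w' : C} (h1 : cyc4 c u c' u') (h2 : cyc4 c w c' w') (h3 : u ≠ w)
    (h4 : u' ≠ w') (h5 : ¬ cyc4 u w u' w') (h6 : ¬ cyc4 u w' u' w) :
    (cyc4 c w u c' ∧ cyc4 c' u' w' c) ∨ (cyc4 c u w c' ∧ cyc4 c' w' u' c) := by
  rcases d1_f1 (d1_d h1) (d1_d h2) h3 with h7 | h7 <;>
    rcases d1_f1 (d1_e h1) (d1_e h2) h4 with h8 | h8
  · exact absurd (d1_f2 h7 h8) h6
  · exact Or.inl ⟨h7, h8⟩
  · exact Or.inr ⟨h7, h8⟩
  · exact absurd (d1_f3 h7 h8) h5

theorem d1_g {c c' u u' w w' : C} (h1 : cyc4 c w u c') (h2 : cyc4 c' u' w' c) :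
    cyc4 w u u' w' := by
  (obtain ⟨lab, hlab⟩ := H21D.exists_lab [c, c', u, u', w, w']; simp only [List.forall_mem_cons, List.not_mem_nil, IsEmpty.forall_iff, implies_true, and_true, forall_eq_or_imp, List.mem_cons, forall_eq, or_false] at hlab; simp only [H21D.cyc, H21D.cyc4, H21D.arc, ne_eq, hlab] at *; omega)

theorem d1_h {c c' u z w : C} (h1 : cyc4 c z u c') (h2 : cyc4 c w z c') : arc w u z := by
  (obtain ⟨lab, hlab⟩ := H21D.exists_lab [c, c', u, z, w]; simp only [List.forall_mem_cons, List.not_mem_nil, IsEmpty.forall_iff, implies_true, and_true, forall_eq_or_imp, List.mem_cons, forall_eq, or_false] at hlab; simp only [H21D.cyc, H21D.cyc4, H21D.arc, ne_eq, hlab] at *; omega)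

theorem d1_i {c c' u z w : C} (h1 : cyc4 c' u z c) (h2 : cyc4 c' z w c) : arc u w z := by
  (obtain ⟨lab, hlab⟩ := H21D.exists_lab [c, c', u, z, w]; simp only [List.forall_mem_cons, List.not_mem_nil, IsEmpty.forall_iff, implies_true, and_true, forall_eq_or_imp, List.mem_cons, forall_eq, or_false] at hlab; simp only [H21D.cyc, H21D.cyc4, H21D.arc, ne_eq, hlab] at *; omega)

theorem d1_j {c d w x : C} (h : cyc4 c w d x) : cyc x c w := by
  (obtain ⟨lab, hlab⟩ := H21D.exists_lab [c, d, w, x]; simp only [List.forall_mem_cons, List.not_mem_nil, IsEmpty.forall_iff, implies_true, and_true, forall_eq_or_imp, List.mem_cons, forall_eq, or_false] at hlab; simp only [H21D.cyc, H21D.cyc4, H21D.arc, ne_eq, hlab] at *; omega)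

theorem d1_k {c c' u u' x : C} (h1 : cyc4 c u c' u') (h2 : cyc u' x u) (h3 : cyc c x c') :
    cyc4 c x u c' := by
  (obtain ⟨lab, hlab⟩ := H21D.exists_lab [c, c', u, u', x]; simp only [List.forall_mem_cons, List.not_mem_nil, IsEmpty.forall_iff, implies_true, and_true, forall_eq_or_imp, List.mem_cons, forall_eq, or_false] at hlab; simp only [H21D.cyc, H21D.cyc4, H21D.arc, ne_eq, hlab] at *; omega)

theorem d1_l {c c' u u' x : C} (h1 : cyc4 c u c' u') (h2 : cyc u' x u) (h3 : cyc c' x c) :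
    cyc4 c' u' x c := by
  (obtain ⟨lab, hlab⟩ := H21D.exists_lab [c, c', u, u', x]; simp only [List.forall_mem_cons, List.not_mem_nil, IsEmpty.forall_iff, implies_true, and_true, forall_eq_or_imp, List.mem_cons, forall_eq, or_false] at hlab; simp only [H21D.cyc, H21D.cyc4, H21D.arc, ne_eq, hlab] at *; omega)

theorem d1_m {c d w x : C} (h : cyc4 c w d x) : cyc w d x := by
  (obtain ⟨lab, hlab⟩ := H21D.exists_lab [c, d, w, x]; simp only [List.forall_mem_cons, List.not_mem_nil, IsEmpty.forall_iff, implies_true, and_true, forall_eq_or_imp, List.mem_cons, forall_eq, or_false] at hlab; simp only [H21D.cyc, H21D.cyc4, H21D.arc, ne_eq, hlab] at *; omega)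

theorem d1_n {c c' u u' x : C} (h1 : cyc4 c u c' u') (h2 : cyc u x u') (h3 : cyc c x c') :
    cyc4 c u x c' := by
  (obtain ⟨lab, hlab⟩ := H21D.exists_lab [c, c', u, u', x]; simp only [List.forall_mem_cons, List.not_mem_nil, IsEmpty.forall_iff, implies_true, and_true, forall_eq_or_imp, List.mem_cons, forall_eq, or_false] at hlab; simp only [H21D.cyc, H21D.cyc4, H21D.arc, ne_eq, hlab] at *; omega)

theorem d1_o {c c' u u' x : C} (h1 : cyc4 c u c' u') (h2 : cyc u x u') (h3 : cyc c' x c) :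
    cyc4 c' x u' c := by
  (obtain ⟨lab, hlab⟩ := H21D.exists_lab [c, c', u, u', x]; simp only [List.forall_mem_cons, List.not_mem_nil, IsEmpty.forall_iff, implies_true, and_true, forall_eq_or_imp, List.mem_cons, forall_eq, or_false] at hlab; simp only [H21D.cyc, H21D.cyc4, H21D.arc, ne_eq, hlab] at *; omega)

end cyclemmas

namespace Sys
variable {G C : Type*} [Group G] [LinearOrder C] [MulAction G C] (S : Sys G C)

theorem Bef_trans {c u v w : G} (h : S.Bef c u v) (h' : S.Bef c v w) : S.Bef c u w := by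
  unfold Bef at *
  exact ⟨d1_a h.1 h'.1, d1_b h.2 h'.2⟩

theorem Bef_asymm {c u w : G} (h : S.Bef c u w) : ¬ S.Bef c w u := by
  intro h'
  unfold Bef at *
  exact d1_c h.1 h'.1

theorem Bef_irrefl {c u : G} : ¬ S.Bef c u u := fun h => S.Bef_asymm h h

theorem Bef_shift {c w : G} (hc : c ≠ 1) (hw : w ≠ 1) (h : S.PosX c w) :
    S.Bef c w (c * w * c⁻¹) := by
  unfold PosX at h
  unfold Bef
  rw [S.att_conj c hw, S.att_conj_inv c hw]
  exact ⟨S.mono_left hc (d1_d h), S.mono_right hc (d1_e h)⟩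

end Sys

namespace Fam
variable {G C : Type*} [Group G] [LinearOrder C] [MulAction G C] {S : Sys G C} (F : Fam S)

theorem Bef_total {c u w : G} (hu : u ∈ F.U) (hw : w ∈ F.U) (h1 : S.PosX c u)
    (h2 : S.PosX c w) (hne : u ≠ w) : S.Bef c u w ∨ S.Bef c w u := by
  have hne' : u ≠ w⁻¹ := by
    rintro rfl
    exact S.not_PosX_inv h2 h1
  have h3 := (F.prim hu).four (F.prim hw) hne hne'
  have h4 : ¬ S.PosX u w := F.unl hu hw
  have h5 : ¬ S.PosX u w⁻¹ := F.unl hu (F.inv hw)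
  unfold Sys.PosX at *
  rw [inv_inv] at h5
  unfold Sys.Bef
  exact d1_f h1 h2 h3.1 h3.2.2.2 h4 h5

/-- by `F.fin`: end points in the arcs `[w⁺, u⁺]` and `[u⁻, w⁻]`. -/
theorem Bef_fin {c u w : G} (h : S.Bef c u w) :
    {z | z ∈ F.U ∧ S.PosX c z ∧ S.Bef c u z ∧ S.Bef c z w}.Finite := by
  unfold Sys.Bef at h
  refine (F.fin (d1_g h.1 h.2)).subset ?_
  rintro z ⟨hz, -, h1, h2⟩
  unfold Sys.Bef at h1 h2
  exact ⟨hz, d1_h h1.1 h2.1, d1_i h1.2 h2.2⟩

/-- by `S.dyn` and `S.dyn_inv`. -/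
theorem Bef_cofinal {c u w : G} (hc : c ≠ 1) (hu : u ∈ F.U) (hw : w ∈ F.U) (h1 : S.PosX c u)
    (h2 : S.PosX c w) : ∃ n : ℕ, S.Bef c u (c ^ n * w * (c ^ n)⁻¹) := by
  have hw0 := (F.prim hw).ne_one
  have hl : cyc (S.att c) (S.att w) (S.att c⁻¹) := d1_d h2
  have hr : cyc (S.att c⁻¹) (S.att w⁻¹) (S.att c) := d1_e h2
  have hi : cyc (S.att u⁻¹) (S.att c) (S.att u) := d1_j h1
  obtain ⟨N, hN⟩ := S.dyn hc (cyc_ne₂₃ hl) hi
  obtain ⟨M, hM⟩ := S.dyn hc (cyc_ne₁₂ hr).symm hi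
  refine ⟨N + M, ?_⟩
  have h3 := hN (N + M) (by omega)
  have h4 := hM (N + M) (by omega)
  have h5 := S.cyc_smul (c ^ (N + M)) hl
  have h6 := S.cyc_smul (c ^ (N + M)) hr
  rw [S.pow_smul_att hc, S.pow_smul_att_inv hc] at h5 h6
  unfold Sys.Bef
  rw [S.att_conj _ hw0, S.att_conj_inv _ hw0]
  unfold Sys.PosX at h1
  exact ⟨d1_k h1 h3 h5, d1_l h1 h4 h6⟩

theorem Bef_coinitial {c u w : G} (hc : c ≠ 1) (hu : u ∈ F.U) (hw : w ∈ F.U) (h1 : S.PosX c u)
    (h2 : S.PosX c w) : ∃ n : ℕ, S.Bef c ((c ^ n)⁻¹ * w * c ^ n) u := by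
  have hw0 := (F.prim hw).ne_one
  have hl : cyc (S.att c) (S.att w) (S.att c⁻¹) := d1_d h2
  have hr : cyc (S.att c⁻¹) (S.att w⁻¹) (S.att c) := d1_e h2
  have hi : cyc (S.att u) (S.att c⁻¹) (S.att u⁻¹) := d1_m h1
  obtain ⟨N, hN⟩ := S.dyn_inv hc (cyc_ne₁₂ hl).symm hi
  obtain ⟨M, hM⟩ := S.dyn_inv hc (cyc_ne₂₃ hr) hi
  refine ⟨N + M, ?_⟩
  have h3 := hN (N + M) (by omega)
  have h4 := hM (N + M) (by omega)
  have h5 := S.cyc_smul (c ^ (N + M))⁻¹ hl
  have h6 := S.cyc_smul (c ^ (N + M))⁻¹ hr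
  have h7 : (c ^ (N + M))⁻¹ • S.att c = S.att c := by
    rw [inv_smul_eq_iff, S.pow_smul_att hc]
  have h8 : (c ^ (N + M))⁻¹ • S.att c⁻¹ = S.att c⁻¹ := by
    rw [inv_smul_eq_iff, S.pow_smul_att_inv hc]
  rw [h7, h8] at h5 h6
  have h9 : (c ^ (N + M))⁻¹ * w * c ^ (N + M) =
      (c ^ (N + M))⁻¹ * w * ((c ^ (N + M))⁻¹)⁻¹ := by rw [inv_inv]
  unfold Sys.Bef
  rw [h9, S.att_conj _ hw0, S.att_conj_inv _ hw0]
  unfold Sys.PosX at h1
  exact ⟨d1_n h1 h3 h5, d1_o h1 h4 h6⟩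

end Fam
end H21D
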