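import Pool.Agent.Lib.H21D.D1

/-! # D2: enumeration of the lines crossing an axis by the integers -/
namespace H21D

theorem d2_abs {X : Type*} [LinearOrder X] (hfin : ∀ a b : X, (Set.Icc a b).Finite)
    (σ : X ≃o X) (hσ : ∀ x, x < σ x) [Nonempty X] :
    ∃ (f : X ≃o ℤ) (m : ℕ), 0 < m ∧ ∀ i : ℤ, f.symm (i + m) = σ (f.symm i) := by
  let _ : LocallyFiniteOrder X := LocallyFiniteOrder.ofFiniteIcc hfin
  let _ : SuccOrder X := LinearLocallyFiniteOrder.succOrder X
  let _ : PredOrder X := LinearLocallyFiniteOrder.predOrder X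
  have _ : NoMaxOrder X := ⟨fun a => ⟨σ a, hσ a⟩⟩
  have _ : NoMinOrder X := ⟨fun a => ⟨σ.symm a, by
    have := hσ (σ.symm a)
    rwa [OrderIso.apply_symm_apply] at this⟩⟩
  let f : X ≃o ℤ := orderIsoIntOfLinearSuccPredArch
  let g : ℤ ≃o ℤ := (f.symm.trans σ).trans f
  have hg1 : ∀ i : ℤ, g (i + 1) = g i + 1 := by
    intro i
    have := OrderIso.map_succ g i
    rwa [Order.succ_eq_add_one, Order.succ_eq_add_one] at this
  have hg : ∀ i : ℤ, g i = i + g 0 := by
    intro i
    induction i using Int.induction_on with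
    | zero => simp
    | succ i ih => rw [hg1, ih]; ring
    | pred i ih =>
      have h1 := hg1 (-(i : ℤ) - 1)
      rw [sub_add_cancel, ih] at h1
      linarith
  have hpos : 0 < g 0 := by
    have h1 : f (f.symm 0) < f (σ (f.symm 0)) := f.strictMono (hσ _)
    rwa [OrderIso.apply_symm_apply] at h1
  refine ⟨f, (g 0).toNat, by omega, ?_⟩
  intro i
  have h1 : (((g 0).toNat : ℕ) : ℤ) = g 0 := Int.toNat_of_nonneg hpos.le
  rw [h1, ← hg i]
  show f.symm (f (σ (f.symm i))) = _
  rw [OrderIso.symm_apply_apply]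

namespace Fam
variable {G C : Type*} [Group G] [LinearOrder C] [MulAction G C] {S : Sys G C} (F : Fam S)

/-- The type `{w // w ∈ F.U ∧ S.PosX c w}` with the order `Bef c` is linear, locally finite, without
first and last element: `orderIsoIntOfLinearSuccPredArch`; conjugation by `c` is an order
automorphism of `ℤ` with `i < f i`, so a translation. -/
theorem exists_crs {c : G} (hc : c ≠ 1) (h : ∃ w ∈ F.U, S.PosX c w) : Nonempty (Crs F c) := by
  classical
  let X : Type _ := {w : G // w ∈ F.U ∧ S.PosX c w}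
  have hX : Nonempty X := by
    obtain ⟨w, hw, hw'⟩ := h
    exact ⟨⟨w, hw, hw'⟩⟩
  let r : X → X → Prop := fun x y => S.Bef c x.1 y.1
  have hsto : IsStrictTotalOrder X r :=
    { irrefl := fun x => S.Bef_irrefl
      trans := fun x y z hxy hyz => S.Bef_trans hxy hyz
      trichotomous := fun x y h1 h2 => by
        by_contra hne
        rcases F.Bef_total x.2.1 y.2.1 x.2.2 y.2.2 (fun e => hne (Subtype.ext e)) with h3 | h3
        · exact h1 h3
        · exact h2 h3 }
  let _ : LinearOrder X := linearOrderOfSTO r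
  have hlt : ∀ x y : X, x < y ↔ S.Bef c x.1 y.1 := fun x y => Iff.rfl
  have hne1 : ∀ x : X, x.1 ≠ 1 := fun x => (F.prim x.2.1).ne_one
  have hfin : ∀ a b : X, (Set.Icc a b).Finite := by
    intro a b
    rcases lt_or_ge b a with h1 | h1
    · rw [Set.Icc_eq_empty (not_le.mpr h1)]
      exact Set.finite_empty
    rcases h1.eq_or_lt with h1 | h1
    · rw [h1, Set.Icc_self]
      exact Set.finite_singleton _
    · have h2 : (Set.Ioo a b).Finite := by
        have h3 := F.Bef_fin ((hlt a b).mp h1)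
        refine Set.Finite.of_finite_image (f := (Subtype.val : X → G)) (h3.subset ?_)
          Subtype.val_injective.injOn
        rintro _ ⟨z, ⟨hz1, hz2⟩, rfl⟩
        exact ⟨z.2.1, z.2.2, (hlt a z).mp hz1, (hlt z b).mp hz2⟩
      refine (h2.union (Set.toFinite {a, b})).subset ?_
      rintro z ⟨h3, h4⟩
      rcases h3.eq_or_lt with h5 | h5
      · exact Or.inr (Or.inl h5.symm)
      rcases h4.eq_or_lt with h6 | h6
      · exact Or.inr (Or.inr h6)
      exact Or.inl ⟨h5, h6⟩
  have hP : ∀ w : X, S.PosX c (c * w.1 * c⁻¹) := by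
    intro w
    have h1 := (S.PosX_conj c hc (hne1 w)).mpr w.2.2
    rwa [mul_inv_cancel_right] at h1
  have hP' : ∀ w : X, S.PosX c (c⁻¹ * w.1 * c) := by
    intro w
    have h1 := (S.PosX_conj c⁻¹ hc (hne1 w)).mpr w.2.2
    rw [inv_inv, inv_mul_cancel, one_mul] at h1
    exact h1
  have hU' : ∀ w : X, c⁻¹ * w.1 * c ∈ F.U := by
    intro w
    have h1 := F.conj c⁻¹ w.2.1
    rwa [inv_inv] at h1
  have hB : ∀ a b : X, S.Bef c (c * a.1 * c⁻¹) (c * b.1 * c⁻¹) ↔ S.Bef c a.1 b.1 := by
    intro a b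
    have h1 := S.Bef_conj c hc (hne1 a) (hne1 b)
    rwa [mul_inv_cancel_right] at h1
  let σe : X ≃ X :=
    { toFun := fun w => ⟨c * w.1 * c⁻¹, F.conj c w.2.1, hP w⟩
      invFun := fun w => ⟨c⁻¹ * w.1 * c, hU' w, hP' w⟩
      left_inv := fun w => Subtype.ext (by
        show c⁻¹ * (c * w.1 * c⁻¹) * c = w.1
        group)
      right_inv := fun w => Subtype.ext (by
        show c * (c⁻¹ * w.1 * c) * c⁻¹ = w.1
        group) }
  have hmono : StrictMono σe := by
    intro a b hab
    rw [hlt] at hab ⊢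
    exact (hB a b).mpr hab
  let σ : X ≃o X := StrictMono.orderIsoOfSurjective σe hmono σe.surjective
  have hσ : ∀ x : X, (σ x).1 = c * x.1 * c⁻¹ := fun x => rfl
  obtain ⟨f, m, hm, hf⟩ := d2_abs hfin σ (fun x => by
    rw [hlt, hσ]
    exact S.Bef_shift hc (hne1 x) x.2.2)
  exact ⟨{
    m := m
    pos := hm
    u := fun i => (f.symm i).1
    mem := fun i => (f.symm i).2.1
    crs := fun i => (f.symm i).2.2
    lt := fun i j hij => (hlt _ _).mp (f.symm.strictMono hij)
    all := fun w hw hw' => ⟨f ⟨w, hw, hw'⟩, by rw [OrderIso.symm_apply_apply]⟩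
    per := fun i => by rw [hf, hσ] }⟩

end Fam
end H21D
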