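import Pool.Agent.Lib.H21D.D1
import Pool.Agent.Lib.H21D.B6

/-! # D3: the twist of a curve that crosses the family -/
namespace H21D

section cyclemmas
variable {C : Type*} [LinearOrder C]

theorem d3_a {a a' b b' : C} (h : cyc4 b a a' b') : cyc a' b a := by
  (obtain ⟨lab, hlab⟩ := H21D.exists_lab [a, a', b, b']; simp only [List.forall_mem_cons, List.not_mem_nil, IsEmpty.forall_iff, implies_true, and_true, forall_eq_or_imp, List.mem_cons, forall_eq, or_false] at hlab; simp only [H21D.cyc, H21D.cyc4, H21D.arc, ne_eq, hlab] at *; omega)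

theorem d3_b {a a' b b' : C} (h : cyc4 b a a' b') : ¬ cyc a b a' := by
  (obtain ⟨lab, hlab⟩ := H21D.exists_lab [a, a', b, b']; simp only [List.forall_mem_cons, List.not_mem_nil, IsEmpty.forall_iff, implies_true, and_true, forall_eq_or_imp, List.mem_cons, forall_eq, or_false] at hlab; simp only [H21D.cyc, H21D.cyc4, H21D.arc, ne_eq, hlab] at *; omega)

theorem d3_c {a a' b b' : C} (h : cyc4 b a a' b') : cyc b a' b' := by
  (obtain ⟨lab, hlab⟩ := H21D.exists_lab [a, a', b, b']; simp only [List.forall_mem_cons, List.not_mem_nil, IsEmpty.forall_iff, implies_true, and_true, forall_eq_or_imp, List.mem_cons, forall_eq, or_false] at hlab; simp only [H21D.cyc, H21D.cyc4, H21D.arc, ne_eq, hlab] at *; omega)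

theorem d3_d {a a' b b' : C} (h : cyc4 b a a' b') : ¬ cyc b' a' b := by
  (obtain ⟨lab, hlab⟩ := H21D.exists_lab [a, a', b, b']; simp only [List.forall_mem_cons, List.not_mem_nil, IsEmpty.forall_iff, implies_true, and_true, forall_eq_or_imp, List.mem_cons, forall_eq, or_false] at hlab; simp only [H21D.cyc, H21D.cyc4, H21D.arc, ne_eq, hlab] at *; omega)

/-- unlinked pairs: `x, x'` are on the same side of `z z'` -/
theorem d3_e {x x' z z' : C} (h1 : z ≠ x) (h2 : z ≠ x') (h3 : z' ≠ x) (h4 : z' ≠ x')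
    (h5 : z ≠ z') (h6 : ¬ cyc4 z x z' x') (h7 : ¬ cyc4 z x' z' x) :
    cyc z x z' ↔ cyc z x' z' := by
  constructor
  · intro h
    rcases cyc_total h2 h4.symm h5 with h8 | h8
    · exact h8
    · exfalso
      apply h6
      clear h6 h7
      (obtain ⟨lab, hlab⟩ := H21D.exists_lab [x, x', z, z']; simp only [List.forall_mem_cons, List.not_mem_nil, IsEmpty.forall_iff, implies_true, and_true, forall_eq_or_imp, List.mem_cons, forall_eq, or_false] at hlab; simp only [H21D.cyc, H21D.cyc4, H21D.arc, ne_eq, hlab] at *; omega)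
  · intro h
    rcases cyc_total h1 h3.symm h5 with h8 | h8
    · exact h8
    · exfalso
      apply h7
      clear h6 h7
      (obtain ⟨lab, hlab⟩ := H21D.exists_lab [x, x', z, z']; simp only [List.forall_mem_cons, List.not_mem_nil, IsEmpty.forall_iff, implies_true, and_true, forall_eq_or_imp, List.mem_cons, forall_eq, or_false] at hlab; simp only [H21D.cyc, H21D.cyc4, H21D.arc, ne_eq, hlab] at *; omega)

theorem d3_f {x z z' : C} (h1 : z ≠ x) (h2 : z' ≠ x) (h3 : z ≠ z') (h : ¬ cyc z x z') :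
    cyc z' x z := by
  (obtain ⟨lab, hlab⟩ := H21D.exists_lab [x, z, z']; simp only [List.forall_mem_cons, List.not_mem_nil, IsEmpty.forall_iff, implies_true, and_true, forall_eq_or_imp, List.mem_cons, forall_eq, or_false] at hlab; simp only [H21D.cyc, H21D.cyc4, H21D.arc, ne_eq, hlab] at *; omega)

theorem d3_g {a a' b b' z z' : C} (h1 : cyc z a z') (h2 : cyc z a' z') (h3 : cyc z' b z)
    (h4 : cyc z' b' z) (h : cyc4 b a a' b') : cyc b z a ∧ cyc a' z' b' := by
  constructor
  · clear h2 h4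
    (obtain ⟨lab, hlab⟩ := H21D.exists_lab [a, a', b, b', z, z']; simp only [List.forall_mem_cons, List.not_mem_nil, IsEmpty.forall_iff, implies_true, and_true, forall_eq_or_imp, List.mem_cons, forall_eq, or_false] at hlab; simp only [H21D.cyc, H21D.cyc4, H21D.arc, ne_eq, hlab] at *; omega)
  · clear h1 h3
    (obtain ⟨lab, hlab⟩ := H21D.exists_lab [a, a', b, b', z, z']; simp only [List.forall_mem_cons, List.not_mem_nil, IsEmpty.forall_iff, implies_true, and_true, forall_eq_or_imp, List.mem_cons, forall_eq, or_false] at hlab; simp only [H21D.cyc, H21D.cyc4, H21D.arc, ne_eq, hlab] at *; omega)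

theorem d3_h3 {a b c c' z : C} (h1 : cyc4 c b a c') (h3 : cyc b z a) :
    cyc4 c z a c' := by
  (obtain ⟨lab, hlab⟩ := H21D.exists_lab [a, b, c, c', z]; simp only [List.forall_mem_cons, List.not_mem_nil, IsEmpty.forall_iff, implies_true, and_true, forall_eq_or_imp, List.mem_cons, forall_eq, or_false] at hlab; simp only [H21D.cyc, H21D.cyc4, H21D.arc, ne_eq, hlab] at *; omega)

theorem d3_h4 {a b c c' z : C} (h1 : cyc4 c b a c') (h3 : cyc b z a) :
    cyc4 c b z c' := by
  (obtain ⟨lab, hlab⟩ := H21D.exists_lab [a, b, c, c', z]; simp only [List.forall_mem_cons, List.not_mem_nil, IsEmpty.forall_iff, implies_true, and_true, forall_eq_or_imp, List.mem_cons, forall_eq, or_false] at hlab; simp only [H21D.cyc, H21D.cyc4, H21D.arc, ne_eq, hlab] at *; omega)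

theorem d3_h1 {a b c c' z : C} (h1 : cyc4 c b a c') (h3 : cyc b z a) :
    cyc4 c z a c' ∧ cyc4 c b z c' := by
  exact ⟨d3_h3 h1 h3, d3_h4 h1 h3⟩

theorem d3_p1 {a c c' z : C} (h : cyc4 c z a c') : cyc c z c' := by
  (obtain ⟨lab, hlab⟩ := H21D.exists_lab [a, c, c', z]; simp only [List.forall_mem_cons, List.not_mem_nil, IsEmpty.forall_iff, implies_true, and_true, forall_eq_or_imp, List.mem_cons, forall_eq, or_false] at hlab; simp only [H21D.cyc, H21D.cyc4, H21D.arc, ne_eq, hlab] at *; omega)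

theorem d3_p2 {a c c' z : C} (h : cyc4 c a z c') : cyc c z c' := by
  (obtain ⟨lab, hlab⟩ := H21D.exists_lab [a, c, c', z]; simp only [List.forall_mem_cons, List.not_mem_nil, IsEmpty.forall_iff, implies_true, and_true, forall_eq_or_imp, List.mem_cons, forall_eq, or_false] at hlab; simp only [H21D.cyc, H21D.cyc4, H21D.arc, ne_eq, hlab] at *; omega)

theorem d3_q {c c' z z' : C} (h1 : cyc c z c') (h3 : cyc c' z' c) : cyc4 c z c' z' := by
  (obtain ⟨lab, hlab⟩ := H21D.exists_lab [c, c', z, z']; simp only [List.forall_mem_cons, List.not_mem_nil, IsEmpty.forall_iff, implies_true, and_true, forall_eq_or_imp, List.mem_cons, forall_eq, or_false] at hlab; simp only [H21D.cyc, H21D.cyc4, H21D.arc, ne_eq, hlab] at *; omega)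

theorem d3_h {a a' b b' c c' z z' : C} (h1 : cyc4 c b a c') (h2 : cyc4 c' a' b' c)
    (h3 : cyc b z a) (h4 : cyc a' z' b') :
    cyc4 c z c' z' ∧ cyc4 c z a c' ∧ cyc4 c' a' z' c ∧ cyc4 c b z c' ∧ cyc4 c' z' b' c := by
  have h5 := d3_h1 h1 h3
  have h6 := d3_h1 h2 h4
  exact ⟨d3_q (d3_p1 h5.1) (d3_p2 h6.2), h5.1, h6.2, h5.2, h6.1⟩

end cyclemmas

namespace Crs
variable {G C : Type*} [Group G] [LinearOrder C] [MulAction G C] {S : Sys G C} {F : Fam S}
  {c : G} (K : Crs F c)

theorem ne_one : c ≠ 1 ∨ True := Or.inr trivial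

theorem bef_iff {i j : ℤ} : S.Bef c (K.u i) (K.u j) ↔ i < j := by
  constructor
  · intro h
    rcases lt_trichotomy i j with h1 | h1 | h1
    · exact h1
    · rw [h1] at h
      exact absurd h S.Bef_irrefl
    · exact absurd h (S.Bef_asymm (K.lt j i h1))
  · exact K.lt i j

theorem inj : Function.Injective K.u := by
  intro i j hij
  rcases lt_trichotomy i j with h1 | h1 | h1
  · have h2 := K.lt i j h1
    rw [hij] at h2
    exact absurd h2 S.Bef_irrefl
  · exact h1
  · have h2 := K.lt j i h1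
    rw [hij] at h2
    exact absurd h2 S.Bef_irrefl

theorem per_mul (i k : ℤ) : K.u (i + k * K.m) = c ^ k * K.u i * (c ^ k)⁻¹ := by
  induction k using Int.induction_on with
  | zero => simp
  | succ k ih =>
    have h1 : i + ((k : ℤ) + 1) * K.m = (i + k * K.m) + K.m := by ring
    rw [h1, K.per, ih, zpow_add_one, zpow_natCast]
    have h2 : c ^ k * c = c * c ^ k := by rw [← pow_succ, ← pow_succ']
    rw [h2]
    group
  | pred k ih =>
    have h1 : i + -(k : ℤ) * K.m = (i + (-(k : ℤ) - 1) * K.m) + K.m := by ring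
    rw [h1, K.per] at ih
    have h2 : K.u (i + (-(k : ℤ) - 1) * K.m) =
        c⁻¹ * (c * K.u (i + (-(k : ℤ) - 1) * K.m) * c⁻¹) * c := by group
    rw [h2, ih]
    group

/-- no line separates two consecutive lines. -/
theorem adj (i : ℤ) : F.Adj (K.u i)⁻¹ (K.u (i + 1)) := by
  intro z hz
  have hlt : S.Bef c (K.u i) (K.u (i + 1)) := K.lt i (i + 1) (lt_add_one i)
  have hno : ∀ w ∈ F.U, S.PosX c w → S.Bef c (K.u i) w → S.Bef c w (K.u (i + 1)) → False := by
    intro w hw hw1 hw2 hw3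
    obtain ⟨j, rfl⟩ := K.all w hw hw1
    rw [K.bef_iff] at hw2 hw3
    omega
  have ha := K.mem i
  have hb := K.mem (i + 1)
  have hca := K.crs i
  have hcb := K.crs (i + 1)
  generalize K.u i = a at *
  generalize K.u (i + 1) = b at *
  have hab : a ≠ b := by
    rintro rfl
    exact S.Bef_irrefl hlt
  have hab' : a ≠ b⁻¹ := by
    rintro rfl
    exact S.not_PosX_inv hcb hca
  have hba' : b ≠ a⁻¹ := by
    rintro rfl
    exact S.not_PosX_inv hca hcb
  have hpa := F.prim ha
  have hpb := F.prim hb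
  have hpz := F.prim hz
  have hord : cyc4 (S.att b) (S.att a) (S.att a⁻¹) (S.att b⁻¹) := d1_g hlt.1 hlt.2
  unfold Fam.H
  by_cases h1 : z = a⁻¹
  · subst h1
    rw [inv_inv]
    refine ⟨fun _ => Or.inr ⟨hab.symm, d3_a hord⟩, fun _ => Or.inl rfl⟩
  by_cases h2 : z = a
  · subst h2
    constructor
    · rintro (h3 | ⟨h3, -⟩)
      · exact absurd h3.symm hpa.ne_inv
      · exact absurd rfl h3
    · rintro (h3 | ⟨-, h3⟩)
      · exact absurd h3.symm hab
      · exact absurd h3 (d3_b hord)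
  by_cases h3 : z = b
  · subst h3
    refine ⟨fun _ => Or.inl rfl, fun _ => Or.inr ⟨fun h => hab (inv_injective h), d3_c hord⟩⟩
  by_cases h4 : z = b⁻¹
  · subst h4
    rw [inv_inv]
    constructor
    · rintro (h5 | ⟨-, h5⟩)
      · exact absurd (inv_injective h5) hab
      · exact absurd h5 (d3_d hord)
    · rintro (h5 | ⟨h5, -⟩)
      · exact absurd h5 hpb.ne_inv
      · exact absurd rfl h5
  have hza : z ≠ a := h2
  have hzb : z ≠ b := h3
  have hfa := hpz.four hpa h2 h1
  have hfb := hpz.four hpb h3 h4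
  have h5 : a⁻¹ ≠ z := fun h => h1 h.symm
  have h6 : a⁻¹ ≠ z⁻¹ := fun h => h2 (inv_injective h).symm
  have h7 : b ≠ z := fun h => h3 h.symm
  have h8 : b ≠ z⁻¹ := fun h => h4 (by rw [h, inv_inv])
  have h9 : (a⁻¹ = z ∨ a⁻¹ ≠ z⁻¹ ∧ cyc (S.att z) (S.att a⁻¹) (S.att z⁻¹)) ↔
      cyc (S.att z) (S.att a⁻¹) (S.att z⁻¹) :=
    ⟨fun h => h.elim (fun h => absurd h h5) (fun h => h.2), fun h => Or.inr ⟨h6, h⟩⟩
  have h10 : (b = z ∨ b ≠ z⁻¹ ∧ cyc (S.att z) (S.att b) (S.att z⁻¹)) ↔
      cyc (S.att z) (S.att b) (S.att z⁻¹) :=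
    ⟨fun h => h.elim (fun h => absurd h h7) (fun h => h.2), fun h => Or.inr ⟨h8, h⟩⟩
  rw [h9, h10]
  have hzz := S.att_ne hpz.ne_one
  have hsa : cyc (S.att z) (S.att a) (S.att z⁻¹) ↔ cyc (S.att z) (S.att a⁻¹) (S.att z⁻¹) := by
    refine d3_e hfa.1 hfa.2.1 hfa.2.2.1 hfa.2.2.2 hzz (F.unl hz ha) ?_
    have := F.unl hz (F.inv ha)
    unfold Sys.PosX at this
    rwa [inv_inv] at this
  have hsb : cyc (S.att z) (S.att b) (S.att z⁻¹) ↔ cyc (S.att z) (S.att b⁻¹) (S.att z⁻¹) := by
    refine d3_e hfb.1 hfb.2.1 hfb.2.2.1 hfb.2.2.2 hzz (F.unl hz hb) ?_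
    have := F.unl hz (F.inv hb)
    unfold Sys.PosX at this
    rwa [inv_inv] at this
  constructor
  · intro h11
    by_contra h12
    have h13 := d3_f hfb.1 hfb.2.2.1 hzz h12
    have h14 := d3_f hfb.2.1 hfb.2.2.2 hzz (fun h => h12 (hsb.mpr h))
    have h15 := d3_g (hsa.mpr h11) h11 h13 h14 hord
    obtain ⟨h16, h17, h18, h19, h20⟩ := d3_h hlt.1 hlt.2 h15.1 h15.2
    exact hno z hz h16 ⟨h17, h18⟩ ⟨h19, h20⟩
  · intro h11
    by_contra h12
    have h13 := d3_f hfa.2.1 hfa.2.2.2 hzz h12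
    have h14 := d3_f hfa.1 hfa.2.2.1 hzz (fun h => h12 (hsa.mp h))
    have h15 := d3_g h14 h13 h11 (hsb.mp h11) hord
    obtain ⟨h16, h17, h18, h19, h20⟩ := d3_h hlt.1 hlt.2 h15.1 h15.2
    refine hno z⁻¹ (F.inv hz) ?_ ⟨?_, ?_⟩ ⟨?_, ?_⟩
    · unfold Sys.PosX
      rwa [inv_inv]
    · exact h17
    · rwa [inv_inv]
    · exact h19
    · rwa [inv_inv]

theorem g_zero (e : Wt G) : K.g e 0 = 1 := rfl

theorem g_succ (e : Wt G) (n : ℕ) : K.g e (n + 1) = K.g e n * K.u (n + 1) ^ e.e (K.u (n + 1)) := by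
  rfl

theorem phi_eq (e : Wt G) (n : ℕ) : F.phi e (K.u 0)⁻¹ (K.u n)⁻¹ = K.g e n := by
  induction n with
  | zero => exact F.phi_self e (F.inv (K.mem _))
  | succ n ih =>
    have h0 := K.mem 0
    have h1 := K.mem (n : ℤ)
    have h2 := K.mem ((n : ℤ) + 1)
    rw [g_succ, ← ih, Nat.cast_add, Nat.cast_one, ← F.phi_flip e h2,
      ← F.phi_trans e (F.inv h0) h2 (F.inv h2), ← F.phi_trans e (F.inv h0) (F.inv h1) h2,
      F.phi_adj e (F.inv h1) h2 (K.adj n), mul_one]

/-- the twist of `c` seen from the region just behind the line `K.u 0`. -/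
theorem tau_eq (e : Wt G) : F.tau e (F.inv (K.mem 0)) c = K.g e K.m * c := by
  rw [F.tau_apply]
  have h1 : c * (K.u 0)⁻¹ * c⁻¹ = (K.u (K.m : ℤ))⁻¹ := by
    have := K.per 0
    rw [zero_add] at this
    rw [this]
    group
  rw [h1, K.phi_eq]

/-- periodicity of the partial products -/
theorem g_add (e : Wt G) (n : ℕ) :
    K.g e (n + K.m) = (K.g e K.m * c) * K.g e n * c⁻¹ := by
  induction n with
  | zero => rw [Nat.zero_add, g_zero, mul_one, mul_inv_cancel_right]
  | succ n ih =>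
    have h1 : n + 1 + K.m = (n + K.m) + 1 := by ring
    have h2 : K.u (((n + K.m : ℕ) : ℤ) + 1) = c * K.u ((n : ℤ) + 1) * c⁻¹ := by
      rw [← K.per]
      congr 1
      push_cast
      ring
    rw [h1, g_succ, g_succ, h2, e.conj, ih, conj_zpow]
    group

end Crs
end H21D
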