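import Pool.Agent.Lib.H21D.B6
import Pool.Agent.Lib.H21D.C2

/-! # D4: the twist does not move (the class of) a curve that does not cross the family -/
namespace H21D

theorem d4_o1 {C : Type*} [LinearOrder C] {u u' z z' ξ : C} (h1 : cyc z' u z) (h1' : cyc z' u' z)
    (h2 : cyc u z u') (h3 : cyc u z' u') (h4 : cyc u' ξ u) : cyc z' ξ z := by
  (obtain ⟨lab, hlab⟩ := H21D.exists_lab [u, u', z, z', ξ]; simp only [List.forall_mem_cons, List.not_mem_nil, IsEmpty.forall_iff, implies_true, and_true, forall_eq_or_imp, List.mem_cons, forall_eq, or_false] at hlab; simp only [H21D.cyc, H21D.cyc4, H21D.arc, ne_eq, hlab] at *; omega)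

theorem d4_o2 {C : Type*} [LinearOrder C] {v v' c c' u u' : C} (h : cyc4 v v' c c')
    (h1 : cyc u v u') (h2 : cyc u v' u') (h3 : cyc u' c u) (h4 : cyc u' c' u) :
    arc c' v u ∧ arc v' c u' := by
  (obtain ⟨lab, hlab⟩ := H21D.exists_lab [v, v', c, c', u, u']; simp only [List.forall_mem_cons, List.not_mem_nil, IsEmpty.forall_iff, implies_true, and_true, forall_eq_or_imp, List.mem_cons, forall_eq, or_false] at hlab; simp only [H21D.cyc, H21D.cyc4, H21D.arc, ne_eq, hlab] at *; omega)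

theorem d4_o3 {C : Type*} [LinearOrder C] {v v' c c' : C} (h : cyc4 v v' c c') : cyc4 c' v v' c := by
  (obtain ⟨lab, hlab⟩ := H21D.exists_lab [v, v', c, c']; simp only [List.forall_mem_cons, List.not_mem_nil, IsEmpty.forall_iff, implies_true, and_true, forall_eq_or_imp, List.mem_cons, forall_eq, or_false] at hlab; simp only [H21D.cyc, H21D.cyc4, H21D.arc, ne_eq, hlab] at *; omega)

theorem d4_o4a {C : Type*} [LinearOrder C] {v v' c c' : C} (h1 : c ≠ c') (a : cyc v c v') (b : cyc v c' v') :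
    cyc4 v' v c c' ∨ cyc4 v' v c' c := by
  (obtain ⟨lab, hlab⟩ := H21D.exists_lab [v, v', c, c']; simp only [List.forall_mem_cons, List.not_mem_nil, IsEmpty.forall_iff, implies_true, and_true, forall_eq_or_imp, List.mem_cons, forall_eq, or_false] at hlab; simp only [H21D.cyc, H21D.cyc4, H21D.arc, ne_eq, hlab] at *; omega)
theorem d4_o4b {C : Type*} [LinearOrder C] {v v' c c' : C} (a : cyc v c v') (b : cyc v' c' v) :
    cyc4 c v' c' v := by
  (obtain ⟨lab, hlab⟩ := H21D.exists_lab [v, v', c, c']; simp only [List.forall_mem_cons, List.not_mem_nil, IsEmpty.forall_iff, implies_true, and_true, forall_eq_or_imp, List.mem_cons, forall_eq, or_false] at hlab; simp only [H21D.cyc, H21D.cyc4, H21D.arc, ne_eq, hlab] at *; omega)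

theorem d4_o4 {C : Type*} [LinearOrder C] {v v' c c' : C} (h0 : v ≠ v') (h1 : c ≠ c') (h2 : c ≠ v)
    (h3 : c ≠ v') (h4 : c' ≠ v) (h5 : c' ≠ v') (h6 : ¬ cyc4 c v c' v') (h7 : ¬ cyc4 c v' c' v) :
    cyc4 v v' c c' ∨ cyc4 v v' c' c ∨ cyc4 v' v c c' ∨ cyc4 v' v c' c := by
  rcases cyc_total (Ne.symm h2) h3 h0 with a | a <;> rcases cyc_total (Ne.symm h4) h5 h0 with b | b
  · rcases d4_o4a h1 a b with k | k
    · exact Or.inr (Or.inr (Or.inl k))
    · exact Or.inr (Or.inr (Or.inr k))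
  · exact absurd (d4_o4b a b) h7
  · exact absurd (d4_o4b a b) h6
  · rcases d4_o4a h1 a b with k | k
    · exact Or.inl k
    · exact Or.inr (Or.inl k)

theorem d4_o5 {C : Type*} [LinearOrder C] {c c' u u' : C} (h1 : c ≠ c') (h2 : c ≠ u)
    (h3 : c ≠ u') (h4 : c' ≠ u) (h5 : c' ≠ u') (h6 : ¬ cyc4 c u c' u') (h7 : ¬ cyc4 c u' c' u)
    (h : cyc u' c u) : cyc u' c' u := by
  (obtain ⟨lab, hlab⟩ := H21D.exists_lab [c, c', u, u']; simp only [List.forall_mem_cons, List.not_mem_nil, IsEmpty.forall_iff, implies_true, and_true, forall_eq_or_imp, List.mem_cons, forall_eq, or_false] at hlab; simp only [H21D.cyc, H21D.cyc4, H21D.arc, ne_eq, hlab] at *; omega)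

theorem d4_o6 {C : Type*} [LinearOrder C] {c u u' : C} (h0 : u ≠ u') (h2 : c ≠ u)
    (h3 : c ≠ u') (h : ¬ cyc u' c u) : cyc u c u' := by
  (obtain ⟨lab, hlab⟩ := H21D.exists_lab [c, u, u']; simp only [List.forall_mem_cons, List.not_mem_nil, IsEmpty.forall_iff, implies_true, and_true, forall_eq_or_imp, List.mem_cons, forall_eq, or_false] at hlab; simp only [H21D.cyc, H21D.cyc4, H21D.arc, ne_eq, hlab] at *; omega)

namespace Fam
variable {G C : Type*} [Group G] [LinearOrder C] [MulAction G C] {S : Sys G C} (F : Fam S)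

/-- the lines with the region of `v` on the left and the point `ξ` on the right -/
def d4_beh (v : G) (ξ : C) : Set G := {u | u ∈ F.U ∧ F.H u v ∧ cyc (S.att u⁻¹) ξ (S.att u)}

theorem d4_fin {c v : G} (hv : v ∈ F.U) (hc : c ≠ 1) (h : ∀ u ∈ F.U, ¬ S.PosX c u)
    (hne : ∀ u ∈ F.U, S.att c ≠ S.att u) (hne' : ∀ u ∈ F.U, S.att c⁻¹ ≠ S.att u) :
    (F.d4_beh v (S.att c)).Finite := by
  have hcc := S.att_ne hc
  -- every line of the set other than `v, v⁻¹` separates the end points of `v` from those of `c`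
  have key : ∀ u ∈ F.d4_beh v (S.att c), u ≠ v → u ≠ v⁻¹ →
      cyc (S.att u) (S.att v) (S.att u⁻¹) ∧ cyc (S.att u) (S.att v⁻¹) (S.att u⁻¹) ∧
      cyc (S.att u⁻¹) (S.att c) (S.att u) ∧ cyc (S.att u⁻¹) (S.att c⁻¹) (S.att u) := by
    rintro u ⟨hu, h1, h2⟩ hn1 hn2
    have hn1' : v ≠ u := fun e => hn1 e.symm
    have hn2' : v ≠ u⁻¹ := fun e => hn2 (by rw [e, inv_inv])
    have h3 := (F.H_iff hn1' hn2').1 h1
    have h4 := (F.H_side hu hv hn1' hn2').2 h1
    have hn3 : v⁻¹ ≠ u := fun e => hn2 e.symm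
    have hn4 : v⁻¹ ≠ u⁻¹ := fun e => hn1' (inv_injective e)
    have h5 := (F.H_iff hn3 hn4).1 h4
    refine ⟨h3, h5, h2, ?_⟩
    have h6 := h u hu
    have h7 := h u⁻¹ (F.inv hu)
    unfold Sys.PosX at h6 h7
    rw [inv_inv] at h7
    exact d4_o5 hcc (hne u hu) (hne u⁻¹ (F.inv hu)) (hne' u hu) (hne' u⁻¹ (F.inv hu)) h6 h7 h2
  have h6 := h v hv
  have h7 := h v⁻¹ (F.inv hv)
  unfold Sys.PosX at h6 h7
  rw [inv_inv] at h7
  rcases d4_o4 (S.att_ne (F.prim hv).1) hcc (hne v hv) (hne v⁻¹ (F.inv hv)) (hne' v hv)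
    (hne' v⁻¹ (F.inv hv)) h6 h7 with h8 | h8 | h8 | h8
  · refine ((F.fin (d4_o3 h8)).union (Set.toFinite {v, v⁻¹})).subset ?_
    intro u hu
    by_cases e1 : u = v
    · exact Or.inr (Or.inl e1)
    by_cases e2 : u = v⁻¹
    · exact Or.inr (Or.inr e2)
    obtain ⟨k1, k2, k3, k4⟩ := key u hu e1 e2
    obtain ⟨k5, k6⟩ := d4_o2 h8 k1 k2 k3 k4
    exact Or.inl ⟨hu.1, k5, k6⟩
  · refine ((F.fin (d4_o3 h8)).union (Set.toFinite {v, v⁻¹})).subset ?_
    intro u hu
    by_cases e1 : u = v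
    · exact Or.inr (Or.inl e1)
    by_cases e2 : u = v⁻¹
    · exact Or.inr (Or.inr e2)
    obtain ⟨k1, k2, k3, k4⟩ := key u hu e1 e2
    obtain ⟨k5, k6⟩ := d4_o2 h8 k1 k2 k4 k3
    exact Or.inl ⟨hu.1, k5, k6⟩
  · refine ((F.fin (d4_o3 h8)).union (Set.toFinite {v, v⁻¹})).subset ?_
    intro u hu
    by_cases e1 : u = v
    · exact Or.inr (Or.inl e1)
    by_cases e2 : u = v⁻¹
    · exact Or.inr (Or.inr e2)
    obtain ⟨k1, k2, k3, k4⟩ := key u hu e1 e2
    obtain ⟨k5, k6⟩ := d4_o2 h8 k2 k1 k3 k4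
    exact Or.inl ⟨hu.1, k5, k6⟩
  · refine ((F.fin (d4_o3 h8)).union (Set.toFinite {v, v⁻¹})).subset ?_
    intro u hu
    by_cases e1 : u = v
    · exact Or.inr (Or.inl e1)
    by_cases e2 : u = v⁻¹
    · exact Or.inr (Or.inr e2)
    obtain ⟨k1, k2, k3, k4⟩ := key u hu e1 e2
    obtain ⟨k5, k6⟩ := d4_o2 h8 k2 k1 k4 k3
    exact Or.inl ⟨hu.1, k5, k6⟩

/-- there is a region with no line between it and the point `ξ` -/
theorem d4_exists {v : G} (hv : v ∈ F.U) (ξ : C) (hfin : ∀ w ∈ F.U, (F.d4_beh w ξ).Finite) :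
    ∃ w ∈ F.U, F.d4_beh w ξ = ∅ := by
  have key : ∀ (n : ℕ) (v : G), v ∈ F.U → (F.d4_beh v ξ).ncard = n →
      ∃ w ∈ F.U, F.d4_beh w ξ = ∅ := by
    intro n
    induction n using Nat.strong_induction_on with
    | _ n ih =>
      intro v hv hn
      rcases Set.eq_empty_or_nonempty (F.d4_beh v ξ) with he | hne
      · exact ⟨v, hv, he⟩
      obtain ⟨z, hz, hadj⟩ := F.exists_adj hv (F.d4_beh v ξ) (hfin v hv) hne
        (fun u hu => ⟨hu.1, hu.2.1⟩) (by
          rintro u ⟨hu, hu1, hu2⟩ z hz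
          have hzU := hz.1
          have h1 : F.H u z := F.b3_small hv hu hu1 hz z hzU (F.H_self z)
          have hn1 : u ≠ z := by
            rintro rfl
            exact hz.2.2 (F.H_self u)
          have hn2 : u ≠ z⁻¹ := by
            rintro rfl
            exact (F.H_inv_iff hzU hv).1 hu1 hz.2.1
          have hn3 : z ≠ u := fun e => hn1 e.symm
          have hn4 : z ≠ u⁻¹ := fun e => hn2 (by rw [e, inv_inv])
          have a1 := (F.H_iff hn3 hn4).1 h1
          have a2 := (F.H_iff (z := u) (u := z⁻¹) (fun e => hn2 e.symm)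
            (fun e => hn3 (inv_injective e))).1 ((F.H_side hu hzU hn3 hn4).2 h1)
          refine ⟨hzU, hz.2.1, ?_⟩
          rcases F.same_side hzU hu hn1 hn2 with ⟨b1, b2⟩ | ⟨b1, b2⟩
          · exact absurd ((F.H_iff hn1 hn2).2 b1) hz.2.2
          · exact d4_o1 b1 b2 a1 a2 hu2)
      have hsub : F.d4_beh z⁻¹ ξ ⊆ F.d4_beh v ξ \ {z} := by
        rintro x ⟨hx, hx1, hx2⟩
        have hxz : x ≠ z := by
          rintro rfl
          exact F.not_H_inv_self hx hx1
        have hxz' : x ≠ z⁻¹ := by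
          rintro rfl
          rw [inv_inv] at hx2
          exact cyc_asymm hx2 hz.2.2
        refine ⟨⟨hx, ?_, hx2⟩, hxz⟩
        have e1 : z ≠ x := fun e => hxz e.symm
        have e2 : z ≠ x⁻¹ := fun e => hxz' (by rw [e, inv_inv])
        exact (hadj x hx).2 ((F.H_side hx hz.1 e1 e2).1 hx1)
      have hlt : (F.d4_beh z⁻¹ ξ).ncard < n := by
        rw [← hn]
        have h1 := Set.ncard_le_ncard hsub ((hfin v hv).subset Set.sdiff_subset)
        have h2 : (F.d4_beh v ξ \ {z}).ncard < (F.d4_beh v ξ).ncard :=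
          Set.ncard_sdiff_singleton_lt_of_mem hz (hfin v hv)
        omega
      exact ih _ hlt z⁻¹ (F.inv hz.1) rfl
  exact key _ v hv rfl

/-- there is a region with the whole axis of `c` in it (or on its boundary): minimise the number of
lines `u` with `H u v` and `c⁺` strictly behind `u`, then `Sep v (c v c⁻¹) = ∅`. -/
theorem exists_region {c v : G} (hv : v ∈ F.U) (hc : c ≠ 1) (h : ∀ u ∈ F.U, ¬ S.PosX c u) :
    ∃ w ∈ F.U, F.Adj w (c * w * c⁻¹) := by
  by_cases hne : ∃ u ∈ F.U, S.att c = S.att u ∨ S.att c⁻¹ = S.att u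
  · obtain ⟨u, hu, e⟩ := hne
    have hfix : c • S.att u = S.att u := by
      rcases e with e | e
      · rw [← e, S.smul_att hc]
      · rw [← e, S.smul_att_inv hc]
    obtain ⟨k, hk⟩ := (F.prim hu).2 c hfix
    refine ⟨u, hu, ?_⟩
    have : c * u * c⁻¹ = u := by rw [hk]; group
    rw [this]
    exact Adj.refl F u
  push Not at hne
  obtain ⟨w, hw, he⟩ := F.d4_exists hv (S.att c)
    (fun w hw => F.d4_fin hw hc h (fun u hu => (hne u hu).1) (fun u hu => (hne u hu).2))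
  refine ⟨w, hw, ?_⟩
  -- if the region of `w` is on the left of `u`, so is `c⁺`
  have key : ∀ u ∈ F.U, F.H u w → cyc (S.att u) (S.att c) (S.att u⁻¹) := by
    intro u hu h1
    refine d4_o6 (S.att_ne (F.prim hu).1) (hne u hu).1 (hne u⁻¹ (F.inv hu)).1 ?_
    intro h2
    have : u ∈ F.d4_beh w (S.att c) := ⟨hu, h1, h2⟩
    rw [he] at this
    exact this
  have key' : ∀ u ∈ F.U, F.H u (c * w * c⁻¹) → cyc (S.att u) (S.att c) (S.att u⁻¹) := by
    intro u hu h1
    have hu1 : u ≠ 1 := (F.prim hu).1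
    have hU : c⁻¹ * u * c ∈ F.U := by
      have := F.conj c⁻¹ hu
      rwa [inv_inv] at this
    have e : u = c * (c⁻¹ * u * c) * c⁻¹ := by group
    rw [e, F.H_conj_iff c hU hw] at h1
    have h2 := key _ hU h1
    have h3 := S.cyc_smul c h2
    rw [S.smul_att hc, ← S.att_conj c (F.prim hU).1, ← S.att_conj_inv c (F.prim hU).1, ← e] at h3
    exact h3
  intro u hu
  constructor
  · intro h1
    by_contra h2
    have h3 := (F.H_inv_iff hu (F.conj c hw)).2 h2
    have h4 := key' u⁻¹ (F.inv hu) h3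
    rw [inv_inv] at h4
    exact cyc_asymm h4 (key u hu h1)
  · intro h1
    by_contra h2
    have h3 := (F.H_inv_iff hu hw).2 h2
    have h4 := key u⁻¹ (F.inv hu) h3
    rw [inv_inv] at h4
    exact cyc_asymm h4 (key' u hu h1)

theorem tau_free (e : Wt G) {c v : G} (hv : v ∈ F.U) (hc : c ≠ 1)
    (h : ∀ u ∈ F.U, ¬ S.PosX c u) : ∃ k : G, F.tau e hv c = k * c * k⁻¹ := by
  obtain ⟨w, hw, hadj⟩ := F.exists_region hv hc h
  refine ⟨F.phi e v w, ?_⟩
  rw [F.tau_base e hw hv c, F.tau_apply, F.phi_adj e hw (F.conj c hw) hadj, one_mul]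

end Fam
end H21D
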