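import Pool.Agent.Lib.H21D.Cyc

/-!
# H21D: definitions

`Sys G C`: a group `G` acting on a circularly ordered set `C` like a purely hyperbolic discrete
subgroup of `SL(2,ℝ)` acts on the circle at infinity.

Orientation: `cyc x y z` = `x, y, z` are met in counterclockwise order.  For `g ≠ 1`, `att g` and
`att g⁻¹` are the attracting and the repelling fixed point.  The axis of `g` runs from `att g⁻¹` to
`att g`.  The left side of `g` is `{ξ | cyc (att g) ξ (att g⁻¹)}`.
-/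
namespace H21D

structure Sys (G C : Type*) [Group G] [LinearOrder C] [MulAction G C] where
  cyc_smul : ∀ (g : G) {x y z : C}, cyc x y z → cyc (g • x) (g • y) (g • z)
  dense : ∀ {x y : C}, x ≠ y → ∃ p, cyc x p y
  att : G → C
  att_conj : ∀ (h : G) {g : G}, g ≠ 1 → att (h * g * h⁻¹) = h • att g
  att_ne : ∀ {g : G}, g ≠ 1 → att g ≠ att g⁻¹
  dyn : ∀ {g : G}, g ≠ 1 → ∀ {ξ a b : C}, ξ ≠ att g⁻¹ → cyc a (att g) b →
    ∃ N : ℕ, ∀ n : ℕ, N ≤ n → cyc a (g ^ n • ξ) b
  root : ∀ {g : G}, g ≠ 1 → ∃ r : G, r ≠ 1 ∧ att r = att g ∧ att r⁻¹ = att g⁻¹ ∧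
    ∀ h : G, h • att g = att g → ∃ k : ℤ, h = r ^ k
  lf : ∀ {b : G}, b ≠ 1 → ∀ {p q r s : C}, cyc4 p q r s →
    {δ : G | (∃ h, δ = h * b * h⁻¹) ∧ arc p q (att δ) ∧ arc r s (att δ⁻¹)}.Finite

variable {G C : Type*} [Group G] [LinearOrder C] [MulAction G C]

/-- all conjugates of `b` and of `b⁻¹` (the oriented lifts of the closed curve `b`). -/
def cls (b : G) : Set G := {w | ∃ h, w = h * b * h⁻¹ ∨ w = h * b⁻¹ * h⁻¹}

/-- conjugation by the powers of `a` as an equivalence relation on a set `X`. -/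
def orbRel (a : G) (X : Set G) : Setoid X where
  r w w' := ∃ k : ℤ, (w' : G) = a ^ k * w * (a ^ k)⁻¹
  iseqv := {
    refl := fun w => ⟨0, by simp⟩
    symm := by
      rintro w w' ⟨k, hk⟩
      exact ⟨-k, by rw [hk]; group⟩
    trans := by
      rintro w w' w'' ⟨k, hk⟩ ⟨l, hl⟩
      exact ⟨l + k, by rw [hl, hk]; group⟩ }

noncomputable def orbCard (a : G) (X : Set G) : ℕ := Nat.card (Quotient (orbRel a X))

/-- distinct points -/
def Dst (T : C × C × C) : Prop := T.1 ≠ T.2.1 ∧ T.1 ≠ T.2.2 ∧ T.2.1 ≠ T.2.2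

namespace Sys
variable (S : Sys G C)

/-- `g` is not a proper power and generates the stabiliser of its attracting fixed point. -/
def Prim (g : G) : Prop := g ≠ 1 ∧ ∀ h : G, h • S.att g = S.att g → ∃ k : ℤ, h = g ^ k

/-- the axis of `w` crosses the axis of `u` from right to left:
counterclockwise order `u⁺, w⁺, u⁻, w⁻`. -/
def PosX (u w : G) : Prop := cyc4 (S.att u) (S.att w) (S.att u⁻¹) (S.att w⁻¹)

/-- `x` represents a simple closed curve -/
def Simp (x : G) : Prop := S.Prim x ∧ ∀ w ∈ cls x, ¬ S.PosX x w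

/-- no lift of `y` crosses the axis of `x`. -/
def Disj (x y : G) : Prop := ∀ w ∈ cls y, ¬ S.PosX x w

/-- the oriented lifts of `b` that cross the axis of `a` from right to left -/
def PosSet (a b : G) : Set G := {w | w ∈ cls b ∧ S.PosX a w}

/-- geometric intersection number of `a` and `b` -/
noncomputable def iN (a b : G) : ℕ := orbCard a (S.PosSet a b)

/-- `ξ` is in the half open arc from `δ⁺` (included) counterclockwise to `δ⁻` (excluded). -/
def In (δ : G) (ξ : C) : Prop := ξ = S.att δ ∨ cyc (S.att δ) ξ (S.att δ⁻¹)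

/-- the side of `δ` on which the centre of the ideal triangle `T` lies (`true` = side `In`). -/
def maj (δ : G) (T : C × C × C) : Prop :=
  (S.In δ T.1 ∧ S.In δ T.2.1) ∨ (S.In δ T.1 ∧ S.In δ T.2.2) ∨ (S.In δ T.2.1 ∧ S.In δ T.2.2)

def sepSet (b : G) (T T' : C × C × C) : Set G := {δ | δ ∈ cls b ∧ S.maj δ T ∧ ¬ S.maj δ T'}

/-- number of lifts of `b` that separate (the centres of) `T` and `T'`. -/
noncomputable def dist (b : G) (T T' : C × C × C) : ℕ := (S.sepSet b T T').ncard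

/-- along the axis of `c`, `u` is crossed before `w`:
counterclockwise order `c⁺, w⁺, u⁺, c⁻, u⁻, w⁻`. -/
def Bef (c u w : G) : Prop :=
  cyc4 (S.att c) (S.att w) (S.att u) (S.att c⁻¹) ∧
  cyc4 (S.att c⁻¹) (S.att u⁻¹) (S.att w⁻¹) (S.att c)

/-- `u` and `δ` cross `c` from right to left and cross each other in the cancelling way:
counterclockwise order `c⁺, δ⁺, u⁺, c⁻, δ⁻, u⁻`. -/
def Opp (c u δ : G) : Prop :=
  cyc4 (S.att c) (S.att δ) (S.att u) (S.att c⁻¹) ∧
  cyc4 (S.att c⁻¹) (S.att δ⁻¹) (S.att u⁻¹) (S.att c)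

/-- number of crossings of `c` with `b` that have no cancelling partner in `y`. -/
noncomputable def nFree (c y b : G) : ℕ :=
  orbCard c {δ | δ ∈ S.PosSet c b ∧ ¬ ∃ u ∈ cls y, S.Opp c u δ}

/-- an automorphism that preserves the cyclic order of the attracting fixed points. -/
def OP (τ : G ≃* G) : Prop := ∀ {g h k : G}, g ≠ 1 → h ≠ 1 → k ≠ 1 →
  (cyc (S.att (τ g)) (S.att (τ h)) (S.att (τ k)) ↔ cyc (S.att g) (S.att h) (S.att k))

end Sys

/-- a `G`-invariant family of pairwise disjoint oriented lines. -/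
structure Fam (S : Sys G C) where
  U : Set G
  prim : ∀ {u}, u ∈ U → S.Prim u
  conj : ∀ {u} (h : G), u ∈ U → h * u * h⁻¹ ∈ U
  inv : ∀ {u}, u ∈ U → u⁻¹ ∈ U
  unl : ∀ {u v}, u ∈ U → v ∈ U → ¬ S.PosX u v
  fin : ∀ {p q r s : C}, cyc4 p q r s →
    {u : G | u ∈ U ∧ arc p q (S.att u) ∧ arc r s (S.att u⁻¹)}.Finite

/-- twisting exponents -/
structure Wt (G : Type*) [Group G] where
  e : G → ℤ
  conj : ∀ h g, e (h * g * h⁻¹) = e g
  inv : ∀ g, e g⁻¹ = e g

namespace Fam
variable {S : Sys G C} (F : Fam S)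

/-- the complementary region on the left of `v` is on the left of `u`. -/
def H (_F : Fam S) (u v : G) : Prop := v = u ∨ (v ≠ u⁻¹ ∧ cyc (S.att u) (S.att v) (S.att u⁻¹))

/-- oriented lines with the region of `v` on the left and the region of `w` on the right. -/
def Sep (v w : G) : Set G := {u | u ∈ F.U ∧ F.H u v ∧ ¬ F.H u w}

/-- `v` and `w` have the same region on their left. -/
def Adj (v w : G) : Prop := ∀ u ∈ F.U, (F.H u v ↔ F.H u w)

end Fam

/-- enumeration of the lines of the family `F` that cross the axis of `c`. -/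
structure Crs {S : Sys G C} (F : Fam S) (c : G) where
  m : ℕ
  pos : 0 < m
  u : ℤ → G
  mem : ∀ i, u i ∈ F.U
  crs : ∀ i, S.PosX c (u i)
  lt : ∀ i j, i < j → S.Bef c (u i) (u j)
  all : ∀ w ∈ F.U, S.PosX c w → ∃ i, w = u i
  per : ∀ i, u (i + m) = c * u i * c⁻¹

/-- `pr u e n = u 0 ^ e 0 * u 1 ^ e 1 * ... * u (n-1) ^ e (n-1)`. -/
def pr {G : Type*} [Group G] (u : ℕ → G) (e : ℕ → ℤ) : ℕ → G
  | 0 => 1
  | n + 1 => pr u e n * u n ^ e n

/-- `K.g e n = (u 1) ^ e (u 1) * ... * (u n) ^ e (u n)`. -/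
def Crs.g {S : Sys G C} {F : Fam S} {c : G} (K : Crs F c) (e : Wt G) (n : ℕ) : G :=
  pr (fun k => K.u (k + 1)) (fun k => e.e (K.u (k + 1))) n

end H21D
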