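import Pool.Agent.Lib.H21D.A3

/-! # E1: the distances `dist b` -/
namespace H21D
section pts

variable {C : Type*} [LinearOrder C]

theorem e1_ord {a a' p q : C} (h : p ≠ q) (h1 : p = a ∨ cyc a p a') (h2 : q = a ∨ cyc a q a') :
    ((p = a ∨ cyc a p q) ∧ cyc a q a') ∨ ((q = a ∨ cyc a q p) ∧ cyc a p a') := by
  rcases h1 with h1 | h1
  · rcases h2 with h2 | h2
    · exact absurd (h1.trans h2.symm) h
    · exact Or.inl ⟨Or.inl h1, h2⟩
  · rcases h2 with h2 | h2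
    · exact Or.inr ⟨Or.inl h2, h1⟩
    · rcases cyc_total (cyc_ne₁₂ h1) h (cyc_ne₁₂ h2) with h3 | h3
      · exact Or.inl ⟨Or.inr h3, h2⟩
      · exact Or.inr ⟨Or.inr (cyc_rot' (cyc_rot' (cyc_rot' (cyc_rot' h3)))), h1⟩

theorem e1_a {a a' w y : C} (h2 : cyc a y a') (h4 : cyc a' w a) : cyc w a y := by
  (obtain ⟨lab, hlab⟩ := H21D.exists_lab [a, a', w, y]; simp only [List.forall_mem_cons, List.not_mem_nil, IsEmpty.forall_iff, implies_true, and_true, forall_eq_or_imp, List.mem_cons, forall_eq, or_false] at hlab; simp only [H21D.cyc, H21D.cyc4, H21D.arc, ne_eq, hlab] at *; omega)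

theorem e1_b {w x y a : C} (h : cyc w a y) (h1 : cyc a x y) : cyc w x y ∧ cyc w a x := by
  constructor
  · (obtain ⟨lab, hlab⟩ := H21D.exists_lab [w, x, y, a]; simp only [List.forall_mem_cons, List.not_mem_nil, IsEmpty.forall_iff, implies_true, and_true, forall_eq_or_imp, List.mem_cons, forall_eq, or_false] at hlab; simp only [H21D.cyc, H21D.cyc4, H21D.arc, ne_eq, hlab] at *; omega)
  · (obtain ⟨lab, hlab⟩ := H21D.exists_lab [w, x, y, a]; simp only [List.forall_mem_cons, List.not_mem_nil, IsEmpty.forall_iff, implies_true, and_true, forall_eq_or_imp, List.mem_cons, forall_eq, or_false] at hlab; simp only [H21D.cyc, H21D.cyc4, H21D.arc, ne_eq, hlab] at *; omega)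

/-- the cyclic order of the six points -/
theorem e1_pts {a a' x y z w : C} (h1 : x = a ∨ cyc a x y) (h2 : cyc a y a') (h3 : z = a' ∨ cyc a' z w)
    (h4 : cyc a' w a) : cyc4 w x y z ∧ arc w x a ∧ arc y z a' := by
  have k1 : cyc w a y := e1_a h2 h4
  have k2 : cyc y a' w := e1_a h4 h2
  have k3 : cyc w x y ∧ arc w x a := by
    rcases h1 with rfl | h1
    · exact ⟨k1, Or.inr (Or.inl rfl)⟩
    · obtain ⟨l1, l2⟩ := e1_b k1 h1
      exact ⟨l1, Or.inr (Or.inr l2)⟩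
  have k4 : cyc y z w ∧ arc y z a' := by
    rcases h3 with rfl | h3
    · exact ⟨k2, Or.inr (Or.inl rfl)⟩
    · obtain ⟨l1, l2⟩ := e1_b k2 h3
      exact ⟨l1, Or.inr (Or.inr l2)⟩
  exact ⟨⟨k3.1, cyc_rot' k4.1⟩, k3.2, k4.2⟩

theorem e1_ex {a a' p q r s : C} (hpq : p ≠ q) (hrs : r ≠ s) (h1 : p = a ∨ cyc a p a') (h2 : q = a ∨ cyc a q a')
    (h3 : r = a' ∨ cyc a' r a) (h4 : s = a' ∨ cyc a' s a) : ∃ x y z w : C, (x = p ∨ x = q) ∧ (y = p ∨ y = q) ∧
      (z = r ∨ z = s) ∧ (w = r ∨ w = s) ∧ cyc4 w x y z ∧ arc w x a ∧ arc y z a' := by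
  rcases e1_ord hpq h1 h2 with ⟨k1, k2⟩ | ⟨k1, k2⟩
  · rcases e1_ord hrs h3 h4 with ⟨l1, l2⟩ | ⟨l1, l2⟩
    · exact ⟨p, q, r, s, Or.inl rfl, Or.inr rfl, Or.inl rfl, Or.inr rfl, e1_pts k1 k2 l1 l2⟩
    · exact ⟨p, q, s, r, Or.inl rfl, Or.inr rfl, Or.inr rfl, Or.inl rfl, e1_pts k1 k2 l1 l2⟩
  · rcases e1_ord hrs h3 h4 with ⟨l1, l2⟩ | ⟨l1, l2⟩
    · exact ⟨q, p, r, s, Or.inr rfl, Or.inl rfl, Or.inl rfl, Or.inr rfl, e1_pts k1 k2 l1 l2⟩
    · exact ⟨q, p, s, r, Or.inr rfl, Or.inl rfl, Or.inr rfl, Or.inl rfl, e1_pts k1 k2 l1 l2⟩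

end pts

namespace Sys
variable {G C : Type*} [Group G] [LinearOrder C] [MulAction G C] (S : Sys G C)

/-- two of the three points are on the side -/
theorem e1_two {S : Sys G C} {δ : G} {T : C × C × C} (hT : Dst T) (h : S.maj δ T) :
    ∃ p ∈ ({T.1, T.2.1, T.2.2} : Set C), ∃ q ∈ ({T.1, T.2.1, T.2.2} : Set C), p ≠ q ∧ S.In δ p ∧ S.In δ q := by
  rcases h with ⟨h1, h2⟩ | ⟨h1, h2⟩ | ⟨h1, h2⟩
  · exact ⟨T.1, by simp, T.2.1, by simp, hT.1, h1, h2⟩
  · exact ⟨T.1, by simp, T.2.2, by simp, hT.2.1, h1, h2⟩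
  · exact ⟨T.2.1, by simp, T.2.2, by simp, hT.2.2, h1, h2⟩

theorem e1_lf {S : Sys G C} {b : G} (hb : b ≠ 1) (x y z w : C) :
    {δ : G | δ ∈ cls b ∧ cyc4 w x y z ∧ arc w x (S.att δ) ∧ arc y z (S.att δ⁻¹)}.Finite := by
  by_cases h : cyc4 w x y z
  · refine ((S.lf hb h).union (S.lf (inv_ne_one.2 hb) h)).subset ?_
    rintro δ ⟨⟨k, hk | hk⟩, -, h1, h2⟩
    · exact Or.inl ⟨⟨k, hk⟩, h1, h2⟩
    · exact Or.inr ⟨⟨k, hk⟩, h1, h2⟩
  · refine Set.finite_empty.subset ?_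
    rintro δ ⟨-, h1, -⟩
    exact absurd h1 h

/-- Each side of a separating `δ` contains two points of `T`, resp. of `T'`: for `p ≠ q` among the
points of `T` and `r ≠ s` among those of `T'` use `S.lf` (for `b` and for `b⁻¹`). -/
theorem sep_fin {b : G} (hb : b ≠ 1) {T T' : C × C × C} (hT : Dst T) (hT' : Dst T') :
    (S.sepSet b T T').Finite := by
  have hA : ({T.1, T.2.1, T.2.2} : Set C).Finite := Set.toFinite _
  have hA' : ({T'.1, T'.2.1, T'.2.2} : Set C).Finite := Set.toFinite _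
  refine (hA.biUnion fun x _ => hA.biUnion fun y _ => hA'.biUnion fun z _ => hA'.biUnion fun w _ =>
    e1_lf (S := S) hb x y z w).subset ?_
  rintro δ ⟨hδ, h1, h2⟩
  have hδ1 : δ ≠ 1 := cls_ne_one hb hδ
  obtain ⟨p, hp, q, hq, hpq, hp', hq'⟩ := e1_two hT h1
  rw [← S.maj_inv hδ1] at h2
  obtain ⟨r, hr, s, hs, hrs, hr', hs'⟩ := e1_two hT' h2
  unfold In at hp' hq' hr' hs'
  rw [inv_inv] at hr' hs'
  obtain ⟨x, y, z, w, hx, hy, hz, hw, h3, h4, h5⟩ := e1_ex hpq hrs hp' hq' hr' hs'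
  have hx' : x ∈ ({T.1, T.2.1, T.2.2} : Set C) := by rcases hx with rfl | rfl <;> assumption
  have hy' : y ∈ ({T.1, T.2.1, T.2.2} : Set C) := by rcases hy with rfl | rfl <;> assumption
  have hz' : z ∈ ({T'.1, T'.2.1, T'.2.2} : Set C) := by rcases hz with rfl | rfl <;> assumption
  have hw' : w ∈ ({T'.1, T'.2.1, T'.2.2} : Set C) := by rcases hw with rfl | rfl <;> assumption
  simp only [Set.mem_iUnion]
  exact ⟨x, hx', y, hy', z, hz', w, hw', hδ, h3, h4, h5⟩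

theorem dist_self (b : G) (T : C × C × C) : S.dist b T T = 0 := by
  unfold dist
  have h : S.sepSet b T T = ∅ := by
    ext δ
    constructor
    · rintro ⟨-, h1, h2⟩
      exact absurd h1 h2
    · intro h
      exact absurd h (Set.notMem_empty δ)
  rw [h, Set.ncard_empty]

theorem dist_symm {b : G} (hb : b ≠ 1) (T T' : C × C × C) : S.dist b T T' = S.dist b T' T := by
  unfold dist
  have h : S.sepSet b T' T = (fun δ : G => δ⁻¹) '' S.sepSet b T T' := by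
    ext δ
    constructor
    · rintro ⟨h1, h2, h3⟩
      have h0 := cls_ne_one hb h1
      refine ⟨δ⁻¹, ⟨cls_inv h1, ?_, ?_⟩, inv_inv δ⟩
      · rwa [S.maj_inv h0]
      · rw [S.maj_inv h0]
        exact not_not.2 h2
    · rintro ⟨δ', ⟨h1, h2, h3⟩, rfl⟩
      have h0 := cls_ne_one hb h1
      refine ⟨cls_inv h1, ?_, ?_⟩
      · rwa [S.maj_inv h0]
      · rw [S.maj_inv h0]
        exact not_not.2 h2
  rw [h, Set.ncard_image_of_injective _ inv_injective]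

theorem dist_triangle {b : G} (hb : b ≠ 1) {T T' T'' : C × C × C} (hT : Dst T)
    (hT' : Dst T') (hT'' : Dst T'') : S.dist b T T'' ≤ S.dist b T T' + S.dist b T' T'' := by
  unfold dist
  have h1 := S.sep_fin hb hT hT'
  have h2 := S.sep_fin hb hT' hT''
  refine (Set.ncard_le_ncard ?_ (h1.union h2)).trans (Set.ncard_union_le _ _)
  rintro δ ⟨h3, h4, h5⟩
  by_cases h6 : S.maj δ T'
  · exact Or.inr ⟨h3, h6, h5⟩
  · exact Or.inl ⟨h3, h4, h6⟩

theorem dist_smul (g : G) {b : G} (hb : b ≠ 1) (T T' : C × C × C) :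
    S.dist b (g • T) (g • T') = S.dist b T T' := by
  unfold dist
  have h : S.sepSet b (g • T) (g • T') = (fun δ : G => g * δ * g⁻¹) '' S.sepSet b T T' := by
    ext δ
    constructor
    · rintro ⟨h1, h2, h3⟩
      have h0 : g⁻¹ * δ * g⁻¹⁻¹ ∈ cls b := cls_conj g⁻¹ h1
      have e : δ = g * (g⁻¹ * δ * g⁻¹⁻¹) * g⁻¹ := by group
      have h4 := cls_ne_one hb h0
      rw [e, S.maj_conj g h4] at h2 h3
      exact ⟨_, ⟨h0, h2, h3⟩, e.symm⟩
    · rintro ⟨δ', ⟨h1, h2, h3⟩, rfl⟩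
      have h0 := cls_ne_one hb h1
      refine ⟨cls_conj g h1, ?_, ?_⟩
      · show S.maj (g * δ' * g⁻¹) (g • T)
        rwa [S.maj_conj g h0]
      · show ¬ S.maj (g * δ' * g⁻¹) (g • T')
        rwa [S.maj_conj g h0]
  rw [h, Set.ncard_image_of_injective _ (fun x y hxy => by
    have h1 : g * x * g⁻¹ = g * y * g⁻¹ := hxy
    rwa [mul_left_inj, mul_right_inj] at h1)]

theorem Dst_smul (g : G) {T : C × C × C} (hT : Dst T) : Dst (g • T) := by
  obtain ⟨h1, h2, h3⟩ := hT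
  exact ⟨fun e => h1 (smul_left_cancel g e), fun e => h2 (smul_left_cancel g e), fun e => h3 (smul_left_cancel g e)⟩

theorem dist_cls {b b' : G} (h : b' ∈ cls b) (T T' : C × C × C) :
    S.dist b' T T' = S.dist b T T' := by
  unfold dist sepSet
  rw [cls_eq h]

end Sys
end H21D
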