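import Pool.Agent.Lib.H21D.A3

/-! # E2: counting orbits -/
namespace H21D
namespace Sys
variable {G C : Type*} [Group G] [LinearOrder C] [MulAction G C] (S : Sys G C)

/-- Pure counting: let `X` be a set of elements `≠ 1` invariant under conjugation by `a` on which the
powers of `a` act freely, and `D ⊆ X` a set that meets each orbit in exactly one element.  Then
`orbCard a X = D.ncard`. -/
theorem orbCard_eq_ncard (a : G) (X D : Set G) (hD : D ⊆ X)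
    (hex : ∀ w ∈ X, ∃ k : ℤ, a ^ k * w * (a ^ k)⁻¹ ∈ D)
    (hun : ∀ w ∈ D, ∀ k : ℤ, a ^ k * w * (a ^ k)⁻¹ ∈ D → a ^ k * w * (a ^ k)⁻¹ = w) :
    orbCard a X = D.ncard := by
  unfold orbCard
  rw [← Nat.card_coe_set_eq]
  symm
  refine Nat.card_congr (Equiv.ofBijective
    (fun w : D => (Quotient.mk (orbRel a X) ⟨w.1, hD w.2⟩)) ⟨?_, ?_⟩)
  · intro w w' h
    have h1 := Quotient.exact h
    obtain ⟨k, hk⟩ := h1
    have hk' : (w' : G) = a ^ k * w * (a ^ k)⁻¹ := hk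
    refine Subtype.ext ?_
    rw [hk']
    exact (hun w.1 w.2 k (by rw [← hk']; exact w'.2)).symm
  · intro q
    induction q using Quotient.inductionOn with
    | h w =>
      obtain ⟨k, hk⟩ := hex w.1 w.2
      refine ⟨⟨_, hk⟩, ?_⟩
      refine Quotient.sound ?_
      refine ⟨-k, ?_⟩
      show (w : G) = a ^ (-k) * (a ^ k * w * (a ^ k)⁻¹) * (a ^ (-k))⁻¹
      group

theorem e2_mono (a : G) (X : Set G) (P : G → Prop)
    (hX : ∀ w ∈ X, ∀ k : ℤ, a ^ k * w * (a ^ k)⁻¹ ∈ X)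
    (hmono : ∀ w ∈ X, P ((a : G)⁻¹ * w * a) → P w) (n : ℕ) :
    ∀ w ∈ X, P ((a ^ n)⁻¹ * w * a ^ n) → P w := by
  induction n with
  | zero =>
    intro w _ h
    simpa using h
  | succ n ih =>
    intro w hw h
    apply ih w hw
    have h1 : (a ^ n)⁻¹ * w * a ^ n ∈ X := by
      have h2 := hX w hw (-(n : ℤ))
      have h3 : a ^ (-(n : ℤ)) * w * (a ^ (-(n : ℤ)))⁻¹ = (a ^ n)⁻¹ * w * a ^ n := by
        rw [zpow_neg, zpow_natCast, inv_inv]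
      rwa [h3] at h2
    apply hmono _ h1
    have h4 : a⁻¹ * ((a ^ n)⁻¹ * w * a ^ n) * a = (a ^ (n + 1))⁻¹ * w * a ^ (n + 1) := by
      rw [pow_succ]
      group
    rw [h4]
    exact h

theorem e2_mem (a : G) (X : Set G)
    (hX : ∀ w ∈ X, ∀ k : ℤ, a ^ k * w * (a ^ k)⁻¹ ∈ X) (n : ℕ) (w : G) (hw : w ∈ X) :
    (a ^ n)⁻¹ * w * a ^ n ∈ X ∧ a ^ n * w * (a ^ n)⁻¹ ∈ X := by
  constructor
  · have h2 := hX w hw (-(n : ℤ))
    rwa [zpow_neg, zpow_natCast, inv_inv] at h2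
  · have h2 := hX w hw (n : ℤ)
    rwa [zpow_natCast] at h2

theorem e2_ex (a : G) (X : Set G) (P : G → Prop)
    (hX : ∀ w ∈ X, ∀ k : ℤ, a ^ k * w * (a ^ k)⁻¹ ∈ X)
    (htop : ∀ w ∈ X, ∃ n : ℕ, P (a ^ n * w * (a ^ n)⁻¹))
    (hbot : ∀ w ∈ X, ∃ n : ℕ, ¬ P ((a ^ n)⁻¹ * w * a ^ n)) :
    ∀ w ∈ X, ∃ k : ℤ, a ^ k * w * (a ^ k)⁻¹ ∈ {w ∈ X | P w ∧ ¬ P ((a : G)⁻¹ * w * a)} := by
  classical
  intro w hw
  obtain ⟨n, hn⟩ := htop w hw
  have hw' := (e2_mem a X hX n w hw).2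
  have hb := hbot _ hw'
  have hspec := Nat.find_spec hb
  have hmin := @Nat.find_min _ _ hb
  generalize Nat.find hb = t at hspec hmin
  have ht : t ≠ 0 := by
    rintro rfl
    apply hspec
    simpa using hn
  obtain ⟨s, rfl⟩ : ∃ s, t = s + 1 := ⟨t - 1, by omega⟩
  have h1 := hmin (Nat.lt_succ_self s)
  rw [not_not] at h1
  refine ⟨(n : ℤ) - (s : ℤ), ?_⟩
  have e1 : a ^ ((n : ℤ) - (s : ℤ)) * w * (a ^ ((n : ℤ) - (s : ℤ)))⁻¹ =
      (a ^ s)⁻¹ * (a ^ n * w * (a ^ n)⁻¹) * a ^ s := by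
    have e2 : a ^ ((n : ℤ) - (s : ℤ)) = (a ^ s)⁻¹ * a ^ n := by
      rw [sub_eq_neg_add, zpow_add, zpow_neg, zpow_natCast, zpow_natCast]
    rw [e2]
    group
  refine ⟨?_, ?_, ?_⟩
  · rw [e1]
    exact (e2_mem a X hX s _ hw').1
  · rw [e1]
    exact h1
  · rw [e1]
    intro h2
    apply hspec
    have e3 : (a ^ (s + 1))⁻¹ * (a ^ n * w * (a ^ n)⁻¹) * a ^ (s + 1) =
        a⁻¹ * ((a ^ s)⁻¹ * (a ^ n * w * (a ^ n)⁻¹) * a ^ s) * a := by
      rw [pow_succ]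
      group
    rw [e3]
    exact h2

theorem e2_un (a : G) (X : Set G) (P : G → Prop)
    (hX : ∀ w ∈ X, ∀ k : ℤ, a ^ k * w * (a ^ k)⁻¹ ∈ X)
    (hmono : ∀ w ∈ X, P ((a : G)⁻¹ * w * a) → P w) :
    ∀ w ∈ {w ∈ X | P w ∧ ¬ P ((a : G)⁻¹ * w * a)}, ∀ k : ℤ,
      a ^ k * w * (a ^ k)⁻¹ ∈ {w ∈ X | P w ∧ ¬ P ((a : G)⁻¹ * w * a)} → k = 0 := by
  rintro w ⟨hw, hP, hnP⟩ k ⟨hw', hP', hnP'⟩
  rcases lt_trichotomy k 0 with hk | hk | hk
  · exfalso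
    obtain ⟨n, rfl⟩ : ∃ n : ℕ, k = -((n : ℤ) + 1) := ⟨k.natAbs - 1, by omega⟩
    have h1 : a⁻¹ * w * a ∈ X := by
      have h2 := (e2_mem a X hX 1 w hw).1
      rwa [pow_one] at h2
    apply hnP
    apply e2_mono a X P hX hmono n _ h1
    have e1 : a ^ (-((n : ℤ) + 1)) * w * (a ^ (-((n : ℤ) + 1)))⁻¹ = (a ^ n)⁻¹ * (a⁻¹ * w * a) * a ^ n := by
      rw [zpow_neg, zpow_add, zpow_natCast, zpow_one]
      group
    rw [e1] at hP'
    exact hP'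
  · exact hk
  · exfalso
    obtain ⟨n, rfl⟩ : ∃ n : ℕ, k = (n : ℤ) + 1 := ⟨k.natAbs - 1, by omega⟩
    have h1 : a⁻¹ * (a ^ ((n : ℤ) + 1) * w * (a ^ ((n : ℤ) + 1))⁻¹) * a ∈ X := by
      have h2 := (e2_mem a X hX 1 _ hw').1
      rwa [pow_one] at h2
    apply hnP'
    apply e2_mono a X P hX hmono n _ h1
    have e1 : (a ^ n)⁻¹ * (a⁻¹ * (a ^ ((n : ℤ) + 1) * w * (a ^ ((n : ℤ) + 1))⁻¹) * a) * a ^ n = w := by
      rw [zpow_add, zpow_natCast, zpow_one]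
      group
    rw [e1]
    exact hP

/-- Let `P : G → Prop` and let `X` be a set invariant under conjugation by `a`.  Suppose that for each
`w ∈ X` the sequence `P ((a ^ n)⁻¹ * w * a ^ n)` (`n : ℤ`) is decreasing from `True` to `False`.
Then for all `N`,
`{w ∈ X | P w ∧ ¬ P ((a ^ N)⁻¹ * w * a ^ N)}` has `N * orbCard a X` elements
(if it is finite for `N = 1`). -/
theorem ncard_switch (a : G) (X : Set G) (P : G → Prop)
    (hX : ∀ w ∈ X, ∀ k : ℤ, a ^ k * w * (a ^ k)⁻¹ ∈ X)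
    (hfree : ∀ w ∈ X, ∀ k : ℤ, a ^ k * w * (a ^ k)⁻¹ = w → k = 0)
    (hmono : ∀ w ∈ X, P ((a : G)⁻¹ * w * a) → P w)
    (htop : ∀ w ∈ X, ∃ n : ℕ, P (a ^ n * w * (a ^ n)⁻¹))
    (hbot : ∀ w ∈ X, ∃ n : ℕ, ¬ P ((a ^ n)⁻¹ * w * a ^ n))
    (hfin : {w ∈ X | P w ∧ ¬ P ((a : G)⁻¹ * w * a)}.Finite) (N : ℕ) :
    {w ∈ X | P w ∧ ¬ P ((a ^ N)⁻¹ * w * a ^ N)}.ncard = N * orbCard a X := by
  have hD : orbCard a X = {w ∈ X | P w ∧ ¬ P ((a : G)⁻¹ * w * a)}.ncard := by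
    refine orbCard_eq_ncard a X _ (fun w hw => hw.1) (e2_ex a X P hX htop hbot) ?_
    intro w hw k hk
    have h0 := e2_un a X P hX hmono w hw k hk
    subst h0
    simp
  rw [hD]
  have key : {w ∈ X | P w ∧ ¬ P ((a ^ N)⁻¹ * w * a ^ N)}.Finite ∧
      {w ∈ X | P w ∧ ¬ P ((a ^ N)⁻¹ * w * a ^ N)}.ncard =
        N * {w ∈ X | P w ∧ ¬ P ((a : G)⁻¹ * w * a)}.ncard := by
    induction N with
    | zero =>
      have h0 : {w ∈ X | P w ∧ ¬ P ((a ^ 0)⁻¹ * w * a ^ 0)} = ∅ := by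
        ext w
        simp only [pow_zero, inv_one, one_mul, mul_one]
        constructor
        · rintro ⟨_, h1, h2⟩
          exact absurd h1 h2
        · intro h
          exact absurd h (Set.notMem_empty w)
      rw [h0]
      simp
    | succ N ih =>
      have hinj : Function.Injective (fun w : G => a ^ N * w * (a ^ N)⁻¹) := by
        intro x y hxy
        have h1 : a ^ N * x * (a ^ N)⁻¹ = a ^ N * y * (a ^ N)⁻¹ := hxy
        exact mul_left_cancel (mul_right_cancel h1)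
      have hU : {w ∈ X | P w ∧ ¬ P ((a ^ (N + 1))⁻¹ * w * a ^ (N + 1))} =
          {w ∈ X | P w ∧ ¬ P ((a ^ N)⁻¹ * w * a ^ N)} ∪
            (fun w : G => a ^ N * w * (a ^ N)⁻¹) '' {w ∈ X | P w ∧ ¬ P ((a : G)⁻¹ * w * a)} := by
        have e3 : ∀ w : G, (a ^ (N + 1))⁻¹ * w * a ^ (N + 1) = a⁻¹ * ((a ^ N)⁻¹ * w * a ^ N) * a := by
          intro w
          rw [pow_succ]
          group
        ext w
        constructor
        · rintro ⟨h1, h2, h3⟩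
          by_cases h4 : P ((a ^ N)⁻¹ * w * a ^ N)
          · right
            refine ⟨(a ^ N)⁻¹ * w * a ^ N, ⟨(e2_mem a X hX N w h1).1, h4, ?_⟩, ?_⟩
            · rw [← e3]
              exact h3
            · show a ^ N * ((a ^ N)⁻¹ * w * a ^ N) * (a ^ N)⁻¹ = w
              group
          · left
            exact ⟨h1, h2, h4⟩
        · rintro (⟨h1, h2, h3⟩ | ⟨v, ⟨h1, h2, h3⟩, rfl⟩)
          · refine ⟨h1, h2, ?_⟩
            rw [e3]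
            intro h4
            exact h3 (hmono _ (e2_mem a X hX N w h1).1 h4)
          · have e4 : (a ^ N)⁻¹ * (a ^ N * v * (a ^ N)⁻¹) * a ^ N = v := by group
            refine ⟨(e2_mem a X hX N v h1).2, ?_, ?_⟩
            · apply e2_mono a X P hX hmono N _ (e2_mem a X hX N v h1).2
              show P ((a ^ N)⁻¹ * (a ^ N * v * (a ^ N)⁻¹) * a ^ N)
              rw [e4]
              exact h2
            · show ¬ P ((a ^ (N + 1))⁻¹ * (a ^ N * v * (a ^ N)⁻¹) * a ^ (N + 1))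
              rw [e3, e4]
              exact h3
      have hdisj : Disjoint {w ∈ X | P w ∧ ¬ P ((a ^ N)⁻¹ * w * a ^ N)}
          ((fun w : G => a ^ N * w * (a ^ N)⁻¹) '' {w ∈ X | P w ∧ ¬ P ((a : G)⁻¹ * w * a)}) := by
        rw [Set.disjoint_left]
        rintro w ⟨_, _, h3⟩ ⟨v, ⟨_, h2, _⟩, rfl⟩
        apply h3
        have e4 : (a ^ N)⁻¹ * (a ^ N * v * (a ^ N)⁻¹) * a ^ N = v := by group
        show P ((a ^ N)⁻¹ * (a ^ N * v * (a ^ N)⁻¹) * a ^ N)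
        rw [e4]
        exact h2
      rw [hU]
      refine ⟨ih.1.union (hfin.image _), ?_⟩
      rw [Set.ncard_union_eq hdisj ih.1 (hfin.image _), ih.2, Set.ncard_image_of_injective _ hinj]
      ring
  exact key.2

/-- finiteness under the same assumptions -/
theorem finite_switch (a : G) (X : Set G) (P : G → Prop)
    (hX : ∀ w ∈ X, ∀ k : ℤ, a ^ k * w * (a ^ k)⁻¹ ∈ X)
    (hmono : ∀ w ∈ X, P ((a : G)⁻¹ * w * a) → P w)
    (htop : ∀ w ∈ X, ∃ n : ℕ, P (a ^ n * w * (a ^ n)⁻¹))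
    (hbot : ∀ w ∈ X, ∃ n : ℕ, ¬ P ((a ^ n)⁻¹ * w * a ^ n))
    (hfin : {w ∈ X | P w ∧ ¬ P ((a : G)⁻¹ * w * a)}.Finite) :
    Finite (Quotient (orbRel a X)) := by
  have hF : Finite {w ∈ X | P w ∧ ¬ P ((a : G)⁻¹ * w * a)} := hfin.to_subtype
  refine Finite.of_surjective
    (fun w : {w ∈ X | P w ∧ ¬ P ((a : G)⁻¹ * w * a)} => (Quotient.mk (orbRel a X) ⟨w.1, w.2.1⟩)) ?_
  intro q
  induction q using Quotient.inductionOn with
  | h w =>
    obtain ⟨k, hk⟩ := e2_ex a X P hX htop hbot w.1 w.2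
    refine ⟨⟨_, hk⟩, ?_⟩
    refine Quotient.sound ?_
    refine ⟨-k, ?_⟩
    show (w : G) = a ^ (-k) * (a ^ k * w * (a ^ k)⁻¹) * (a ^ (-k))⁻¹
    group

end Sys
end H21D
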