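import Pool.Agent.Lib.H21D.E1
import Pool.Agent.Lib.H21D.E2

/-! # E3: displacements along an axis -/
namespace H21D
namespace Sys
variable {G C : Type*} [Group G] [LinearOrder C] [MulAction G C] (S : Sys G C)

theorem e3_left {a : G} (ha : a ≠ 1) {ξ : C} (h : cyc (S.att a) ξ (S.att a⁻¹)) {N : ℕ} (hN : 0 < N) :
    cyc4 (S.att a) (a ^ N • ξ) ξ (S.att a⁻¹) := by
  have h0 := S.pow_ne_one ha hN
  have h1 := S.mono_left h0 (ξ := ξ)
  rw [S.att_pow ha hN, S.att_pow_inv ha hN] at h1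
  exact h1 h

theorem e3_right {a : G} (ha : a ≠ 1) {ξ : C} (h : cyc (S.att a⁻¹) ξ (S.att a)) {N : ℕ} (hN : 0 < N) :
    cyc4 (S.att a⁻¹) ξ (a ^ N • ξ) (S.att a) := by
  have h0 := S.pow_ne_one ha hN
  have h1 := S.mono_right h0 (ξ := ξ)
  rw [S.att_pow ha hN, S.att_pow_inv ha hN] at h1
  exact h1 h

theorem e3_case1 {x y z t ξ ζ : C} (n1 : x ≠ y) (h1 : ξ ≠ x) (h2 : ξ ≠ y)
    (hl : cyc x ξ y → cyc4 x ζ ξ y) (hr : cyc y ξ x → cyc4 y ξ ζ x)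
    (s2 : x = t → y = z) (s4 : y = t → x = z) (s1 : x = z → y = t)
    (hp : x = z ∨ cyc z x t) (hq : ¬ (y = z ∨ cyc z y t)) (hr1 : ξ = z ∨ cyc z ξ t) (hr2 : ¬ (ζ = z ∨ cyc z ζ t)) : False := by
  (obtain ⟨lab, hlab⟩ := H21D.exists_lab [x, y, z, t, ξ, ζ]; simp only [List.forall_mem_cons, List.not_mem_nil, IsEmpty.forall_iff, implies_true, and_true, forall_eq_or_imp, List.mem_cons, forall_eq, or_false] at hlab; simp only [H21D.cyc, H21D.cyc4, H21D.arc, ne_eq, hlab] at *; omega)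

theorem e3_case2 {x y z t ξ ζ : C} (n1 : x ≠ y) (n2 : z ≠ t) (h1 : ξ ≠ x) (h2 : ξ ≠ y)
    (hl : cyc x ξ y → cyc4 x ζ ξ y) (hr : cyc y ξ x → cyc4 y ξ ζ x)
    (s2 : x = t → y = z) (s3 : y = z → x = t)
    (hp : ¬ (x = z ∨ cyc z x t)) (hq : y = z ∨ cyc z y t) (hr1 : ξ = z ∨ cyc z ξ t) (hr2 : ¬ (ζ = z ∨ cyc z ζ t)) :
    cyc4 x z y t := by
  (obtain ⟨lab, hlab⟩ := H21D.exists_lab [x, y, z, t, ξ, ζ]; simp only [List.forall_mem_cons, List.not_mem_nil, IsEmpty.forall_iff, implies_true, and_true, forall_eq_or_imp, List.mem_cons, forall_eq, or_false] at hlab; simp only [H21D.cyc, H21D.cyc4, H21D.arc, ne_eq, hlab] at *; omega)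

theorem e3_prop {p q r r' : Prop} (hs : (p ∧ q) ∨ (p ∧ r) ∨ (q ∧ r)) (hs' : ¬((p ∧ q) ∨ (p ∧ r') ∨ (q ∧ r'))) :
    (p ∧ ¬q ∧ r ∧ ¬r') ∨ (¬p ∧ q ∧ r ∧ ¬r') := by
  tauto

/-- a separating lift crosses the axis in the positive direction. -/
theorem PosX_of_sep_axis {a δ : G} (ha : a ≠ 1) (hδ : δ ≠ 1) {ξ : C} (h1 : ξ ≠ S.att a)
    (h2 : ξ ≠ S.att a⁻¹) {N : ℕ} (hs : S.maj δ (S.att a, S.att a⁻¹, ξ))
    (hs' : ¬ S.maj δ (S.att a, S.att a⁻¹, a ^ N • ξ)) : S.PosX a δ := by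
  rcases Nat.eq_zero_or_pos N with rfl | hN
  · rw [pow_zero, one_smul] at hs'
    exact absurd hs hs'
  have hl : cyc (S.att a) ξ (S.att a⁻¹) → cyc4 (S.att a) (a ^ N • ξ) ξ (S.att a⁻¹) := fun h => S.e3_left ha h hN
  have hr : cyc (S.att a⁻¹) ξ (S.att a) → cyc4 (S.att a⁻¹) ξ (a ^ N • ξ) (S.att a) := fun h => S.e3_right ha h hN
  have s1 : S.att a = S.att δ → S.att a⁻¹ = S.att δ⁻¹ := S.shared ha hδ
  have s2 : S.att a = S.att δ⁻¹ → S.att a⁻¹ = S.att δ := S.shared' ha hδ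
  have s3 : S.att a⁻¹ = S.att δ → S.att a = S.att δ⁻¹ := fun h => by
    have := S.shared (inv_ne_one.2 ha) hδ h
    rwa [inv_inv] at this
  have s4 : S.att a⁻¹ = S.att δ⁻¹ → S.att a = S.att δ := fun h => by
    have := S.shared' (inv_ne_one.2 ha) hδ h
    rwa [inv_inv] at this
  have n1 := S.att_ne ha
  have n2 := S.att_ne hδ
  change (S.In δ (S.att a) ∧ S.In δ (S.att a⁻¹)) ∨ (S.In δ (S.att a) ∧ S.In δ ξ) ∨ (S.In δ (S.att a⁻¹) ∧ S.In δ ξ) at hs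
  change ¬ ((S.In δ (S.att a) ∧ S.In δ (S.att a⁻¹)) ∨ (S.In δ (S.att a) ∧ S.In δ (a ^ N • ξ)) ∨
    (S.In δ (S.att a⁻¹) ∧ S.In δ (a ^ N • ξ))) at hs'
  rcases e3_prop hs hs' with ⟨hp, hq, hr1, hr2⟩ | ⟨hp, hq, hr1, hr2⟩
  · exact (e3_case1 n1 h1 h2 hl hr s2 s4 s1 hp hq hr1 hr2).elim
  · exact e3_case2 n1 n2 h1 h2 hl hr s2 s3 hp hq hr1 hr2

theorem e3_maj {a w : G} (h : S.PosX a w) (η : C) : S.maj w (S.att a, S.att a⁻¹, η) ↔ S.In w η := by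
  unfold PosX at h
  unfold maj In
  dsimp only
  generalize S.att a = x at *
  generalize S.att a⁻¹ = y at *
  generalize S.att w = z at *
  generalize S.att w⁻¹ = t at *
  (obtain ⟨lab, hlab⟩ := H21D.exists_lab [x, y, z, t, η]; simp only [List.forall_mem_cons, List.not_mem_nil, IsEmpty.forall_iff, implies_true, and_true, forall_eq_or_imp, List.mem_cons, forall_eq, or_false] at hlab; simp only [H21D.cyc, H21D.cyc4, H21D.arc, ne_eq, hlab] at *; omega)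

theorem e3_conj {a w : G} (hw : w ≠ 1) (h : G) (T : C × C × C) : S.maj (h⁻¹ * w * h) T ↔ S.maj w (h • T) := by
  have hne : h⁻¹ * w * h ≠ 1 := by
    have := S.conj_ne_one h⁻¹ hw
    rwa [inv_inv] at this
  have h1 := S.maj_conj h hne T
  have e : h * (h⁻¹ * w * h) * h⁻¹ = w := by group
  rw [e] at h1
  exact h1.symm

theorem e3_smul {a : G} (ha : a ≠ 1) (N : ℕ) (ξ : C) :
    a ^ N • ((S.att a, S.att a⁻¹, ξ) : C × C × C) = (S.att a, S.att a⁻¹, a ^ N • ξ) := by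
  rw [Prod.smul_mk, Prod.smul_mk, S.pow_smul_att ha, S.pow_smul_att_inv ha]

theorem e3_smul' {a : G} (ha : a ≠ 1) (N : ℕ) (ξ : C) :
    (a ^ N)⁻¹ • ((S.att a, S.att a⁻¹, ξ) : C × C × C) = (S.att a, S.att a⁻¹, (a ^ N)⁻¹ • ξ) := by
  have h1 : (a ^ N)⁻¹ • S.att a = S.att a := by rw [inv_smul_eq_iff, S.pow_smul_att ha]
  have h2 : (a ^ N)⁻¹ • S.att a⁻¹ = S.att a⁻¹ := by rw [inv_smul_eq_iff, S.pow_smul_att_inv ha]
  rw [Prod.smul_mk, Prod.smul_mk, h1, h2]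

theorem e3_X {a b : G} (ha : a ≠ 1) (hb : b ≠ 1) : ∀ w ∈ S.PosSet a b, ∀ k : ℤ, a ^ k * w * (a ^ k)⁻¹ ∈ S.PosSet a b := by
  rintro w ⟨h1, h2⟩ k
  refine ⟨cls_conj _ h1, ?_⟩
  have h3 := (S.PosX_conj (a ^ k) ha (cls_ne_one hb h1)).2 h2
  have e : a ^ k * a * (a ^ k)⁻¹ = a := by group
  rwa [e] at h3

theorem e3_Dst {a : G} (ha : a ≠ 1) {ξ : C} (h1 : ξ ≠ S.att a) (h2 : ξ ≠ S.att a⁻¹) :
    Dst ((S.att a, S.att a⁻¹, ξ) : C × C × C) := ⟨S.att_ne ha, h1.symm, h2.symm⟩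

theorem e3_mono {a b : G} (ha : a ≠ 1) (hb : b ≠ 1) {ξ : C} (h1 : ξ ≠ S.att a)
    (h2 : ξ ≠ S.att a⁻¹) : ∀ w ∈ S.PosSet a b, S.maj ((a : G)⁻¹ * w * a) (S.att a, S.att a⁻¹, ξ) →
      S.maj w (S.att a, S.att a⁻¹, ξ) := by
  rintro w ⟨hc, hp⟩ h
  rw [S.e3_conj (a := a) (cls_ne_one hb hc)] at h
  have e := S.e3_smul ha 1 ξ
  rw [pow_one] at e
  rw [e, S.e3_maj hp] at h
  rw [S.e3_maj hp]
  have hl : cyc (S.att a) ξ (S.att a⁻¹) → cyc4 (S.att a) (a • ξ) ξ (S.att a⁻¹) := S.mono_left ha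
  have hr : cyc (S.att a⁻¹) ξ (S.att a) → cyc4 (S.att a⁻¹) ξ (a • ξ) (S.att a) := S.mono_right ha
  unfold PosX at hp
  unfold In at h ⊢
  clear e ha hb hc
  generalize a • ξ = ζ at *
  generalize S.att a = x at *
  generalize S.att a⁻¹ = y at *
  generalize S.att w = z at *
  generalize S.att w⁻¹ = t at *
  (obtain ⟨lab, hlab⟩ := H21D.exists_lab [x, y, z, t, ξ, ζ]; simp only [List.forall_mem_cons, List.not_mem_nil, IsEmpty.forall_iff, implies_true, and_true, forall_eq_or_imp, List.mem_cons, forall_eq, or_false] at hlab; simp only [H21D.cyc, H21D.cyc4, H21D.arc, ne_eq, hlab] at *; omega)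

theorem e3_top {a b : G} (ha : a ≠ 1) (hb : b ≠ 1) {ξ : C} (h1 : ξ ≠ S.att a) :
    ∀ w ∈ S.PosSet a b, ∃ n : ℕ, S.maj (a ^ n * w * (a ^ n)⁻¹) (S.att a, S.att a⁻¹, ξ) := by
  rintro w ⟨hc, hp⟩
  have hcyc : cyc (S.att w) (S.att a⁻¹) (S.att w⁻¹) := by
    unfold PosX at hp
    generalize S.att a = x at *
    generalize S.att a⁻¹ = y at *
    generalize S.att w = z at *
    generalize S.att w⁻¹ = t at *
    clear h1
    (obtain ⟨lab, hlab⟩ := H21D.exists_lab [x, y, z, t]; simp only [List.forall_mem_cons, List.not_mem_nil, IsEmpty.forall_iff, implies_true, and_true, forall_eq_or_imp, List.mem_cons, forall_eq, or_false] at hlab; simp only [H21D.cyc, H21D.cyc4, H21D.arc, ne_eq, hlab] at *; omega)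
  obtain ⟨N, hN⟩ := S.dyn_inv ha h1 hcyc
  refine ⟨N, ?_⟩
  have e := S.e3_conj (a := a) (cls_ne_one hb hc) (a ^ N)⁻¹ ((S.att a, S.att a⁻¹, ξ) : C × C × C)
  rw [inv_inv] at e
  rw [e, S.e3_smul' ha, S.e3_maj hp]
  exact Or.inr (hN N le_rfl)

theorem e3_bot {a b : G} (ha : a ≠ 1) (hb : b ≠ 1) {ξ : C} (h2 : ξ ≠ S.att a⁻¹) :
    ∀ w ∈ S.PosSet a b, ∃ n : ℕ, ¬ S.maj ((a ^ n)⁻¹ * w * a ^ n) (S.att a, S.att a⁻¹, ξ) := by
  rintro w ⟨hc, hp⟩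
  have hcyc : cyc (S.att w⁻¹) (S.att a) (S.att w) := by
    unfold PosX at hp
    generalize S.att a = x at *
    generalize S.att a⁻¹ = y at *
    generalize S.att w = z at *
    generalize S.att w⁻¹ = t at *
    clear h2
    (obtain ⟨lab, hlab⟩ := H21D.exists_lab [x, y, z, t]; simp only [List.forall_mem_cons, List.not_mem_nil, IsEmpty.forall_iff, implies_true, and_true, forall_eq_or_imp, List.mem_cons, forall_eq, or_false] at hlab; simp only [H21D.cyc, H21D.cyc4, H21D.arc, ne_eq, hlab] at *; omega)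
  obtain ⟨N, hN⟩ := S.dyn ha h2 hcyc
  refine ⟨N, ?_⟩
  rw [S.e3_conj (a := a) (cls_ne_one hb hc), S.e3_smul ha, S.e3_maj hp]
  have h3 := hN N le_rfl
  unfold In
  generalize a ^ N • ξ = ζ at *
  generalize S.att w = z at *
  generalize S.att w⁻¹ = t at *
  clear hN hcyc hp h2
  (obtain ⟨lab, hlab⟩ := H21D.exists_lab [z, t, ζ]; simp only [List.forall_mem_cons, List.not_mem_nil, IsEmpty.forall_iff, implies_true, and_true, forall_eq_or_imp, List.mem_cons, forall_eq, or_false] at hlab; simp only [H21D.cyc, H21D.cyc4, H21D.arc, ne_eq, hlab] at *; omega)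

theorem e3_set {a b : G} (ha : a ≠ 1) (hb : b ≠ 1) {ξ : C} (h1 : ξ ≠ S.att a)
    (h2 : ξ ≠ S.att a⁻¹) (N : ℕ) :
    S.sepSet b (S.att a, S.att a⁻¹, ξ) (S.att a, S.att a⁻¹, a ^ N • ξ) =
      {w ∈ S.PosSet a b | S.maj w (S.att a, S.att a⁻¹, ξ) ∧ ¬ S.maj ((a ^ N)⁻¹ * w * a ^ N) (S.att a, S.att a⁻¹, ξ)} := by
  ext w
  constructor
  · rintro ⟨hc, hm, hm'⟩
    refine ⟨⟨hc, S.PosX_of_sep_axis ha (cls_ne_one hb hc) h1 h2 hm hm'⟩, hm, ?_⟩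
    rw [S.e3_conj (a := a) (cls_ne_one hb hc), S.e3_smul ha]
    exact hm'
  · rintro ⟨⟨hc, hp⟩, hm, hm'⟩
    refine ⟨hc, hm, ?_⟩
    rw [S.e3_conj (a := a) (cls_ne_one hb hc), S.e3_smul ha] at hm'
    exact hm'

theorem e3_fin {a b : G} (ha : a ≠ 1) (hb : b ≠ 1) {ξ : C} (h1 : ξ ≠ S.att a)
    (h2 : ξ ≠ S.att a⁻¹) :
    {w ∈ S.PosSet a b | S.maj w (S.att a, S.att a⁻¹, ξ) ∧ ¬ S.maj ((a : G)⁻¹ * w * a) (S.att a, S.att a⁻¹, ξ)}.Finite := by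
  have h := S.e3_set ha hb h1 h2 1
  rw [pow_one] at h
  rw [← h]
  have hD := S.e3_Dst ha h1 h2
  have hD' := Dst_smul (a ^ 1) hD
  rw [S.e3_smul ha, pow_one] at hD'
  exact S.sep_fin hb hD hD'

/-- the sets for `ncard_switch`: `X = S.PosSet a b`, `P δ = S.maj δ (a⁺, a⁻, ξ)`. -/
theorem dist_axis {a b : G} (ha : a ≠ 1) (hb : b ≠ 1) {ξ : C} (h1 : ξ ≠ S.att a)
    (h2 : ξ ≠ S.att a⁻¹) (N : ℕ) :
    S.dist b (S.att a, S.att a⁻¹, ξ) (S.att a, S.att a⁻¹, a ^ N • ξ) = N * S.iN a b := by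
  unfold dist
  rw [S.e3_set ha hb h1 h2 N]
  exact ncard_switch a (S.PosSet a b) (fun w => S.maj w (S.att a, S.att a⁻¹, ξ)) (S.e3_X ha hb)
    (fun w hw k hk => S.free_of_PosX ha (cls_ne_one hb hw.1) hw.2 hk) (S.e3_mono ha hb h1 h2) (S.e3_top ha hb h1)
    (S.e3_bot ha hb h2) (S.e3_fin ha hb h1 h2) N

theorem e3_pt {a : G} (ha : a ≠ 1) : ∃ ξ : C, ξ ≠ S.att a ∧ ξ ≠ S.att a⁻¹ := by
  obtain ⟨p, hp⟩ := S.dense (S.att_ne ha)
  exact ⟨p, (cyc_ne₁₂ hp).symm, cyc_ne₂₃ hp⟩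

theorem finite_iN {a b : G} (ha : a ≠ 1) (hb : b ≠ 1) :
    Finite (Quotient (orbRel a (S.PosSet a b))) := by
  obtain ⟨ξ, h1, h2⟩ := S.e3_pt ha
  exact finite_switch a (S.PosSet a b) (fun w => S.maj w (S.att a, S.att a⁻¹, ξ)) (S.e3_X ha hb)
    (S.e3_mono ha hb h1 h2) (S.e3_top ha hb h1) (S.e3_bot ha hb h2) (S.e3_fin ha hb h1 h2)

theorem iN_eq_zero_iff {a b : G} (ha : a ≠ 1) (hb : b ≠ 1) : S.iN a b = 0 ↔ S.Disj a b := by
  have hfin := S.finite_iN ha hb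
  unfold iN orbCard
  rw [Nat.card_eq_zero]
  constructor
  · rintro (h | h) w hw hp
    · exact h.elim (Quotient.mk _ ⟨w, hw, hp⟩)
    · exact (not_finite_iff_infinite.2 h) hfin
  · intro h
    left
    refine ⟨fun q => ?_⟩
    induction q using Quotient.ind with
    | _ w => exact h w.1 w.2.1 w.2.2

/-- stable displacement -/
theorem stable {X b : G} (hX : X ≠ 1) (hb : b ≠ 1) {T : C × C × C} (hT : Dst T) :
    ∃ D : ℕ, ∀ N : ℕ, S.dist b T (X ^ N • T) ≤ N * S.iN X b + D ∧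
      N * S.iN X b ≤ S.dist b T (X ^ N • T) + D := by
  obtain ⟨ξ, h1, h2⟩ := S.e3_pt hX
  have hD := S.e3_Dst hX h1 h2
  refine ⟨S.dist b T (S.att X, S.att X⁻¹, ξ) + S.dist b (S.att X, S.att X⁻¹, ξ) T, fun N => ?_⟩
  have e1 := S.dist_axis hX hb h1 h2 N
  rw [← S.e3_smul hX] at e1
  have hDN := Dst_smul (X ^ N) hD
  have hTN := Dst_smul (X ^ N) hT
  have e2 := S.dist_smul (X ^ N) hb (S.att X, S.att X⁻¹, ξ) T
  have e3 := S.dist_smul (X ^ N) hb T (S.att X, S.att X⁻¹, ξ)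
  have t1 := S.dist_triangle hb hT hD hTN
  have t2 := S.dist_triangle hb hD hDN hTN
  have t3 := S.dist_triangle hb hD hT hDN
  have t4 := S.dist_triangle hb hT hTN hDN
  omega

end Sys
end H21D
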