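import Pool.Agent.Lib.H21D.E1
import Pool.Agent.Lib.H21D.E2

/-! # E4: displacements of a marker on the axis of `c` given by a line crossing `c` -/
namespace H21D
namespace Sys
variable {G C : Type*} [Group G] [LinearOrder C] [MulAction G C] (S : Sys G C)

/-- leaving a half open arc -/
theorem e4_exit {D E x y : C} (hDE : D ≠ E) (hx : x = D ∨ cyc D x E)
    (hy : ¬ (y = D ∨ cyc D y E)) : E = y ∨ cyc x E y := by
  (obtain ⟨lab, hlab⟩ := H21D.exists_lab [D, E, x, y]; simp only [List.forall_mem_cons, List.not_mem_nil, IsEmpty.forall_iff, implies_true, and_true, forall_eq_or_imp, List.mem_cons, forall_eq, or_false] at hlab; simp only [H21D.cyc, H21D.cyc4, H21D.arc, ne_eq, hlab] at *; omega)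

/-- entering a half open arc -/
theorem e4_enter {D E x y : C} (hx : ¬ (x = D ∨ cyc D x E))
    (hy : y = D ∨ cyc D y E) : D = y ∨ cyc x D y := by
  (obtain ⟨lab, hlab⟩ := H21D.exists_lab [D, E, x, y]; simp only [List.forall_mem_cons, List.not_mem_nil, IsEmpty.forall_iff, implies_true, and_true, forall_eq_or_imp, List.mem_cons, forall_eq, or_false] at hlab; simp only [H21D.cyc, H21D.cyc4, H21D.arc, ne_eq, hlab] at *; omega)

theorem e4_t1 {A B D x : C} (h : cyc A x B) (h' : D = B ∨ cyc x D B) : D = B ∨ cyc A D B := by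
  (obtain ⟨lab, hlab⟩ := H21D.exists_lab [A, B, D, x]; simp only [List.forall_mem_cons, List.not_mem_nil, IsEmpty.forall_iff, implies_true, and_true, forall_eq_or_imp, List.mem_cons, forall_eq, or_false] at hlab; simp only [H21D.cyc, H21D.cyc4, H21D.arc, ne_eq, hlab] at *; omega)

theorem e4_t2 {A B x y : C} (h : cyc A x B) (h' : cyc x y B) : cyc A y B := by
  (obtain ⟨lab, hlab⟩ := H21D.exists_lab [A, B, x, y]; simp only [List.forall_mem_cons, List.not_mem_nil, IsEmpty.forall_iff, implies_true, and_true, forall_eq_or_imp, List.mem_cons, forall_eq, or_false] at hlab; simp only [H21D.cyc, H21D.cyc4, H21D.arc, ne_eq, hlab] at *; omega)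

theorem e4_t3 {A B x y : C} (h : cyc A y B) (h' : cyc A x y) : cyc A x B := by
  (obtain ⟨lab, hlab⟩ := H21D.exists_lab [A, B, x, y]; simp only [List.forall_mem_cons, List.not_mem_nil, IsEmpty.forall_iff, implies_true, and_true, forall_eq_or_imp, List.mem_cons, forall_eq, or_false] at hlab; simp only [H21D.cyc, H21D.cyc4, H21D.arc, ne_eq, hlab] at *; omega)

/-- the marker `(p, q, c⁻)` with `p` on the left and `q` on the right of `c`; `(p', q')` further. -/
theorem PosX_of_sep_cross {c δ : G} (hc : c ≠ 1) (hδ : δ ≠ 1) {p q p' q' : C}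
    (h : cyc4 (S.att c) p (S.att c⁻¹) q) (h1 : cyc4 (S.att c) p' p (S.att c⁻¹) ∨ p' = p)
    (h2 : cyc4 (S.att c⁻¹) q q' (S.att c) ∨ q' = q)
    (hs : S.maj δ (p, q, S.att c⁻¹)) (hs' : ¬ S.maj δ (p', q', S.att c⁻¹)) : S.PosX c δ := by
  have hsh : S.att δ = S.att c⁻¹ → S.att δ⁻¹ = S.att c := S.shared' hδ hc
  have hne : S.att δ ≠ S.att δ⁻¹ := S.att_ne hδ
  unfold PosX
  unfold maj In at hs hs'
  simp only at hs hs'
  clear hc hδ
  generalize S.att c = A at *
  generalize S.att c⁻¹ = B at *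
  generalize S.att δ = D at *
  generalize S.att δ⁻¹ = E at *
  have hp : cyc A p B := h.1
  have hq : cyc B q A := cyc_rot h.2
  have hp' : cyc A p' B := by
    rcases h1 with h1 | rfl
    · exact e4_t3 h1.2 h1.1
    · exact hp
  have hq' : cyc B q' A := by
    rcases h2 with h2 | rfl
    · exact h2.2
    · exact hq
  have goal1 : cyc A D B → cyc B E A → cyc4 A D B E := fun u v => ⟨u, cyc_rot' v⟩
  by_cases he : (B = D ∨ cyc D B E)
  · have ha' : ¬ (p' = D ∨ cyc D p' E) := fun x => hs' (Or.inr (Or.inl ⟨x, he⟩))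
    have hb' : ¬ (q' = D ∨ cyc D q' E) := fun x => hs' (Or.inr (Or.inr ⟨x, he⟩))
    have hE : cyc B E A := by
      rcases e4_exit hne he hb' with rfl | h3
      · exact hq'
      · exact e4_t3 hq' h3
    have hD : D = B ∨ cyc A D B := e4_t1 hp' (e4_enter ha' he)
    rcases hD with hD | hD
    · exact absurd (hsh hD) (cyc_ne₂₃ hE)
    · exact goal1 hD hE
  · exfalso
    have ha : (p = D ∨ cyc D p E) := by tauto
    have hb : (q = D ∨ cyc D q E) := by tauto
    have hE := e4_exit hne ha he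
    have hD := e4_enter he hb
    have hD1 : cyc B D A := by
      rcases hD with rfl | hD
      · exact hq
      · exact e4_t3 hq hD
    have hE1 : cyc A E D := by
      clear h1 h2 hs hs' ha hb he hq' hp' goal1 h hq hsh hD
      (obtain ⟨lab, hlab⟩ := H21D.exists_lab [A, B, D, E, p]; simp only [List.forall_mem_cons, List.not_mem_nil, IsEmpty.forall_iff, implies_true, and_true, forall_eq_or_imp, List.mem_cons, forall_eq, or_false] at hlab; simp only [H21D.cyc, H21D.cyc4, H21D.arc, ne_eq, hlab] at *; omega)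
    apply hs'
    refine Or.inl ⟨?_, ?_⟩
    · rcases h1 with h1 | rfl
      · have h3 : cyc A p' E := by
          clear h2 hs hs' ha hb he hq' goal1 h hq hsh hD hD1 hE1 hp'
          (obtain ⟨lab, hlab⟩ := H21D.exists_lab [A, B, E, p, p']; simp only [List.forall_mem_cons, List.not_mem_nil, IsEmpty.forall_iff, implies_true, and_true, forall_eq_or_imp, List.mem_cons, forall_eq, or_false] at hlab; simp only [H21D.cyc, H21D.cyc4, H21D.arc, ne_eq, hlab] at *; omega)
        right
        clear h1 h2 hs hs' ha hb he hq' hp' goal1 h hq hsh hD hp hE hD1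
        (obtain ⟨lab, hlab⟩ := H21D.exists_lab [A, D, E, p']; simp only [List.forall_mem_cons, List.not_mem_nil, IsEmpty.forall_iff, implies_true, and_true, forall_eq_or_imp, List.mem_cons, forall_eq, or_false] at hlab; simp only [H21D.cyc, H21D.cyc4, H21D.arc, ne_eq, hlab] at *; omega)
      · exact ha
    · rcases h2 with h2 | rfl
      · have h3 : cyc D q' A := by
          clear h1 hs hs' ha hb he hp' goal1 h hsh hE hE1 hp hq'
          (obtain ⟨lab, hlab⟩ := H21D.exists_lab [A, B, D, q, q']; simp only [List.forall_mem_cons, List.not_mem_nil, IsEmpty.forall_iff, implies_true, and_true, forall_eq_or_imp, List.mem_cons, forall_eq, or_false] at hlab; simp only [H21D.cyc, H21D.cyc4, H21D.arc, ne_eq, hlab] at *; omega)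
        right
        clear h1 h2 hs hs' ha hb he hq' hp' goal1 h hq hsh hD hp hE hD1
        (obtain ⟨lab, hlab⟩ := H21D.exists_lab [A, D, E, q']; simp only [List.forall_mem_cons, List.not_mem_nil, IsEmpty.forall_iff, implies_true, and_true, forall_eq_or_imp, List.mem_cons, forall_eq, or_false] at hlab; simp only [H21D.cyc, H21D.cyc4, H21D.arc, ne_eq, hlab] at *; omega)
      · exact hb

/-- monotone: a lift that crosses `c` positively and has the marker `(p', q', c⁻)` on its `In` side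
also has `(p, q, c⁻)` on it. -/
theorem maj_mono {c δ : G} (hc : c ≠ 1) {p q p' q' : C} (hδ : S.PosX c δ)
    (h : cyc4 (S.att c) p (S.att c⁻¹) q) (h1 : cyc4 (S.att c) p' p (S.att c⁻¹) ∨ p' = p)
    (h2 : cyc4 (S.att c⁻¹) q q' (S.att c) ∨ q' = q)
    (hs : S.maj δ (p', q', S.att c⁻¹)) : S.maj δ (p, q, S.att c⁻¹) := by
  unfold PosX at hδ
  unfold maj In at hs ⊢
  simp only at hs ⊢
  clear hc
  generalize S.att c = A at *
  generalize S.att c⁻¹ = B at *
  generalize S.att δ = D at *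
  generalize S.att δ⁻¹ = E at *
  have hDBE : cyc D B E := by
    clear h h1 h2 hs
    (obtain ⟨lab, hlab⟩ := H21D.exists_lab [A, B, D, E]; simp only [List.forall_mem_cons, List.not_mem_nil, IsEmpty.forall_iff, implies_true, and_true, forall_eq_or_imp, List.mem_cons, forall_eq, or_false] at hlab; simp only [H21D.cyc, H21D.cyc4, H21D.arc, ne_eq, hlab] at *; omega)
  have h3 : (p' = D ∨ cyc D p' E) ∨ (q' = D ∨ cyc D q' E) := by tauto
  rcases h3 with h3 | h3
  · refine Or.inr (Or.inl ⟨?_, Or.inr hDBE⟩)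
    rcases h1 with h1 | rfl
    · right
      have h4 : p' = D ∨ cyc D p' B := by
        have h5 : cyc A p' B := e4_t3 h1.2 h1.1
        clear h h1 h2 hs hDBE
        (obtain ⟨lab, hlab⟩ := H21D.exists_lab [A, B, D, E, p']; simp only [List.forall_mem_cons, List.not_mem_nil, IsEmpty.forall_iff, implies_true, and_true, forall_eq_or_imp, List.mem_cons, forall_eq, or_false] at hlab; simp only [H21D.cyc, H21D.cyc4, H21D.arc, ne_eq, hlab] at *; omega)
      have h6 : cyc D p B := by
        have h7 : cyc p' p B := by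
          clear h h2 hs hDBE h3 h4 hδ
          (obtain ⟨lab, hlab⟩ := H21D.exists_lab [A, B, p, p']; simp only [List.forall_mem_cons, List.not_mem_nil, IsEmpty.forall_iff, implies_true, and_true, forall_eq_or_imp, List.mem_cons, forall_eq, or_false] at hlab; simp only [H21D.cyc, H21D.cyc4, H21D.arc, ne_eq, hlab] at *; omega)
        rcases h4 with rfl | h4
        · exact h7
        · exact e4_t2 h4 h7
      exact e4_t3 hDBE h6
    · exact h3
  · refine Or.inr (Or.inr ⟨?_, Or.inr hDBE⟩)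
    rcases h2 with h2 | rfl
    · right
      have h4 : cyc B q' E := by
        have h5 : cyc B q' A := h2.2
        clear h h1 h2 hs hDBE
        (obtain ⟨lab, hlab⟩ := H21D.exists_lab [A, B, D, E, q']; simp only [List.forall_mem_cons, List.not_mem_nil, IsEmpty.forall_iff, implies_true, and_true, forall_eq_or_imp, List.mem_cons, forall_eq, or_false] at hlab; simp only [H21D.cyc, H21D.cyc4, H21D.arc, ne_eq, hlab] at *; omega)
      have h6 : cyc B q E := e4_t3 h4 h2.1
      clear h h1 h2 hs h3 h4 hδ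
      (obtain ⟨lab, hlab⟩ := H21D.exists_lab [B, D, E, q]; simp only [List.forall_mem_cons, List.not_mem_nil, IsEmpty.forall_iff, implies_true, and_true, forall_eq_or_imp, List.mem_cons, forall_eq, or_false] at hlab; simp only [H21D.cyc, H21D.cyc4, H21D.arc, ne_eq, hlab] at *; omega)
    · exact h3

theorem e4_maj {c : G} (hc : c ≠ 1) (k : ℤ) {w : G} (hw : w ≠ 1) (p q : C) :
    S.maj (c ^ k * w * (c ^ k)⁻¹) (p, q, S.att c⁻¹) ↔
      S.maj w ((c ^ k)⁻¹ • p, (c ^ k)⁻¹ • q, S.att c⁻¹) := by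
  have h := S.maj_conj (c ^ k) hw ((c ^ k)⁻¹ • p, (c ^ k)⁻¹ • q, S.att c⁻¹)
  have e : c ^ k • (((c ^ k)⁻¹ • p, (c ^ k)⁻¹ • q, S.att c⁻¹) : C × C × C) =
      (p, q, S.att c⁻¹) := by
    rw [Prod.smul_mk, Prod.smul_mk, smul_inv_smul, smul_inv_smul, S.zpow_smul_att_inv hc]
  rw [e] at h
  exact h

theorem e4_maj' {c : G} (hc : c ≠ 1) (n : ℕ) {w : G} (hw : w ≠ 1) (p q : C) :
    S.maj ((c ^ n)⁻¹ * w * c ^ n) (p, q, S.att c⁻¹) ↔
      S.maj w (c ^ n • p, c ^ n • q, S.att c⁻¹) := by
  have h := S.e4_maj hc (-(n : ℤ)) hw p q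
  rw [zpow_neg, zpow_natCast, inv_inv] at h
  exact h

/-- count of the crossings with an additional property `Pf` that is invariant under `c`;
`ncard_switch` with `X = {δ | δ ∈ S.PosSet c b ∧ Pf δ}`, `P δ = S.maj δ (p, q, c⁻)`. -/
theorem ncard_cross {c b : G} (hc : c ≠ 1) (hb : b ≠ 1) (Pf : G → Prop)
    (hPf : ∀ δ, ∀ k : ℤ, Pf δ → Pf (c ^ k * δ * (c ^ k)⁻¹)) {p q : C}
    (h : cyc4 (S.att c) p (S.att c⁻¹) q) :
    {δ | δ ∈ cls b ∧ Pf δ ∧ S.maj δ (p, q, S.att c⁻¹) ∧
      ¬ S.maj δ (c • p, c • q, S.att c⁻¹)}.ncard =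
      orbCard c {δ | δ ∈ S.PosSet c b ∧ Pf δ} := by
  set X : Set G := {δ | δ ∈ S.PosSet c b ∧ Pf δ} with hXdef
  set P : G → Prop := fun δ => S.maj δ (p, q, S.att c⁻¹) with hP
  have hpL : cyc (S.att c) p (S.att c⁻¹) := h.1
  have hqR : cyc (S.att c⁻¹) q (S.att c) := by
    have := h.2
    exact cyc_rot this
  have h1 := S.mono_left hc hpL
  have h2 := S.mono_right hc hqR
  have hne1 : ∀ w ∈ X, w ≠ 1 := fun w hw => cls_ne_one hb hw.1.1
  have hX : ∀ w ∈ X, ∀ k : ℤ, c ^ k * w * (c ^ k)⁻¹ ∈ X := by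
    intro w hw k
    refine ⟨⟨cls_conj (c ^ k) hw.1.1, ?_⟩, hPf w k hw.2⟩
    have := (S.PosX_conj (c ^ k) hc (hne1 w hw)).2 hw.1.2
    have e : c ^ k * c * (c ^ k)⁻¹ = c := by group
    rw [e] at this
    exact this
  have hfree : ∀ w ∈ X, ∀ k : ℤ, c ^ k * w * (c ^ k)⁻¹ = w → k = 0 :=
    fun w hw k e => S.free_of_PosX hc (hne1 w hw) hw.1.2 e
  have hP1 : ∀ w, w ≠ 1 → (P (c⁻¹ * w * c) ↔ S.maj w (c • p, c • q, S.att c⁻¹)) := by
    intro w hw
    have := S.e4_maj' hc 1 hw p q
    rw [pow_one] at this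
    exact this
  have hmono : ∀ w ∈ X, P (c⁻¹ * w * c) → P w := by
    intro w hw hPw
    exact S.maj_mono hc hw.1.2 h (Or.inl h1) (Or.inl h2) ((hP1 w (hne1 w hw)).1 hPw)
  have htop : ∀ w ∈ X, ∃ n : ℕ, P (c ^ n * w * (c ^ n)⁻¹) := by
    intro w hw
    have hX4 : cyc4 (S.att c) (S.att w) (S.att c⁻¹) (S.att w⁻¹) := hw.1.2
    have hmid : cyc (S.att w) (S.att c⁻¹) (S.att w⁻¹) := by
      clear h h1 h2 hpL hqR
      generalize S.att c = A at *
      generalize S.att c⁻¹ = B at *
      generalize S.att w = D at *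
      generalize S.att w⁻¹ = E at *
      clear hP1 hfree hX hne1 hmono
      (obtain ⟨lab, hlab⟩ := H21D.exists_lab [A, B, D, E]; simp only [List.forall_mem_cons, List.not_mem_nil, IsEmpty.forall_iff, implies_true, and_true, forall_eq_or_imp, List.mem_cons, forall_eq, or_false] at hlab; simp only [H21D.cyc, H21D.cyc4, H21D.arc, ne_eq, hlab] at *; omega)
    have hpA : p ≠ S.att c := fun e => (cyc_ne₁₂ hpL) e.symm
    obtain ⟨n, hn⟩ := S.dyn_inv hc hpA hmid
    refine ⟨n, ?_⟩
    have := (S.e4_maj hc (n : ℤ) (hne1 w hw) p q)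
    rw [zpow_natCast] at this
    rw [hP]
    refine this.2 ?_
    right; left
    exact ⟨Or.inr (hn n le_rfl), Or.inr hmid⟩
  have hbot : ∀ w ∈ X, ∃ n : ℕ, ¬ P ((c ^ n)⁻¹ * w * c ^ n) := by
    intro w hw
    have hX4 : cyc4 (S.att c) (S.att w) (S.att c⁻¹) (S.att w⁻¹) := hw.1.2
    have hmid : cyc (S.att w⁻¹) (S.att c) (S.att w) := by
      clear h h1 h2 hpL hqR
      generalize S.att c = A at *
      generalize S.att c⁻¹ = B at *
      generalize S.att w = D at *
      generalize S.att w⁻¹ = E at *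
      clear hP1 hfree hX hne1 hmono htop
      (obtain ⟨lab, hlab⟩ := H21D.exists_lab [A, B, D, E]; simp only [List.forall_mem_cons, List.not_mem_nil, IsEmpty.forall_iff, implies_true, and_true, forall_eq_or_imp, List.mem_cons, forall_eq, or_false] at hlab; simp only [H21D.cyc, H21D.cyc4, H21D.arc, ne_eq, hlab] at *; omega)
    have hpB : p ≠ S.att c⁻¹ := cyc_ne₂₃ hpL
    have hqB : q ≠ S.att c⁻¹ := fun e => (cyc_ne₁₂ hqR) e.symm
    obtain ⟨n1, hn1⟩ := S.dyn hc hpB hmid
    obtain ⟨n2, hn2⟩ := S.dyn hc hqB hmid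
    refine ⟨max n1 n2, ?_⟩
    rw [hP]
    intro hcon
    have hcon' := (S.e4_maj' hc (max n1 n2) (hne1 w hw) p q).1 hcon
    have ha := hn1 (max n1 n2) (le_max_left _ _)
    have hb := hn2 (max n1 n2) (le_max_right _ _)
    unfold maj In at hcon'
    simp only at hcon'
    have hout : ∀ x : C, cyc (S.att w⁻¹) x (S.att w) →
        ¬ (x = S.att w ∨ cyc (S.att w) x (S.att w⁻¹)) := by
      intro x hx
      rintro (e | e)
      · exact cyc_ne₂₃ hx e
      · exact cyc_asymm hx e
    have ha' := hout _ ha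
    have hb' := hout _ hb
    tauto
  have hsub : {w ∈ X | P w ∧ ¬ P (c⁻¹ * w * c)} =
      {δ | δ ∈ cls b ∧ Pf δ ∧ S.maj δ (p, q, S.att c⁻¹) ∧
      ¬ S.maj δ (c • p, c • q, S.att c⁻¹)} := by
    ext w
    constructor
    · rintro ⟨hw, hPw, hPw'⟩
      rw [hP1 w (hne1 w hw)] at hPw'
      exact ⟨hw.1.1, hw.2, hPw, hPw'⟩
    · rintro ⟨hw, hf, hPw, hPw'⟩
      have hw1 : w ≠ 1 := cls_ne_one hb hw
      refine ⟨⟨⟨hw, S.PosX_of_sep_cross hc hw1 h (Or.inl h1) (Or.inl h2) hPw hPw'⟩, hf⟩, hPw, ?_⟩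
      rw [hP1 w hw1]
      exact hPw'
  have hfin : {w ∈ X | P w ∧ ¬ P (c⁻¹ * w * c)}.Finite := by
    rw [hsub]
    have hB : c • S.att c⁻¹ = S.att c⁻¹ := S.smul_att_inv hc
    have hD : Dst (p, q, S.att c⁻¹) := by
      refine ⟨?_, cyc_ne₂₃ hpL, fun e => (cyc_ne₁₂ hqR) e.symm⟩
      intro e
      have e' : p = q := e
      subst e'
      exact cyc_asymm hpL hqR
    have hD' : Dst (c • p, c • q, S.att c⁻¹) := by
      refine ⟨fun e => hD.1 (smul_left_cancel c e), fun e => ?_, fun e => ?_⟩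
      · have e' : c • p = S.att c⁻¹ := e
        rw [← hB] at e'
        exact hD.2.1 (smul_left_cancel c e')
      · have e' : c • q = S.att c⁻¹ := e
        rw [← hB] at e'
        exact hD.2.2 (smul_left_cancel c e')
    refine (S.sep_fin hb hD hD').subset ?_
    rintro w ⟨hw, _, hPw, hPw'⟩
    exact ⟨hw, hPw, hPw'⟩
  have hmain := ncard_switch c X P hX hfree hmono htop hbot hfin 1
  rw [pow_one, one_mul] at hmain
  rw [← hmain, hsub]

theorem dist_cross {c b : G} (hc : c ≠ 1) (hb : b ≠ 1) {p q : C}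
    (h : cyc4 (S.att c) p (S.att c⁻¹) q) :
    S.dist b (p, q, S.att c⁻¹) (c • p, c • q, S.att c⁻¹) = S.iN c b := by
  have h1 := S.ncard_cross hc hb (fun _ => True) (fun _ _ _ => trivial) h
  simp only [true_and, and_true, Set.ofPred_mem_eq] at h1
  exact h1

end Sys
end H21D
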