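import Pool.Agent.Lib.H21D.E3

/-! # E5: symmetry of the intersection number -/
namespace H21D
namespace Sys
variable {G C : Type*} [Group G] [LinearOrder C] [MulAction G C] (S : Sys G C)

theorem E5_card {X Y : Type*} (sX : Setoid X) (sY : Setoid Y) (R : X → Y → Prop)
    (h1 : ∀ x, ∃ y, R x y) (h2 : ∀ y, ∃ x, R x y)
    (h3 : ∀ x x' y y', R x y → R x' y' → (sX.r x x' ↔ sY.r y y')) :
    Nat.card (Quotient sX) = Nat.card (Quotient sY) := by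
  choose f hf using h1
  refine Nat.card_congr (Equiv.ofBijective (Quotient.lift (fun x => Quotient.mk sY (f x)) ?_) ⟨?_, ?_⟩)
  · intro x x' h
    exact Quotient.sound ((h3 x x' _ _ (hf x) (hf x')).1 h)
  · intro q q'
    induction q using Quotient.inductionOn with
    | h x =>
    induction q' using Quotient.inductionOn with
    | h x' =>
    intro h
    have h4 : Quotient.mk sY (f x) = Quotient.mk sY (f x') := h
    exact Quotient.sound ((h3 x x' _ _ (hf x) (hf x')).2 (Quotient.exact h4))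
  · intro q
    induction q using Quotient.inductionOn with
    | h y =>
    obtain ⟨x, hx⟩ := h2 y
    refine ⟨Quotient.mk sX x, ?_⟩
    have h4 : sY.r (f x) y := (h3 x x _ _ (hf x) hx).1 (sX.iseqv.refl x)
    exact Quotient.sound h4

/-- the correspondence for `iN_symm` -/
def E5R (a b w v : G) : Prop :=
  ∃ g : G, (w = g * b * g⁻¹ ∧ v = g⁻¹ * a⁻¹ * g) ∨ (w = g * b⁻¹ * g⁻¹ ∧ v = g⁻¹ * a * g)

theorem E5R_symm {a b w v : G} (h : E5R a b w v) : E5R b a v w := by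
  obtain ⟨g, ⟨h1, h2⟩ | ⟨h1, h2⟩⟩ := h
  · exact ⟨g⁻¹, Or.inr ⟨by rw [h2, inv_inv], by rw [h1, inv_inv]⟩⟩
  · exact ⟨g⁻¹, Or.inl ⟨by rw [h2, inv_inv], by rw [h1, inv_inv]⟩⟩

theorem E5R_mem {a b w v : G} (ha : a ≠ 1) (hb : b ≠ 1) (hw : w ∈ S.PosSet a b)
    (h : E5R a b w v) : v ∈ S.PosSet b a := by
  obtain ⟨g, ⟨h1, h2⟩ | ⟨h1, h2⟩⟩ := h
  · refine ⟨⟨g⁻¹, Or.inr (by rw [h2, inv_inv])⟩, ?_⟩
    have h3 := hw.2
    rw [h1] at h3
    have h4 : a = g * (g⁻¹ * a * g) * g⁻¹ := by group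
    have h5 : g⁻¹ * a * g ≠ 1 := by
      have := S.conj_ne_one g⁻¹ ha
      rwa [inv_inv] at this
    rw [h4, S.PosX_conj g h5 hb] at h3
    have h6 := S.PosX_symm h3
    have h7 : (g⁻¹ * a * g)⁻¹ = v := by
      rw [h2]
      group
    rwa [h7] at h6
  · refine ⟨⟨g⁻¹, Or.inl (by rw [h2, inv_inv])⟩, ?_⟩
    have h3 := hw.2
    rw [h1] at h3
    have h4 : a = g * (g⁻¹ * a * g) * g⁻¹ := by group
    have h5 : g⁻¹ * a * g ≠ 1 := by
      have := S.conj_ne_one g⁻¹ ha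
      rwa [inv_inv] at this
    rw [h4, S.PosX_conj g h5 (inv_ne_one.2 hb)] at h3
    have h6 := S.PosX_inv_inv (S.PosX_symm h3)
    rw [inv_inv, inv_inv, ← h2] at h6
    exact h6

theorem E5R_ex {a b w : G} (hw : w ∈ S.PosSet a b) : ∃ v, E5R a b w v := by
  obtain ⟨g, h | h⟩ := hw.1
  · exact ⟨_, g, Or.inl ⟨h, rfl⟩⟩
  · exact ⟨_, g, Or.inr ⟨h, rfl⟩⟩

theorem E5R_comp {a b w v w' v' : G} (hb : S.Prim b) (h : E5R a b w v) (h' : E5R a b w' v')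
    {k : ℤ} (hk : w' = a ^ k * w * (a ^ k)⁻¹) : ∃ j : ℤ, v' = b ^ j * v * (b ^ j)⁻¹ := by
  have hca : ∀ (k : ℤ), (a ^ k)⁻¹ * a * a ^ k = a := by
    intro k
    group
  obtain ⟨g, ⟨h1, h2⟩ | ⟨h1, h2⟩⟩ := h <;> obtain ⟨g', ⟨h3, h4⟩ | ⟨h3, h4⟩⟩ := h'
  · have h5 : (g'⁻¹ * a ^ k * g) * b * (g'⁻¹ * a ^ k * g)⁻¹ = b := by
      have h6 : (g'⁻¹ * a ^ k * g) * b * (g'⁻¹ * a ^ k * g)⁻¹ =
          g'⁻¹ * (a ^ k * (g * b * g⁻¹) * (a ^ k)⁻¹) * g' := by group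
      rw [h6, ← h1, ← hk, h3]
      group
    obtain ⟨j, hj⟩ := hb.stab h5
    refine ⟨j, ?_⟩
    rw [h4, h2, ← hj]
    have h7 : g'⁻¹ * a ^ k * g * (g⁻¹ * a⁻¹ * g) * (g'⁻¹ * a ^ k * g)⁻¹ =
        g'⁻¹ * (a ^ k * a⁻¹ * (a ^ k)⁻¹) * g' := by group
    rw [h7]
    have h8 : a ^ k * a⁻¹ * (a ^ k)⁻¹ = a⁻¹ := by group
    rw [h8]
  · exfalso
    have h5 : (g'⁻¹ * a ^ k * g) * b * (g'⁻¹ * a ^ k * g)⁻¹ = b⁻¹ := by
      have h6 : (g'⁻¹ * a ^ k * g) * b * (g'⁻¹ * a ^ k * g)⁻¹ =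
          g'⁻¹ * (a ^ k * (g * b * g⁻¹) * (a ^ k)⁻¹) * g' := by group
      rw [h6, ← h1, ← hk, h3]
      group
    exact hb.not_conj_inv h5
  · exfalso
    have h5 : (g'⁻¹ * a ^ k * g) * b * (g'⁻¹ * a ^ k * g)⁻¹ = b⁻¹ := by
      have h6 : (g'⁻¹ * a ^ k * g) * b * (g'⁻¹ * a ^ k * g)⁻¹ =
          (g'⁻¹ * (a ^ k * (g * b⁻¹ * g⁻¹) * (a ^ k)⁻¹) * g')⁻¹ := by group
      rw [h6, ← h1, ← hk, h3]
      group
    exact hb.not_conj_inv h5
  · have h5 : (g'⁻¹ * a ^ k * g) * b * (g'⁻¹ * a ^ k * g)⁻¹ = b := by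
      have h6 : (g'⁻¹ * a ^ k * g) * b * (g'⁻¹ * a ^ k * g)⁻¹ =
          (g'⁻¹ * (a ^ k * (g * b⁻¹ * g⁻¹) * (a ^ k)⁻¹) * g')⁻¹ := by group
      rw [h6, ← h1, ← hk, h3]
      group
    obtain ⟨j, hj⟩ := hb.stab h5
    refine ⟨j, ?_⟩
    rw [h4, h2, ← hj]
    have h7 : g'⁻¹ * a ^ k * g * (g⁻¹ * a * g) * (g'⁻¹ * a ^ k * g)⁻¹ =
        g'⁻¹ * (a ^ k * a * (a ^ k)⁻¹) * g' := by group
    rw [h7]
    have h8 : a ^ k * a * (a ^ k)⁻¹ = a := by group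
    rw [h8]

/-- `w = g b^s g⁻¹ ∈ PosSet a b` ↦ `g⁻¹ a^(-s) g ∈ PosSet b a` (`s = ±1`, `PosX_symm`). -/
theorem iN_symm {a b : G} (ha : S.Prim a) (hb : S.Prim b) : S.iN a b = S.iN b a := by
  refine E5_card _ _ (fun w v => E5R a b (w : G) (v : G)) ?_ ?_ ?_
  · intro w
    obtain ⟨v, hv⟩ := S.E5R_ex w.2
    exact ⟨⟨v, S.E5R_mem ha.1 hb.1 w.2 hv⟩, hv⟩
  · intro v
    obtain ⟨w, hw⟩ := S.E5R_ex v.2
    exact ⟨⟨w, S.E5R_mem hb.1 ha.1 v.2 hw⟩, E5R_symm hw⟩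
  · intro w w' v v' h h'
    constructor
    · rintro ⟨k, hk⟩
      exact S.E5R_comp hb h h' hk
    · rintro ⟨k, hk⟩
      exact S.E5R_comp ha (E5R_symm h) (E5R_symm h') hk

theorem iN_conj_left {a b : G} (h : G) (ha : a ≠ 1) (hb : b ≠ 1) :
    S.iN (h * a * h⁻¹) b = S.iN a b := by
  refine E5_card _ _ (fun w v => (w : G) = h * (v : G) * h⁻¹) ?_ ?_ ?_
  · intro w
    have hv : h⁻¹ * (w : G) * h ∈ cls b := by
      have := cls_conj h⁻¹ w.2.1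
      rwa [inv_inv] at this
    have e : (w : G) = h * (h⁻¹ * (w : G) * h) * h⁻¹ := by group
    refine ⟨⟨h⁻¹ * (w : G) * h, hv, ?_⟩, e⟩
    have h1 := w.2.2
    rw [e, S.PosX_conj h ha (cls_ne_one hb hv)] at h1
    exact h1
  · intro v
    refine ⟨⟨h * (v : G) * h⁻¹, cls_conj h v.2.1, ?_⟩, rfl⟩
    exact (S.PosX_conj h ha (cls_ne_one hb v.2.1)).2 v.2.2
  · intro w w' v v' h1 h2
    have h3 : ∀ k : ℤ, (h * a * h⁻¹) ^ k = h * a ^ k * h⁻¹ := fun k => conj_zpow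
    constructor
    · rintro ⟨k, hk⟩
      refine ⟨k, ?_⟩
      rw [h1, h2, h3] at hk
      have h4 : (v' : G) = h⁻¹ * (h * (v' : G) * h⁻¹) * h := by group
      rw [h4, hk]
      group
    · rintro ⟨k, hk⟩
      refine ⟨k, ?_⟩
      rw [h1, h2, h3, hk]
      group

theorem iN_inv_left {a b : G} (ha : a ≠ 1) (hb : b ≠ 1) : S.iN a⁻¹ b = S.iN a b := by
  refine E5_card _ _ (fun w v => (w : G) = (v : G)⁻¹) ?_ ?_ ?_
  · intro w
    refine ⟨⟨(w : G)⁻¹, cls_inv w.2.1, ?_⟩, (inv_inv _).symm⟩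
    have h1 := S.PosX_inv_inv w.2.2
    rwa [inv_inv] at h1
  · intro v
    exact ⟨⟨(v : G)⁻¹, cls_inv v.2.1, S.PosX_inv_inv v.2.2⟩, rfl⟩
  · intro w w' v v' h1 h2
    constructor
    · rintro ⟨k, hk⟩
      refine ⟨-k, ?_⟩
      rw [h1, h2] at hk
      have h3 := congrArg (fun x => x⁻¹) hk
      simp only [inv_inv] at h3
      rw [h3]
      group
    · rintro ⟨k, hk⟩
      refine ⟨-k, ?_⟩
      rw [h1, h2, hk]
      group

theorem iN_cls {a a' b b' : G} (ha : a ≠ 1) (hb : b ≠ 1) (h : a' ∈ cls a) (h' : b' ∈ cls b) :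
    S.iN a' b' = S.iN a b := by
  have h1 : S.PosSet a' b' = S.PosSet a' b := by
    unfold PosSet
    rw [cls_eq h']
  have h2 : S.iN a' b' = S.iN a' b := by
    unfold iN
    rw [h1]
  rw [h2]
  obtain ⟨g, rfl | rfl⟩ := h
  · exact S.iN_conj_left g ha hb
  · rw [S.iN_conj_left g (inv_ne_one.2 ha) hb, S.iN_inv_left ha hb]

theorem Simp.cls {S : Sys G C} {x w : G} (hx : S.Simp x) (hw : w ∈ cls x) : S.Simp w := by
  refine ⟨hx.1.cls hw, ?_⟩
  intro z hz h1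
  rw [cls_eq hw] at hz
  obtain ⟨g, hg⟩ := hw
  have hz' : g⁻¹ * z * g ∈ H21D.cls x := by
    have := cls_conj g⁻¹ hz
    rwa [inv_inv] at this
  have e : z = g * (g⁻¹ * z * g) * g⁻¹ := by group
  have hz1 : g⁻¹ * z * g ≠ 1 := cls_ne_one hx.1.1 hz'
  rw [e] at h1
  rcases hg with hg | hg
  · rw [hg, S.PosX_conj g hx.1.1 hz1] at h1
    exact hx.2 _ hz' h1
  · rw [hg, S.PosX_conj g (inv_ne_one.2 hx.1.1) hz1] at h1
    have h2 := S.PosX_inv_inv h1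
    rw [inv_inv] at h2
    exact hx.2 _ (cls_inv hz') h2

theorem Simp.iN_self {S : Sys G C} {x : G} (hx : S.Simp x) : S.iN x x = 0 := by
  exact (S.iN_eq_zero_iff hx.1.1 hx.1.1).2 hx.2

/-- number of lines of the family of `y` crossed in a period -/
theorem crs_m {S : Sys G C} {F : Fam S} {c y : G} (hc : c ≠ 1) (K : Crs F c)
    (hF : F.U = cls y) : K.m = S.iN c y := by
  have hinj : Function.Injective K.u := by
    have key : ∀ i j : ℤ, i < j → K.u i ≠ K.u j := by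
      intro i j hij e
      have h1 := (K.lt i j hij).1
      rw [e] at h1
      exact cyc_ne₂₃ h1.1 rfl
    intro i j e
    rcases lt_trichotomy i j with h | h | h
    · exact absurd e (key i j h)
    · exact h
    · exact absurd e.symm (key j i h)
  have hper : ∀ (k i : ℤ), K.u (i + k * K.m) = c ^ k * K.u i * (c ^ k)⁻¹ := by
    intro k
    induction k using Int.induction_on with
    | zero =>
      intro i
      rw [zero_mul, add_zero, zpow_zero]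
      group
    | succ n ih =>
      intro i
      have e : i + ((n : ℤ) + 1) * K.m = (i + (n : ℤ) * K.m) + K.m := by ring
      rw [e, K.per, ih i]
      group
    | pred n ih =>
      intro i
      have e : K.u (i + (-(n : ℤ) - 1) * K.m) = c⁻¹ * K.u (i + (-(n : ℤ)) * K.m) * c := by
        have e1 : i + (-(n : ℤ)) * K.m = (i + (-(n : ℤ) - 1) * K.m) + K.m := by ring
        rw [e1, K.per]
        group
      rw [e, ih i]
      group
  have hm : (0 : ℤ) < K.m := by exact_mod_cast K.pos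
  have h1 := orbCard_eq_ncard c (S.PosSet c y) (K.u '' Set.Ico (0 : ℤ) K.m) ?_ ?_ ?_
  · unfold iN
    rw [h1, Set.ncard_image_of_injective _ hinj, Set.ncard_eq_toFinset_card', Set.toFinset_Ico,
      Int.card_Ico, sub_zero, Int.toNat_natCast]
  · rintro w ⟨i, -, rfl⟩
    exact ⟨hF ▸ K.mem i, K.crs i⟩
  · rintro w ⟨hw1, hw2⟩
    obtain ⟨i, rfl⟩ := K.all w (hF ▸ hw1) hw2
    refine ⟨-(i / K.m), ?_⟩
    rw [← hper]
    refine ⟨_, ⟨?_, ?_⟩, rfl⟩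
    · have := Int.emod_nonneg i hm.ne'
      have h2 := Int.emod_add_mul_ediv i K.m
      nlinarith
    · have := Int.emod_lt_of_pos i hm
      have h2 := Int.emod_add_mul_ediv i K.m
      nlinarith
  · rintro w ⟨i, hi, rfl⟩ k hk
    rw [← hper] at hk ⊢
    obtain ⟨j, hj, hj2⟩ := hk
    have h2 := hinj hj2
    rw [Set.mem_Ico] at hi hj
    have h3 : k = 0 := by
      by_contra hk0
      rcases lt_or_gt_of_ne hk0 with h4 | h4
      · have h5 : k * K.m ≤ -1 * K.m := mul_le_mul_of_nonneg_right (by omega) hm.le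
        omega
      · have h5 : 1 * (K.m : ℤ) ≤ k * K.m := mul_le_mul_of_nonneg_right (by omega) hm.le
        omega
    rw [h3, zero_mul, add_zero]

end Sys
end H21D
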