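import Pool.Agent.Lib.H21D.D3
import Pool.Agent.Lib.H21D.E3
import Pool.Agent.Lib.H21D.E5

/-! # F1: the staircase -/
namespace H21D
namespace Crs
variable {G C : Type*} [Group G] [LinearOrder C] [MulAction G C] {S : Sys G C} {F : Fam S}
  {c : G} (K : Crs F c)

/-- partial products with exponent one -/
noncomputable def gg (n : ℕ) : G := K.g Wt.one n

/-- marker on the axis of `c` at the line `K.u i` -/
def T (i : ℤ) : C × C × C := (S.att (K.u i), S.att (K.u i)⁻¹, S.att c⁻¹)

noncomputable def A (n : ℕ) : C × C × C := K.gg n • K.T n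
noncomputable def B (n : ℕ) : C × C × C := K.gg n • K.T (n + 1)

/-- `X = u 1 * ... * u m * c` represents the twisted curve. -/
noncomputable def X : G := K.gg K.m * c

theorem F1_dst {G C : Type*} [Group G] [MulAction G C] (g : G) {T : C × C × C} (h : Dst T) :
    Dst (g • T) := by
  obtain ⟨h1, h2, h3⟩ := h
  exact ⟨fun e => h1 (MulAction.injective g e), fun e => h2 (MulAction.injective g e),
    fun e => h3 (MulAction.injective g e)⟩

theorem gg_zero : K.gg 0 = 1 := rfl

theorem gg_succ (n : ℕ) : K.gg (n + 1) = K.gg n * K.u (n + 1) := by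
  unfold gg
  rw [K.g_succ, Wt.one_e, zpow_one]

theorem gg_add (n : ℕ) : K.gg (n + K.m) = K.X * K.gg n * c⁻¹ := by
  unfold gg X
  exact K.g_add Wt.one n

theorem T_per (hc : c ≠ 1) (i : ℤ) : K.T (i + K.m) = c • K.T i := by
  have hu : K.u i ≠ 1 := (F.prim (K.mem i)).1
  unfold T
  rw [K.per, S.att_conj c hu, S.att_conj_inv c hu]
  conv_lhs => rw [← S.smul_att_inv hc]
  rfl

theorem T_dst (i : ℤ) : Dst (K.T i) := by
  have h := K.crs i
  unfold Sys.PosX at h
  exact ⟨cyc_ne₁₃ (cyc_rot' h.2) |> fun _ => by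
    have h1 := h.1
    have h2 := h.2
    unfold T
    generalize S.att c = a at *
    generalize S.att c⁻¹ = b at *
    generalize S.att (K.u i) = x at *
    generalize S.att (K.u i)⁻¹ = y at *
    clear h
    (obtain ⟨lab, hlab⟩ := H21D.exists_lab [a, b, x, y]; simp only [List.forall_mem_cons, List.not_mem_nil, IsEmpty.forall_iff, implies_true, and_true, forall_eq_or_imp, List.mem_cons, forall_eq, or_false] at hlab; simp only [H21D.cyc, H21D.cyc4, H21D.arc, ne_eq, hlab] at *; omega), by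
    have h1 := h.1
    exact cyc_ne₂₃ h1, by
    have h2 := h.2
    exact (cyc_ne₂₃ h2).symm⟩

theorem A_dst (n : ℕ) : Dst (K.A n) := by
  exact F1_dst _ (K.T_dst _)

theorem B_dst (n : ℕ) : Dst (K.B n) := by
  exact F1_dst _ (K.T_dst _)

theorem A_per (hc : c ≠ 1) (n : ℕ) : K.A (n + K.m) = K.X • K.A n := by
  unfold A
  have e : ((n + K.m : ℕ) : ℤ) = (n : ℤ) + K.m := by push_cast; rfl
  rw [e, K.T_per hc, K.gg_add, ← mul_smul, ← mul_smul, inv_mul_cancel_right]

theorem B_per (hc : c ≠ 1) (n : ℕ) : K.B (n + K.m) = K.X • K.B n := by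
  unfold B
  have e : ((n + K.m : ℕ) : ℤ) + 1 = ((n : ℤ) + 1) + K.m := by push_cast; ring
  rw [e, K.T_per hc, K.gg_add, ← mul_smul, ← mul_smul, inv_mul_cancel_right]

theorem A_mul (hc : c ≠ 1) (N : ℕ) : K.A (N * K.m) = K.X ^ N • K.A 0 := by
  induction N with
  | zero => rw [zero_mul, pow_zero, one_smul]
  | succ N ih =>
    rw [add_mul, one_mul, K.A_per hc, ih, pow_succ', mul_smul]

theorem X_ne_one (hc : S.Prim c) : K.X ≠ 1 := by
  unfold X gg
  rw [← K.tau_eq Wt.one]
  exact (MulEquiv.map_ne_one_iff _).2 hc.1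

end Crs
end H21D
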