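import Pool.Agent.Lib.H21D.F1
import Pool.Agent.Lib.H21D.E4

/-! # F2: lengths of the steps of the staircase -/
namespace H21D
namespace Crs
variable {G C : Type*} [Group G] [LinearOrder C] [MulAction G C] {S : Sys G C} {F : Fam S}
  {c : G} (K : Crs F c)

theorem f2_dst {G C : Type*} [Group G] [MulAction G C] [LinearOrder C] (g : G) {T : C × C × C}
    (hT : Dst T) : Dst (g • T) := by
  obtain ⟨h1, h2, h3⟩ := hT
  exact ⟨fun h => h1 (MulAction.injective g h), fun h => h2 (MulAction.injective g h),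
    fun h => h3 (MulAction.injective g h)⟩

theorem f2_ne1 {c : G} {u : G} (h : S.PosX c u) : S.att c⁻¹ ≠ S.att u ∧ S.att c⁻¹ ≠ S.att u⁻¹ := by
  unfold Sys.PosX at h
  generalize S.att u = a at *; generalize S.att u⁻¹ = b at *
  generalize S.att c = p at *; generalize S.att c⁻¹ = q at *
  constructor <;> (obtain ⟨lab, hlab⟩ := H21D.exists_lab [a, b, p, q]; simp only [List.forall_mem_cons, List.not_mem_nil, IsEmpty.forall_iff, implies_true, and_true, forall_eq_or_imp, List.mem_cons, forall_eq, or_false] at hlab; simp only [H21D.cyc, H21D.cyc4, H21D.arc, ne_eq, hlab] at *; omega)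

theorem f2_cls {y w : G} (hy : S.Prim y) (hF : F.U = cls y) (hw : w ∈ F.U) : w ∈ cls y ∧ w ≠ 1 := by
  rw [hF] at hw
  exact ⟨hw, cls_ne_one hy.1 hw⟩

/-- a step along a line of the family: `dist_axis`, `iN_cls`. -/
theorem dist_BA {b y : G} (hb : b ≠ 1) (hy : S.Prim y) (hF : F.U = cls y) (hc : c ≠ 1) (n : ℕ) :
    S.dist b (K.B n) (K.A (n + 1)) = S.iN y b := by
  have hu := f2_cls hy hF (K.mem ((n : ℤ) + 1))
  have hp := f2_ne1 (K.crs ((n : ℤ) + 1))
  have e1 : K.A (n + 1) = K.gg n • (K.u ((n : ℤ) + 1) • K.T ((n : ℤ) + 1)) := by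
    unfold A
    rw [K.gg_succ, mul_smul]
    push_cast
    rfl
  have e2 : K.B n = K.gg n • K.T ((n : ℤ) + 1) := rfl
  rw [e1, e2, S.dist_smul (K.gg n) hb]
  have e3 : K.u ((n : ℤ) + 1) • K.T ((n : ℤ) + 1) = (S.att (K.u ((n : ℤ) + 1)),
      S.att (K.u ((n : ℤ) + 1))⁻¹, (K.u ((n : ℤ) + 1)) ^ 1 • S.att c⁻¹) := by
    unfold T
    rw [Prod.smul_mk, Prod.smul_mk, S.smul_att hu.2, S.smul_att_inv hu.2, pow_one]
  have e4 : K.T ((n : ℤ) + 1) = (S.att (K.u ((n : ℤ) + 1)),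
      S.att (K.u ((n : ℤ) + 1))⁻¹, S.att c⁻¹) := rfl
  rw [e3, e4, S.dist_axis hu.2 hb hp.1 hp.2 1, one_mul]
  exact S.iN_cls hy.1 hb hu.1 (mem_cls_self b)

theorem dist_AB {b : G} (hb : b ≠ 1) (n : ℕ) :
    S.dist b (K.A n) (K.B n) = S.dist b (K.T n) (K.T (n + 1)) :=
  S.dist_smul (K.gg n) hb _ _

theorem f2_pos (hc : c ≠ 1) {i j : ℤ} (hij : i < j) {δ : G} (hδ : δ ≠ 1) (h : S.maj δ (K.T i))
    (h' : ¬ S.maj δ (K.T j)) : S.PosX c δ := by
  have hb := K.lt i j hij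
  exact S.PosX_of_sep_cross hc hδ (K.crs i) (Or.inl hb.1) (Or.inl hb.2) h h'

theorem f2_mono (hc : c ≠ 1) {i j : ℤ} (hij : i ≤ j) {δ : G} (hδ : S.PosX c δ)
    (h : S.maj δ (K.T j)) : S.maj δ (K.T i) := by
  rcases hij.lt_or_eq with hlt | heq
  · have hb := K.lt i j hlt
    exact S.maj_mono hc hδ (K.crs i) (Or.inl hb.1) (Or.inl hb.2) h
  · rw [heq]
    exact h

theorem f2_fin {b : G} (hb : b ≠ 1) (Pf : G → Prop) (i j : ℤ) :
    {δ | δ ∈ cls b ∧ Pf δ ∧ S.maj δ (K.T i) ∧ ¬ S.maj δ (K.T j)}.Finite :=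
  (S.sep_fin hb (K.T_dst i) (K.T_dst j)).subset (fun _ hδ => ⟨hδ.1, hδ.2.2.1, hδ.2.2.2⟩)

theorem f2_sum {b : G} (hc : c ≠ 1) (hb : b ≠ 1) (Pf : G → Prop) (M : ℕ) :
    ∑ n ∈ Finset.range M, {δ | δ ∈ cls b ∧ Pf δ ∧ S.maj δ (K.T n) ∧
      ¬ S.maj δ (K.T (n + 1))}.ncard =
    {δ | δ ∈ cls b ∧ Pf δ ∧ S.maj δ (K.T 0) ∧ ¬ S.maj δ (K.T M)}.ncard := by
  induction M with
  | zero =>
    have e : {δ | δ ∈ cls b ∧ Pf δ ∧ S.maj δ (K.T 0) ∧ ¬ S.maj δ (K.T ((0 : ℕ) : ℤ))} = ∅ := by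
      ext δ
      simp only [Set.mem_ofPred_eq, Set.mem_empty_iff_false, iff_false]
      rintro ⟨-, -, h1, h2⟩
      exact h2 h1
    rw [e, Set.ncard_empty, Finset.range_zero, Finset.sum_empty]
  | succ M ih =>
    rw [Finset.sum_range_succ, ih]
    have hdis : Disjoint {δ | δ ∈ cls b ∧ Pf δ ∧ S.maj δ (K.T 0) ∧ ¬ S.maj δ (K.T (M : ℤ))}
        {δ | δ ∈ cls b ∧ Pf δ ∧ S.maj δ (K.T (M : ℤ)) ∧ ¬ S.maj δ (K.T ((M : ℤ) + 1))} := by
      rw [Set.disjoint_left]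
      intro δ h1 h2
      exact h1.2.2.2 h2.2.2.1
    rw [← Set.ncard_union_eq hdis (K.f2_fin hb Pf 0 M) (K.f2_fin hb Pf M ((M : ℤ) + 1))]
    congr 1
    have e0 : (((M + 1 : ℕ)) : ℤ) = (M : ℤ) + 1 := by push_cast; rfl
    rw [e0]
    ext δ
    simp only [Set.mem_union, Set.mem_ofPred_eq]
    constructor
    · rintro (⟨h1, h2, h3, h4⟩ | ⟨h1, h2, h3, h4⟩)
      · have hδ := cls_ne_one hb h1
        have hM : (0 : ℤ) < M := by
          rcases (Int.natCast_nonneg M).lt_or_eq with h | h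
          · exact h
          · rw [← h] at h4
            exact absurd h3 h4
        have hp := K.f2_pos hc hM hδ h3 h4
        exact ⟨h1, h2, h3, fun h5 => h4 (K.f2_mono hc (by omega) hp h5)⟩
      · have hδ := cls_ne_one hb h1
        have hp := K.f2_pos hc (by omega) hδ h3 h4
        exact ⟨h1, h2, K.f2_mono hc (by omega) hp h3, h4⟩
    · rintro ⟨h1, h2, h3, h4⟩
      by_cases h5 : S.maj δ (K.T M)
      · exact Or.inr ⟨h1, h2, h5, h4⟩
      · exact Or.inl ⟨h1, h2, h3, h5⟩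

/-- the lifts `δ` that cross `c` positively pass from the `In` side to the other side at exactly one
of the steps `T i → T (i+1)`: `ncard_cross` (with `T 0 → T m = c • T 0`) and `maj_mono`. -/
theorem sum_steps {b : G} (hc : c ≠ 1) (hb : b ≠ 1) (Pf : G → Prop)
    (hPf : ∀ δ, ∀ k : ℤ, Pf δ → Pf (c ^ k * δ * (c ^ k)⁻¹)) :
    ∑ n ∈ Finset.range K.m, {δ | δ ∈ cls b ∧ Pf δ ∧ S.maj δ (K.T n) ∧
      ¬ S.maj δ (K.T (n + 1))}.ncard = orbCard c {δ | δ ∈ S.PosSet c b ∧ Pf δ} := by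
  rw [K.f2_sum hc hb Pf K.m, ← S.ncard_cross hc hb Pf hPf (K.crs 0)]
  have e1 : K.T (K.m : ℤ) = (c • S.att (K.u 0), c • S.att (K.u 0)⁻¹, S.att c⁻¹) := by
    have h1 := K.T_per hc 0
    rw [zero_add] at h1
    rw [h1]
    unfold T
    rw [Prod.smul_mk, Prod.smul_mk, S.smul_att_inv hc]
  rw [e1]
  rfl

theorem sum_dist_AB {b : G} (hc : c ≠ 1) (hb : b ≠ 1) :
    ∑ n ∈ Finset.range K.m, S.dist b (K.A n) (K.B n) = S.iN c b := by
  have h := K.sum_steps hc hb (fun _ => True) (fun _ _ _ => trivial)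
  have e1 : {δ | δ ∈ S.PosSet c b ∧ True} = S.PosSet c b := by
    ext δ
    simp
  rw [e1] at h
  unfold Sys.iN
  rw [← h]
  refine Finset.sum_congr rfl fun n _ => ?_
  rw [K.dist_AB hb n]
  unfold Sys.dist Sys.sepSet
  congr 1
  ext δ
  simp

theorem f2_period {b y : G} (hb : b ≠ 1) (hy : S.Prim y) (hF : F.U = cls y) (hc : c ≠ 1) (M : ℕ) :
    S.dist b (K.A 0) (K.A M) ≤ M * S.iN y b +
      ∑ n ∈ Finset.range M, S.dist b (K.A n) (K.B n) := by
  induction M with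
  | zero =>
    rw [S.dist_self]
    exact Nat.zero_le _
  | succ M ih =>
    rw [Finset.sum_range_succ]
    have h1 := S.dist_triangle hb (K.A_dst 0) (K.A_dst M) (K.A_dst (M + 1))
    have h2 := S.dist_triangle hb (K.A_dst M) (K.B_dst M) (K.A_dst (M + 1))
    rw [K.dist_BA hb hy hF hc M] at h2
    have e : (M + 1) * S.iN y b = M * S.iN y b + S.iN y b := by ring
    rw [e]
    omega

/-- upper bound of the staircase lemma: triangle inequality and `stable`. -/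
theorem stair_upper {b y : G} (hb : b ≠ 1) (hy : S.Prim y) (hF : F.U = cls y) (hc : S.Prim c) :
    S.iN K.X b ≤ K.m * S.iN y b + S.iN c b := by
  have h0 := K.f2_period hb hy hF hc.1 K.m
  rw [K.sum_dist_AB hc.1 hb] at h0
  set R := K.m * S.iN y b + S.iN c b
  have h1 : ∀ N : ℕ, S.dist b (K.A 0) (K.X ^ N • K.A 0) ≤ N * R := by
    intro N
    induction N with
    | zero =>
      rw [pow_zero, one_smul, S.dist_self]
      exact Nat.zero_le _
    | succ N ih =>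
      have e1 : K.X ^ (N + 1) • K.A 0 = K.X ^ N • K.A K.m := by
        have e2 := K.A_mul hc.1 1
        rw [one_mul, pow_one] at e2
        rw [e2, pow_succ, mul_smul]
      have hd1 : Dst (K.X ^ N • K.A 0) := f2_dst _ (K.A_dst 0)
      have hd2 : Dst (K.X ^ N • K.A K.m) := f2_dst _ (K.A_dst K.m)
      have h2 := S.dist_triangle hb (K.A_dst 0) hd1 hd2
      rw [S.dist_smul (K.X ^ N) hb] at h2
      rw [e1]
      have e : (N + 1) * R = N * R + R := by ring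
      rw [e]
      omega
  obtain ⟨D, hD⟩ := S.stable (K.X_ne_one hc) hb (K.A_dst 0)
  by_contra hcon
  push Not at hcon
  have h2 := (hD (D + 1)).2
  have h3 := h1 (D + 1)
  have h4 : (D + 1) * (R + 1) ≤ (D + 1) * S.iN K.X b := Nat.mul_le_mul_left _ hcon
  have h5 : (D + 1) * (R + 1) = (D + 1) * R + (D + 1) := by ring
  omega

end Crs
end H21D
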