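import Pool.Agent.Lib.H21D.F1
import Pool.Agent.Lib.H21D.E4

/-! # F3: directions of the crossings with the staircase -/
namespace H21D

namespace Sys
variable {G C : Type*} [Group G] [LinearOrder C] [MulAction G C] (S : Sys G C)

/-- `w` is behind `u` (on its right side) in the same direction:
counterclockwise order `u⁻, w⁻, w⁺, u⁺`. -/
def Nst (u w : G) : Prop := cyc4 (S.att u⁻¹) (S.att w⁻¹) (S.att w) (S.att u)

/-- `w` is on the left side of `u` in the same direction:
counterclockwise order `u⁺, w⁺, w⁻, u⁻`. -/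
def NstL (u w : G) : Prop := cyc4 (S.att u) (S.att w) (S.att w⁻¹) (S.att u⁻¹)

theorem Nst_trans {u v w : G} (h : S.Nst u v) (h' : S.Nst v w) : S.Nst u w := by
  unfold Nst at *
  generalize S.att u = a at *; generalize S.att u⁻¹ = b at *
  generalize S.att v = c at *; generalize S.att v⁻¹ = d at *
  generalize S.att w = e at *; generalize S.att w⁻¹ = f at *
  (obtain ⟨lab, hlab⟩ := H21D.exists_lab [a, b, c, d, e, f]; simp only [List.forall_mem_cons, List.not_mem_nil, IsEmpty.forall_iff, implies_true, and_true, forall_eq_or_imp, List.mem_cons, forall_eq, or_false] at hlab; simp only [H21D.cyc, H21D.cyc4, H21D.arc, ne_eq, hlab] at *; omega)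

theorem NstL_trans {u v w : G} (h : S.NstL u v) (h' : S.NstL v w) : S.NstL u w := by
  unfold NstL at *
  generalize S.att u = a at *; generalize S.att u⁻¹ = b at *
  generalize S.att v = c at *; generalize S.att v⁻¹ = d at *
  generalize S.att w = e at *; generalize S.att w⁻¹ = f at *
  (obtain ⟨lab, hlab⟩ := H21D.exists_lab [a, b, c, d, e, f]; simp only [List.forall_mem_cons, List.not_mem_nil, IsEmpty.forall_iff, implies_true, and_true, forall_eq_or_imp, List.mem_cons, forall_eq, or_false] at hlab; simp only [H21D.cyc, H21D.cyc4, H21D.arc, ne_eq, hlab] at *; omega)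

theorem Nst_of_Bef {c u w : G} (h : S.Bef c u w) : S.Nst u w := by
  unfold Nst Bef at *
  generalize S.att u = a at *; generalize S.att u⁻¹ = b at *
  generalize S.att c = p at *; generalize S.att c⁻¹ = q at *
  generalize S.att w = e at *; generalize S.att w⁻¹ = f at *
  (obtain ⟨lab, hlab⟩ := H21D.exists_lab [a, b, p, q, e, f]; simp only [List.forall_mem_cons, List.not_mem_nil, IsEmpty.forall_iff, implies_true, and_true, forall_eq_or_imp, List.mem_cons, forall_eq, or_false] at hlab; simp only [H21D.cyc, H21D.cyc4, H21D.arc, ne_eq, hlab] at *; omega)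

theorem NstL_of_PosX {c u : G} (hc : c ≠ 1) (hu : u ≠ 1) (h : S.PosX c u) :
    S.NstL c (u * c * u⁻¹) := by
  unfold NstL
  rw [S.att_conj u hc, S.att_conj_inv u hc]
  unfold PosX at h
  have h1 : cyc (S.att u⁻¹) (S.att c) (S.att u) := by
    generalize S.att u = a at *; generalize S.att u⁻¹ = b at *
    generalize S.att c = p at *; generalize S.att c⁻¹ = q at *
    (obtain ⟨lab, hlab⟩ := H21D.exists_lab [a, b, p, q]; simp only [List.forall_mem_cons, List.not_mem_nil, IsEmpty.forall_iff, implies_true, and_true, forall_eq_or_imp, List.mem_cons, forall_eq, or_false] at hlab; simp only [H21D.cyc, H21D.cyc4, H21D.arc, ne_eq, hlab] at *; omega)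
  have h2 : cyc (S.att u) (S.att c⁻¹) (S.att u⁻¹) := by
    generalize S.att u = a at *; generalize S.att u⁻¹ = b at *
    generalize S.att c = p at *; generalize S.att c⁻¹ = q at *
    (obtain ⟨lab, hlab⟩ := H21D.exists_lab [a, b, p, q]; simp only [List.forall_mem_cons, List.not_mem_nil, IsEmpty.forall_iff, implies_true, and_true, forall_eq_or_imp, List.mem_cons, forall_eq, or_false] at hlab; simp only [H21D.cyc, H21D.cyc4, H21D.arc, ne_eq, hlab] at *; omega)
  have h3 := S.mono_right hu h1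
  have h4 := S.mono_left hu h2
  generalize u • S.att c = x at *; generalize u • S.att c⁻¹ = y at *
  generalize S.att u = a at *; generalize S.att u⁻¹ = b at *
  generalize S.att c = p at *; generalize S.att c⁻¹ = q at *
  (obtain ⟨lab, hlab⟩ := H21D.exists_lab [a, b, p, q, x, y]; simp only [List.forall_mem_cons, List.not_mem_nil, IsEmpty.forall_iff, implies_true, and_true, forall_eq_or_imp, List.mem_cons, forall_eq, or_false] at hlab; simp only [H21D.cyc, H21D.cyc4, H21D.arc, ne_eq, hlab] at *; omega)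

theorem Nst_dir {u w δ : G} (h : S.Nst u w) (h1 : S.PosX u δ) (h2 : S.PosX w δ⁻¹) : False := by
  unfold Nst PosX at *
  rw [inv_inv] at h2
  generalize S.att u = a at *; generalize S.att u⁻¹ = b at *
  generalize S.att w = c at *; generalize S.att w⁻¹ = d at *
  generalize S.att δ = e at *; generalize S.att δ⁻¹ = f at *
  (obtain ⟨lab, hlab⟩ := H21D.exists_lab [a, b, c, d, e, f]; simp only [List.forall_mem_cons, List.not_mem_nil, IsEmpty.forall_iff, implies_true, and_true, forall_eq_or_imp, List.mem_cons, forall_eq, or_false] at hlab; simp only [H21D.cyc, H21D.cyc4, H21D.arc, ne_eq, hlab] at *; omega)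

theorem Nst_dir' {u w δ : G} (h : S.Nst u w) (h1 : S.PosX u δ⁻¹) (h2 : S.PosX w δ) : False := by
  unfold Nst PosX at *
  rw [inv_inv] at h1
  generalize S.att u = a at *; generalize S.att u⁻¹ = b at *
  generalize S.att w = c at *; generalize S.att w⁻¹ = d at *
  generalize S.att δ = e at *; generalize S.att δ⁻¹ = f at *
  (obtain ⟨lab, hlab⟩ := H21D.exists_lab [a, b, c, d, e, f]; simp only [List.forall_mem_cons, List.not_mem_nil, IsEmpty.forall_iff, implies_true, and_true, forall_eq_or_imp, List.mem_cons, forall_eq, or_false] at hlab; simp only [H21D.cyc, H21D.cyc4, H21D.arc, ne_eq, hlab] at *; omega)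

theorem NstL_dir {u w δ : G} (h : S.NstL u w) (h1 : S.PosX u δ) (h2 : S.PosX w δ⁻¹) : False := by
  unfold NstL PosX at *
  rw [inv_inv] at h2
  generalize S.att u = a at *; generalize S.att u⁻¹ = b at *
  generalize S.att w = c at *; generalize S.att w⁻¹ = d at *
  generalize S.att δ = e at *; generalize S.att δ⁻¹ = f at *
  (obtain ⟨lab, hlab⟩ := H21D.exists_lab [a, b, c, d, e, f]; simp only [List.forall_mem_cons, List.not_mem_nil, IsEmpty.forall_iff, implies_true, and_true, forall_eq_or_imp, List.mem_cons, forall_eq, or_false] at hlab; simp only [H21D.cyc, H21D.cyc4, H21D.arc, ne_eq, hlab] at *; omega)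

theorem NstL_dir' {u w δ : G} (h : S.NstL u w) (h1 : S.PosX u δ⁻¹) (h2 : S.PosX w δ) : False := by
  unfold NstL PosX at *
  rw [inv_inv] at h1
  generalize S.att u = a at *; generalize S.att u⁻¹ = b at *
  generalize S.att w = c at *; generalize S.att w⁻¹ = d at *
  generalize S.att δ = e at *; generalize S.att δ⁻¹ = f at *
  (obtain ⟨lab, hlab⟩ := H21D.exists_lab [a, b, c, d, e, f]; simp only [List.forall_mem_cons, List.not_mem_nil, IsEmpty.forall_iff, implies_true, and_true, forall_eq_or_imp, List.mem_cons, forall_eq, or_false] at hlab; simp only [H21D.cyc, H21D.cyc4, H21D.arc, ne_eq, hlab] at *; omega)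

theorem Nst_conj (h : G) {u w : G} (hu : u ≠ 1) (hw : w ≠ 1) :
    S.Nst (h * u * h⁻¹) (h * w * h⁻¹) ↔ S.Nst u w := by
  unfold Nst
  rw [S.att_conj h hu, S.att_conj h hw, S.att_conj_inv h hu, S.att_conj_inv h hw, S.cyc4_smul_iff]

theorem NstL_conj (h : G) {u w : G} (hu : u ≠ 1) (hw : w ≠ 1) :
    S.NstL (h * u * h⁻¹) (h * w * h⁻¹) ↔ S.NstL u w := by
  unfold NstL
  rw [S.att_conj h hu, S.att_conj h hw, S.att_conj_inv h hu, S.att_conj_inv h hw, S.cyc4_smul_iff]

/-- nested lines do not cross. -/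
theorem Nst_not_PosX {u w : G} (h : S.Nst u w) : ¬ S.PosX u w⁻¹ := by
  unfold Nst PosX at *
  rw [inv_inv]
  generalize S.att u = a at *; generalize S.att u⁻¹ = b at *
  generalize S.att w = c at *; generalize S.att w⁻¹ = d at *
  (obtain ⟨lab, hlab⟩ := H21D.exists_lab [a, b, c, d]; simp only [List.forall_mem_cons, List.not_mem_nil, IsEmpty.forall_iff, implies_true, and_true, forall_eq_or_imp, List.mem_cons, forall_eq, or_false] at hlab; simp only [H21D.cyc, H21D.cyc4, H21D.arc, ne_eq, hlab] at *; omega)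

theorem Nst_not_PosX' {u w : G} (h : S.Nst u w) : ¬ S.PosX w u⁻¹ := by
  unfold Nst PosX at *
  rw [inv_inv]
  generalize S.att u = a at *; generalize S.att u⁻¹ = b at *
  generalize S.att w = c at *; generalize S.att w⁻¹ = d at *
  (obtain ⟨lab, hlab⟩ := H21D.exists_lab [a, b, c, d]; simp only [List.forall_mem_cons, List.not_mem_nil, IsEmpty.forall_iff, implies_true, and_true, forall_eq_or_imp, List.mem_cons, forall_eq, or_false] at hlab; simp only [H21D.cyc, H21D.cyc4, H21D.arc, ne_eq, hlab] at *; omega)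

end Sys

namespace Crs
variable {G C : Type*} [Group G] [LinearOrder C] [MulAction G C] {S : Sys G C} {F : Fam S}
  {c : G} (K : Crs F c)

/-- the lines of the family along the staircase -/
noncomputable def hu (n : ℕ) : G := K.gg n * K.u n * (K.gg n)⁻¹
/-- the translates of `c` along the staircase -/
noncomputable def hc' (n : ℕ) : G := K.gg n * c * (K.gg n)⁻¹

theorem u_ne_one (i : ℤ) : K.u i ≠ 1 := (F.prim (K.mem i)).1

theorem hu_succ (n : ℕ) : K.hu (n + 1) = K.gg n * K.u (n + 1) * (K.gg n)⁻¹ := by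
  unfold hu
  rw [K.gg_succ n]
  push_cast
  group

theorem hc_succ (n : ℕ) : K.hc' (n + 1) =
    K.gg n * (K.u (n + 1) * c * (K.u (n + 1))⁻¹) * (K.gg n)⁻¹ := by
  unfold hc'
  rw [K.gg_succ n]
  group

theorem hu_nst {n n' : ℕ} (h : n < n') : S.Nst (K.hu n) (K.hu n') := by
  induction n', h using Nat.le_induction with
  | base =>
    rw [K.hu_succ, hu, S.Nst_conj _ (K.u_ne_one _) (K.u_ne_one _)]
    exact S.Nst_of_Bef (K.lt _ _ (by omega))
  | succ k hk ih =>
    refine S.Nst_trans ih ?_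
    rw [K.hu_succ, hu, S.Nst_conj _ (K.u_ne_one _) (K.u_ne_one _)]
    exact S.Nst_of_Bef (K.lt _ _ (by omega))

theorem hc_nst (hc : c ≠ 1) {n n' : ℕ} (h : n < n') : S.NstL (K.hc' n) (K.hc' n') := by
  induction n', h using Nat.le_induction with
  | base =>
    rw [K.hc_succ, hc', S.NstL_conj _ hc (S.conj_ne_one _ hc)]
    exact S.NstL_of_PosX hc (K.u_ne_one _) (K.crs _)
  | succ k hk ih =>
    refine S.NstL_trans ih ?_
    rw [K.hc_succ, hc', S.NstL_conj _ hc (S.conj_ne_one _ hc)]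
    exact S.NstL_of_PosX hc (K.u_ne_one _) (K.crs _)

theorem conj_back (g δ : G) : g * (g⁻¹ * δ * g) * g⁻¹ = δ := by group

theorem back_ne_one {g δ : G} (hδ : δ ≠ 1) : g⁻¹ * δ * g ≠ 1 := by
  intro e
  apply hδ
  rw [← conj_back g δ, e]
  group

theorem maj_back {g δ : G} (hδ : δ ≠ 1) (T : C × C × C) :
    S.maj δ (g • T) ↔ S.maj (g⁻¹ * δ * g) T := by
  have := S.maj_conj g (back_ne_one (g := g) hδ) T
  rwa [conj_back] at this

theorem f3_m1 {C : Type*} [LinearOrder C] {a b c d ξ η : C} (h0 : cyc a ξ b) (hm : cyc a η ξ)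
    (h1 : (a = c ∨ cyc c a d)) (h2 : ¬ (η = c ∨ cyc c η d)) (h3 : (ξ = c ∨ cyc c ξ d))
    (h4 : ¬ (b = c ∨ cyc c b d)) : False := by
  (obtain ⟨lab, hlab⟩ := H21D.exists_lab [a, b, c, d, ξ, η]; simp only [List.forall_mem_cons, List.not_mem_nil, IsEmpty.forall_iff, implies_true, and_true, forall_eq_or_imp, List.mem_cons, forall_eq, or_false] at hlab; simp only [H21D.cyc, H21D.cyc4, H21D.arc, ne_eq, hlab] at *; omega)

theorem f3_m2 {C : Type*} [LinearOrder C] {a b c d ξ η : C} (h0 : cyc a ξ b) (hm : cyc a η ξ)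
    (h1 : ¬ (a = c ∨ cyc c a d)) (h2 : ¬ (η = c ∨ cyc c η d)) (h3 : (ξ = c ∨ cyc c ξ d))
    (h4 : (b = c ∨ cyc c b d)) : d = a ∨ cyc4 a c b d := by
  (obtain ⟨lab, hlab⟩ := H21D.exists_lab [a, b, c, d, ξ, η]; simp only [List.forall_mem_cons, List.not_mem_nil, IsEmpty.forall_iff, implies_true, and_true, forall_eq_or_imp, List.mem_cons, forall_eq, or_false] at hlab; simp only [H21D.cyc, H21D.cyc4, H21D.arc, ne_eq, hlab] at *; omega)

theorem f3_m3 {C : Type*} [LinearOrder C] {a b c d ξ η : C} (h0 : cyc a ξ b) (hm : cyc a η ξ)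
    (h1 : ¬ (a = c ∨ cyc c a d)) (h2 : ¬ (η = c ∨ cyc c η d)) (h3 : (ξ = c ∨ cyc c ξ d))
    (h4 : (b = c ∨ cyc c b d)) (e : d = a)  : c ≠ b := by
  (obtain ⟨lab, hlab⟩ := H21D.exists_lab [a, b, c, d, ξ, η]; simp only [List.forall_mem_cons, List.not_mem_nil, IsEmpty.forall_iff, implies_true, and_true, forall_eq_or_imp, List.mem_cons, forall_eq, or_false] at hlab; simp only [H21D.cyc, H21D.cyc4, H21D.arc, ne_eq, hlab] at *; omega)

/-- a line separating a marker on the axis of `u` and its translate crosses `u` positively -/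
theorem PosX_of_marker {u δ : G} (hu : u ≠ 1) (hδ : δ ≠ 1) {ξ : C}
    (hξ : cyc (S.att u) ξ (S.att u⁻¹)) (h : S.maj δ (S.att u, S.att u⁻¹, ξ))
    (h' : ¬ S.maj δ (S.att u, S.att u⁻¹, u • ξ)) : S.PosX u δ := by
  have hm := (S.mono_left hu hξ).1
  have hcases : S.In δ ξ ∧ ¬ S.In δ (u • ξ) ∧
      ((S.In δ (S.att u) ∧ ¬ S.In δ (S.att u⁻¹)) ∨ (¬ S.In δ (S.att u) ∧ S.In δ (S.att u⁻¹))) := by
    unfold Sys.maj at h h'
    dsimp only at h h'
    tauto
  obtain ⟨h3, h2, h1⟩ := hcases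
  unfold Sys.In at h1 h2 h3
  rcases h1 with ⟨h1, h4⟩ | ⟨h1, h4⟩
  · exact (f3_m1 hξ hm h1 h2 h3 h4).elim
  · rcases f3_m2 hξ hm h1 h2 h3 h4 with h5 | h5
    · exfalso
      apply f3_m3 hξ hm h1 h2 h3 h4 h5
      have := S.shared' hu hδ h5.symm
      exact this.symm
    · exact h5

theorem PosX_of_BA {δ : G} (hδ : δ ≠ 1) (hc : c ≠ 1) {n : ℕ} (h : S.maj δ (K.B n))
    (h' : ¬ S.maj δ (K.A (n + 1))) : S.PosX (K.hu (n + 1)) δ := by
  have hu1 := K.u_ne_one (n + 1)
  unfold B at h
  unfold A at h'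
  rw [K.gg_succ, mul_smul, maj_back hδ] at h'
  rw [maj_back hδ] at h
  rw [K.hu_succ, ← conj_back (K.gg n) δ, S.PosX_conj _ (K.u_ne_one _) (back_ne_one hδ)]
  have hx := K.crs (n + 1)
  apply PosX_of_marker hu1 (back_ne_one hδ) (ξ := S.att c⁻¹)
  · unfold Sys.PosX at hx
    exact (show ∀ {a b p q : C}, cyc4 p a q b → cyc a q b from by
      intro a b p q hh
      (obtain ⟨lab, hlab⟩ := H21D.exists_lab [a, b, p, q]; simp only [List.forall_mem_cons, List.not_mem_nil, IsEmpty.forall_iff, implies_true, and_true, forall_eq_or_imp, List.mem_cons, forall_eq, or_false] at hlab; simp only [H21D.cyc, H21D.cyc4, H21D.arc, ne_eq, hlab] at *; omega)) hx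
  · exact h
  · have e : K.u (n + 1) • K.T ((n + 1 : ℕ) : ℤ) =
        (S.att (K.u (n + 1)), S.att (K.u (n + 1))⁻¹, K.u (n + 1) • S.att c⁻¹) := by
      unfold T
      push_cast
      rw [Prod.smul_mk, Prod.smul_mk, S.smul_att hu1, S.smul_att_inv hu1]
    rw [e] at h'
    exact h'

theorem PosX_of_AB {δ : G} (hδ : δ ≠ 1) (hc : c ≠ 1) {n : ℕ} (h : S.maj δ (K.A n))
    (h' : ¬ S.maj δ (K.B n)) : S.PosX (K.hc' n) δ := by
  unfold A at h
  unfold B at h'
  rw [maj_back hδ] at h h'
  rw [hc', ← conj_back (K.gg n) δ, S.PosX_conj _ hc (back_ne_one hδ)]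
  have hb := K.lt n (n + 1) (by omega)
  unfold T at h h'
  refine S.PosX_of_sep_cross hc (back_ne_one hδ) (K.crs n) (Or.inl hb.1) (Or.inl hb.2) h h'

theorem dirS {δ : G} {n n' : ℕ} (h : S.PosX (K.hu n) δ) (h' : S.PosX (K.hu n') δ⁻¹) : False := by
  rcases lt_trichotomy n n' with hn | hn | hn
  · exact S.Nst_dir (K.hu_nst hn) h h'
  · rw [hn] at h
    exact S.not_PosX_inv h h'
  · exact S.Nst_dir' (K.hu_nst hn) h' h

theorem dirT (hc : c ≠ 1) {δ : G} {n n' : ℕ} (h : S.PosX (K.hc' n) δ)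
    (h' : S.PosX (K.hc' n') δ⁻¹) : False := by
  rcases lt_trichotomy n n' with hn | hn | hn
  · exact S.NstL_dir (K.hc_nst hc hn) h h'
  · rw [hn] at h
    exact S.not_PosX_inv h h'
  · exact S.NstL_dir' (K.hc_nst hc hn) h' h

theorem f3_c1 {C : Type*} [LinearOrder C] {p q x y e : C} (h : cyc4 p x q y) (h1 : cyc p e q)
    (h2 : ¬ (e = x ∨ cyc x e y)) : cyc4 p e x q := by
  (obtain ⟨lab, hlab⟩ := H21D.exists_lab [p, q, x, y, e]; simp only [List.forall_mem_cons, List.not_mem_nil, IsEmpty.forall_iff, implies_true, and_true, forall_eq_or_imp, List.mem_cons, forall_eq, or_false] at hlab; simp only [H21D.cyc, H21D.cyc4, H21D.arc, ne_eq, hlab] at *; omega)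

theorem f3_c2 {C : Type*} [LinearOrder C] {p q x y f : C} (h : cyc4 p x q y) (h1 : cyc q f p)
    (h2 : ¬ (f = x ∨ cyc x f y)) : y = f ∨ cyc4 q y f p := by
  (obtain ⟨lab, hlab⟩ := H21D.exists_lab [p, q, x, y, f]; simp only [List.forall_mem_cons, List.not_mem_nil, IsEmpty.forall_iff, implies_true, and_true, forall_eq_or_imp, List.mem_cons, forall_eq, or_false] at hlab; simp only [H21D.cyc, H21D.cyc4, H21D.arc, ne_eq, hlab] at *; omega)

theorem f3_c3 {C : Type*} [LinearOrder C] {p q x y e : C} (h : cyc4 p x q y) (h1 : cyc p e q)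
    (h2 : e = x ∨ cyc x e y) : e = x ∨ cyc4 p x e q := by
  (obtain ⟨lab, hlab⟩ := H21D.exists_lab [p, q, x, y, e]; simp only [List.forall_mem_cons, List.not_mem_nil, IsEmpty.forall_iff, implies_true, and_true, forall_eq_or_imp, List.mem_cons, forall_eq, or_false] at hlab; simp only [H21D.cyc, H21D.cyc4, H21D.arc, ne_eq, hlab] at *; omega)

theorem f3_c4 {C : Type*} [LinearOrder C] {p q x y f : C} (h : cyc4 p x q y) (h1 : cyc q f p)
    (h2 : f = x ∨ cyc x f y) : cyc4 q f y p := by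
  (obtain ⟨lab, hlab⟩ := H21D.exists_lab [p, q, x, y, f]; simp only [List.forall_mem_cons, List.not_mem_nil, IsEmpty.forall_iff, implies_true, and_true, forall_eq_or_imp, List.mem_cons, forall_eq, or_false] at hlab; simp only [H21D.cyc, H21D.cyc4, H21D.arc, ne_eq, hlab] at *; omega)

theorem f3_c5 {C : Type*} [LinearOrder C] {p q x y a b : C} (h : cyc4 p a x q)
    (h' : cyc4 q b y p) : cyc4 a x b y := by
  (obtain ⟨lab, hlab⟩ := H21D.exists_lab [p, q, x, y, a, b]; simp only [List.forall_mem_cons, List.not_mem_nil, IsEmpty.forall_iff, implies_true, and_true, forall_eq_or_imp, List.mem_cons, forall_eq, or_false] at hlab; simp only [H21D.cyc, H21D.cyc4, H21D.arc, ne_eq, hlab] at *; omega)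

theorem f3_c6 {C : Type*} [LinearOrder C] {p q x y a b : C} (h : cyc4 p x a q)
    (h' : cyc4 q b y p) : cyc4 b y x a := by
  (obtain ⟨lab, hlab⟩ := H21D.exists_lab [p, q, x, y, a, b]; simp only [List.forall_mem_cons, List.not_mem_nil, IsEmpty.forall_iff, implies_true, and_true, forall_eq_or_imp, List.mem_cons, forall_eq, or_false] at hlab; simp only [H21D.cyc, H21D.cyc4, H21D.arc, ne_eq, hlab] at *; omega)

theorem f3_c7 {C : Type*} [LinearOrder C] {p q x y : C} (h : cyc4 p x q y) :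
    cyc x q y := by
  (obtain ⟨lab, hlab⟩ := H21D.exists_lab [p, q, x, y]; simp only [List.forall_mem_cons, List.not_mem_nil, IsEmpty.forall_iff, implies_true, and_true, forall_eq_or_imp, List.mem_cons, forall_eq, or_false] at hlab; simp only [H21D.cyc, H21D.cyc4, H21D.arc, ne_eq, hlab] at *; omega)

theorem f3_c8 {C : Type*} [LinearOrder C] {p q x y : C} (h : cyc4 p x y q) :
    cyc p x q ∧ cyc p y q := by
  (obtain ⟨lab, hlab⟩ := H21D.exists_lab [p, q, x, y]; simp only [List.forall_mem_cons, List.not_mem_nil, IsEmpty.forall_iff, implies_true, and_true, forall_eq_or_imp, List.mem_cons, forall_eq, or_false] at hlab; simp only [H21D.cyc, H21D.cyc4, H21D.arc, ne_eq, hlab] at *; omega)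

/-- a line `δ` that crosses `c` between `u` and `w` -/
theorem opp_cases {c u w δ : G} (hu : u ≠ 1) (hw : w ≠ 1) (hδ : δ ≠ 1) (hb : S.Bef c u w)
    (hcu : S.PosX c δ) (h : S.maj δ (S.att u, S.att u⁻¹, S.att c⁻¹))
    (h' : ¬ S.maj δ (S.att w, S.att w⁻¹, S.att c⁻¹)) (hne : S.att u ≠ S.att δ) :
    S.Opp c u δ ∨ S.PosX u δ ∨ (S.Nst u δ ∧ S.Nst δ w) := by
  have hne' : S.att δ⁻¹ ≠ S.att u⁻¹ := by
    intro e
    apply hne
    have := S.shared (inv_ne_one.2 hu) (inv_ne_one.2 hδ) e.symm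
    rwa [inv_inv, inv_inv] at this
  unfold Sys.PosX at hcu
  have hq : S.In δ (S.att c⁻¹) := Or.inr (f3_c7 hcu)
  have h1 : S.In δ (S.att u) ∨ S.In δ (S.att u⁻¹) := by
    unfold Sys.maj at h
    dsimp only at h
    tauto
  have h2 : ¬ S.In δ (S.att w) ∧ ¬ S.In δ (S.att w⁻¹) := by
    unfold Sys.maj at h'
    dsimp only at h'
    tauto
  have hbe := (f3_c8 hb.1).1
  have hba := (f3_c8 hb.1).2
  have hbb := (f3_c8 hb.2).1
  have hbf := (f3_c8 hb.2).2
  unfold Sys.In at h1 h2
  have k1 := f3_c1 hcu hbe h2.1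
  have k2 : cyc4 (S.att c⁻¹) (S.att δ⁻¹) (S.att w⁻¹) (S.att c) := by
    rcases f3_c2 hcu hbf h2.2 with e | e
    · exfalso
      have e2 := S.shared (inv_ne_one.2 hw) (inv_ne_one.2 hδ) e.symm
      rw [inv_inv, inv_inv] at e2
      exact h2.1 (Or.inl e2)
    · exact e
  by_cases ha : S.att u = S.att δ ∨ cyc (S.att δ) (S.att u) (S.att δ⁻¹)
  · have k3 : cyc4 (S.att c) (S.att δ) (S.att u) (S.att c⁻¹) :=
      (f3_c3 hcu hba ha).resolve_left hne
    by_cases hb' : S.att u⁻¹ = S.att δ ∨ cyc (S.att δ) (S.att u⁻¹) (S.att δ⁻¹)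
    · have k4 := f3_c4 hcu hbb hb'
      right; right
      exact ⟨f3_c6 k3 k4, f3_c6 k1 k2⟩
    · left
      exact ⟨k3, (f3_c2 hcu hbb hb').resolve_left hne'⟩
  · right; left
    have k3 := f3_c1 hcu hba ha
    have k4 := f3_c4 hcu hbb (h1.resolve_left ha)
    exact f3_c5 k3 k4

/-- a crossing at the step `A n → B n` that is opposite to a crossing with a line of the family has
a cancelling partner (namely `K.u n`). -/
theorem opp_of_dir {δ : G} (hδ : δ ≠ 1) (hc : c ≠ 1) {n j : ℕ} (h : S.maj δ (K.A n))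
    (h' : ¬ S.maj δ (K.B n)) (hj : S.PosX (K.hu j) δ⁻¹) :
    S.Opp c (K.u n) ((K.gg n)⁻¹ * δ * K.gg n) := by
  have hδ' : (K.gg n)⁻¹ * δ * K.gg n ≠ 1 := back_ne_one hδ
  have hx : S.PosX c ((K.gg n)⁻¹ * δ * K.gg n) := by
    have := K.PosX_of_AB hδ hc h h'
    rw [hc', ← conj_back (K.gg n) δ, S.PosX_conj _ hc hδ'] at this
    exact this
  have hb := K.lt n (n + 1) (by omega)
  have hm : S.maj ((K.gg n)⁻¹ * δ * K.gg n)
      (S.att (K.u n), S.att (K.u n)⁻¹, S.att c⁻¹) := by
    unfold A at h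
    rw [maj_back hδ] at h
    exact h
  have hm' : ¬ S.maj ((K.gg n)⁻¹ * δ * K.gg n)
      (S.att (K.u (n + 1)), S.att (K.u (n + 1))⁻¹, S.att c⁻¹) := by
    unfold B at h'
    rw [maj_back hδ] at h'
    exact h'
  have hun : K.hu n ∈ F.U := F.conj _ (K.mem _)
  have huj : K.hu j ∈ F.U := F.conj _ (K.mem _)
  have hne : S.att (K.u n) ≠ S.att ((K.gg n)⁻¹ * δ * K.gg n) := by
    intro e
    have e2 : S.att (K.hu n) = S.att δ := by
      rw [hu, ← conj_back (K.gg n) δ, S.att_conj _ (K.u_ne_one _), S.att_conj _ hδ', e]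
    have e3 := S.shared (F.prim hun).1 hδ e2
    apply F.unl huj (F.inv hun)
    unfold Sys.PosX at hj ⊢
    rw [inv_inv] at hj ⊢
    rw [e2, e3]
    exact hj
  rcases opp_cases (K.u_ne_one n) (K.u_ne_one (n + 1)) hδ' hb hx hm hm' hne with h1 | h1 | ⟨h1, h2⟩
  · exact h1
  · exfalso
    refine K.dirS (n := n) (n' := j) ?_ hj
    rw [hu, ← conj_back (K.gg n) δ, S.PosX_conj _ (K.u_ne_one _) hδ']
    exact h1
  · exfalso
    have h3 : S.Nst (K.hu n) δ := by
      rw [hu, ← conj_back (K.gg n) δ, S.Nst_conj _ (K.u_ne_one _) hδ']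
      exact h1
    have h4 : S.Nst δ (K.hu (n + 1)) := by
      rw [K.hu_succ, ← conj_back (K.gg n) δ, S.Nst_conj _ hδ' (K.u_ne_one _)]
      exact h2
    rcases lt_trichotomy j n with hjn | hjn | hjn
    · exact S.Nst_not_PosX (S.Nst_trans (K.hu_nst hjn) h3) hj
    · rw [hjn] at hj
      exact S.Nst_not_PosX h3 hj
    · rcases Nat.lt_or_ge (n + 1) j with hjn' | hjn'
      · exact S.Nst_not_PosX' (S.Nst_trans h4 (K.hu_nst hjn')) hj
      · have : j = n + 1 := by omega
        rw [this] at hj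
        exact S.Nst_not_PosX' h4 hj

end Crs
end H21D
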