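import Mathlib

/-! # F4: pure counting along a path -/
namespace H21D

theorem f4_ncard {G : Type*} (Δ : Finset G) (P : G → Prop) [DecidablePred P] :
    {δ | δ ∈ Δ ∧ P δ}.ncard = ∑ δ ∈ Δ, if P δ then 1 else 0 := by
  classical
  have h : {δ | δ ∈ Δ ∧ P δ} = ↑(Δ.filter P) := by
    ext δ
    simp
  rw [h, Set.ncard_coe_finset, Finset.card_filter]

theorem f4_inv {G : Type*} [Group G] (Δ : Finset G) (hinv : ∀ δ ∈ Δ, δ⁻¹ ∈ Δ) (X : G → ℕ) :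
    ∑ δ ∈ Δ, X δ⁻¹ = ∑ δ ∈ Δ, X δ := by
  refine Finset.sum_nbij' (fun δ => δ⁻¹) (fun δ => δ⁻¹) hinv hinv ?_ ?_ ?_
  · intro δ _
    exact inv_inv δ
  · intro δ _
    exact inv_inv δ
  · intro δ _
    rfl

theorem f4_tel (M : ℕ) (a b : ℕ → Prop) [DecidablePred a] [DecidablePred b] :
    (((if a 0 ∧ ¬ a M then 1 else 0 : ℕ) : ℤ) - ((if ¬ a 0 ∧ a M then 1 else 0 : ℕ) : ℤ)) =
      ((∑ n ∈ Finset.range M, if a n ∧ ¬ b n then 1 else 0 : ℕ) : ℤ) -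
        ((∑ n ∈ Finset.range M, if ¬ a n ∧ b n then 1 else 0 : ℕ) : ℤ) +
      ((∑ n ∈ Finset.range M, if b n ∧ ¬ a (n + 1) then 1 else 0 : ℕ) : ℤ) -
        ((∑ n ∈ Finset.range M, if ¬ b n ∧ a (n + 1) then 1 else 0 : ℕ) : ℤ) := by
  induction M with
  | zero =>
    by_cases h0 : a 0 <;> simp [h0]
  | succ M ih =>
    simp only [Finset.sum_range_succ]
    push_cast at ih ⊢
    by_cases h0 : a 0 <;> by_cases h1 : a M <;> by_cases h2 : b M <;> by_cases h3 : a (M + 1) <;>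
      simp only [h0, h1, h2, h3, not_true_eq_false, not_false_eq_true, and_true, and_false, true_and, false_and,
        if_true, if_false] at ih ⊢ <;> linarith

/-- `sA n`, `sB n` (`A 0, B 0, A 1, B 1, ..., A M`) are the positions of a path, `sA n δ` says on which
side of the wall `δ` the position is, `δ⁻¹` is the same wall with the sides exchanged.
All crossings `B n → A (n+1)` of a wall have the same direction, all crossings `A n → B n` too;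
a free crossing `A n → B n` has no opposite crossing `B j → A (j+1)`. -/
theorem path_count {G : Type*} [Group G] (Δ : Finset G) (hinv : ∀ δ ∈ Δ, δ⁻¹ ∈ Δ)
    (M : ℕ) (sA sB fr : ℕ → G → Prop)
    (hA : ∀ n, ∀ δ ∈ Δ, (sA n δ⁻¹ ↔ ¬ sA n δ)) (hB : ∀ n, ∀ δ ∈ Δ, (sB n δ⁻¹ ↔ ¬ sB n δ))
    (D1 : ∀ δ ∈ Δ, ∀ n < M, ∀ n' < M, sB n δ → ¬ sA (n + 1) δ → sB n' δ⁻¹ →
      ¬ sA (n' + 1) δ⁻¹ → False)
    (D2 : ∀ δ ∈ Δ, ∀ n < M, ∀ n' < M, sA n δ → ¬ sB n δ → sA n' δ⁻¹ → ¬ sB n' δ⁻¹ → False)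
    (D3 : ∀ δ ∈ Δ, ∀ n < M, ∀ n' < M, sA n δ → ¬ sB n δ → fr n δ → sB n' δ⁻¹ →
      ¬ sA (n' + 1) δ⁻¹ → False) :
    (∑ n ∈ Finset.range M, {δ | δ ∈ Δ ∧ sB n δ ∧ ¬ sA (n + 1) δ}.ncard) +
      2 * (∑ n ∈ Finset.range M, {δ | δ ∈ Δ ∧ sA n δ ∧ ¬ sB n δ ∧ fr n δ}.ncard) ≤
    {δ | δ ∈ Δ ∧ sA 0 δ ∧ ¬ sA M δ}.ncard +
      ∑ n ∈ Finset.range M, {δ | δ ∈ Δ ∧ sA n δ ∧ ¬ sB n δ}.ncard := by
  classical
  obtain ⟨S, hS⟩ : ∃ S : G → ℕ, ∀ δ, S δ = ∑ n ∈ Finset.range M, if sB n δ ∧ ¬ sA (n + 1) δ then 1 else 0 :=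
    ⟨_, fun _ => rfl⟩
  obtain ⟨T, hT⟩ : ∃ T : G → ℕ, ∀ δ, T δ = ∑ n ∈ Finset.range M, if sA n δ ∧ ¬ sB n δ then 1 else 0 :=
    ⟨_, fun _ => rfl⟩
  obtain ⟨R, hR⟩ : ∃ R : G → ℕ, ∀ δ, R δ = ∑ n ∈ Finset.range M, if sA n δ ∧ ¬ sB n δ ∧ fr n δ then 1 else 0 :=
    ⟨_, fun _ => rfl⟩
  obtain ⟨E, hE⟩ : ∃ E : G → ℕ, ∀ δ, E δ = if sA 0 δ ∧ ¬ sA M δ then 1 else 0 := ⟨_, fun _ => rfl⟩
  have e1 : (∑ n ∈ Finset.range M, {δ | δ ∈ Δ ∧ sB n δ ∧ ¬ sA (n + 1) δ}.ncard) = ∑ δ ∈ Δ, S δ := by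
    simp only [f4_ncard, hS]
    exact Finset.sum_comm
  have e2 : (∑ n ∈ Finset.range M, {δ | δ ∈ Δ ∧ sA n δ ∧ ¬ sB n δ ∧ fr n δ}.ncard) = ∑ δ ∈ Δ, R δ := by
    simp only [f4_ncard, hR]
    exact Finset.sum_comm
  have e3 : {δ | δ ∈ Δ ∧ sA 0 δ ∧ ¬ sA M δ}.ncard = ∑ δ ∈ Δ, E δ := by
    simp only [f4_ncard, hE]
  have e4 : (∑ n ∈ Finset.range M, {δ | δ ∈ Δ ∧ sA n δ ∧ ¬ sB n δ}.ncard) = ∑ δ ∈ Δ, T δ := by
    simp only [f4_ncard, hT]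
    exact Finset.sum_comm
  rw [e1, e2, e3, e4]
  have hSpos : ∀ δ, S δ ≠ 0 → ∃ n < M, sB n δ ∧ ¬ sA (n + 1) δ := by
    intro δ h
    rw [hS] at h
    obtain ⟨n, hn, h1⟩ := Finset.exists_ne_zero_of_sum_ne_zero h
    refine ⟨n, Finset.mem_range.1 hn, ?_⟩
    by_contra h2
    exact h1 (if_neg h2)
  have hTpos : ∀ δ, T δ ≠ 0 → ∃ n < M, sA n δ ∧ ¬ sB n δ := by
    intro δ h
    rw [hT] at h
    obtain ⟨n, hn, h1⟩ := Finset.exists_ne_zero_of_sum_ne_zero h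
    refine ⟨n, Finset.mem_range.1 hn, ?_⟩
    by_contra h2
    exact h1 (if_neg h2)
  have hRpos : ∀ δ, R δ ≠ 0 → ∃ n < M, sA n δ ∧ ¬ sB n δ ∧ fr n δ := by
    intro δ h
    rw [hR] at h
    obtain ⟨n, hn, h1⟩ := Finset.exists_ne_zero_of_sum_ne_zero h
    refine ⟨n, Finset.mem_range.1 hn, ?_⟩
    by_contra h2
    exact h1 (if_neg h2)
  have hRT : ∀ δ, R δ ≤ T δ := by
    intro δ
    rw [hR, hT]
    refine Finset.sum_le_sum fun n _ => ?_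
    by_cases h1 : sA n δ ∧ ¬ sB n δ ∧ fr n δ
    · rw [if_pos h1, if_pos ⟨h1.1, h1.2.1⟩]
    · rw [if_neg h1]
      exact Nat.zero_le _
  have hS0 : ∀ δ ∈ Δ, S δ = 0 ∨ S δ⁻¹ = 0 := by
    intro δ hδ
    by_contra hc
    push Not at hc
    obtain ⟨n, hn, h1, h2⟩ := hSpos δ hc.1
    obtain ⟨n', hn', h3, h4⟩ := hSpos δ⁻¹ hc.2
    exact D1 δ hδ n hn n' hn' h1 h2 h3 h4
  have hT0 : ∀ δ ∈ Δ, T δ = 0 ∨ T δ⁻¹ = 0 := by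
    intro δ hδ
    by_contra hc
    push Not at hc
    obtain ⟨n, hn, h1, h2⟩ := hTpos δ hc.1
    obtain ⟨n', hn', h3, h4⟩ := hTpos δ⁻¹ hc.2
    exact D2 δ hδ n hn n' hn' h1 h2 h3 h4
  have hR0 : ∀ δ ∈ Δ, R δ = 0 ∨ S δ⁻¹ = 0 := by
    intro δ hδ
    by_contra hc
    push Not at hc
    obtain ⟨n, hn, h1, h2, h5⟩ := hRpos δ hc.1
    obtain ⟨n', hn', h3, h4⟩ := hSpos δ⁻¹ hc.2
    exact D3 δ hδ n hn n' hn' h1 h2 h5 h3 h4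
  have htel : ∀ δ ∈ Δ, ((E δ : ℤ) - (E δ⁻¹ : ℤ)) = (T δ : ℤ) - (T δ⁻¹ : ℤ) + (S δ : ℤ) - (S δ⁻¹ : ℤ) := by
    intro δ hδ
    have h1 := f4_tel M (fun n => sA n δ) (fun n => sB n δ)
    have g1 : E δ⁻¹ = if ¬ sA 0 δ ∧ sA M δ then 1 else 0 := by
      rw [hE]
      exact if_congr (by rw [hA 0 δ hδ, hA M δ hδ, not_not]) rfl rfl
    have g2 : T δ⁻¹ = ∑ n ∈ Finset.range M, if ¬ sA n δ ∧ sB n δ then 1 else 0 := by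
      rw [hT]
      refine Finset.sum_congr rfl fun n _ => ?_
      exact if_congr (by rw [hA n δ hδ, hB n δ hδ, not_not]) rfl rfl
    have g3 : S δ⁻¹ = ∑ n ∈ Finset.range M, if ¬ sB n δ ∧ sA (n + 1) δ then 1 else 0 := by
      rw [hS]
      refine Finset.sum_congr rfl fun n _ => ?_
      exact if_congr (by rw [hA (n + 1) δ hδ, hB n δ hδ, not_not]) rfl rfl
    rw [g1, g2, g3, hE, hT, hS]
    exact h1
  have key : ∀ δ ∈ Δ, (S δ + S δ⁻¹) + 2 * (R δ + R δ⁻¹) ≤ (E δ + E δ⁻¹) + (T δ + T δ⁻¹) := by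
    intro δ hδ
    have a1 := hS0 δ hδ
    have a2 := hT0 δ hδ
    have a3 := hR0 δ hδ
    have a4 := hR0 δ⁻¹ (hinv δ hδ)
    rw [inv_inv] at a4
    have a5 := hRT δ
    have a6 := hRT δ⁻¹
    have a7 := htel δ hδ
    omega
  have hsum := Finset.sum_le_sum key
  simp only [Finset.sum_add_distrib, ← Finset.mul_sum, f4_inv Δ hinv] at hsum
  omega

end H21D
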