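import Pool.Agent.Lib.H21D.F2
import Pool.Agent.Lib.H21D.F3
import Pool.Agent.Lib.H21D.F4

/-! # F5: the staircase lemma -/
namespace H21D

theorem f5_sum_per (f : ℕ → ℕ) (m : ℕ) (h : ∀ n, f (n + m) = f n) (N : ℕ) :
    ∑ n ∈ Finset.range (N * m), f n = N * ∑ n ∈ Finset.range m, f n := by
  have h2 : ∀ k n, f (k * m + n) = f n := by
    intro k
    induction k with
    | zero => intro n; rw [zero_mul, zero_add]
    | succ k ih =>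
      intro n
      have e : (k + 1) * m + n = (k * m + n) + m := by ring
      rw [e, h, ih]
  induction N with
  | zero => simp
  | succ N ih =>
    have e : (N + 1) * m = N * m + m := by ring
    rw [e, Finset.sum_range_add, ih, Finset.sum_congr rfl (fun n _ => h2 N n)]
    ring

namespace Crs
variable {G C : Type*} [Group G] [LinearOrder C] [MulAction G C] {S : Sys G C} {F : Fam S}
  {c : G} (K : Crs F c)

theorem f5_free_conj {y c : G} (hc : c ≠ 1) (hy : y ≠ 1) {δ : G} (hδ : δ ≠ 1) (k : ℤ)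
    (h : ¬ ∃ u ∈ cls y, S.Opp c u δ) : ¬ ∃ u ∈ cls y, S.Opp c u (c ^ k * δ * (c ^ k)⁻¹) := by
  rintro ⟨u, hu, h1⟩
  apply h
  refine ⟨(c ^ k)⁻¹ * u * c ^ k, ?_, ?_⟩
  · have := cls_conj (c ^ k)⁻¹ hu
    rwa [inv_inv] at this
  · have hu1 : u ≠ 1 := cls_ne_one hy hu
    have h2 := (S.Opp_conj (c ^ k)⁻¹ hc hu1 (S.conj_ne_one (c ^ k) hδ)).2 h1
    have e1 : (c ^ k)⁻¹ * c * (c ^ k)⁻¹⁻¹ = c := by group
    have e2 : (c ^ k)⁻¹ * (c ^ k * δ * (c ^ k)⁻¹) * (c ^ k)⁻¹⁻¹ = δ := by group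
    rw [e1, e2, inv_inv] at h2
    exact h2

/-- the free crossings at the step `T n → T (n+1)` -/
def f5_r (K : Crs F c) (b y : G) (n : ℕ) : Set G :=
  {δ | δ ∈ cls b ∧ (¬ ∃ u ∈ cls y, S.Opp c u δ) ∧ S.maj δ (K.T n) ∧ ¬ S.maj δ (K.T (n + 1))}

theorem f5_ncard_conj (g : G) (X Y : Set G) (h : ∀ δ, δ ∈ X ↔ g⁻¹ * δ * g ∈ Y) : X.ncard = Y.ncard := by
  refine Set.ncard_congr (fun δ _ => g⁻¹ * δ * g) ?_ ?_ ?_
  · intro δ hδ
    exact (h δ).1 hδ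
  · intro δ δ' _ _ e
    exact mul_left_cancel (mul_right_cancel e)
  · intro δ hδ
    refine ⟨g * δ * g⁻¹, ?_, by group⟩
    rw [h]
    have e : g⁻¹ * (g * δ * g⁻¹) * g = δ := by group
    rw [e]
    exact hδ

theorem f5_cls_conj_iff {b : G} (g δ : G) : g⁻¹ * δ * g ∈ cls b ↔ δ ∈ cls b := by
  constructor
  · intro h
    have h1 := cls_conj g h
    have e : g * (g⁻¹ * δ * g) * g⁻¹ = δ := by group
    rwa [e] at h1
  · intro h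
    have h1 := cls_conj g⁻¹ h
    rwa [inv_inv] at h1

theorem f5_maj_conj {δ : G} (hδ : δ ≠ 1) (g : G) (T : C × C × C) :
    S.maj (g⁻¹ * δ * g) T ↔ S.maj δ (g • T) := by
  have h1 : g⁻¹ * δ * g ≠ 1 := by
    have := S.conj_ne_one g⁻¹ hδ
    rwa [inv_inv] at this
  have h2 := S.maj_conj g h1 T
  have e : g * (g⁻¹ * δ * g) * g⁻¹ = δ := by group
  rw [e] at h2
  exact h2.symm

theorem f5_r_per (hc : c ≠ 1) {b y : G} (hb : b ≠ 1) (hy : y ≠ 1) (n : ℕ) :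
    (K.f5_r b y (n + K.m)).ncard = (K.f5_r b y n).ncard := by
  apply f5_ncard_conj c
  intro δ
  have e1 : K.T ((n + K.m : ℕ) : ℤ) = c • K.T n := by
    have := K.T_per hc n
    rw [← this]
    push_cast
    rfl
  have e2 : K.T (((n + K.m : ℕ) : ℤ) + 1) = c • K.T ((n : ℤ) + 1) := by
    have := K.T_per hc ((n : ℤ) + 1)
    rw [← this]
    push_cast
    congr 1
    ring
  unfold f5_r
  simp only [Set.mem_setOf_eq]
  rw [e1, e2, f5_cls_conj_iff]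
  constructor
  · rintro ⟨h1, h2, h3, h4⟩
    have hδ := cls_ne_one hb h1
    refine ⟨h1, ?_, (f5_maj_conj hδ c _).2 h3, fun h5 => h4 ((f5_maj_conj hδ c _).1 h5)⟩
    have h6 := f5_free_conj (S := S) hc hy hδ (-1) h2
    rwa [zpow_neg_one, inv_inv] at h6
  · rintro ⟨h1, h2, h3, h4⟩
    have hδ := cls_ne_one hb h1
    refine ⟨h1, ?_, (f5_maj_conj hδ c _).1 h3, fun h5 => h4 ((f5_maj_conj hδ c _).2 h5)⟩
    have hδ' : c⁻¹ * δ * c ≠ 1 := by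
      have := S.conj_ne_one c⁻¹ hδ
      rwa [inv_inv] at this
    have h6 := f5_free_conj (S := S) hc hy hδ' 1 h2
    have e : c ^ (1 : ℤ) * (c⁻¹ * δ * c) * (c ^ (1 : ℤ))⁻¹ = δ := by group
    rwa [e] at h6

/-- for `N` periods; `path_count` with `fr n δ = ¬ ∃ u ∈ cls y, S.Opp c u (g_n⁻¹ δ g_n)`. -/
theorem stair_lower_N {b y : G} (hb : b ≠ 1) (hy : S.Prim y) (hF : F.U = cls y)
    (hc : S.Prim c) (N : ℕ) :
    N * (K.m * S.iN y b + 2 * S.nFree c y b) ≤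
      S.dist b (K.A 0) (K.X ^ N • K.A 0) + N * S.iN c b := by
  classical
  have hc1 := hc.ne_one
  have hy1 := hy.ne_one
  obtain ⟨M, hM⟩ : ∃ M, M = N * K.m := ⟨_, rfl⟩
  -- the finite set of walls
  obtain ⟨W, hW⟩ : ∃ W : Set G, W = S.sepSet b (K.A 0) (K.A M) ∪
      ⋃ n ∈ Finset.range M, (S.sepSet b (K.A n) (K.B n) ∪ S.sepSet b (K.B n) (K.A (n + 1))) := ⟨_, rfl⟩
  have hWfin : W.Finite := by
    rw [hW]
    refine (S.sep_fin hb (K.A_dst 0) (K.A_dst M)).union ?_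
    refine Set.Finite.biUnion (Finset.finite_toSet _) fun n _ => ?_
    exact (S.sep_fin hb (K.A_dst n) (K.B_dst n)).union (S.sep_fin hb (K.B_dst n) (K.A_dst (n + 1)))
  have hWcls : ∀ δ ∈ W, δ ∈ cls b := by
    intro δ hδ
    rw [hW] at hδ
    rcases hδ with h | h
    · exact h.1
    · rw [Set.mem_iUnion₂] at h
      obtain ⟨n, _, h | h⟩ := h
      · exact h.1
      · exact h.1
  have hWi : (W ∪ (fun δ => δ⁻¹) '' W).Finite := hWfin.union (hWfin.image _)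
  obtain ⟨Δ, hΔ⟩ : ∃ Δ : Finset G, ∀ δ, δ ∈ Δ ↔ δ ∈ W ∪ (fun δ => δ⁻¹) '' W :=
    ⟨hWi.toFinset, fun δ => hWi.mem_toFinset⟩
  have hΔW : ∀ δ ∈ W, δ ∈ Δ := fun δ hδ => (hΔ δ).2 (Or.inl hδ)
  have hΔcls : ∀ δ ∈ Δ, δ ∈ cls b := by
    intro δ hδ
    rcases (hΔ δ).1 hδ with h | ⟨ε, h, rfl⟩
    · exact hWcls δ h
    · exact cls_inv (hWcls ε h)
  have hΔ1 : ∀ δ ∈ Δ, δ ≠ 1 := fun δ hδ => cls_ne_one hb (hΔcls δ hδ)
  have hinv : ∀ δ ∈ Δ, δ⁻¹ ∈ Δ := by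
    intro δ hδ
    rcases (hΔ δ).1 hδ with h | ⟨ε, h, rfl⟩
    · exact (hΔ _).2 (Or.inr ⟨δ, h, rfl⟩)
    · refine (hΔ _).2 (Or.inl ?_)
      show ε⁻¹⁻¹ ∈ W
      rwa [inv_inv]
  have key := path_count Δ hinv M (fun n δ => S.maj δ (K.A n)) (fun n δ => S.maj δ (K.B n))
    (fun n δ => ¬ ∃ u ∈ cls y, S.Opp c u ((K.gg n)⁻¹ * δ * K.gg n))
    (fun n δ hδ => S.maj_inv (hΔ1 δ hδ) _) (fun n δ hδ => S.maj_inv (hΔ1 δ hδ) _)
    (fun δ hδ n _ n' _ h1 h2 h3 h4 => K.dirS (K.PosX_of_BA (hΔ1 δ hδ) hc1 h1 h2)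
      (K.PosX_of_BA (inv_ne_one.2 (hΔ1 δ hδ)) hc1 h3 h4))
    (fun δ hδ n _ n' _ h1 h2 h3 h4 => K.dirT hc1 (K.PosX_of_AB (hΔ1 δ hδ) hc1 h1 h2)
      (K.PosX_of_AB (inv_ne_one.2 (hΔ1 δ hδ)) hc1 h3 h4))
    (fun δ hδ n _ n' _ h1 h2 h5 h3 h4 => h5 ⟨K.u n, by rw [← hF]; exact K.mem n,
      K.opp_of_dir (hΔ1 δ hδ) hc1 h1 h2 (K.PosX_of_BA (inv_ne_one.2 (hΔ1 δ hδ)) hc1 h3 h4)⟩)
  have e1 : ∀ n ∈ Finset.range M, {δ | δ ∈ Δ ∧ S.maj δ (K.B n) ∧ ¬ S.maj δ (K.A (n + 1))}.ncard = S.iN y b := by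
    intro n hn
    rw [← K.dist_BA hb hy hF hc1 n]
    unfold Sys.dist
    congr 1
    ext δ
    constructor
    · rintro ⟨h1, h2, h3⟩
      exact ⟨hΔcls δ h1, h2, h3⟩
    · rintro ⟨h1, h2, h3⟩
      refine ⟨hΔW δ ?_, h2, h3⟩
      rw [hW]
      exact Or.inr (Set.mem_iUnion₂.2 ⟨n, hn, Or.inr ⟨h1, h2, h3⟩⟩)
  have e2 : ∀ n ∈ Finset.range M, {δ | δ ∈ Δ ∧ S.maj δ (K.A n) ∧ ¬ S.maj δ (K.B n)}.ncard =
      S.dist b (K.A n) (K.B n) := by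
    intro n hn
    unfold Sys.dist
    congr 1
    ext δ
    constructor
    · rintro ⟨h1, h2, h3⟩
      exact ⟨hΔcls δ h1, h2, h3⟩
    · rintro ⟨h1, h2, h3⟩
      refine ⟨hΔW δ ?_, h2, h3⟩
      rw [hW]
      exact Or.inr (Set.mem_iUnion₂.2 ⟨n, hn, Or.inl ⟨h1, h2, h3⟩⟩)
  have e3 : {δ | δ ∈ Δ ∧ S.maj δ (K.A 0) ∧ ¬ S.maj δ (K.A M)}.ncard =
      S.dist b (K.A 0) (K.X ^ N • K.A 0) := by
    rw [← K.A_mul hc1 N, ← hM]
    unfold Sys.dist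
    congr 1
    ext δ
    constructor
    · rintro ⟨h1, h2, h3⟩
      exact ⟨hΔcls δ h1, h2, h3⟩
    · rintro ⟨h1, h2, h3⟩
      refine ⟨hΔW δ ?_, h2, h3⟩
      rw [hW]
      exact Or.inl ⟨h1, h2, h3⟩
  have e4 : ∀ n ∈ Finset.range M, {δ | δ ∈ Δ ∧ S.maj δ (K.A n) ∧ ¬ S.maj δ (K.B n) ∧
      ¬ ∃ u ∈ cls y, S.Opp c u ((K.gg n)⁻¹ * δ * K.gg n)}.ncard = (K.f5_r b y n).ncard := by
    intro n hn
    apply f5_ncard_conj (K.gg n)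
    intro δ
    unfold f5_r
    simp only [Set.mem_setOf_eq]
    rw [f5_cls_conj_iff]
    constructor
    · rintro ⟨h1, h2, h3, h4⟩
      have hδ := hΔ1 δ h1
      exact ⟨hΔcls δ h1, h4, (f5_maj_conj hδ _ _).2 h2, fun h5 => h3 ((f5_maj_conj hδ _ _).1 h5)⟩
    · rintro ⟨h1, h2, h3, h4⟩
      have hδ := cls_ne_one hb h1
      have h5 : S.maj δ (K.A n) := (f5_maj_conj hδ _ _).1 h3
      have h6 : ¬ S.maj δ (K.B n) := fun h5 => h4 ((f5_maj_conj hδ _ _).2 h5)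
      refine ⟨hΔW δ ?_, h5, h6, h2⟩
      rw [hW]
      exact Or.inr (Set.mem_iUnion₂.2 ⟨n, hn, Or.inl ⟨h1, h5, h6⟩⟩)
  rw [Finset.sum_congr rfl e1, Finset.sum_congr rfl e2, Finset.sum_congr rfl e4, e3] at key
  have e5 : ∑ n ∈ Finset.range M, S.dist b (K.A n) (K.B n) = N * S.iN c b := by
    rw [hM, f5_sum_per (fun n => S.dist b (K.A n) (K.B n)), K.sum_dist_AB hc1 hb]
    intro n
    show S.dist b (K.A (n + K.m)) (K.B (n + K.m)) = S.dist b (K.A n) (K.B n)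
    rw [K.A_per hc1, K.B_per hc1, S.dist_smul _ hb]
  have e6 : ∑ n ∈ Finset.range M, (K.f5_r b y n).ncard = N * S.nFree c y b := by
    rw [hM, f5_sum_per (fun n => (K.f5_r b y n).ncard) K.m (fun n => K.f5_r_per hc1 hb hy1 n)]
    have h7 : ∀ δ, ∀ k : ℤ, (δ ≠ 1 ∧ ¬ ∃ u ∈ cls y, S.Opp c u δ) →
        (c ^ k * δ * (c ^ k)⁻¹ ≠ 1 ∧ ¬ ∃ u ∈ cls y, S.Opp c u (c ^ k * δ * (c ^ k)⁻¹)) :=
      fun δ k h => ⟨S.conj_ne_one (c ^ k) h.1, f5_free_conj hc1 hy1 h.1 k h.2⟩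
    have h8 := K.sum_steps hc1 hb (fun δ => δ ≠ 1 ∧ ¬ ∃ u ∈ cls y, S.Opp c u δ) h7
    have h9 : {δ | δ ∈ S.PosSet c b ∧ δ ≠ 1 ∧ ¬ ∃ u ∈ cls y, S.Opp c u δ} =
        {δ | δ ∈ S.PosSet c b ∧ ¬ ∃ u ∈ cls y, S.Opp c u δ} := by
      ext δ
      constructor
      · rintro ⟨h1, _, h3⟩
        exact ⟨h1, h3⟩
      · rintro ⟨h1, h3⟩
        exact ⟨h1, cls_ne_one hb h1.1, h3⟩
    rw [h9] at h8
    unfold Sys.nFree
    rw [← h8]
    congr 1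
    refine Finset.sum_congr rfl fun n _ => ?_
    congr 1
    ext δ
    constructor
    · rintro ⟨h1, h2, h3, h4⟩
      exact ⟨h1, ⟨cls_ne_one hb h1, h2⟩, h3, h4⟩
    · rintro ⟨h1, h2, h3, h4⟩
      exact ⟨h1, h2.2, h3, h4⟩
  rw [e5, e6, Finset.sum_const, Finset.card_range, hM, smul_eq_mul] at key
  calc N * (K.m * S.iN y b + 2 * S.nFree c y b) = N * K.m * S.iN y b + 2 * (N * S.nFree c y b) := by ring
    _ ≤ _ := key

/-- **staircase lemma** -/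
theorem stair_lower {b y : G} (hb : b ≠ 1) (hy : S.Prim y) (hF : F.U = cls y)
    (hc : S.Prim c) :
    K.m * S.iN y b + 2 * S.nFree c y b ≤ S.iN K.X b + S.iN c b := by
  obtain ⟨D, hD⟩ := S.stable (K.X_ne_one hc) hb (K.A_dst 0)
  by_contra hlt
  push Not at hlt
  have h1 := K.stair_lower_N hb hy hF hc (D + 1)
  have h2 := (hD (D + 1)).1
  have h3 : (D + 1) * (S.iN K.X b + S.iN c b + 1) ≤ (D + 1) * (K.m * S.iN y b + 2 * S.nFree c y b) :=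
    Nat.mul_le_mul_left _ hlt
  have h4 : (D + 1) * (S.iN K.X b + S.iN c b + 1) =
      (D + 1) * S.iN K.X b + (D + 1) * S.iN c b + (D + 1) := by ring
  omega

end Crs
end H21D
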