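import Pool.Agent.Lib.H21D.C5
import Pool.Agent.Lib.H21D.D3
import Pool.Agent.Lib.H21D.D4
import Pool.Agent.Lib.H21D.E5
import Pool.Agent.Lib.H21D.F1

/-! # G1: the family of a simple curve, the twist `tw` -/
namespace H21D
variable {G C : Type*} [Group G] [LinearOrder C] [MulAction G C] {S : Sys G C}

theorem Fam.ext' {F F' : Fam S} (h : F.U = F'.U) : F = F' := by
  cases F; cases F'; cases h; rfl

theorem Simp_unl {y : G} (hy : S.Simp y) {u v : G} (hu : u ∈ cls y) (hv : v ∈ cls y) :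
    ¬ S.PosX u v :=
  (Sys.Simp.cls hy hu).2 v (by rw [cls_eq hu]; exact hv)

theorem cls_fin {b : G} (hb : b ≠ 1) {p q r s : C} (h : cyc4 p q r s) :
    {u : G | u ∈ cls b ∧ arc p q (S.att u) ∧ arc r s (S.att u⁻¹)}.Finite := by
  refine ((S.lf hb h).union (S.lf (inv_ne_one.2 hb) h)).subset ?_
  rintro u ⟨⟨k, hk | hk⟩, h1, h2⟩
  · exact Or.inl ⟨⟨k, hk⟩, h1, h2⟩
  · exact Or.inr ⟨⟨k, hk⟩, h1, h2⟩

theorem g1_unl {y z : G} (hy : S.Prim y) (hz : S.Prim z) (hd : S.Disj y z) {u v : G}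
    (hu : u ∈ cls y) (hv : v ∈ cls z) : ¬ S.PosX u v := by
  have key : ∀ k v : G, v ∈ cls z → ¬ S.PosX (k * y * k⁻¹) v := by
    intro k v hv h
    have hv1 : v ≠ 1 := cls_ne_one hz.1 hv
    have h1 : v = k * (k⁻¹ * v * k) * k⁻¹ := by group
    have hc : k⁻¹ * v * k ∈ cls z := by
      have := cls_conj k⁻¹ hv
      rwa [inv_inv] at this
    rw [h1, S.PosX_conj k hy.1 (cls_ne_one hz.1 hc)] at h
    exact hd _ hc h
  obtain ⟨k, hk | hk⟩ := hu
  · rw [hk]
    exact key k v hv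
  · intro h
    have h2 := S.PosX_inv_inv h
    have h3 : u⁻¹ = k * y * k⁻¹ := by
      rw [hk]
      group
    rw [h3] at h2
    exact key k v⁻¹ (cls_inv hv) h2

theorem Disj_unl {y z : G} (hy : S.Prim y) (hz : S.Prim z) (hd : S.Disj y z) {u v : G}
    (hu : u ∈ cls y) (hv : v ∈ cls z) : ¬ S.PosX u v ∧ ¬ S.PosX v u :=
  ⟨g1_unl hy hz hd hu hv, fun h => g1_unl hy hz hd hu (cls_inv hv) (S.PosX_symm h)⟩

def famOf {y : G} (hy : S.Simp y) : Fam S where
  U := cls y
  prim := fun hu => hy.1.cls hu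
  conj := fun h hu => cls_conj h hu
  inv := fun hu => cls_inv hu
  unl := fun hu hv => Simp_unl hy hu hv
  fin := fun h => cls_fin hy.1.1 h

def fam2 {y z : G} (hy : S.Simp y) (hz : S.Simp z) (hd : S.Disj y z) : Fam S where
  U := cls y ∪ cls z
  prim := by
    rintro u (hu | hu)
    · exact hy.1.cls hu
    · exact hz.1.cls hu
  conj := by
    rintro u h (hu | hu)
    · exact Or.inl (cls_conj h hu)
    · exact Or.inr (cls_conj h hu)
  inv := by
    rintro u (hu | hu)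
    · exact Or.inl (cls_inv hu)
    · exact Or.inr (cls_inv hu)
  unl := by
    rintro u v (hu | hu) (hv | hv)
    · exact Simp_unl hy hu hv
    · exact (Disj_unl hy.1 hz.1 hd hu hv).1
    · exact (Disj_unl hy.1 hz.1 hd hv hu).2
    · exact Simp_unl hz hu hv
  fin := by
    intro p q r s h
    refine ((cls_fin (S := S) hy.1.1 h).union (cls_fin (S := S) hz.1.1 h)).subset ?_
    rintro u ⟨hu | hu, h1, h2⟩
    · exact Or.inl ⟨hu, h1, h2⟩
    · exact Or.inr ⟨hu, h1, h2⟩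

/-- the left Dehn twist along `y` as an automorphism of `G`. -/
noncomputable def tw {y : G} (hy : S.Simp y) : G ≃* G :=
  (famOf hy).tau Wt.one (v := y) (mem_cls_self y)

theorem tw_OP {y : G} (hy : S.Simp y) : S.OP (tw hy) := Fam.OP_tau _ _ _

theorem tw_crs {y c : G} (hy : S.Simp y) (K : Crs (famOf hy) c) :
    ∃ h : G, tw hy c = h * K.X * h⁻¹ := by
  refine ⟨(famOf hy).phi Wt.one y (K.u 0)⁻¹, ?_⟩
  unfold tw
  rw [(famOf hy).tau_base Wt.one ((famOf hy).inv (K.mem 0)) (mem_cls_self y) c, K.tau_eq]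
  rfl

theorem g1_tw {y : G} (hy : S.Simp y) (x : G) :
    tw hy x = (famOf hy).phi Wt.one y (x * y * x⁻¹) * x := rfl

theorem g1_symm (F : Fam S) (e : Wt G) {v : G} (hv : v ∈ F.U) (g : G) :
    (F.tau e hv).symm g = F.tau (-e) hv g := rfl

theorem tw_symm_crs {y c : G} (hy : S.Simp y) (K : Crs (famOf hy) c) :
    ∃ h : G, (tw hy).symm c = h * (K.g (-Wt.one) K.m * c) * h⁻¹ := by
  refine ⟨(famOf hy).phi (-Wt.one) y (K.u 0)⁻¹, ?_⟩
  unfold tw
  rw [g1_symm (famOf hy) Wt.one (mem_cls_self y) c,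
    (famOf hy).tau_base (-Wt.one) ((famOf hy).inv (K.mem 0)) (mem_cls_self y) c, K.tau_eq]

theorem tw_free {y c : G} (hy : S.Simp y) (hc : c ≠ 1) (hd : S.Disj c y) :
    ∃ h : G, tw hy c = h * c * h⁻¹ :=
  (famOf hy).tau_free Wt.one (mem_cls_self y) hc (fun u hu => hd u hu)

theorem tw_self {y : G} (hy : S.Simp y) : ∃ h : G, tw hy y = h * y * h⁻¹ :=
  tw_free hy hy.1.1 hy.2

/-- changing the representative of the twisting curve changes the twist by an inner automorphism. -/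
theorem tw_cls {y y' : G} (hy : S.Simp y) (hy' : S.Simp y') (h : y' ∈ cls y) :
    ∃ k : G, ∀ x, tw hy' x = k * tw hy x * k⁻¹ := by
  have e : famOf hy' = famOf hy := Fam.ext' (cls_eq h)
  have hm : y' ∈ (famOf hy).U := h
  refine ⟨(famOf hy).phi Wt.one y' y, fun x => ?_⟩
  have h1 : (famOf hy).phi Wt.one y' y * tw hy x * ((famOf hy).phi Wt.one y' y)⁻¹ =
      (famOf hy).tau Wt.one hm x := ((famOf hy).tau_base Wt.one (mem_cls_self y) hm x).symm
  rw [h1, g1_tw hy' x, Fam.tau_apply, e]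

theorem g1_H (F F' : Fam S) {τ : G ≃* G} (hτ : S.OP τ) {u v : G} (hu : u ≠ 1) (hv : v ≠ 1) :
    F'.H (τ u) (τ v) ↔ F.H u v := by
  unfold Fam.H
  have h1 : τ v = τ u ↔ v = u := τ.injective.eq_iff
  have h2 : τ v = (τ u)⁻¹ ↔ v = u⁻¹ := by
    rw [← map_inv]
    exact τ.injective.eq_iff
  have h3 := hτ hu hv (inv_ne_one.2 hu)
  rw [map_inv] at h3
  rw [h1, Ne, h2, h3]

theorem g1_aut {G : Type*} [Group G] (τ : G ≃* G) {b w : G} (h : w ∈ cls b) :
    τ w ∈ cls (τ b) := by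
  obtain ⟨k, hk | hk⟩ := h
  · exact ⟨τ k, Or.inl (by rw [hk, map_mul, map_mul, map_inv])⟩
  · exact ⟨τ k, Or.inr (by rw [hk, map_mul, map_mul, map_inv, map_inv])⟩

theorem g1_phi {y : G} (hy : S.Simp y) {τ : G ≃* G} (hτ : S.OP τ) (hy' : S.Simp (τ y)) {v w : G}
    (hv : v ∈ cls y) (hw : w ∈ cls y) :
    (famOf hy').phi Wt.one (τ v) (τ w) = τ ((famOf hy).phi Wt.one v w) := by
  have hback : ∀ a ∈ cls (τ y), τ.symm a ∈ cls y := by
    intro a ha
    have := g1_aut τ.symm ha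
    rwa [MulEquiv.symm_apply_apply] at this
  have h := (famOf hy').cocycle_unique (fun u => u ^ (Wt.one : Wt G).e u)
    ((famOf hy').phi Wt.one) (fun a b => τ ((famOf hy).phi Wt.one (τ.symm a) (τ.symm b)))
    (fun a ha b hb c hc => (famOf hy').phi_trans _ ha hb hc)
    (fun a ha b hb hadj => (famOf hy').phi_adj _ ha hb hadj)
    (fun u hu => (famOf hy').phi_flip _ hu)
    (fun a ha b hb c hc => by
      rw [← map_mul, (famOf hy).phi_trans _ (hback a ha) (hback b hb) (hback c hc)])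
    (fun a ha b hb hadj => by
      have hadj' : (famOf hy).Adj (τ.symm a) (τ.symm b) := by
        intro u hu
        have h1 := hadj (τ u) (g1_aut τ hu)
        have hu1 : u ≠ 1 := cls_ne_one hy.1.1 hu
        have ha1 : τ.symm a ≠ 1 := cls_ne_one hy.1.1 (hback a ha)
        have hb1 : τ.symm b ≠ 1 := cls_ne_one hy.1.1 (hback b hb)
        have e1 := g1_H (famOf hy) (famOf hy') hτ hu1 ha1
        have e2 := g1_H (famOf hy) (famOf hy') hτ hu1 hb1
        rw [MulEquiv.apply_symm_apply] at e1 e2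
        rw [← e1, ← e2]
        exact h1
      show τ ((famOf hy).phi Wt.one (τ.symm a) (τ.symm b)) = 1
      rw [(famOf hy).phi_adj _ (hback a ha) (hback b hb) hadj', map_one])
    (fun u hu => by
      show τ ((famOf hy).phi Wt.one (τ.symm u) (τ.symm u⁻¹)) = u ^ (Wt.one : Wt G).e u
      rw [map_inv, (famOf hy).phi_flip _ (hback u hu), Wt.one_e, Wt.one_e, zpow_one, zpow_one,
        MulEquiv.apply_symm_apply])
    (g1_aut τ hv) (g1_aut τ hw)
  rw [h]
  show τ ((famOf hy).phi Wt.one (τ.symm (τ v)) (τ.symm (τ w))) = _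
  rw [MulEquiv.symm_apply_apply, MulEquiv.symm_apply_apply]

/-- naturality under order preserving automorphisms. -/
theorem tw_nat {y x : G} (hy : S.Simp y) (hx : x ≠ 1) {τ : G ≃* G} (hτ : S.OP τ)
    (hy' : S.Simp (τ y)) : ∃ k : G, tw hy' (τ x) = k * τ (tw hy x) * k⁻¹ := by
  refine ⟨1, ?_⟩
  rw [one_mul, inv_one, mul_one, g1_tw hy' (τ x), g1_tw hy x, map_mul τ,
    ← g1_phi hy hτ hy' (mem_cls_self y) (cls_conj x (mem_cls_self y)), map_mul, map_mul, map_inv]

end H21D
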