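import Pool.Agent.Lib.H21D.G1

/-! # G2: simultaneous twists along two disjoint curves -/
namespace H21D

theorem mem_cls_conj_iff {G : Type*} [Group G] {y : G} (h g : G) :
    h * g * h⁻¹ ∈ cls y ↔ g ∈ cls y := by
  constructor
  · intro h'
    have := cls_conj h⁻¹ h'
    simpa [mul_assoc] using this
  · exact cls_conj h

theorem mem_cls_inv_iff {G : Type*} [Group G] {y : G} (g : G) :
    g⁻¹ ∈ cls y ↔ g ∈ cls y := by
  constructor
  · intro h'
    have := cls_inv h'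
    simpa using this
  · exact cls_inv

open Classical in
/-- exponent `k` on the class of `y`, `0` elsewhere. -/
noncomputable def Wt.ind {G : Type*} [Group G] (y : G) (k : ℤ) : Wt G where
  e g := if g ∈ cls y then k else 0
  conj h g := if_congr (mem_cls_conj_iff h g) rfl rfl
  inv g := if_congr (mem_cls_inv_iff g) rfl rfl

variable {G C : Type*} [Group G] [LinearOrder C] [MulAction G C] {S : Sys G C}

/-- lines with exponent zero do not matter -/
theorem Fam.phi_eq_one (F : Fam S) (e : Wt G) {v w : G} (hv : v ∈ F.U) (hw : w ∈ F.U)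
    (h : ∀ u ∈ F.Sep v w, e.e u = 0) : F.phi e v w = 1 := by
  revert h
  refine F.induct (fun v w => (∀ u ∈ F.Sep v w, e.e u = 0) → F.phi e v w = 1) ?_ ?_ hv hw
  · intro v hv w hw hadj _
    exact F.phi_adj e hv hw hadj
  · intro v hv u hu w hw hadj hnot ih h
    have hin : u ∈ F.Sep v w := ⟨hu, (hadj u hu).2 (F.H_self u), hnot⟩
    rw [F.phi_step e hv hu hw hadj, h u hin, zpow_zero, one_mul]
    apply ih
    intro z hz
    rw [F.sep_step hv hu hw hadj hnot] at hz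
    exact h z hz.1

/-- by `cocycle_unique` for the family of `y`. -/
theorem phi_sub (F : Fam S) {y : G} (hy : S.Simp y) (hF : cls y ⊆ F.U) {v w : G}
    (hv : v ∈ cls y) (hw : w ∈ cls y) :
    F.phi (Wt.ind y 1) v w = (famOf hy).phi Wt.one v w := by
  refine (famOf hy).cocycle_unique (fun u => u ^ (Wt.one : Wt G).e u)
    (F.phi (Wt.ind y 1)) ((famOf hy).phi Wt.one) ?_ ?_ ?_ ?_ ?_ ?_ hv hw
  · intro a ha b hb c hc
    exact F.phi_trans _ (hF ha) (hF hb) (hF hc)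
  · intro a ha b hb hadj
    apply F.phi_eq_one _ (hF ha) (hF hb)
    intro u hu
    have hu2 : u ∉ cls y := by
      intro hu3
      exact hu.2.2 ((hadj u hu3).1 hu.2.1)
    exact if_neg hu2
  · intro u hu
    rw [F.phi_flip _ (hF hu)]
    have e1 : (Wt.ind y 1).e u = 1 := if_pos hu
    rw [e1, Wt.one_e]
  · intro a ha b hb c hc
    exact (famOf hy).phi_trans _ ha hb hc
  · intro a ha b hb hadj
    exact (famOf hy).phi_adj _ ha hb hadj
  · intro u hu
    exact (famOf hy).phi_flip _ hu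

theorem tw_eq_tau (F : Fam S) {y : G} (hy : S.Simp y) (hF : cls y ⊆ F.U) {v : G}
    (hv : v ∈ F.U) : ∃ k : G, ∀ x, tw hy x = k * F.tau (Wt.ind y 1) hv x * k⁻¹ := by
  have hyU : y ∈ F.U := hF (mem_cls_self y)
  refine ⟨F.phi (Wt.ind y 1) y v, fun x => ?_⟩
  rw [← F.tau_base (Wt.ind y 1) hv hyU x, F.tau_apply]
  change (famOf hy).phi Wt.one y (x * y * x⁻¹) * x = _
  rw [phi_sub F hy hF (mem_cls_self y) (cls_conj x (mem_cls_self y))]

theorem g2_aut {G : Type*} [Group G] (τ : G ≃* G) {b w : G} (h : w ∈ cls b) :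
    τ w ∈ cls (τ b) := by
  obtain ⟨k, hk | hk⟩ := h
  · exact ⟨τ k, Or.inl (by rw [hk, map_mul, map_mul, map_inv])⟩
  · exact ⟨τ k, Or.inr (by rw [hk, map_mul, map_mul, map_inv, map_inv])⟩

theorem g2_key (F : Fam S) {y z : G} (hy : S.Simp y) (hz : S.Simp z) (hFy : cls y ⊆ F.U)
    (hFz : cls z ⊆ F.U) {x' d : G} (h2 : d ∈ cls (tw hz x')) {v : G} (hv : v ∈ F.U) :
    tw hy x' ∈ cls (F.tau (-Wt.ind z 1 + Wt.ind y 1) hv d) := by
  obtain ⟨k, hk⟩ := tw_eq_tau F hz hFz hv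
  obtain ⟨l, hl⟩ := tw_eq_tau F hy hFy hv
  rw [hk x'] at h2
  have h3 : F.tau (Wt.ind z 1) hv x' ∈ cls d := by
    rw [cls_eq h2, cls_eq (cls_conj k (mem_cls_self (F.tau (Wt.ind z 1) hv x')))]
    exact mem_cls_self _
  have h4 := g2_aut (F.tau (-Wt.ind z 1) hv) h3
  rw [F.tau_tau] at h4
  have e0 : Wt.ind z 1 + -Wt.ind z 1 = (0 : Wt G) := by
    ext g
    simp
  rw [e0, F.tau_zero] at h4
  have h5 := g2_aut (F.tau (Wt.ind y 1) hv) h4
  rw [F.tau_tau] at h5
  rw [hl x']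
  exact cls_conj l h5

/-- If `T_y x = T_z x' = d` then `T_y x' = T_y T_z⁻¹ d` and `T_z x = T_z T_y⁻¹ d`. -/
theorem twist_swap {y z : G} (hy : S.Simp y) (hz : S.Simp z) (hd : S.Disj y z)
    {x x' d : G} (h1 : d ∈ cls (tw hy x)) (h2 : d ∈ cls (tw hz x'))
    {v : G} (hv : v ∈ (fam2 hy hz hd).U) :
    tw hy x' ∈ cls ((fam2 hy hz hd).tau (Wt.ind y 1 + -Wt.ind z 1) hv d) ∧
    tw hz x ∈ cls ((fam2 hy hz hd).tau (-(Wt.ind y 1 + -Wt.ind z 1)) hv d) := by
  have hFy : cls y ⊆ (fam2 hy hz hd).U := fun u hu => Or.inl hu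
  have hFz : cls z ⊆ (fam2 hy hz hd).U := fun u hu => Or.inr hu
  constructor
  · have e : Wt.ind y 1 + -Wt.ind z 1 = (-Wt.ind z 1 + Wt.ind y 1 : Wt G) := by
      ext g
      simp only [Wt.add_e, Wt.neg_e]
      ring
    rw [e]
    exact g2_key _ hy hz hFy hFz h2 hv
  · have e : -(Wt.ind y 1 + -Wt.ind z 1) = (-Wt.ind y 1 + Wt.ind z 1 : Wt G) := by
      ext g
      simp only [Wt.add_e, Wt.neg_e]
      ring
    rw [e]
    exact g2_key _ hz hy hFz hFy h1 hv

end H21D
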