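import Pool.Agent.Lib.H21D.G1
import Pool.Agent.Lib.H21D.D2

/-! # G3: curves that cross once -/
namespace H21D
variable {G C : Type*} [Group G] [LinearOrder C] [MulAction G C] {S : Sys G C}

/-- conjugates (and inverses) represent the same class. -/
theorem g3_cls_of_conj {a b k : G} (h : a = k * b * k⁻¹) : a ∈ cls b := by
  rw [h]
  exact cls_conj k (mem_cls_self b)

theorem g3_cls_trans {a b c : G} (h : a ∈ cls b) (h' : b ∈ cls c) : a ∈ cls c := by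
  rwa [cls_eq h'] at h

theorem g3_cls_symm {a b : G} (h : a ∈ cls b) : b ∈ cls a := by
  rw [cls_eq h]
  exact mem_cls_self b

theorem g3_cls_map (τ : G ≃* G) {a b : G} (h : a ∈ cls b) : τ a ∈ cls (τ b) := by
  obtain ⟨k, rfl | rfl⟩ := h
  · exact ⟨τ k, Or.inl (by simp)⟩
  · exact ⟨τ k, Or.inr (by simp)⟩

/-- a curve that crosses `y` once: the lines of `y` crossed by `x` are one orbit. -/
theorem g3_crs {x y : G} (hx : S.Simp x) (hy : S.Simp y) (h : S.iN x y = 1) :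
    ∃ K : Crs (famOf hy) x, K.m = 1 := by
  have hne : ∃ w ∈ (famOf hy).U, S.PosX x w := by
    by_contra hcon
    have hem : IsEmpty (Quotient (orbRel x (S.PosSet x y))) := by
      refine ⟨fun q => ?_⟩
      induction q using Quotient.inductionOn with
      | h w => exact hcon ⟨w.1, w.2.1, w.2.2⟩
    have h0 : S.iN x y = 0 := by
      unfold Sys.iN orbCard
      exact Nat.card_of_isEmpty
    omega
  obtain ⟨K⟩ := (famOf hy).exists_crs hx.1.1 hne
  exact ⟨K, by rw [Sys.crs_m hx.1.1 K (y := y) rfl, h]⟩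

theorem g3_X {x : G} {F : Fam S} (K : Crs F x) (hm : K.m = 1) : K.X = K.u 1 * x := by
  unfold Crs.X Crs.gg Crs.g
  rw [hm]
  simp [pr]

theorem g3_X' {x : G} {F : Fam S} (K : Crs F x) (hm : K.m = 1) :
    K.g (-Wt.one) K.m * x = (K.u 1)⁻¹ * x := by
  unfold Crs.g
  rw [hm]
  simp [pr]

/-- if `i(x,y) = 1`, then `T_y x` is the class of `u x` and `T_y⁻¹ x` the class of `u⁻¹ x`, for a
conjugate `u` of `y` or `y⁻¹` crossing `x` positively. -/
theorem tw_one {x y : G} (hx : S.Simp x) (hy : S.Simp y) (h : S.iN x y = 1) :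
    ∃ u ∈ cls y, S.PosX x u ∧ (∃ k : G, tw hy x = k * (u * x) * k⁻¹) ∧
      ∃ k : G, (tw hy).symm x = k * (u⁻¹ * x) * k⁻¹ := by
  obtain ⟨K, hm⟩ := g3_crs hx hy h
  refine ⟨K.u 1, K.mem 1, K.crs 1, ?_, ?_⟩
  · obtain ⟨k, hk⟩ := tw_crs hy K
    exact ⟨k, by rw [hk, g3_X K hm]⟩
  · obtain ⟨k, hk⟩ := tw_symm_crs hy K
    exact ⟨k, by rw [hk, g3_X' K hm]⟩

/-- the line with index `1` is conjugate to any other one by a power of `c`. -/
theorem g3_pow {c : G} {F : Fam S} (K : Crs F c) (hm : K.m = 1) {w : G} (hw : w ∈ F.U)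
    (hp : S.PosX c w) : ∃ k : ℤ, K.u 1 = c ^ k * w * (c ^ k)⁻¹ := by
  obtain ⟨i, rfl⟩ := K.all w hw hp
  refine ⟨1 - i, ?_⟩
  rw [← K.per_mul i (1 - i), hm]
  congr 1
  push_cast
  ring

/-- `T_x y = T_y⁻¹ x` if `i(x,y) = 1`: `PosX x u` gives `PosX u x⁻¹`, so `T_x u = x⁻¹ u`. -/
theorem tw_comm {x y : G} (hx : S.Simp x) (hy : S.Simp y) (h : S.iN x y = 1) :
    tw hx y ∈ cls ((tw hy).symm x) := by
  obtain ⟨u, hu, hxu, _, k, hk⟩ := tw_one hx hy h
  have hus : S.Simp u := Sys.Simp.cls hy hu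
  have hyx : S.iN y x = 1 := by rw [← S.iN_symm hx.1 hy.1, h]
  have hux : S.iN u x = 1 := by
    rw [S.iN_cls hy.1.1 hx.1.1 hu (mem_cls_self x), hyx]
  obtain ⟨K, hm⟩ := g3_crs hus hx hux
  obtain ⟨l, hl⟩ := tw_crs hx K
  obtain ⟨j, hj⟩ := g3_pow K hm (w := x⁻¹) (cls_inv (mem_cls_self x)) (S.PosX_symm hxu)
  have h1 : tw hx u ∈ cls ((tw hy).symm x) := by
    rw [hk]
    refine ⟨l * u ^ j * k⁻¹, Or.inr ?_⟩
    rw [hl, g3_X K hm, hj]
    group
  have h2 : tw hx y ∈ cls (tw hx u) := g3_cls_map _ (g3_cls_symm hu)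
  exact g3_cls_trans h2 h1

/-- `T_x T_y x = y` -/
theorem rel1 {x y : G} (hx : S.Simp x) (hy : S.Simp y) (h : S.iN x y = 1) :
    tw hx (tw hy x) ∈ cls y := by
  have hyx : S.iN y x = 1 := by rw [← S.iN_symm hx.1 hy.1, h]
  have h1 := g3_cls_map (tw hx) (tw_comm hy hx hyx)
  rwa [MulEquiv.apply_symm_apply] at h1

/-- `T_{T_y x} y = x`: naturality for `τ = T_y` and `tw_comm`. -/
theorem rel2 {x y : G} (hx : S.Simp x) (hy : S.Simp y) (h : S.iN x y = 1)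
    (hd : S.Simp (tw hy x)) : tw hd y ∈ cls x := by
  obtain ⟨k, hk⟩ := tw_nat hx hy.1.1 (tw_OP hy) hd
  obtain ⟨l, hl⟩ := tw_self hy
  have h1 : y ∈ cls (tw hy y) := by
    rw [hl]
    exact g3_cls_symm (g3_cls_of_conj rfl)
  have h2 : tw hd y ∈ cls (tw hd (tw hy y)) := g3_cls_map _ h1
  have h3 : tw hd (tw hy y) ∈ cls (tw hy (tw hx y)) := g3_cls_of_conj hk
  have h4 : tw hy (tw hx y) ∈ cls x := by
    have := g3_cls_map (tw hy) (tw_comm hx hy h)
    rwa [MulEquiv.apply_symm_apply] at this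
  exact g3_cls_trans h2 (g3_cls_trans h3 h4)

end H21D
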