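import Pool.Agent.Lib.H21D.G2
import Pool.Agent.Lib.H21D.D2

/-! # H1: strict convexity -/
namespace H21D
variable {G C : Type*} [Group G] [LinearOrder C] [MulAction G C]

/-- `f` is a class function, strictly convex under twists (`f = |trace|` for subgroups of
`SL(2,ℝ)`). -/
def TP (S : Sys G C) (f : G → ℝ) : Prop :=
  (∀ h g, f (h * g * h⁻¹) = f g) ∧ (∀ g, f g⁻¹ = f g) ∧
  ∀ (c : G) (n : ℕ) (u : ℕ → G) (e : ℕ → ℤ), c ≠ 1 → (∀ k < n, S.PosX c (u k)) →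
    (∀ k, k + 1 < n → S.Bef c (u k) (u (k + 1))) →
    (0 < n → S.Bef c (u (n - 1)) (c * u 0 * c⁻¹)) → (∃ k < n, e k ≠ 0) →
    2 * f c < f (pr u e n * c) + f (pr u (fun k => -e k) n * c)

variable {S : Sys G C}

theorem TP.f_cls {f : G → ℝ} (hf : TP S f) {x y : G} (h : y ∈ cls x) : f y = f x := by
  obtain ⟨k, rfl | rfl⟩ := h
  · exact hf.1 k x
  · rw [hf.1, hf.2.1]

theorem H1_pr {F : Fam S} {c : G} (K : Crs F c) (e : Wt G) (n : ℕ) :
    pr (fun k : ℕ => K.u ((k : ℤ) + 1)) (fun k : ℕ => e.e (K.u ((k : ℤ) + 1))) n = K.g e n := by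
  induction n with
  | zero => rfl
  | succ n ih =>
    rw [K.g_succ, ← ih]
    rfl

theorem TP.tau {f : G → ℝ} (hf : TP S f) (F : Fam S) {c v : G} (hc : c ≠ 1) (e : Wt G)
    (hv : v ∈ F.U) (h : ∃ w ∈ F.U, S.PosX c w ∧ e.e w ≠ 0) :
    2 * f c < f (F.tau e hv c) + f (F.tau (-e) hv c) := by
  obtain ⟨w, hw, hwP, hwe⟩ := h
  obtain ⟨K⟩ := F.exists_crs hc ⟨w, hw, hwP⟩
  have hm : (0 : ℤ) < K.m := by exact_mod_cast K.pos
  have key : ∀ e' : Wt G, f (F.tau e' hv c) = f (K.g e' K.m * c) := by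
    intro e'
    rw [F.tau_base e' (F.inv (K.mem 0)) hv c, hf.1, K.tau_eq]
  rw [key e, key (-e)]
  have h1 := hf.2.2 c K.m (fun k : ℕ => K.u ((k : ℤ) + 1))
    (fun k : ℕ => e.e (K.u ((k : ℤ) + 1))) hc (fun k _ => K.crs _)
    (fun k _ => K.lt _ _ (by push_cast; omega)) (fun h0 => ?_) ?_
  · have h2 : pr (fun k : ℕ => K.u ((k : ℤ) + 1)) (fun k : ℕ => -e.e (K.u ((k : ℤ) + 1))) K.m =
        K.g (-e) K.m := H1_pr K (-e) K.m
    rw [H1_pr K e, h2] at h1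
    exact h1
  · have e1 : (((K.m - 1 : ℕ) : ℤ) + 1) = K.m := by omega
    show S.Bef c (K.u (((K.m - 1 : ℕ) : ℤ) + 1)) (c * K.u (((0 : ℕ) : ℤ) + 1) * c⁻¹)
    rw [← K.per, e1]
    exact K.lt _ _ (by push_cast; omega)
  · obtain ⟨i, rfl⟩ := K.all w hw hwP
    refine ⟨((i - 1) % K.m).toNat, ?_, ?_⟩
    · have h2 := Int.emod_lt_of_pos (i - 1) hm
      have h3 := Int.emod_nonneg (i - 1) hm.ne'
      omega
    · show e.e (K.u (((((i - 1) % K.m).toNat : ℕ) : ℤ) + 1)) ≠ 0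
      rw [Int.toNat_of_nonneg (Int.emod_nonneg (i - 1) hm.ne')]
      have h4 : i = ((i - 1) % K.m + 1) + ((i - 1) / K.m) * K.m := by
        have h2 := Int.emod_add_mul_ediv (i - 1) K.m
        linarith
      rw [h4, K.per_mul, e.conj] at hwe
      exact hwe

/-- the twisted curve crosses the twisting curve -/
theorem H1_cross {x y : G} (hx : S.Prim x) (hy : S.Simp y) (h : 1 ≤ S.iN x y) :
    ∃ w ∈ cls y, S.PosX (tw hy x) w := by
  have h1 : ¬ S.Disj x y := by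
    intro h2
    rw [(S.iN_eq_zero_iff hx.1 hy.1.1).2 h2] at h
    omega
  unfold Sys.Disj at h1
  push Not at h1
  obtain ⟨w, hw, hP⟩ := h1
  obtain ⟨k, hk⟩ := tw_self hy
  refine ⟨tw hy w, ?_, (Sys.OP.PosX (tw_OP hy) hx.1 (cls_ne_one hy.1.1 hw)).2 hP⟩
  have h2 : tw hy w ∈ cls (tw hy y) := (Sys.mem_cls_aut (tw hy)).2 hw
  rw [hk, cls_eq (cls_conj k (mem_cls_self y))] at h2
  exact h2

theorem H1_ne {x y : G} (hx : S.Prim x) (hy : S.Simp y) : tw hy x ≠ 1 :=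
  (MulEquiv.map_ne_one_iff _).2 hx.1

/-- `2 f(T_y x) < f(x) + f(T_y T_y x)` -/
theorem TP.conv1 {f : G → ℝ} (hf : TP S f) {x y : G} (hx : S.Prim x) (hy : S.Simp y)
    (h : 1 ≤ S.iN x y) : 2 * f (tw hy x) < f x + f (tw hy (tw hy x)) := by
  obtain ⟨w, hw, hP⟩ := H1_cross hx hy h
  have h1 := hf.tau (famOf hy) (H1_ne hx hy) Wt.one (v := y) (mem_cls_self y)
    ⟨w, hw, hP, by rw [Wt.one_e]; exact one_ne_zero⟩
  have h2 : (famOf hy).tau (-Wt.one) (v := y) (mem_cls_self y) (tw hy x) = x := by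
    rw [← g1_symm (famOf hy) Wt.one (mem_cls_self y)]
    exact MulEquiv.symm_apply_apply (tw hy) x
  have h3 : (famOf hy).tau Wt.one (v := y) (mem_cls_self y) (tw hy x) = tw hy (tw hy x) := rfl
  rw [h2, h3] at h1
  linarith

/-- `2 f(d) < f(T_y x') + f(T_z x)` if `d = T_y x = T_z x'`. -/
theorem TP.conv2 {f : G → ℝ} (hf : TP S f) {y z x x' : G} (hy : S.Simp y) (hz : S.Simp z)
    (hd : S.Disj y z) (hne : z ∉ cls y) (hx : S.Prim x) (h : 1 ≤ S.iN x y)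
    (he : tw hz x' ∈ cls (tw hy x)) :
    2 * f (tw hy x) < f (tw hy x') + f (tw hz x) := by
  obtain ⟨w, hw, hP⟩ := H1_cross hx hy h
  have hwz : w ∉ cls z := by
    intro h1
    apply hne
    rw [← cls_eq hw, cls_eq h1]
    exact mem_cls_self z
  have hvU : y ∈ (fam2 hy hz hd).U := Or.inl (mem_cls_self y)
  have h1 := hf.tau (fam2 hy hz hd) (H1_ne hx hy) (Wt.ind y 1 + -Wt.ind z 1) hvU
    ⟨w, Or.inl hw, hP, by
      have e1 : (Wt.ind y 1).e w = 1 := if_pos hw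
      have e2 : (Wt.ind z 1).e w = 0 := if_neg hwz
      rw [Wt.add_e, Wt.neg_e, e1, e2]
      norm_num⟩
  have h0 : tw hy x ∈ cls (tw hz x') := by
    rw [cls_eq he]
    exact mem_cls_self _
  obtain ⟨h2, h3⟩ := twist_swap hy hz hd (mem_cls_self (tw hy x)) h0 hvU
  rw [← hf.f_cls h2, ← hf.f_cls h3] at h1
  exact h1

end H21D
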