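import Mathlib

/-! # I1: the combinatorial argument

Abstract twist systems: `T b a` is the (left) twist of the curve `a` along the curve `b`, `i` is the
intersection number, `f` a strictly convex function. -/
namespace H21D

structure TwSys (D : Type*) where
  T : D → D → D
  i : D → D → ℕ
  f : D → ℝ
  T_inj : ∀ {b a a'}, T b a = T b a' → a = a'
  i_symm : ∀ a b, i a b = i b a
  i_self : ∀ a, i a a = 0
  i_T : ∀ b a c, i (T b a) (T b c) = i a c
  T_fix : ∀ {a b}, i a b = 0 → T b a = a
  upper : ∀ a b c, i (T b a) c ≤ i a b * i b c + i a c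
  lower : ∀ a b c, i a b * i b c ≤ i (T b a) c + i a c
  cross : ∀ {b b' d}, 1 ≤ i b b' → 1 ≤ i d b' → i d b' ≤ i d b → i (T b b') d ≤ i d b →
    i (T b' b) d ≤ i d b → False
  conv1 : ∀ {a b}, 1 ≤ i a b → 2 * f (T b a) < f a + f (T b (T b a))
  conv2 : ∀ {a a' b b'}, i b b' = 0 → b ≠ b' → T b a = T b' a' → 1 ≤ i a b →
    2 * f (T b a) < f (T b a') + f (T b' a)
  rel1 : ∀ {a b}, i a b = 1 → T a (T b a) = b
  rel2 : ∀ {a b}, i a b = 1 → T (T b a) b = a

namespace TwSys
variable {D : Type*} (W : TwSys D)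

/-- the product of the quandle ring `ℤ[D]`, `a * b = T b a`. -/
noncomputable def mul (u v : D →₀ ℤ) : D →₀ ℤ :=
  u.sum fun a m => v.sum fun b n => Finsupp.single (W.T b a) (m * n)

theorem i1_self (y : D) : W.T y y = y := W.T_fix (W.i_self y)

theorem i1_symm_T (a b : D) : W.i (W.T b a) b = W.i a b := by
  have h := W.i_T b a b
  rwa [W.i1_self] at h

/-- If `F` is not pairwise disjoint there is a pair `(x, y)` in `F × F` with
`T y x ∉ F` that is the only pair of `F × F` with this product. -/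
theorem unique_product (F : Finset D) (h : ∃ a ∈ F, ∃ b ∈ F, W.i a b ≠ 0) :
    ∃ x ∈ F, ∃ y ∈ F, W.T y x ∉ F ∧ ∀ x' ∈ F, ∀ y' ∈ F, W.T y' x' = W.T y x → x' = x ∧ y' = y := by
  classical
  obtain ⟨a0, ha0, b0, hb0, hab0⟩ := h
  -- the maximal intersection number
  have hne : (F ×ˢ F).Nonempty := ⟨(a0, b0), Finset.mk_mem_product ha0 hb0⟩
  obtain ⟨p, hp, hmax⟩ := Finset.exists_max_image (F ×ˢ F) (fun q => W.i q.1 q.2) hne
  obtain ⟨m, hm⟩ : ∃ m, W.i p.1 p.2 = m := ⟨_, rfl⟩
  have hmax' : ∀ a ∈ F, ∀ b ∈ F, W.i a b ≤ m := by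
    intro a ha b hb
    rw [← hm]
    exact hmax (a, b) (Finset.mk_mem_product ha hb)
  have hm1 : 1 ≤ m := by
    have := hmax' a0 ha0 b0 hb0
    omega
  have hne2 : ((F ×ˢ F).filter fun q => W.i q.1 q.2 = m).Nonempty := ⟨p, Finset.mem_filter.2 ⟨hp, hm⟩⟩
  obtain ⟨z, hz, hzmax⟩ := Finset.exists_max_image _ (fun q => W.f (W.T q.2 q.1)) hne2
  obtain ⟨x, y⟩ := z
  rw [Finset.mem_filter, Finset.mem_product] at hz
  obtain ⟨⟨hx, hy⟩, hxy⟩ := hz
  dsimp only at hx hy hxy
  obtain ⟨d, hd⟩ : ∃ d, W.T y x = d := ⟨_, rfl⟩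
  have hf : ∀ a ∈ F, ∀ b ∈ F, W.i a b = m → W.f (W.T b a) ≤ W.f d := by
    intro a ha b hb hab
    have h1 := hzmax (a, b) (Finset.mem_filter.2 ⟨Finset.mk_mem_product ha hb, hab⟩)
    rw [← hd]
    exact h1
  have hdy : W.i d y = m := by rw [← hd, W.i1_symm_T, hxy]
  have hdx : m * m ≤ W.i d x := by
    have h1 := W.lower x y x
    rw [W.i_self, hxy, W.i_symm y x, hxy, hd, add_zero] at h1
    exact h1
  have hdF : d ∉ F := by
    intro hdF
    have h1 := hmax' d hdF x hx
    have hm' : m = 1 := by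
      by_contra hne'
      have h2 : m * 2 ≤ m * m := Nat.mul_le_mul_left m (by omega)
      omega
    subst hm'
    have hdx1 : W.i d x = 1 := by omega
    have c1 := W.conv1 (a := x) (b := y) hxy.ge
    rw [hd] at c1
    have f1 := hf d hdF y hy hdy
    have r2 := W.rel2 hxy
    rw [hd] at r2
    have r1 := W.rel1 hxy
    rw [hd] at r1
    have c2 := W.conv1 (a := y) (b := d) (by rw [W.i_symm, hdy])
    rw [r2] at c2
    have f2 := hf x hx d hdF (by rw [W.i_symm]; exact hdx1)
    have c3 := W.conv1 (a := d) (b := x) hdx1.ge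
    rw [r1] at c3
    have f3 := hf y hy x hx (by rw [W.i_symm]; exact hxy)
    linarith
  refine ⟨x, hx, y, hy, by rw [hd]; exact hdF, ?_⟩
  intro x' hx' y' hy' hT
  rw [hd] at hT
  by_cases hyy : y' = y
  · subst hyy
    exact ⟨W.T_inj (hT.trans hd.symm), rfl⟩
  exfalso
  obtain ⟨m', hm'⟩ : ∃ m', W.i x' y' = m' := ⟨_, rfl⟩
  have hdy' : W.i d y' = m' := by rw [← hT, W.i1_symm_T, hm']
  have hm'm : m' ≤ m := by rw [← hm']; exact hmax' x' hx' y' hy'
  have hm'1 : 1 ≤ m' := by
    by_contra hlt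
    have h0 : W.i x' y' = 0 := by omega
    rw [W.T_fix h0] at hT
    exact hdF (hT ▸ hx')
  by_cases hE : 1 ≤ W.i y y'
  · refine W.cross (b := y) (b' := y') (d := d) hE (by omega) (by omega) ?_ ?_
    · rw [← hd, W.i_T, hd, hdy]
      exact hmax' y' hy' x hx
    · rw [hdy, ← hT, W.i_T]
      exact hmax' y hy x' hx'
  · have hE0 : W.i y y' = 0 := by omega
    have hE0' : W.i y' y = 0 := by rw [W.i_symm]; exact hE0
    have t1 : W.T y y' = y' := W.T_fix hE0'
    have t2 : W.T y' y = y := W.T_fix hE0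
    have hx'y : W.i x' y = m := by
      have h1 := W.i_T y' x' y
      rw [hT, t2, hdy] at h1
      exact h1.symm
    have hxy' : W.i x y' = m' := by
      have h1 := W.i_T y x y'
      rw [hd, t1, hdy'] at h1
      exact h1.symm
    rcases Nat.lt_or_ge m' m with hlt | hge
    · have h1 : W.i (W.T y x') d = W.i x x' := by
        rw [← hd, W.i_T, W.i_symm]
      have h2 := W.lower x' y d
      rw [hx'y, W.i_symm y d, hdy, h1] at h2
      have h3 := W.upper x' y' x'
      rw [W.i_self, W.i_symm y' x', hm', hT, add_zero, W.i_symm d x'] at h3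
      have h4 := hmax' x hx x' hx'
      have h5 : m * m ≤ m + m' * m' := by omega
      obtain ⟨t, rfl⟩ : ∃ t, m = m' + 1 + t := ⟨m - m' - 1, by omega⟩
      nlinarith [Nat.zero_le t, Nat.zero_le (t * t), Nat.zero_le (m' * t)]
    · have hmm : m' = m := le_antisymm hm'm hge
      have h1 := W.conv2 (a := x) (a' := x') (b := y) (b' := y') hE0 (fun h => hyy h.symm)
        (hd.trans hT.symm) (by omega)
      have h2 := hf x' hx' y hy hx'y
      have h3 := hf x hx y' hy' (by rw [hxy', hmm])
      rw [hd] at h1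
      linarith

/-- **the theorem for twist systems** -/
theorem idempotent (u : D →₀ ℤ) (hu : u ≠ 0) (h : W.mul u u = u) :
    (∀ a ∈ u.support, ∀ b ∈ u.support, W.i a b = 0) ∧ (u.sum fun _ n => n) = 1 := by
  classical
  have hdisj : ∀ a ∈ u.support, ∀ b ∈ u.support, W.i a b = 0 := by
    by_contra hcon
    push Not at hcon
    obtain ⟨x, hx, y, hy, hd, huniq⟩ := W.unique_product u.support hcon
    have h1 : (W.mul u u) (W.T y x) = u x * u y := by
      unfold mul Finsupp.sum
      rw [Finsupp.finsetSum_apply, Finset.sum_eq_single x]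
      · rw [Finsupp.finsetSum_apply, Finset.sum_eq_single y]
        · rw [Finsupp.single_eq_same]
        · intro b hb hby
          refine Finsupp.single_eq_of_ne ?_
          intro hT
          exact hby (huniq x hx b hb hT.symm).2
        · intro h2
          exact absurd hy h2
      · intro a ha hax
        rw [Finsupp.finsetSum_apply]
        refine Finset.sum_eq_zero fun b hb => ?_
        refine Finsupp.single_eq_of_ne ?_
        intro hT
        exact hax (huniq a ha b hb hT.symm).1
      · intro h2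
        exact absurd hx h2
    rw [h, Finsupp.notMem_support_iff.1 hd] at h1
    rcases mul_eq_zero.1 h1.symm with h2 | h2
    · exact (Finsupp.mem_support_iff.1 hx) h2
    · exact (Finsupp.mem_support_iff.1 hy) h2
  refine ⟨hdisj, ?_⟩
  have h1 : W.mul u u = (u.sum fun _ n => n) • u := by
    unfold mul
    have h2 : ∀ a ∈ u.support, (u.sum fun b n => Finsupp.single (W.T b a) (u a * n)) =
        Finsupp.single a ((u.sum fun _ n => n) * u a) := by
      intro a ha
      unfold Finsupp.sum
      rw [Finset.sum_mul, Finsupp.single_finsetSum]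
      refine Finset.sum_congr rfl fun b hb => ?_
      show Finsupp.single (W.T b a) (u a * u b) = Finsupp.single a (u b * u a)
      rw [W.T_fix (hdisj a ha b hb), mul_comm]
    have h3 : (u.sum fun a m => u.sum fun b n => Finsupp.single (W.T b a) (m * n)) =
        u.sum fun a m => Finsupp.single a ((u.sum fun _ n => n) * m) := Finset.sum_congr rfl h2
    rw [h3]
    conv_rhs => rw [← Finsupp.sum_single u]
    rw [Finsupp.smul_sum]
    refine Finsupp.sum_congr fun a _ => ?_
    rw [Finsupp.smul_single, smul_eq_mul, Finsupp.sum_single]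
  rw [h] at h1
  obtain ⟨a, ha⟩ := Finsupp.ne_iff.1 hu
  rw [Finsupp.zero_apply] at ha
  have h2 := DFunLike.congr_fun h1 a
  rw [Finsupp.smul_apply, smul_eq_mul] at h2
  have h3 : (1 - (u.sum fun _ n => n)) * u a = 0 := by
    rw [sub_mul, one_mul, ← h2, sub_self]
  rcases mul_eq_zero.1 h3 with h4 | h4
  · omega
  · exact absurd h4 ha

end TwSys
end H21D
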