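import Pool.Agent.Lib.H21D.N2
import Pool.Agent.Lib.H21D.G3
import Pool.Agent.Lib.H21D.H1
import Pool.Agent.Lib.H21D.I1

/-! # I2: the Dehn quandle of a system and its twist system -/
namespace H21D
variable {G C : Type*} [Group G] [LinearOrder C] [MulAction G C]

def curveSetoid (S : Sys G C) : Setoid {x : G // S.Simp x} where
  r x y := y.1 ∈ cls x.1
  iseqv := {
    refl := fun x => mem_cls_self x.1
    symm := by
      intro x y h
      show x.1 ∈ cls y.1
      rw [cls_eq h]; exact mem_cls_self x.1
    trans := by
      intro x y z h h'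
      show z.1 ∈ cls x.1
      rw [← cls_eq h]; exact h' }

/-- isotopy classes of simple closed curves -/
def Curve (S : Sys G C) : Type _ := Quotient (curveSetoid S)

variable {S : Sys G C}

theorem tw_simp {x y : G} (hx : S.Simp x) (hy : S.Simp y) : S.Simp (tw hy x) :=
  (Sys.OP.Simp (τ := tw hy) (tw_OP hy)).2 hx

noncomputable def Curve.T : Curve S → Curve S → Curve S :=
  Quotient.map₂ (fun y x => ⟨tw y.2 x.1, tw_simp x.2 y.2⟩) (by
    intro y y' hy x x' hx
    change tw y'.2 x'.1 ∈ cls (tw y.2 x.1)
    obtain ⟨k, hk⟩ := tw_cls y.2 y'.2 hy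
    rw [hk]
    exact cls_conj k (g1_aut (tw y.2) hx))

noncomputable def Curve.i : Curve S → Curve S → ℕ :=
  Quotient.lift₂ (fun x y => S.iN x.1 y.1) (by
    intro a b a' b' ha hb
    exact (S.iN_cls a.2.1.1 b.2.1.1 ha hb).symm)

noncomputable def Curve.f (f : G → ℝ) (hf : TP S f) : Curve S → ℝ :=
  Quotient.lift (fun x => f x.1) (by
    intro x y h
    exact (hf.f_cls h).symm)

theorem i2_sound {x y : {x : G // S.Simp x}} (h : y.1 ∈ cls x.1) :
    (Quotient.mk (curveSetoid S) x : Curve S) = Quotient.mk (curveSetoid S) y := Quotient.sound h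

theorem i2_exact {x y : {x : G // S.Simp x}}
    (h : (Quotient.mk (curveSetoid S) x : Curve S) = Quotient.mk (curveSetoid S) y) : y.1 ∈ cls x.1 :=
  Quotient.exact h

noncomputable def twSys (f : G → ℝ) (hf : TP S f) : TwSys (Curve S) where
  T := Curve.T
  i := Curve.i
  f := Curve.f f hf
  T_inj := by
    intro b a a' h
    induction b using Quotient.ind with | _ b
    induction a using Quotient.ind with | _ a
    induction a' using Quotient.ind with | _ a'
    exact i2_sound ((Sys.mem_cls_aut (tw b.2)).1 (i2_exact h))
  i_symm := by
    intro a b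
    induction a using Quotient.ind with | _ a
    induction b using Quotient.ind with | _ b
    exact S.iN_symm a.2.1 b.2.1
  i_self := by
    intro a
    induction a using Quotient.ind with | _ a
    exact a.2.iN_self
  i_T := by
    intro b a c
    induction b using Quotient.ind with | _ b
    induction a using Quotient.ind with | _ a
    induction c using Quotient.ind with | _ c
    exact Sys.OP.iN (tw_OP b.2) a.2.1.1 c.2.1.1
  T_fix := by
    intro a b h
    induction a using Quotient.ind with | _ a
    induction b using Quotient.ind with | _ b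
    have hd := (S.iN_eq_zero_iff a.2.1.1 b.2.1.1).1 h
    obtain ⟨k, hk⟩ := tw_free b.2 a.2.1.1 hd
    refine (i2_sound (x := a) (y := ⟨tw b.2 a.1, tw_simp a.2 b.2⟩) ?_).symm
    change tw b.2 a.1 ∈ cls a.1
    rw [hk]
    exact cls_conj k (mem_cls_self _)
  upper := by
    intro a b c
    induction a using Quotient.ind with | _ a
    induction b using Quotient.ind with | _ b
    induction c using Quotient.ind with | _ c
    exact tw_upper a.2.1 b.2 c.2.1.1
  lower := by
    intro a b c
    induction a using Quotient.ind with | _ a
    induction b using Quotient.ind with | _ b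
    induction c using Quotient.ind with | _ c
    exact tw_lower a.2.1 b.2 c.2.1.1
  cross := by
    intro b b' d h1 h2 h3 h4 h5
    induction b using Quotient.ind with | _ b
    induction b' using Quotient.ind with | _ b'
    induction d using Quotient.ind with | _ d
    exact cross_case b.2 b'.2 d.2 h1 h2 h3 h4 h5
  conv1 := by
    intro a b h
    induction a using Quotient.ind with | _ a
    induction b using Quotient.ind with | _ b
    exact hf.conv1 a.2.1 b.2 h
  conv2 := by
    intro a a' b b' h0 hne hT h1
    induction a using Quotient.ind with | _ a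
    induction a' using Quotient.ind with | _ a'
    induction b using Quotient.ind with | _ b
    induction b' using Quotient.ind with | _ b'
    exact hf.conv2 b.2 b'.2 ((S.iN_eq_zero_iff b.2.1.1 b'.2.1.1).1 h0) (fun h => hne (i2_sound h)) a.2.1 h1
      (i2_exact hT)
  rel1 := by
    intro a b h
    induction a using Quotient.ind with | _ a
    induction b using Quotient.ind with | _ b
    exact (i2_sound (x := b) (y := ⟨tw a.2 (tw b.2 a.1), tw_simp (tw_simp a.2 b.2) a.2⟩) (H21D.rel1 a.2 b.2 h)).symm
  rel2 := by
    intro a b h
    induction a using Quotient.ind with | _ a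
    induction b using Quotient.ind with | _ b
    exact (i2_sound (x := a) (y := ⟨tw (tw_simp a.2 b.2) b.1, tw_simp b.2 (tw_simp a.2 b.2)⟩)
      (H21D.rel2 a.2 b.2 h (tw_simp a.2 b.2))).symm

end H21D
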