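import Pool.Agent.Lib.H21D.Defs

/-! # J0: `SL(2,ℝ)` acting on the circle at infinity `ℝ ∪ {∞}` -/
namespace H21D
open Matrix

abbrev SL2 := Matrix.SpecialLinearGroup (Fin 2) ℝ

/-- `ℝ ∪ {∞}` with `∞` as the last point. -/
noncomputable instance instLO : LinearOrder (OnePoint ℝ) :=
  inferInstanceAs (LinearOrder (WithTop ℝ))

/-- Möbius transformations -/
noncomputable instance instSLAction : MulAction SL2 (OnePoint ℝ) :=
  MulAction.compHom (OnePoint ℝ) (Matrix.SpecialLinearGroup.toGL (n := Fin 2) (R := ℝ))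

noncomputable def dt (v w : Fin 2 → ℝ) : ℝ := v 0 * w 1 - v 1 * w 0

/-- the point with homogeneous coordinates `v` -/
noncomputable def pt (v : Fin 2 → ℝ) : OnePoint ℝ :=
  if v 1 = 0 then OnePoint.infty else ((v 0 / v 1 : ℝ) : OnePoint ℝ)

/-- homogeneous coordinates of a point -/
noncomputable def vec (p : OnePoint ℝ) : Fin 2 → ℝ := p.elim ![1, 0] (fun t => ![t, 1])

open Classical in
/-- the attracting fixed point of a hyperbolic element (`∞` for the other elements). -/
noncomputable def attr (g : SL2) : OnePoint ℝ :=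
  if h : ∃ v : Fin 2 → ℝ, v ≠ 0 ∧ ∃ l : ℝ, 1 < |l| ∧ g.1 *ᵥ v = l • v then pt h.choose
  else OnePoint.infty

/-- a discrete group of hyperbolic elements -/
structure IsSurf (Γ : Subgroup SL2) : Prop where
  discrete : DiscreteTopology Γ
  hyp : ∀ g ∈ Γ, g ≠ 1 → 2 < |g.1.trace|

end H21D
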