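import Pool.Agent.Lib.H21D.J0

/-! # J1: cyclic order and determinants -/
namespace H21D
open Matrix

theorem vec_ne_zero (p : OnePoint ℝ) : vec p ≠ 0 := by
  induction p using OnePoint.rec with
  | infty =>
    intro h
    have := congrFun h 0
    simp [vec] at this
  | coe t =>
    intro h
    have := congrFun h 1
    simp [vec] at this

theorem pt_vec (p : OnePoint ℝ) : pt (vec p) = p := by
  induction p using OnePoint.rec with
  | infty =>
    simp [vec, pt]
  | coe t =>
    simp [vec, pt]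

theorem vec_pt {v : Fin 2 → ℝ} (hv : v ≠ 0) : ∃ s : ℝ, s ≠ 0 ∧ v = s • vec (pt v) := by
  by_cases h : v 1 = 0
  · refine ⟨v 0, ?_, ?_⟩
    · intro h0
      apply hv
      ext i
      fin_cases i
      · exact h0
      · exact h
    · have e : pt v = OnePoint.infty := by
        unfold pt
        rw [if_pos h]
      rw [e]
      ext i
      fin_cases i
      · simp [vec]
      · simp [vec, h]
  · refine ⟨v 1, h, ?_⟩
    have e : pt v = ((v 0 / v 1 : ℝ) : OnePoint ℝ) := by
      unfold pt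
      rw [if_neg h]
    rw [e]
    ext i
    fin_cases i
    · simp only [vec, OnePoint.elim_some, Pi.smul_apply, smul_eq_mul]
      show v 0 = v 1 * (v 0 / v 1)
      field_simp
    · simp [vec]

theorem j1_dt_smul (s t : ℝ) (v w : Fin 2 → ℝ) : dt (s • v) (t • w) = s * t * dt v w := by
  simp only [dt, Pi.smul_apply, smul_eq_mul]
  ring

theorem j1_dt_self (v : Fin 2 → ℝ) : dt v v = 0 := by
  unfold dt
  ring

theorem pt_eq_iff {v w : Fin 2 → ℝ} (hv : v ≠ 0) (hw : w ≠ 0) : pt v = pt w ↔ dt v w = 0 := by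
  constructor
  · intro h
    obtain ⟨s, hs, e1⟩ := vec_pt hv
    obtain ⟨t, ht, e2⟩ := vec_pt hw
    rw [← h] at e2
    rw [e1, e2, j1_dt_smul, j1_dt_self]
    ring
  · intro h
    unfold dt at h
    unfold pt
    by_cases h1 : v 1 = 0
    · by_cases h2 : w 1 = 0
      · rw [if_pos h1, if_pos h2]
      · exfalso
        rw [h1, zero_mul, sub_zero] at h
        apply hv
        ext i
        fin_cases i
        · exact (mul_eq_zero.1 h).resolve_right h2
        · exact h1
    · by_cases h2 : w 1 = 0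
      · exfalso
        rw [h2, mul_zero, zero_sub, neg_eq_zero] at h
        apply hw
        ext i
        fin_cases i
        · exact (mul_eq_zero.1 h).resolve_left h1
        · exact h2
      · rw [if_neg h1, if_neg h2]
        have : v 0 / v 1 = w 0 / w 1 := by
          rw [div_eq_div_iff h1 h2]
          linarith
        rw [this]

theorem pt_smul' {v : Fin 2 → ℝ} {s : ℝ} (hs : s ≠ 0) : pt (s • v) = pt v := by
  unfold pt
  simp only [Pi.smul_apply, smul_eq_mul, mul_eq_zero, hs, false_or]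
  by_cases h : v 1 = 0
  · rw [if_pos h, if_pos h]
  · rw [if_neg h, if_neg h]
    have : s * v 0 / (s * v 1) = v 0 / v 1 := by field_simp
    rw [this]

/-- Möbius action in homogeneous coordinates -/
theorem smul_pt (g : SL2) {v : Fin 2 → ℝ} (hv : v ≠ 0) : g • pt v = pt (g.1 *ᵥ v) := by
  have hsm : ∀ x : OnePoint ℝ, g • x = (Matrix.SpecialLinearGroup.toGL g) • x := fun x => rfl
  have e0 : (g.1 *ᵥ v) 0 = g.1 0 0 * v 0 + g.1 0 1 * v 1 := by
    simp [Matrix.mulVec, dotProduct, Fin.sum_univ_two]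
  have e1 : (g.1 *ᵥ v) 1 = g.1 1 0 * v 0 + g.1 1 1 * v 1 := by
    simp [Matrix.mulVec, dotProduct, Fin.sum_univ_two]
  have c : ∀ i j, (Matrix.SpecialLinearGroup.toGL g) i j = g.1 i j := fun i j => rfl
  rw [hsm]
  unfold pt
  rw [e0, e1]
  by_cases h : v 1 = 0
  · have hv0 : v 0 ≠ 0 := by
      intro h0
      apply hv
      ext i
      fin_cases i
      · exact h0
      · exact h
    rw [if_pos h, OnePoint.smul_infty_eq_ite]
    rw [h, mul_zero, mul_zero, add_zero, add_zero]
    simp only [c]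
    by_cases h2 : g.1 1 0 = 0
    · rw [if_pos h2, if_pos (by rw [h2, zero_mul])]
    · rw [if_neg h2, if_neg (mul_ne_zero h2 hv0)]
      congr 1
      field_simp
  · rw [if_neg h, OnePoint.smul_some_eq_ite]
    simp only [c]
    have e2 : g.1 1 0 * (v 0 / v 1) + g.1 1 1 = (g.1 1 0 * v 0 + g.1 1 1 * v 1) / v 1 := by
      field_simp
    have e3 : g.1 0 0 * (v 0 / v 1) + g.1 0 1 = (g.1 0 0 * v 0 + g.1 0 1 * v 1) / v 1 := by
      field_simp
    rw [e2, e3]
    by_cases h2 : g.1 1 0 * v 0 + g.1 1 1 * v 1 = 0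
    · rw [if_pos h2, if_pos (by rw [h2, zero_div])]
    · rw [if_neg h2, if_neg (div_ne_zero h2 h)]
      congr 1
      field_simp

theorem mulVec_ne_zero (g : SL2) {v : Fin 2 → ℝ} (hv : v ≠ 0) : g.1 *ᵥ v ≠ 0 := by
  intro h
  have e0 : (g.1 *ᵥ v) 0 = g.1 0 0 * v 0 + g.1 0 1 * v 1 := by
    simp [Matrix.mulVec, dotProduct, Fin.sum_univ_two]
  have e1 : (g.1 *ᵥ v) 1 = g.1 1 0 * v 0 + g.1 1 1 * v 1 := by
    simp [Matrix.mulVec, dotProduct, Fin.sum_univ_two]
  have hd := g.2
  rw [Matrix.det_fin_two] at hd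
  have h0 : g.1 0 0 * v 0 + g.1 0 1 * v 1 = 0 := by rw [← e0, h]; rfl
  have h1 : g.1 1 0 * v 0 + g.1 1 1 * v 1 = 0 := by rw [← e1, h]; rfl
  apply hv
  ext i
  fin_cases i
  · show v 0 = 0
    linear_combination (-(v 0)) * hd + g.1 1 1 * h0 - g.1 0 1 * h1
  · show v 1 = 0
    linear_combination (-(v 1)) * hd + g.1 0 0 * h1 - g.1 1 0 * h0

theorem dt_mulVec (g : SL2) (v w : Fin 2 → ℝ) : dt (g.1 *ᵥ v) (g.1 *ᵥ w) = dt v w := by
  have hd := g.2
  rw [Matrix.det_fin_two] at hd
  have e0 : ∀ v : Fin 2 → ℝ, (g.1 *ᵥ v) 0 = g.1 0 0 * v 0 + g.1 0 1 * v 1 := by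
    intro v
    simp [Matrix.mulVec, dotProduct, Fin.sum_univ_two]
  have e1 : ∀ v : Fin 2 → ℝ, (g.1 *ᵥ v) 1 = g.1 1 0 * v 0 + g.1 1 1 * v 1 := by
    intro v
    simp [Matrix.mulVec, dotProduct, Fin.sum_univ_two]
  unfold dt
  rw [e0, e0, e1, e1]
  linear_combination (v 0 * w 1 - v 1 * w 0) * hd

theorem j1_lt {x y : ℝ} : ((x : OnePoint ℝ) < (y : OnePoint ℝ)) ↔ x < y := WithTop.coe_lt_coe

theorem j1_lt_infty (x : ℝ) : ((x : OnePoint ℝ) < OnePoint.infty) ↔ True :=
  ⟨fun _ => trivial, fun _ => WithTop.coe_lt_top x⟩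

theorem j1_infty_lt (p : OnePoint ℝ) : (OnePoint.infty < p) ↔ False :=
  ⟨fun h => absurd h (not_top_lt (α := WithTop ℝ)), fun h => h.elim⟩

theorem j1_dt1 (x y : ℝ) : dt (vec (x : OnePoint ℝ)) (vec (y : OnePoint ℝ)) = x - y := by
  simp [dt, vec]

theorem j1_dt2 (x : ℝ) : dt (vec (x : OnePoint ℝ)) (vec OnePoint.infty) = -1 := by
  simp [dt, vec]

theorem j1_dt3 (x : ℝ) : dt (vec OnePoint.infty) (vec (x : OnePoint ℝ)) = 1 := by
  simp [dt, vec]

theorem j1_real (x y z : ℝ) : (x < y ∧ y < z ∨ y < z ∧ z < x ∨ z < x ∧ x < y) ↔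
    0 < (x - y) * (y - z) * (z - x) := by
  constructor
  · rintro (⟨h1, h2⟩ | ⟨h1, h2⟩ | ⟨h1, h2⟩)
    · exact mul_pos (mul_pos_of_neg_of_neg (by linarith) (by linarith)) (by linarith)
    · rw [mul_assoc]
      exact mul_pos (by linarith) (mul_pos_of_neg_of_neg (by linarith) (by linarith))
    · have e : (x - y) * (y - z) * (z - x) = (y - z) * ((x - y) * (z - x)) := by ring
      rw [e]
      exact mul_pos (by linarith) (mul_pos_of_neg_of_neg (by linarith) (by linarith))
  · intro h
    rcases mul_pos_iff.1 h with ⟨h1, h2⟩ | ⟨h1, h2⟩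
    · rcases mul_pos_iff.1 h1 with ⟨h3, h4⟩ | ⟨h3, h4⟩
      · exfalso
        linarith
      · left
        exact ⟨by linarith, by linarith⟩
    · rcases mul_neg_iff.1 h1 with ⟨h3, h4⟩ | ⟨h3, h4⟩
      · right
        left
        exact ⟨by linarith, by linarith⟩
      · right
        right
        exact ⟨by linarith, by linarith⟩

theorem j1_cyc (p q r : OnePoint ℝ) : cyc p q r ↔
    0 < dt (vec p) (vec q) * dt (vec q) (vec r) * dt (vec r) (vec p) := by
  unfold cyc
  induction p using OnePoint.rec with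
  | infty =>
    induction q using OnePoint.rec with
    | infty =>
      simp only [j1_infty_lt, j1_dt_self]
      simp
    | coe y =>
      induction r using OnePoint.rec with
      | infty =>
        simp only [j1_infty_lt, j1_dt_self]
        simp
      | coe z =>
        simp only [j1_infty_lt, j1_lt, j1_lt_infty, j1_dt1, j1_dt2, j1_dt3]
        simp
  | coe x =>
    induction q using OnePoint.rec with
    | infty =>
      induction r using OnePoint.rec with
      | infty =>
        simp only [j1_infty_lt, j1_dt_self]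
        simp
      | coe z =>
        simp only [j1_infty_lt, j1_lt, j1_lt_infty, j1_dt1, j1_dt2, j1_dt3]
        simp
    | coe y =>
      induction r using OnePoint.rec with
      | infty =>
        simp only [j1_infty_lt, j1_lt, j1_lt_infty, j1_dt1, j1_dt2, j1_dt3]
        simp
      | coe z =>
        simp only [j1_lt, j1_dt1]
        exact j1_real x y z

theorem cyc_pt_iff {u v w : Fin 2 → ℝ} (hu : u ≠ 0) (hv : v ≠ 0) (hw : w ≠ 0) :
    cyc (pt u) (pt v) (pt w) ↔ 0 < dt u v * dt v w * dt w u := by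
  obtain ⟨a, ha, e1⟩ := vec_pt hu
  obtain ⟨b, hb, e2⟩ := vec_pt hv
  obtain ⟨c, hc, e3⟩ := vec_pt hw
  have e : dt u v * dt v w * dt w u = (a * b * c) ^ 2 *
      (dt (vec (pt u)) (vec (pt v)) * dt (vec (pt v)) (vec (pt w)) * dt (vec (pt w)) (vec (pt u))) := by
    conv_lhs => rw [e1, e2, e3]
    rw [j1_dt_smul, j1_dt_smul, j1_dt_smul]
    ring
  have hp : 0 < (a * b * c) ^ 2 := by positivity
  rw [e, mul_pos_iff_of_pos_left hp]
  exact j1_cyc _ _ _

theorem cyc_smul_SL (g : SL2) {x y z : OnePoint ℝ} (h : cyc x y z) :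
    cyc (g • x) (g • y) (g • z) := by
  have hx := pt_vec x
  have hy := pt_vec y
  have hz := pt_vec z
  rw [← hx, ← hy, ← hz, cyc_pt_iff (vec_ne_zero x) (vec_ne_zero y) (vec_ne_zero z)] at h
  rw [← hx, ← hy, ← hz, smul_pt g (vec_ne_zero x), smul_pt g (vec_ne_zero y), smul_pt g (vec_ne_zero z),
    cyc_pt_iff (mulVec_ne_zero g (vec_ne_zero x)) (mulVec_ne_zero g (vec_ne_zero y))
      (mulVec_ne_zero g (vec_ne_zero z)), dt_mulVec, dt_mulVec, dt_mulVec]
  exact h

theorem dense_OnePoint {x y : OnePoint ℝ} (h : x ≠ y) : ∃ p, cyc x p y := by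
  induction x using OnePoint.rec with
  | infty =>
    induction y using OnePoint.rec with
    | infty => exact absurd rfl h
    | coe y =>
      refine ⟨((y - 1 : ℝ) : OnePoint ℝ), ?_⟩
      unfold cyc
      simp only [j1_infty_lt, j1_lt, j1_lt_infty]
      simp
  | coe x =>
    induction y using OnePoint.rec with
    | infty =>
      refine ⟨((x + 1 : ℝ) : OnePoint ℝ), ?_⟩
      unfold cyc
      simp only [j1_infty_lt, j1_lt, j1_lt_infty]
      simp
    | coe y =>
      have hxy : x ≠ y := fun e => h (by rw [e])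
      rcases lt_or_gt_of_ne hxy with h1 | h1
      · refine ⟨(((x + y) / 2 : ℝ) : OnePoint ℝ), ?_⟩
        unfold cyc
        simp only [j1_lt]
        left
        exact ⟨by linarith, by linarith⟩
      · refine ⟨OnePoint.infty, ?_⟩
        unfold cyc
        simp only [j1_infty_lt, j1_lt, j1_lt_infty]
        right
        right
        exact ⟨h1, trivial⟩

end H21D
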