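import Pool.Agent.Lib.H21D.J1

/-! # J2: eigenvectors of hyperbolic elements -/
namespace H21D
open Matrix

/-- `l = (t ± sqrt (t^2 - 4)) / 2` -/
theorem exists_eig {g : SL2} (h : 2 < |g.1.trace|) : ∃ (l : ℝ) (v w : Fin 2 → ℝ),
    1 < |l| ∧ g.1 *ᵥ v = l • v ∧ g.1 *ᵥ w = l⁻¹ • w ∧ dt v w = 1 := by
  obtain ⟨l, hl, hq⟩ : ∃ l : ℝ, 1 < |l| ∧ l ^ 2 - g.1.trace * l + 1 = 0 := by
    generalize g.1.trace = t at h
    have hD : 0 < t ^ 2 - 4 := by
      have : 2 ^ 2 < |t| ^ 2 := by gcongr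
      rw [sq_abs] at this
      linarith
    have hs := Real.sqrt_pos.2 hD
    have hs2 := Real.sq_sqrt hD.le
    rcases le_or_gt 0 t with h0 | h0
    · rw [abs_of_nonneg h0] at h
      refine ⟨(t + Real.sqrt (t ^ 2 - 4)) / 2, ?_, ?_⟩
      · rw [abs_of_pos (by linarith)]
        linarith
      · linear_combination (1 / 4) * hs2
    · rw [abs_of_neg h0] at h
      refine ⟨(t - Real.sqrt (t ^ 2 - 4)) / 2, ?_, ?_⟩
      · rw [abs_of_neg (by linarith)]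
        linarith
      · linear_combination (1 / 4) * hs2
  have hl0 : l ≠ 0 := by
    rintro rfl
    simp at hl
    linarith
  have hd := g.2
  rw [Matrix.det_fin_two] at hd
  rw [Matrix.trace_fin_two] at hq
  have key : ∀ m : ℝ, m ^ 2 - (g.1 0 0 + g.1 1 1) * m + 1 = 0 → ∃ v : Fin 2 → ℝ, v ≠ 0 ∧ g.1 *ᵥ v = m • v := by
    intro m hm
    have h1 : (g.1 - m • (1 : Matrix (Fin 2) (Fin 2) ℝ)).det = 0 := by
      rw [Matrix.det_fin_two]
      simp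
      linear_combination hm + hd
    obtain ⟨v, hv, e⟩ := Matrix.exists_mulVec_eq_zero_iff.2 h1
    refine ⟨v, hv, ?_⟩
    rw [Matrix.sub_mulVec, Matrix.smul_mulVec, Matrix.one_mulVec, sub_eq_zero] at e
    exact e
  obtain ⟨v, hv, e1⟩ := key l hq
  obtain ⟨w, hw, e2⟩ := key l⁻¹ (by
    field_simp
    linear_combination hq)
  have hne : dt v w ≠ 0 := by
    intro h0
    obtain ⟨s, hs, f1⟩ := vec_pt hv
    obtain ⟨t, ht, f2⟩ := vec_pt hw
    rw [← (pt_eq_iff hv hw).2 h0] at f2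
    have f3 : w = (t / s) • v := by
      rw [f2]
      conv_rhs => rw [f1]
      rw [smul_smul, div_mul_cancel₀ _ hs]
    have f4 : g.1 *ᵥ w = l • w := by
      rw [f3, Matrix.mulVec_smul, e1, smul_comm]
    rw [e2] at f4
    have f5 : (l⁻¹ - l) • w = 0 := by rw [sub_smul, f4, sub_self]
    rcases smul_eq_zero.1 f5 with h1 | h1
    · have h2 : l ^ 2 = 1 := by
        have : l⁻¹ = l := sub_eq_zero.1 h1
        rw [sq]
        nth_rw 1 [← this]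
        exact inv_mul_cancel₀ hl0
      have h3 : |l| ^ 2 = 1 := by rw [sq_abs, h2]
      nlinarith
    · exact hw h1
  refine ⟨l, v, (dt v w)⁻¹ • w, hl, e1, ?_, ?_⟩
  · rw [Matrix.mulVec_smul, e2, smul_comm]
  · have h1 := j1_dt_smul 1 (dt v w)⁻¹ v w
    rw [one_smul, one_mul, inv_mul_cancel₀ hne] at h1
    exact h1

theorem attr_eq {g : SL2} {l : ℝ} {v : Fin 2 → ℝ} (hv : v ≠ 0) (hl : 1 < |l|)
    (h : g.1 *ᵥ v = l • v) : attr g = pt v := by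
  have hex : ∃ v : Fin 2 → ℝ, v ≠ 0 ∧ ∃ l : ℝ, 1 < |l| ∧ g.1 *ᵥ v = l • v := ⟨v, hv, l, hl, h⟩
  unfold attr
  rw [dif_pos hex]
  obtain ⟨h1, l', hl', h2⟩ := hex.choose_spec
  rw [pt_eq_iff h1 hv]
  have h3 := dt_mulVec g hex.choose v
  rw [h2, h, j1_dt_smul] at h3
  have h4 : (l' * l - 1) * dt hex.choose v = 0 := by linear_combination h3
  rcases mul_eq_zero.1 h4 with h5 | h5
  · exfalso
    have h6 : |l' * l| = 1 := by
      rw [sub_eq_zero.1 h5, abs_one]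
    rw [abs_mul] at h6
    nlinarith
  · exact h5

theorem attr_inv_eq {g : SL2} {l : ℝ} {w : Fin 2 → ℝ} (hw : w ≠ 0) (hl : 1 < |l|)
    (h : g.1 *ᵥ w = l⁻¹ • w) : attr g⁻¹ = pt w := by
  have hl0 : l ≠ 0 := by
    rintro rfl
    simp at hl
    linarith
  refine attr_eq hw hl ?_
  have h1 : (g⁻¹).1 *ᵥ (g.1 *ᵥ w) = w := by
    rw [Matrix.mulVec_mulVec]
    have h2 : (g⁻¹).1 * g.1 = 1 := by
      have := congrArg (fun x : SL2 => x.1) (inv_mul_cancel g)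
      exact this
    rw [h2, Matrix.one_mulVec]
  rw [h, Matrix.mulVec_smul] at h1
  rw [← smul_right_injective (Fin 2 → ℝ) (inv_ne_zero hl0) |>.eq_iff]
  show l⁻¹ • ((g⁻¹).1 *ᵥ w) = l⁻¹ • l • w
  rw [h1, smul_smul, inv_mul_cancel₀ hl0, one_smul]

theorem j2_ne1 {v w : Fin 2 → ℝ} (h : dt v w = 1) : v ≠ 0 := by
  rintro rfl
  simp [dt] at h

theorem j2_ne2 {v w : Fin 2 → ℝ} (h : dt v w = 1) : w ≠ 0 := by
  rintro rfl
  simp [dt] at h

theorem attr_conj (h : SL2) {g : SL2} (hg : 2 < |g.1.trace|) :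
    attr (h * g * h⁻¹) = h • attr g := by
  obtain ⟨l, v, w, hl, e1, e2, e3⟩ := exists_eig hg
  have hv : v ≠ 0 := j2_ne1 e3
  rw [attr_eq hv hl e1, smul_pt h hv]
  refine attr_eq (mulVec_ne_zero h hv) hl ?_
  have h2 : (h * g * h⁻¹ : SL2).1 * h.1 = h.1 * g.1 := by
    have := congrArg (fun x : SL2 => x.1) (inv_mul_cancel_right (h * g) h)
    exact this
  rw [Matrix.mulVec_mulVec, h2, ← Matrix.mulVec_mulVec, e1, Matrix.mulVec_smul]

theorem attr_ne {g : SL2} (hg : 2 < |g.1.trace|) : attr g ≠ attr g⁻¹ := by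
  obtain ⟨l, v, w, hl, e1, e2, e3⟩ := exists_eig hg
  have hv : v ≠ 0 := j2_ne1 e3
  have hw : w ≠ 0 := j2_ne2 e3
  rw [attr_eq hv hl e1, attr_inv_eq hw hl e2, Ne, pt_eq_iff hv hw, e3]
  exact one_ne_zero

/-- an element fixing the point `pt v` has `v` as an eigenvector. -/
theorem eig_of_fix {h : SL2} {v : Fin 2 → ℝ} (hv : v ≠ 0) (e : h • pt v = pt v) :
    ∃ m : ℝ, m ≠ 0 ∧ h.1 *ᵥ v = m • v := by
  rw [smul_pt h hv] at e
  obtain ⟨s, hs, f1⟩ := vec_pt hv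
  obtain ⟨t, ht, f2⟩ := vec_pt (mulVec_ne_zero h hv)
  refine ⟨t / s, div_ne_zero ht hs, ?_⟩
  rw [f2, e]
  conv_rhs => rw [f1]
  rw [smul_smul, div_mul_cancel₀ _ hs]

end H21D
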