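import Pool.Agent.Lib.H21D.J2

/-! # J3: north-south dynamics -/
namespace H21D
open Matrix

theorem j3_pow (g : SL2) {l : ℝ} {v : Fin 2 → ℝ} (h : g.1 *ᵥ v = l • v) (n : ℕ) :
    (g ^ n).1 *ᵥ v = l ^ n • v := by
  induction n with
  | zero =>
    rw [pow_zero, pow_zero, one_smul]
    show (1 : Matrix (Fin 2) (Fin 2) ℝ) *ᵥ v = v
    exact Matrix.one_mulVec v
  | succ n ih =>
    have e : (g ^ (n + 1)).1 = (g ^ n).1 * g.1 := by
      rw [pow_succ]
      rfl
    rw [e, ← Matrix.mulVec_mulVec, h, Matrix.mulVec_smul, ih, smul_smul, pow_succ, mul_comm]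

/-- `g ^ n (a v + b w) = l ^ n (a v + b l ^ (-2n) w)` -/
theorem dyn_SL {g : SL2} (hg : 2 < |g.1.trace|) {ξ a b : OnePoint ℝ} (hξ : ξ ≠ attr g⁻¹)
    (h : cyc a (attr g) b) : ∃ N : ℕ, ∀ n : ℕ, N ≤ n → cyc a (g ^ n • ξ) b := by
  obtain ⟨l, v, w, hl, hv, hw, hvw⟩ := exists_eig hg
  have hv0 : v ≠ 0 := by
    rintro rfl
    simp [dt] at hvw
  have hw0 : w ≠ 0 := by
    rintro rfl
    simp [dt] at hvw
  rw [attr_eq hv0 hl hv] at h
  rw [attr_inv_eq hw0 hl hw] at hξ
  have hl0 : l ≠ 0 := by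
    rintro rfl
    rw [abs_zero] at hl
    linarith
  set x := vec ξ with hx
  have hx0 : x ≠ 0 := vec_ne_zero ξ
  set s := dt x w with hs
  set t := dt v x with ht
  have hs0 : s ≠ 0 := by
    intro h0
    apply hξ
    rw [← pt_vec ξ]
    exact (pt_eq_iff hx0 hw0).2 h0
  have hdec : x = s • v + t • w := by
    have h1 : v 0 * w 1 - v 1 * w 0 = 1 := hvw
    ext i
    fin_cases i
    · show x 0 = s * v 0 + t * w 0
      rw [hs, ht]
      unfold dt
      linear_combination (-(x 0)) * h1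
    · show x 1 = s * v 1 + t * w 1
      rw [hs, ht]
      unfold dt
      linear_combination (-(x 1)) * h1
  have hact : ∀ n : ℕ, g ^ n • ξ = pt (s • v + (t * (l⁻¹ ^ n) ^ 2) • w) := by
    intro n
    have e1 : (g ^ n).1 *ᵥ x = l ^ n • (s • v + (t * (l⁻¹ ^ n) ^ 2) • w) := by
      rw [hdec, Matrix.mulVec_add, Matrix.mulVec_smul, Matrix.mulVec_smul, j3_pow g hv, j3_pow g hw,
        smul_add, smul_smul, smul_smul, smul_smul, smul_smul]
      congr 1
      · rw [mul_comm]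
      · congr 1
        have e2 : l ^ n * l⁻¹ ^ n = 1 := by
          rw [← mul_pow, mul_inv_cancel₀ hl0, one_pow]
        linear_combination (-(t * l⁻¹ ^ n)) * e2
    rw [← pt_vec ξ, smul_pt _ hx0, e1, pt_smul' (pow_ne_zero n hl0)]
  have hne : ∀ c : ℝ, s • v + c • w ≠ 0 := by
    intro c h0
    apply hs0
    have e1 : dt (s • v + c • w) w = s := by
      have h1 : v 0 * w 1 - v 1 * w 0 = 1 := hvw
      simp only [dt, Pi.add_apply, Pi.smul_apply, smul_eq_mul]
      linear_combination s * h1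
    rw [← e1, h0]
    simp [dt]
  rw [← pt_vec a, ← pt_vec b, cyc_pt_iff (vec_ne_zero a) hv0 (vec_ne_zero b)] at h
  set u := vec a with hu
  set z := vec b with hz
  let f : ℝ → ℝ := fun c => dt u (s • v + c • w) * dt (s • v + c • w) z * dt z u
  have hf : Continuous f := by
    simp only [f, dt, Pi.add_apply, Pi.smul_apply, smul_eq_mul]
    fun_prop
  have hf0 : 0 < f 0 := by
    have e1 : f 0 = s ^ 2 * (dt u v * dt v z * dt z u) := by
      simp only [f, dt, Pi.add_apply, Pi.smul_apply, smul_eq_mul]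
      ring
    rw [e1]
    exact mul_pos (by positivity) h
  have hlim : Filter.Tendsto (fun n : ℕ => t * (l⁻¹ ^ n) ^ 2) Filter.atTop (nhds 0) := by
    have h1 : |l⁻¹| < 1 := by
      rw [abs_inv]
      exact inv_lt_one_of_one_lt₀ hl
    have h2 := (tendsto_pow_atTop_nhds_zero_of_abs_lt_one h1)
    have h3 := (h2.pow 2).const_mul t
    simpa using h3
  have hlim2 : Filter.Tendsto (fun n : ℕ => f (t * (l⁻¹ ^ n) ^ 2)) Filter.atTop (nhds (f 0)) :=
    (hf.tendsto 0).comp hlim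
  have hev := hlim2.eventually (lt_mem_nhds hf0)
  obtain ⟨N, hN⟩ := Filter.eventually_atTop.1 hev
  refine ⟨N, fun n hn => ?_⟩
  rw [hact n, ← pt_vec a, ← pt_vec b, cyc_pt_iff (vec_ne_zero a) (hne _) (vec_ne_zero b)]
  exact hN n hn

end H21D
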