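import Pool.Agent.Lib.H21D.J2

/-! # J4: discreteness -/
namespace H21D
open Matrix

/-- a discrete subgroup of `SL(2,ℝ)` is closed, bounded closed sets of matrices are compact. -/
theorem finite_bdd {Γ : Subgroup SL2} (h : DiscreteTopology Γ) (R : ℝ) :
    {g : SL2 | g ∈ Γ ∧ ∀ i j, |g.1 i j| ≤ R}.Finite := by
  have hcl : Topology.IsClosedEmbedding ((↑) : SL2 → Matrix (Fin 2) (Fin 2) ℝ) :=
    Matrix.SpecialLinearGroup.isClosedEmbedding_val
  have hT2 : T2Space SL2 := hcl.isEmbedding.t2Space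
  have hK : IsCompact {g : SL2 | ∀ i j, |g.1 i j| ≤ R} := by
    have h1 : IsCompact (Set.pi Set.univ (fun _ : Fin 2 => Set.pi Set.univ (fun _ : Fin 2 => Set.Icc (-R) R)) :
        Set (Fin 2 → Fin 2 → ℝ)) :=
      isCompact_univ_pi fun _ => isCompact_univ_pi fun _ => isCompact_Icc
    have h2 := hcl.isCompact_preimage (K := (Set.pi Set.univ
      (fun _ : Fin 2 => Set.pi Set.univ (fun _ : Fin 2 => Set.Icc (-R) R)) : Set (Fin 2 → Fin 2 → ℝ))) h1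
    refine h2.of_isClosed_subset ?_ ?_
    · have h3 : {g : SL2 | ∀ i j, |g.1 i j| ≤ R} = ⋂ i, ⋂ j, {g : SL2 | |g.1 i j| ≤ R} := by
        ext g
        simp
      rw [h3]
      refine isClosed_iInter fun i => isClosed_iInter fun j => ?_
      refine isClosed_le ?_ continuous_const
      have h4 : Continuous (fun g : SL2 => g.1 i j) := by
        have h5 : Continuous (fun M : Matrix (Fin 2) (Fin 2) ℝ => M i j) := by fun_prop
        exact h5.comp hcl.continuous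
      exact h4.abs
    · intro g hg
      show ∀ i ∈ Set.univ, ∀ j ∈ Set.univ, g.1 i j ∈ Set.Icc (-R) R
      intro i _ j _
      exact abs_le.1 (hg i j)
  have h1 := Subgroup.tendsto_coe_cofinite_of_discrete Γ (isDiscrete_iff_discreteTopology.2 h)
  have h2 := h1 (hK.compl_mem_cocompact)
  rw [Filter.mem_map, Filter.mem_cofinite] at h2
  refine (h2.image (fun g : Γ => (g : SL2))).subset ?_
  rintro g ⟨hg, hgR⟩
  exact ⟨⟨g, hg⟩, fun hn => hn hgR, rfl⟩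

theorem j4_dec {v w : Fin 2 → ℝ} (hvw : dt v w = 1) (x : Fin 2 → ℝ) : x = dt x w • v + dt v x • w := by
  unfold dt at *
  ext i
  fin_cases i
  · simp only [Fin.zero_eta, Pi.add_apply, Pi.smul_apply, smul_eq_mul]
    linear_combination (-x 0) * hvw
  · simp only [Fin.mk_one, Pi.add_apply, Pi.smul_apply, smul_eq_mul]
    linear_combination (-x 1) * hvw

theorem j4_ent0 {v w : Fin 2 → ℝ} (hvw : dt v w = 1) (g : SL2) (i : Fin 2) :
    g.1 i 0 = w 1 * (g.1 *ᵥ v) i - v 1 * (g.1 *ᵥ w) i := by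
  unfold dt at *
  simp only [Matrix.mulVec, dotProduct, Fin.sum_univ_two]
  linear_combination (-g.1 i 0) * hvw

theorem j4_ent1 {v w : Fin 2 → ℝ} (hvw : dt v w = 1) (g : SL2) (i : Fin 2) :
    g.1 i 1 = v 0 * (g.1 *ᵥ w) i - w 0 * (g.1 *ᵥ v) i := by
  unfold dt at *
  simp only [Matrix.mulVec, dotProduct, Fin.sum_univ_two]
  linear_combination (-g.1 i 1) * hvw

theorem j4_pow {g : SL2} {l : ℝ} {v : Fin 2 → ℝ} (hv : g.1 *ᵥ v = l • v) (n : ℕ) :
    (g ^ n).1 *ᵥ v = l ^ n • v := by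
  induction n with
  | zero => simp
  | succ n ih =>
    rw [pow_succ]
    show (((g ^ n).1 * g.1) *ᵥ v) = _
    rw [← Matrix.mulVec_mulVec, hv, Matrix.mulVec_smul, ih, smul_smul, pow_succ]
    ring_nf

theorem j4_inv {g : SL2} {l : ℝ} {v : Fin 2 → ℝ} (hl : l ≠ 0) (hv : g.1 *ᵥ v = l • v) :
    (g⁻¹).1 *ᵥ v = l⁻¹ • v := by
  have h1 : v = l⁻¹ • (g.1 *ᵥ v) := by rw [hv, smul_smul, inv_mul_cancel₀ hl, one_smul]
  have h2 : (g⁻¹).1 *ᵥ (g.1 *ᵥ v) = v := by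
    rw [Matrix.mulVec_mulVec]
    have h3 : (g⁻¹).1 * g.1 = (g⁻¹ * g).1 := rfl
    rw [h3, inv_mul_cancel]
    exact Matrix.one_mulVec v
  conv_lhs => rw [h1]
  rw [Matrix.mulVec_smul, h2]

theorem j4_mul (g h : SL2) (v : Fin 2 → ℝ) : (g * h).1 *ᵥ v = g.1 *ᵥ (h.1 *ᵥ v) := by
  rw [Matrix.mulVec_mulVec]
  rfl

/-- an element of a discrete group that fixes one fixed point of a hyperbolic element fixes the other
one too: otherwise `g ^ -n * h * g ^ n` would be infinitely many elements in a bounded set. -/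
theorem fix_other {Γ : Subgroup SL2} (hΓ : IsSurf Γ) {g h : SL2} (hg : g ∈ Γ) (hg1 : g ≠ 1)
    (hh : h ∈ Γ) {l : ℝ} {v w : Fin 2 → ℝ} (hl : 1 < |l|) (hv : g.1 *ᵥ v = l • v)
    (hw : g.1 *ᵥ w = l⁻¹ • w) (hvw : dt v w = 1) (e : h • pt v = pt v) :
    ∃ m : ℝ, m ≠ 0 ∧ h.1 *ᵥ v = m • v ∧ h.1 *ᵥ w = m⁻¹ • w := by
  have hv0 : v ≠ 0 := by
    rintro rfl
    unfold dt at hvw
    simp at hvw
  have hl0 : l ≠ 0 := by
    rintro rfl
    rw [abs_zero] at hl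
    linarith
  obtain ⟨m, hm, hhv⟩ := eig_of_fix hv0 e
  refine ⟨m, hm, hhv, ?_⟩
  obtain ⟨c, hc⟩ : ∃ c, dt (h.1 *ᵥ w) w = c := ⟨_, rfl⟩
  have h1 : m * dt v (h.1 *ᵥ w) = 1 := by
    have h2 := dt_mulVec h v w
    rw [hhv, hvw] at h2
    refine Eq.trans ?_ h2
    unfold dt
    simp only [Pi.smul_apply, smul_eq_mul]
    ring
  have h2 : dt v (h.1 *ᵥ w) = m⁻¹ := by
    rw [eq_comm, inv_eq_iff_eq_inv]
    exact (eq_inv_of_mul_eq_one_left h1)
  have hhw : h.1 *ᵥ w = c • v + m⁻¹ • w := by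
    have h3 := j4_dec hvw (h.1 *ᵥ w)
    rw [hc, h2] at h3
    exact h3
  by_cases hc0 : c = 0
  · rw [hhw, hc0, zero_smul, zero_add]
  exfalso
  -- the elements `A n = (g ^ n)⁻¹ * h * g ^ n`
  have hAv : ∀ n : ℕ, ((g ^ n)⁻¹ * h * g ^ n).1 *ᵥ v = m • v := by
    intro n
    rw [j4_mul, j4_pow hv, Matrix.mulVec_smul, j4_mul, hhv, Matrix.mulVec_smul,
      j4_inv (pow_ne_zero n hl0) (j4_pow hv n), smul_smul, smul_smul]
    congr 1
    field_simp
  have hAw : ∀ n : ℕ, ((g ^ n)⁻¹ * h * g ^ n).1 *ᵥ w = (c * ((l ^ (2 * n))⁻¹)) • v + m⁻¹ • w := by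
    intro n
    have hli : l⁻¹ ≠ 0 := inv_ne_zero hl0
    rw [j4_mul, j4_pow hw, Matrix.mulVec_smul, j4_mul, hhw, Matrix.mulVec_add, Matrix.mulVec_smul,
      Matrix.mulVec_smul, j4_inv (pow_ne_zero n hl0) (j4_pow hv n),
      j4_inv (pow_ne_zero n hli) (j4_pow hw n), smul_add, smul_smul, smul_smul, smul_smul, smul_smul]
    congr 1
    · congr 1
      rw [two_mul, pow_add, inv_pow]
      field_simp
    · congr 1
      rw [inv_pow]
      field_simp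
  obtain ⟨R, hR⟩ : ∃ R : ℝ, ∀ n : ℕ, ∀ i j, |((g ^ n)⁻¹ * h * g ^ n).1 i j| ≤ R := by
    have hb : ∀ n : ℕ, |c * ((l ^ (2 * n))⁻¹)| ≤ |c| := by
      intro n
      rw [abs_mul, abs_inv, abs_pow]
      have h3 : 1 ≤ |l| ^ (2 * n) := one_le_pow₀ hl.le
      have h4 : (|l| ^ (2 * n))⁻¹ ≤ 1 := inv_le_one_of_one_le₀ h3
      calc |c| * (|l| ^ (2 * n))⁻¹ ≤ |c| * 1 := mul_le_mul_of_nonneg_left h4 (abs_nonneg c)
        _ = |c| := mul_one _
    have hb2 : ∀ a : ℝ, ∀ n : ℕ, |(c * ((l ^ (2 * n))⁻¹)) * a| ≤ |c| * |a| := by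
      intro a n
      rw [abs_mul]
      exact mul_le_mul_of_nonneg_right (hb n) (abs_nonneg a)
    refine ⟨∑ i : Fin 2, ((|w 1 * (m * v i) - v 1 * (m⁻¹ * w i)| + |c| * |v 1 * v i|) +
      (|v 0 * (m⁻¹ * w i) - w 0 * (m * v i)| + |c| * |v 0 * v i|)), ?_⟩
    intro n i j
    have hs : ((|w 1 * (m * v i) - v 1 * (m⁻¹ * w i)| + |c| * |v 1 * v i|) +
        (|v 0 * (m⁻¹ * w i) - w 0 * (m * v i)| + |c| * |v 0 * v i|)) ≤
        ∑ i : Fin 2, ((|w 1 * (m * v i) - v 1 * (m⁻¹ * w i)| + |c| * |v 1 * v i|) +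
        (|v 0 * (m⁻¹ * w i) - w 0 * (m * v i)| + |c| * |v 0 * v i|)) :=
      Finset.single_le_sum (f := fun i : Fin 2 => ((|w 1 * (m * v i) - v 1 * (m⁻¹ * w i)| + |c| * |v 1 * v i|) +
        (|v 0 * (m⁻¹ * w i) - w 0 * (m * v i)| + |c| * |v 0 * v i|))) (fun i _ => by positivity) (Finset.mem_univ i)
    refine le_trans ?_ hs
    have g1 := abs_nonneg (w 1 * (m * v i) - v 1 * (m⁻¹ * w i))
    have g2 := abs_nonneg (v 0 * (m⁻¹ * w i) - w 0 * (m * v i))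
    have g3 : 0 ≤ |c| * |v 1 * v i| := by positivity
    have g4 : 0 ≤ |c| * |v 0 * v i| := by positivity
    fin_cases j
    · show |((g ^ n)⁻¹ * h * g ^ n).1 i 0| ≤ _
      rw [j4_ent0 hvw, hAv, hAw]
      simp only [Pi.add_apply, Pi.smul_apply, smul_eq_mul]
      have e1 : w 1 * (m * v i) - v 1 * (c * (l ^ (2 * n))⁻¹ * v i + m⁻¹ * w i) =
          (w 1 * (m * v i) - v 1 * (m⁻¹ * w i)) - (c * (l ^ (2 * n))⁻¹) * (v 1 * v i) := by ring
      rw [e1]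
      have e2 := abs_sub (w 1 * (m * v i) - v 1 * (m⁻¹ * w i)) ((c * (l ^ (2 * n))⁻¹) * (v 1 * v i))
      have e3 := hb2 (v 1 * v i) n
      linarith
    · show |((g ^ n)⁻¹ * h * g ^ n).1 i 1| ≤ _
      rw [j4_ent1 hvw, hAv, hAw]
      simp only [Pi.add_apply, Pi.smul_apply, smul_eq_mul]
      have e1 : v 0 * (c * (l ^ (2 * n))⁻¹ * v i + m⁻¹ * w i) - w 0 * (m * v i) =
          (v 0 * (m⁻¹ * w i) - w 0 * (m * v i)) + (c * (l ^ (2 * n))⁻¹) * (v 0 * v i) := by ring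
      rw [e1]
      have e2 := abs_add_le (v 0 * (m⁻¹ * w i) - w 0 * (m * v i)) ((c * (l ^ (2 * n))⁻¹) * (v 0 * v i))
      have e3 := hb2 (v 0 * v i) n
      linarith
  have hfin := finite_bdd hΓ.discrete R
  have hinj : Function.Injective (fun n : ℕ => (g ^ n)⁻¹ * h * g ^ n) := by
    intro n n' hn
    have hn' : (g ^ n)⁻¹ * h * g ^ n = (g ^ n')⁻¹ * h * g ^ n' := hn
    have e1 := hAw n
    rw [hn', hAw n'] at e1
    have e2 := add_right_cancel e1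
    have e3 : c * (l ^ (2 * n'))⁻¹ = c * (l ^ (2 * n))⁻¹ := by
      obtain ⟨i, hi⟩ := Function.ne_iff.1 hv0
      have e4 := congrFun e2 i
      simp only [Pi.smul_apply, smul_eq_mul] at e4
      exact mul_right_cancel₀ hi e4
    have e5 := inv_injective (mul_left_cancel₀ hc0 e3)
    have e6 : |l| ^ (2 * n') = |l| ^ (2 * n) := by rw [← abs_pow, ← abs_pow, e5]
    have e7 := (pow_right_strictMono₀ hl).injective e6
    omega
  refine Set.infinite_of_injective_forall_mem hinj (s := {g : SL2 | g ∈ Γ ∧ ∀ i j, |g.1 i j| ≤ R}) ?_ hfin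
  intro n
  exact ⟨Γ.mul_mem (Γ.mul_mem (Γ.inv_mem (Γ.pow_mem hg n)) hh) (Γ.pow_mem hg n), hR n⟩

end H21D
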