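import Pool.Agent.Lib.H21D.J4

/-! # J5: roots -/
namespace H21D
open Matrix

def J5P (v w : Fin 2 → ℝ) (h : SL2) (m : ℝ) : Prop :=
  m ≠ 0 ∧ h.1 *ᵥ v = m • v ∧ h.1 *ᵥ w = m⁻¹ • w

noncomputable def j5_m (v w : Fin 2 → ℝ) (h : SL2) : ℝ := dt (h.1 *ᵥ v) w

theorem J5P.m_eq {v w : Fin 2 → ℝ} {h : SL2} {m : ℝ} (H : J5P v w h m) (e : dt v w = 1) :
    j5_m v w h = m := by
  unfold j5_m
  rw [H.2.1]
  have := j1_dt_smul m 1 v w
  rw [one_smul, mul_one, e, mul_one] at this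
  exact this

theorem J5P.mul {v w : Fin 2 → ℝ} {h h' : SL2} {m m' : ℝ} (H : J5P v w h m) (H' : J5P v w h' m') :
    J5P v w (h * h') (m * m') := by
  obtain ⟨a1, a2, a3⟩ := H
  obtain ⟨b1, b2, b3⟩ := H'
  have e : (h * h').1 = h.1 * h'.1 := rfl
  refine ⟨mul_ne_zero a1 b1, ?_, ?_⟩
  · rw [e, ← Matrix.mulVec_mulVec, b2, Matrix.mulVec_smul, a2, smul_smul, mul_comm]
  · rw [e, ← Matrix.mulVec_mulVec, b3, Matrix.mulVec_smul, a3, smul_smul, mul_inv, mul_comm]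

theorem j5_inv_mulVec (h : SL2) (x : Fin 2 → ℝ) : (h⁻¹).1 *ᵥ (h.1 *ᵥ x) = x := by
  rw [Matrix.mulVec_mulVec]
  have h2 : (h⁻¹).1 * h.1 = 1 := by
    have := congrArg (fun x : SL2 => x.1) (inv_mul_cancel h)
    exact this
  rw [h2, Matrix.one_mulVec]

theorem J5P.inv {v w : Fin 2 → ℝ} {h : SL2} {m : ℝ} (H : J5P v w h m) : J5P v w h⁻¹ m⁻¹ := by
  obtain ⟨a1, a2, a3⟩ := H
  refine ⟨inv_ne_zero a1, ?_, ?_⟩
  · have h1 := j5_inv_mulVec h v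
    rw [a2, Matrix.mulVec_smul] at h1
    have h2 : m⁻¹ • (m • ((h⁻¹).1 *ᵥ v)) = m⁻¹ • v := by rw [h1]
    rwa [smul_smul, inv_mul_cancel₀ a1, one_smul] at h2
  · have h1 := j5_inv_mulVec h w
    rw [a3, Matrix.mulVec_smul] at h1
    have h2 : m • (m⁻¹ • ((h⁻¹).1 *ᵥ w)) = m • w := by rw [h1]
    rw [inv_inv]
    rwa [smul_smul, mul_inv_cancel₀ a1, one_smul] at h2

theorem J5P.one (v w : Fin 2 → ℝ) : J5P v w 1 1 := by
  refine ⟨one_ne_zero, ?_, ?_⟩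
  · show (1 : Matrix (Fin 2) (Fin 2) ℝ) *ᵥ v = _
    rw [Matrix.one_mulVec, one_smul]
  · show (1 : Matrix (Fin 2) (Fin 2) ℝ) *ᵥ w = _
    rw [Matrix.one_mulVec, inv_one, one_smul]

theorem J5P.zpow {v w : Fin 2 → ℝ} {h : SL2} {m : ℝ} (H : J5P v w h m) (k : ℤ) :
    J5P v w (h ^ k) (m ^ k) := by
  induction k using Int.induction_on with
  | zero => rw [zpow_zero, zpow_zero]; exact J5P.one v w
  | succ i ih =>
    rw [_root_.zpow_add_one, zpow_add_one₀ H.1]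
    exact ih.mul H
  | pred i ih =>
    rw [_root_.zpow_sub_one, zpow_sub_one₀ H.1]
    exact ih.mul H.inv

theorem J5P.entries {v w : Fin 2 → ℝ} {h : SL2} {m : ℝ} (H : J5P v w h m) (e : dt v w = 1) :
    h.1 0 0 = m * (v 0 * w 1) - m⁻¹ * (v 1 * w 0) ∧ h.1 0 1 = m⁻¹ * (v 0 * w 0) - m * (v 0 * w 0) ∧
    h.1 1 0 = m * (v 1 * w 1) - m⁻¹ * (v 1 * w 1) ∧ h.1 1 1 = m⁻¹ * (v 0 * w 1) - m * (v 1 * w 0) := by
  obtain ⟨-, a2, a3⟩ := H
  have e0 : ∀ v : Fin 2 → ℝ, (h.1 *ᵥ v) 0 = h.1 0 0 * v 0 + h.1 0 1 * v 1 := by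
    intro v
    simp [Matrix.mulVec, dotProduct, Fin.sum_univ_two]
  have e1 : ∀ v : Fin 2 → ℝ, (h.1 *ᵥ v) 1 = h.1 1 0 * v 0 + h.1 1 1 * v 1 := by
    intro v
    simp [Matrix.mulVec, dotProduct, Fin.sum_univ_two]
  have c1 : h.1 0 0 * v 0 + h.1 0 1 * v 1 = m * v 0 := by rw [← e0, a2]; rfl
  have c2 : h.1 1 0 * v 0 + h.1 1 1 * v 1 = m * v 1 := by rw [← e1, a2]; rfl
  have c3 : h.1 0 0 * w 0 + h.1 0 1 * w 1 = m⁻¹ * w 0 := by rw [← e0, a3]; rfl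
  have c4 : h.1 1 0 * w 0 + h.1 1 1 * w 1 = m⁻¹ * w 1 := by rw [← e1, a3]; rfl
  unfold dt at e
  refine ⟨?_, ?_, ?_, ?_⟩
  · linear_combination (-(h.1 0 0)) * e + w 1 * c1 - v 1 * c3
  · linear_combination (-(h.1 0 1)) * e + v 0 * c3 - w 0 * c1
  · linear_combination (-(h.1 1 0)) * e + w 1 * c2 - v 1 * c4
  · linear_combination (-(h.1 1 1)) * e + v 0 * c4 - w 0 * c2

theorem J5P.trace {v w : Fin 2 → ℝ} {h : SL2} {m : ℝ} (H : J5P v w h m) (e : dt v w = 1) :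
    h.1.trace = m + m⁻¹ := by
  obtain ⟨a1, -, -, a4⟩ := H.entries e
  unfold dt at e
  rw [Matrix.trace_fin_two, a1, a4]
  linear_combination (m + m⁻¹) * e

theorem j5_abs {m l a b c d A B : ℝ} (hm : 1 < |m|) (hl : |m| ≤ |l|) (h1 : |a| * |b| ≤ A) (h2 : |c| * |d| ≤ A)
    (hA : 2 * |l| * A = B) : |m * (a * b) - m⁻¹ * (c * d)| ≤ B := by
  have h3 : |m⁻¹| ≤ |l| := by
    rw [abs_inv]
    exact (inv_le_one_of_one_le₀ hm.le).trans (hm.le.trans hl)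
  have h4 : |m * (a * b)| ≤ |l| * A := by
    rw [abs_mul, abs_mul]
    exact mul_le_mul hl h1 (by positivity) (abs_nonneg _)
  have h5 : |m⁻¹ * (c * d)| ≤ |l| * A := by
    rw [abs_mul, abs_mul]
    exact mul_le_mul h3 h2 (by positivity) (abs_nonneg _)
  have h6 := abs_sub (m * (a * b)) (m⁻¹ * (c * d))
  rw [← hA]
  linarith

theorem J5P.bdd {v w : Fin 2 → ℝ} {h : SL2} {m l : ℝ} (H : J5P v w h m) (e : dt v w = 1) (hm : 1 < |m|)
    (hl : |m| ≤ |l|) : ∀ i j, |h.1 i j| ≤ 2 * |l| * ((|v 0| + |v 1|) * (|w 0| + |w 1|)) := by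
  obtain ⟨a1, a2, a3, a4⟩ := H.entries e
  have hv0 := abs_nonneg (v 0)
  have hv1 := abs_nonneg (v 1)
  have hw0 := abs_nonneg (w 0)
  have hw1 := abs_nonneg (w 1)
  have k1 : |v 0| * |w 1| ≤ (|v 0| + |v 1|) * (|w 0| + |w 1|) := mul_le_mul (by linarith) (by linarith) hw1 (by linarith)
  have k2 : |v 1| * |w 0| ≤ (|v 0| + |v 1|) * (|w 0| + |w 1|) := mul_le_mul (by linarith) (by linarith) hw0 (by linarith)
  have k3 : |v 0| * |w 0| ≤ (|v 0| + |v 1|) * (|w 0| + |w 1|) := mul_le_mul (by linarith) (by linarith) hw0 (by linarith)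
  have k4 : |v 1| * |w 1| ≤ (|v 0| + |v 1|) * (|w 0| + |w 1|) := mul_le_mul (by linarith) (by linarith) hw1 (by linarith)
  intro i j
  fin_cases i <;> fin_cases j
  · show |h.1 0 0| ≤ _
    rw [a1]
    exact j5_abs hm hl k1 k2 rfl
  · show |h.1 0 1| ≤ _
    rw [a2, abs_sub_comm]
    exact j5_abs hm hl k3 k3 rfl
  · show |h.1 1 0| ≤ _
    rw [a3]
    exact j5_abs hm hl k4 k4 rfl
  · show |h.1 1 1| ≤ _
    rw [a4, abs_sub_comm]
    exact j5_abs hm hl k2 k1 rfl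

/-- the elements fixing `attr g` are `v ↦ m v, w ↦ m⁻¹ w`; choose the one with the smallest
`|m| > 1` (`finite_bdd`). -/
theorem root_SL {Γ : Subgroup SL2} (hΓ : IsSurf Γ) {g : SL2} (hg : g ∈ Γ) (hg1 : g ≠ 1) :
    ∃ r ∈ Γ, r ≠ 1 ∧ attr r = attr g ∧ attr r⁻¹ = attr g⁻¹ ∧
      ∀ h ∈ Γ, h • attr g = attr g → ∃ k : ℤ, h = r ^ k := by
  classical
  obtain ⟨l, v, w, hl, e1, e2, e3⟩ := exists_eig (hΓ.hyp g hg hg1)
  have hv : v ≠ 0 := j2_ne1 e3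
  have hw : w ≠ 0 := j2_ne2 e3
  rw [attr_eq hv hl e1, attr_inv_eq hw hl e2]
  have hS : ∀ h ∈ Γ, h • pt v = pt v → J5P v w h (j5_m v w h) := by
    intro h hh hfix
    obtain ⟨m, hm, f1, f2⟩ := fix_other hΓ hg hg1 hh hl e1 e2 e3 hfix
    have : J5P v w h m := ⟨hm, f1, f2⟩
    rwa [this.m_eq e3]
  have hPfix : ∀ h m, J5P v w h m → h • pt v = pt v := by
    rintro h m ⟨hm, f1, -⟩
    rw [smul_pt h hv, f1, pt_smul' hm]
  have hone : ∀ h ∈ Γ, ∀ m, J5P v w h m → |m| = 1 → h = 1 := by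
    intro h hh m hP hm
    by_contra hne
    have h1 := hΓ.hyp h hh hne
    rw [hP.trace e3] at h1
    rcases eq_or_eq_neg_of_abs_eq hm with h2 | h2
    · rw [h2] at h1
      norm_num at h1
    · rw [h2] at h1
      norm_num at h1
  -- the finite set
  set K : ℝ := (|v 0| + |v 1|) * (|w 0| + |w 1|) with hK
  have hfin := finite_bdd hΓ.discrete (2 * |l| * K)
  let Fs := hfin.toFinset.filter fun h => h • pt v = pt v ∧ 1 < |j5_m v w h|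
  have hbd : ∀ h ∈ Γ, h • pt v = pt v → 1 < |j5_m v w h| → |j5_m v w h| ≤ |l| → h ∈ Fs := by
    intro h hh hfix h1 h2
    refine Finset.mem_filter.2 ⟨hfin.mem_toFinset.2 ⟨hh, ?_⟩, hfix, h1⟩
    exact (hS h hh hfix).bdd e3 h1 h2
  have hgP : J5P v w g l := ⟨fun h0 => by rw [h0, abs_zero] at hl; linarith, e1, e2⟩
  have hgF : g ∈ Fs := by
    have hm := hgP.m_eq e3
    exact hbd g hg (hPfix g l hgP) (by rw [hm]; exact hl) (by rw [hm])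
  obtain ⟨r, hrF, hrmin⟩ := Fs.exists_min_image (fun h => |j5_m v w h|) ⟨g, hgF⟩
  obtain ⟨hr1, hrfix, hrm⟩ := Finset.mem_filter.1 hrF
  have hrΓ : r ∈ Γ := (hfin.mem_toFinset.1 hr1).1
  have hrP := hS r hrΓ hrfix
  have hrl : |j5_m v w r| ≤ |l| := by
    have := hrmin g hgF
    rwa [hgP.m_eq e3] at this
  refine ⟨r, hrΓ, ?_, attr_eq hv hrm hrP.2.1, attr_inv_eq hw hrm hrP.2.2, ?_⟩
  · intro h0
    have h1 : J5P v w r 1 := by
      refine ⟨one_ne_zero, ?_, ?_⟩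
      · rw [h0]
        show (1 : Matrix (Fin 2) (Fin 2) ℝ) *ᵥ v = _
        rw [Matrix.one_mulVec, one_smul]
      · rw [h0]
        show (1 : Matrix (Fin 2) (Fin 2) ℝ) *ᵥ w = _
        rw [Matrix.one_mulVec, inv_one, one_smul]
    rw [h1.m_eq e3, abs_one] at hrm
    exact lt_irrefl _ hrm
  · intro h hh hfix
    have hhP := hS h hh hfix
    obtain ⟨k, hk1, hk2⟩ := exists_mem_Ico_zpow (abs_pos.2 hhP.1) hrm
    refine ⟨k, ?_⟩
    have hP' : J5P v w (h * (r ^ k)⁻¹) (j5_m v w h * (j5_m v w r ^ k)⁻¹) :=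
      hhP.mul (hrP.zpow k).inv
    have hmem : h * (r ^ k)⁻¹ ∈ Γ := Γ.mul_mem hh (Γ.inv_mem (Γ.zpow_mem hrΓ k))
    have hr0 : 0 < |j5_m v w r| := by linarith
    have habs : |j5_m v w h * (j5_m v w r ^ k)⁻¹| = |j5_m v w h| / |j5_m v w r| ^ k := by
      rw [abs_mul, abs_inv, abs_zpow, div_eq_mul_inv]
    have hpk : 0 < |j5_m v w r| ^ k := zpow_pos hr0 k
    have hge : 1 ≤ |j5_m v w h * (j5_m v w r ^ k)⁻¹| := by
      rw [habs, one_le_div hpk]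
      exact hk1
    have hlt : |j5_m v w h * (j5_m v w r ^ k)⁻¹| < |j5_m v w r| := by
      rw [habs, div_lt_iff₀ hpk]
      rw [zpow_add_one₀ hr0.ne'] at hk2
      linarith
    have heq : |j5_m v w h * (j5_m v w r ^ k)⁻¹| = 1 := by
      by_contra hne
      have hgt : 1 < |j5_m v w h * (j5_m v w r ^ k)⁻¹| := lt_of_le_of_ne hge (fun h => hne h.symm)
      have hm := hP'.m_eq e3
      have h1 := hrmin _ (hbd _ hmem (hPfix _ _ hP') (by rw [hm]; exact hgt)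
        (by rw [hm]; exact hlt.le.trans hrl))
      rw [hm] at h1
      linarith
    have := hone _ hmem _ hP' heq
    exact mul_inv_eq_one.1 this

end H21D
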