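import Pool.Agent.Lib.H21D.J4

/-! # J6: local finiteness -/
namespace H21D
open Matrix

theorem j6_zpow {g : SL2} {l : ℝ} {v : Fin 2 → ℝ} (hl : l ≠ 0) (hv : g.1 *ᵥ v = l • v) (k : ℤ) :
    (g ^ k).1 *ᵥ v = l ^ k • v := by
  rcases Int.eq_nat_or_neg k with ⟨n, rfl | rfl⟩
  · rw [zpow_natCast, zpow_natCast]
    exact j4_pow hv n
  · rw [_root_.zpow_neg, zpow_natCast, _root_.zpow_neg, zpow_natCast]
    exact j4_inv (pow_ne_zero n hl) (j4_pow hv n)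

theorem j6_arc {p q : OnePoint ℝ} (hpq : p ≠ q) {x : Fin 2 → ℝ} (hx : x ≠ 0) (h : arc p q (pt x)) :
    dt (vec q) x * dt x (vec p) * dt (vec p) (vec q) ≤ 0 := by
  by_contra hc
  rw [not_le] at hc
  have h1 := (cyc_pt_iff (vec_ne_zero q) hx (vec_ne_zero p)).2 hc
  rw [pt_vec, pt_vec] at h1
  generalize pt x = y at *
  clear hx hc
  (obtain ⟨lab, hlab⟩ := H21D.exists_lab [p, q, y]; simp only [List.forall_mem_cons, List.not_mem_nil, IsEmpty.forall_iff, implies_true, and_true, forall_eq_or_imp, List.mem_cons, forall_eq, or_false] at hlab; simp only [H21D.cyc, H21D.cyc4, H21D.arc, ne_eq, hlab] at *; omega)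

theorem j6_ne {p q r s : OnePoint ℝ} (h : cyc4 p q r s) {x y : Fin 2 → ℝ} (hx : x ≠ 0) (hy : y ≠ 0)
    (h1 : dt (vec q) x * dt x (vec p) * dt (vec p) (vec q) ≤ 0)
    (h2 : dt (vec s) y * dt y (vec r) * dt (vec r) (vec s) ≤ 0) : dt x y ≠ 0 := by
  intro h0
  have h3 := (pt_eq_iff hx hy).2 h0
  have h4 : ¬ cyc q (pt x) p := by
    intro hc
    have h5 := (cyc_pt_iff (vec_ne_zero q) hx (vec_ne_zero p)).1 (by rwa [pt_vec, pt_vec])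
    linarith
  have h6 : ¬ cyc s (pt y) r := by
    intro hc
    have h5 := (cyc_pt_iff (vec_ne_zero s) hy (vec_ne_zero r)).1 (by rwa [pt_vec, pt_vec])
    linarith
  rw [← h3] at h6
  clear h3 h1 h2 h0 hy
  generalize pt x = z at *
  clear hx
  (obtain ⟨lab, hlab⟩ := H21D.exists_lab [p, q, r, s, z]; simp only [List.forall_mem_cons, List.not_mem_nil, IsEmpty.forall_iff, implies_true, and_true, forall_eq_or_imp, List.mem_cons, forall_eq, or_false] at hlab; simp only [H21D.cyc, H21D.cyc4, H21D.arc, ne_eq, hlab] at *; omega)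

theorem j6_cont (a b c d : Fin 2 → ℝ) (f : (Fin 2 → ℝ) × (Fin 2 → ℝ) → (Fin 2 → ℝ)) (hf : Continuous f) :
    Continuous (fun z => dt a (f z) * dt (f z) b * dt c d) := by
  unfold dt
  fun_prop

theorem j6_eps {p q r s : OnePoint ℝ} (h : cyc4 p q r s) : ∃ ε : ℝ, 0 < ε ∧ ∀ x y : Fin 2 → ℝ,
    arc p q (pt x) → arc r s (pt y) → x ≠ 0 → y ≠ 0 → ε * ‖x‖ * ‖y‖ ≤ |dt x y| := by
  have hpq : p ≠ q := by (obtain ⟨lab, hlab⟩ := H21D.exists_lab [p, q, r, s]; simp only [List.forall_mem_cons, List.not_mem_nil, IsEmpty.forall_iff, implies_true, and_true, forall_eq_or_imp, List.mem_cons, forall_eq, or_false] at hlab; simp only [H21D.cyc, H21D.cyc4, H21D.arc, ne_eq, hlab] at *; omega)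
  have hrs : r ≠ s := by (obtain ⟨lab, hlab⟩ := H21D.exists_lab [p, q, r, s]; simp only [List.forall_mem_cons, List.not_mem_nil, IsEmpty.forall_iff, implies_true, and_true, forall_eq_or_imp, List.mem_cons, forall_eq, or_false] at hlab; simp only [H21D.cyc, H21D.cyc4, H21D.arc, ne_eq, hlab] at *; omega)
  obtain ⟨K, hK⟩ : ∃ K : Set ((Fin 2 → ℝ) × (Fin 2 → ℝ)), K = (Metric.sphere 0 1 ×ˢ Metric.sphere 0 1) ∩
      ({z | dt (vec q) z.1 * dt z.1 (vec p) * dt (vec p) (vec q) ≤ 0} ∩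
        {z | dt (vec s) z.2 * dt z.2 (vec r) * dt (vec r) (vec s) ≤ 0}) := ⟨_, rfl⟩
  have hKc : IsCompact K := by
    rw [hK]
    refine ((isCompact_sphere _ _).prod (isCompact_sphere _ _)).inter_right (IsClosed.inter ?_ ?_)
    · exact isClosed_le (j6_cont _ _ _ _ _ continuous_fst) continuous_const
    · exact isClosed_le (j6_cont _ _ _ _ _ continuous_snd) continuous_const
  have hsph : ∀ x : Fin 2 → ℝ, x ∈ Metric.sphere (0 : Fin 2 → ℝ) 1 → x ≠ 0 := by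
    rintro x hx rfl
    rw [mem_sphere_zero_iff_norm, norm_zero] at hx
    exact zero_ne_one hx
  have hKne : ∀ z ∈ K, 0 < |dt z.1 z.2| := by
    intro z hz
    rw [hK] at hz
    obtain ⟨⟨h1, h2⟩, h3, h4⟩ := hz
    exact abs_pos.2 (j6_ne h (hsph _ h1) (hsph _ h2) h3 h4)
  obtain ⟨ε, hε, hmin⟩ : ∃ ε : ℝ, 0 < ε ∧ ∀ z ∈ K, ε ≤ |dt z.1 z.2| := by
    rcases K.eq_empty_or_nonempty with h0 | h0
    · refine ⟨1, one_pos, ?_⟩
      intro z hz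
      rw [h0] at hz
      exact absurd hz (Set.notMem_empty z)
    · have hc : ContinuousOn (fun z : (Fin 2 → ℝ) × (Fin 2 → ℝ) => |dt z.1 z.2|) K := by
        refine Continuous.continuousOn ?_
        unfold dt
        fun_prop
      obtain ⟨z, hz, hzm⟩ := hKc.exists_isMinOn h0 hc
      exact ⟨_, hKne z hz, fun y hy => hzm hy⟩
  refine ⟨ε, hε, ?_⟩
  intro x y hx hy hx0 hy0
  have hnx : 0 < ‖x‖ := norm_pos_iff.2 hx0
  have hny : 0 < ‖y‖ := norm_pos_iff.2 hy0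
  have hx1 : ‖x‖⁻¹ • x ≠ 0 := smul_ne_zero (inv_ne_zero hnx.ne') hx0
  have hy1 : ‖y‖⁻¹ • y ≠ 0 := smul_ne_zero (inv_ne_zero hny.ne') hy0
  have hmem : ((‖x‖⁻¹ • x, ‖y‖⁻¹ • y) : (Fin 2 → ℝ) × (Fin 2 → ℝ)) ∈ K := by
    rw [hK]
    refine ⟨⟨?_, ?_⟩, ?_, ?_⟩
    · rw [mem_sphere_zero_iff_norm]
      show ‖‖x‖⁻¹ • x‖ = 1
      rw [norm_smul, norm_inv, norm_norm, inv_mul_cancel₀ hnx.ne']
    · rw [mem_sphere_zero_iff_norm]
      show ‖‖y‖⁻¹ • y‖ = 1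
      rw [norm_smul, norm_inv, norm_norm, inv_mul_cancel₀ hny.ne']
    · exact j6_arc hpq hx1 (by rw [pt_smul' (inv_ne_zero hnx.ne')]; exact hx)
    · exact j6_arc hrs hy1 (by rw [pt_smul' (inv_ne_zero hny.ne')]; exact hy)
  have h1 := hmin _ hmem
  have h2 : dt (‖x‖⁻¹ • x) (‖y‖⁻¹ • y) = (‖x‖ * ‖y‖)⁻¹ * dt x y := by
    unfold dt
    simp only [Pi.smul_apply, smul_eq_mul, mul_inv]
    ring
  have h1' : ε ≤ |dt (‖x‖⁻¹ • x) (‖y‖⁻¹ • y)| := h1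
  rw [h2, abs_mul, abs_inv, abs_of_pos (mul_pos hnx hny)] at h1'
  have h3 := mul_le_mul_of_nonneg_right h1' (mul_pos hnx hny).le
  have h4 : (‖x‖ * ‖y‖)⁻¹ * |dt x y| * (‖x‖ * ‖y‖) = |dt x y| := by
    field_simp
  rw [h4] at h3
  linarith [h3, mul_assoc ε ‖x‖ ‖y‖]

/-- `δ = h b h⁻¹`; let `v, w` be eigenvectors of `b` with `dt v w = 1`.  Replace `h` by `h b^k` such that
`1 ≤ |h v| / |h w| < l^2`.  The directions of `h v` and `h w` are in two disjoint closed arcs, so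
`|h v| |h w| ≤ R` with `R` depending only on the arcs, so `h b^k` is in a finite set. -/
theorem lf_SL {Γ : Subgroup SL2} (hΓ : IsSurf Γ) {b : SL2} (hb : b ∈ Γ) (hb1 : b ≠ 1)
    {p q r s : OnePoint ℝ} (h : cyc4 p q r s) :
    {δ : SL2 | (∃ h ∈ Γ, δ = h * b * h⁻¹) ∧ arc p q (attr δ) ∧ arc r s (attr δ⁻¹)}.Finite := by
  obtain ⟨l, v, w, hl, hv, hw, hvw⟩ := exists_eig (hΓ.hyp b hb hb1)
  have hl0 : l ≠ 0 := by
    rintro rfl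
    rw [abs_zero] at hl
    linarith
  have hv0 : v ≠ 0 := by
    rintro rfl
    unfold dt at hvw
    simp at hvw
  have hw0 : w ≠ 0 := by
    rintro rfl
    unfold dt at hvw
    simp at hvw
  obtain ⟨ε, hε, heps⟩ := j6_eps h
  obtain ⟨B, hB⟩ : ∃ B : ℝ, B = 1 + |l| ^ 2 * ε⁻¹ := ⟨_, rfl⟩
  have hB0 : 0 ≤ B := by rw [hB]; positivity
  refine ((finite_bdd hΓ.discrete ((|w 1| + |v 1| + (|v 0| + |w 0|)) * B)).image
    (fun g => g * b * g⁻¹)).subset ?_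
  rintro δ ⟨⟨g, hg, rfl⟩, h1, h2⟩
  have hbi : b⁻¹ ∈ Γ := Γ.inv_mem hb
  have hbi1 : b⁻¹ ≠ 1 := inv_ne_one.2 hb1
  rw [attr_conj g (hΓ.hyp b hb hb1), attr_eq hv0 hl hv, smul_pt g hv0] at h1
  have e1 : (g * b * g⁻¹)⁻¹ = g * b⁻¹ * g⁻¹ := by group
  rw [e1, attr_conj g (hΓ.hyp _ hbi hbi1), attr_inv_eq hw0 hl hw, smul_pt g hw0] at h2
  have hgv0 := mulVec_ne_zero g hv0
  have hgw0 := mulVec_ne_zero g hw0
  have hnv : 0 < ‖g.1 *ᵥ v‖ := norm_pos_iff.2 hgv0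
  have hnw : 0 < ‖g.1 *ᵥ w‖ := norm_pos_iff.2 hgw0
  have hl2 : 1 < |l| ^ 2 := one_lt_pow₀ hl two_ne_zero
  obtain ⟨n, hn1, hn2⟩ := exists_mem_Ico_zpow (div_pos hnv hnw) hl2
  -- the new element
  obtain ⟨g', hg'⟩ : ∃ g', g' = g * b ^ (-n) := ⟨_, rfl⟩
  have hg'v : g'.1 *ᵥ v = l ^ (-n) • (g.1 *ᵥ v) := by
    rw [hg', j4_mul, j6_zpow hl0 hv, Matrix.mulVec_smul]
  have hg'w : g'.1 *ᵥ w = l ^ n • (g.1 *ᵥ w) := by
    rw [hg', j4_mul, j6_zpow (inv_ne_zero hl0) hw, Matrix.mulVec_smul, _root_.inv_zpow', neg_neg]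
  have hln : l ^ n ≠ 0 := zpow_ne_zero n hl0
  have hln' : l ^ (-n) ≠ 0 := zpow_ne_zero (-n) hl0
  have hg'v0 := mulVec_ne_zero g' hv0
  have hg'w0 := mulVec_ne_zero g' hw0
  have h3 := heps (g'.1 *ᵥ v) (g'.1 *ᵥ w) (by rw [hg'v, pt_smul' hln']; exact h1)
    (by rw [hg'w, pt_smul' hln]; exact h2) hg'v0 hg'w0
  rw [dt_mulVec, hvw, abs_one] at h3
  have hA : ‖g'.1 *ᵥ v‖ = |l| ^ (-n) * ‖g.1 *ᵥ v‖ := by rw [hg'v, norm_smul, norm_zpow, Real.norm_eq_abs]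
  have hC : ‖g'.1 *ᵥ w‖ = |l| ^ n * ‖g.1 *ᵥ w‖ := by rw [hg'w, norm_smul, norm_zpow, Real.norm_eq_abs]
  have hlp : 0 < |l| := abs_pos.2 hl0
  have hlnp : 0 < |l| ^ n := zpow_pos hlp n
  have e2 : (|l| ^ 2) ^ n = |l| ^ n * |l| ^ n := by rw [pow_two, mul_zpow]
  have hca : ‖g'.1 *ᵥ w‖ ≤ ‖g'.1 *ᵥ v‖ := by
    rw [le_div_iff₀ hnw, e2] at hn1
    rw [hA, hC, _root_.zpow_neg]
    have h4 : |l| ^ n * ‖g.1 *ᵥ w‖ = (|l| ^ n)⁻¹ * (|l| ^ n * |l| ^ n * ‖g.1 *ᵥ w‖) := by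
      field_simp
    rw [h4]
    exact mul_le_mul_of_nonneg_left hn1 (inv_pos.2 hlnp).le
  have hac : ‖g'.1 *ᵥ v‖ ≤ |l| ^ 2 * ‖g'.1 *ᵥ w‖ := by
    rw [div_lt_iff₀ hnw, zpow_add_one₀ (by positivity), e2] at hn2
    rw [hA, hC, _root_.zpow_neg]
    have h4 : |l| ^ 2 * (|l| ^ n * ‖g.1 *ᵥ w‖) =
        (|l| ^ n)⁻¹ * (|l| ^ n * |l| ^ n * |l| ^ 2 * ‖g.1 *ᵥ w‖) := by
      field_simp
    rw [h4]
    exact mul_le_mul_of_nonneg_left hn2.le (inv_pos.2 hlnp).le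
  have ha0 := norm_nonneg (g'.1 *ᵥ v)
  have hc0 := norm_nonneg (g'.1 *ᵥ w)
  have hac' : ‖g'.1 *ᵥ v‖ * ‖g'.1 *ᵥ w‖ ≤ ε⁻¹ := by
    rw [← mul_le_mul_iff_right₀ hε, mul_inv_cancel₀ hε.ne', ← mul_assoc]
    exact h3
  have haB : ‖g'.1 *ᵥ v‖ ≤ B := by
    have h5 : ‖g'.1 *ᵥ v‖ * ‖g'.1 *ᵥ v‖ ≤ |l| ^ 2 * ε⁻¹ := by
      calc ‖g'.1 *ᵥ v‖ * ‖g'.1 *ᵥ v‖ ≤ ‖g'.1 *ᵥ v‖ * (|l| ^ 2 * ‖g'.1 *ᵥ w‖) :=
            mul_le_mul_of_nonneg_left hac ha0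
        _ = |l| ^ 2 * (‖g'.1 *ᵥ v‖ * ‖g'.1 *ᵥ w‖) := by ring
        _ ≤ |l| ^ 2 * ε⁻¹ := mul_le_mul_of_nonneg_left hac' (by positivity)
    rw [hB]
    nlinarith [sq_nonneg (‖g'.1 *ᵥ v‖ - 1)]
  have hcB := hca.trans haB
  refine ⟨g', ⟨?_, ?_⟩, ?_⟩
  · rw [hg']
    exact Γ.mul_mem hg (Γ.zpow_mem hb _)
  · have hbv : ∀ i, |(g'.1 *ᵥ v) i| ≤ B := fun i => le_trans (norm_le_pi_norm (g'.1 *ᵥ v) i) haB
    have hbw : ∀ i, |(g'.1 *ᵥ w) i| ≤ B := fun i => le_trans (norm_le_pi_norm (g'.1 *ᵥ w) i) hcB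
    have hm : ∀ (x y : ℝ), |y| ≤ B → |x * y| ≤ |x| * B := by
      intro x y hy
      rw [abs_mul]
      exact mul_le_mul_of_nonneg_left hy (abs_nonneg x)
    intro i j
    have n1 : 0 ≤ |w 1| * B := by positivity
    have n2 : 0 ≤ |v 1| * B := by positivity
    have n3 : 0 ≤ |v 0| * B := by positivity
    have n4 : 0 ≤ |w 0| * B := by positivity
    fin_cases j
    · show |g'.1 i 0| ≤ _
      rw [j4_ent0 hvw]
      have h6 := abs_sub (w 1 * (g'.1 *ᵥ v) i) (v 1 * (g'.1 *ᵥ w) i)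
      have h7 := hm (w 1) _ (hbv i)
      have h8 := hm (v 1) _ (hbw i)
      nlinarith
    · show |g'.1 i 1| ≤ _
      rw [j4_ent1 hvw]
      have h6 := abs_sub (v 0 * (g'.1 *ᵥ w) i) (w 0 * (g'.1 *ᵥ v) i)
      have h7 := hm (v 0) _ (hbw i)
      have h8 := hm (w 0) _ (hbv i)
      nlinarith
  · show g' * b * g'⁻¹ = g * b * g⁻¹
    rw [hg']
    group

end H21D
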