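import Pool.Agent.Lib.H21D.J3
import Pool.Agent.Lib.H21D.J5
import Pool.Agent.Lib.H21D.J6

/-! # J7: the system of a surface group -/
namespace H21D
open Matrix

theorem j7_hyp {Γ : Subgroup SL2} (hΓ : IsSurf Γ) {g : Γ} (hg : g ≠ 1) : 2 < |g.1.1.trace| :=
  hΓ.hyp g.1 g.2 fun h => hg (Subtype.ext h)

noncomputable def sysOf {Γ : Subgroup SL2} (hΓ : IsSurf Γ) : Sys Γ (OnePoint ℝ) where
  cyc_smul g := cyc_smul_SL g.1
  dense := dense_OnePoint
  att g := attr g.1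
  att_conj h g hg := by
    exact attr_conj h.1 (j7_hyp hΓ hg)
  att_ne {g} hg := by
    exact attr_ne (j7_hyp hΓ hg)
  dyn {g} hg := by
    intro ξ a b hξ h
    exact dyn_SL (j7_hyp hΓ hg) hξ h
  root {g} hg := by
    obtain ⟨r, hr, hr1, h1, h2, h3⟩ := root_SL hΓ g.2 (fun e => hg (Subtype.ext e))
    refine ⟨⟨r, hr⟩, fun e => hr1 (congrArg Subtype.val e), h1, h2, fun h hh => ?_⟩
    obtain ⟨k, hk⟩ := h3 h.1 h.2 hh
    refine ⟨k, Subtype.ext ?_⟩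
    rw [SubgroupClass.coe_zpow]
    exact hk
  lf {b} hb {p q r s} h := by
    have h1 := lf_SL hΓ b.2 (fun e => hb (Subtype.ext e)) h
    refine (h1.preimage (f := fun δ : Γ => (δ : SL2)) (Subtype.val_injective.injOn)).subset ?_
    rintro δ ⟨⟨k, hk⟩, h2, h3⟩
    exact ⟨⟨k.1, k.2, by rw [hk]; rfl⟩, h2, h3⟩

end H21D
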