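import Pool.Agent.Lib.H21D.J2

/-! # J8: the trace is strictly convex under twists -/
namespace H21D
open Matrix

/-- Positivity of the trace of a product of rank one matrices.  In the basis of eigenvectors of `c`:
`c = diag(μ, μ⁻¹)`, `μ > 1`, the end points of the `k`-th line are `(a k, 1)` and `(b k, -1)` with
`0 < a 0 < a 1 < ... < a (n-1) < μ^2 a 0` and the same for `b`; `R k` is the projection onto one of these
two lines along the other one (`s k = true`: onto `(a k, 1)`). -/
noncomputable def proj (a b : ℝ) (s : Bool) : Matrix (Fin 2) (Fin 2) ℝ :=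
  if s then (a + b)⁻¹ • !![a, a * b; 1, b] else (a + b)⁻¹ • !![b, -(a * b); -1, a]

def prM (R : ℕ → Matrix (Fin 2) (Fin 2) ℝ) : ℕ → Matrix (Fin 2) (Fin 2) ℝ
  | 0 => 1
  | n + 1 => prM R n * R n

theorem trace_proj_pos {μ : ℝ} (hμ : 1 < μ) (n : ℕ) (hn : 0 < n) (a b : ℕ → ℝ) (s : ℕ → Bool)
    (ha : ∀ k < n, 0 < a k) (hb : ∀ k < n, 0 < b k)
    (ha' : ∀ k, k + 1 < n → a k < a (k + 1)) (hb' : ∀ k, k + 1 < n → b k < b (k + 1))
    (hal : a (n - 1) < μ ^ 2 * a 0) (hbl : b (n - 1) < μ ^ 2 * b 0) :
    0 < (prM (fun k => proj (a k) (b k) (s k)) n * !![μ, 0; 0, μ⁻¹]).trace := by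
  let v1 : ℕ → ℝ := fun k => if s k then a k else b k
  let v2 : ℕ → ℝ := fun k => if s k then 1 else -1
  let f1 : ℕ → ℝ := fun k => (a k + b k)⁻¹
  let f2 : ℕ → ℝ := fun k => if s k then (a k + b k)⁻¹ * b k else -((a k + b k)⁻¹ * a k)
  have hproj : ∀ k, proj (a k) (b k) (s k) = !![v1 k * f1 k, v1 k * f2 k; v2 k * f1 k, v2 k * f2 k] := by
    intro k
    unfold proj
    by_cases h : s k = true
    · simp only [v1, v2, f1, f2, h, if_true]
      ext i j
      fin_cases i <;> fin_cases j <;> simp <;> ring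
    · simp only [v1, v2, f1, f2, h, if_false]
      ext i j
      fin_cases i <;> fin_cases j <;> simp <;> ring
  have hstep : ∀ k, k + 1 < n → 0 < f1 k * v1 (k + 1) + f2 k * v2 (k + 1) := by
    intro k hk
    have h1 := ha k (by omega)
    have h2 := hb k (by omega)
    have h3 := ha (k + 1) hk
    have h4 := hb (k + 1) hk
    have h5 := ha' k hk
    have h6 := hb' k hk
    have h7 : 0 < (a k + b k)⁻¹ := by positivity
    simp only [v1, v2, f1, f2]
    by_cases hs : s k = true <;> by_cases hs' : s (k + 1) = true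
    · rw [if_pos hs, if_pos hs', if_pos hs']
      positivity
    · rw [if_pos hs, if_neg hs', if_neg hs']
      have : (a k + b k)⁻¹ * b (k + 1) + (a k + b k)⁻¹ * b k * -1 = (a k + b k)⁻¹ * (b (k + 1) - b k) := by ring
      rw [this]
      exact mul_pos h7 (by linarith)
    · rw [if_neg hs, if_pos hs', if_pos hs']
      have : (a k + b k)⁻¹ * a (k + 1) + -((a k + b k)⁻¹ * a k) * 1 = (a k + b k)⁻¹ * (a (k + 1) - a k) := by ring
      rw [this]
      exact mul_pos h7 (by linarith)
    · rw [if_neg hs, if_neg hs', if_neg hs']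
      have : (a k + b k)⁻¹ * b (k + 1) + -((a k + b k)⁻¹ * a k) * -1 = (a k + b k)⁻¹ * (b (k + 1) + a k) := by ring
      rw [this]
      positivity
  have hprod : ∀ m, m + 1 ≤ n → ∃ t : ℝ, 0 < t ∧ prM (fun k => proj (a k) (b k) (s k)) (m + 1) =
      !![t * v1 0 * f1 m, t * v1 0 * f2 m; t * v2 0 * f1 m, t * v2 0 * f2 m] := by
    intro m
    induction m with
    | zero =>
      intro _
      refine ⟨1, one_pos, ?_⟩
      show prM _ 0 * proj (a 0) (b 0) (s 0) = _
      rw [hproj]
      show (1 : Matrix (Fin 2) (Fin 2) ℝ) * _ = _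
      rw [one_mul, one_mul, one_mul]
    | succ m ih =>
      intro hm
      obtain ⟨t, ht, e⟩ := ih (by omega)
      refine ⟨t * (f1 m * v1 (m + 1) + f2 m * v2 (m + 1)), mul_pos ht (hstep m (by omega)), ?_⟩
      show prM (fun k => proj (a k) (b k) (s k)) (m + 1) * proj (a (m + 1)) (b (m + 1)) (s (m + 1)) = _
      rw [e, hproj, Matrix.mul_fin_two]
      ext i j
      fin_cases i <;> fin_cases j <;> simp <;> ring
  obtain ⟨m, rfl⟩ : ∃ m, n = m + 1 := ⟨n - 1, by omega⟩
  obtain ⟨t, ht, e⟩ := hprod m le_rfl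
  rw [e, Matrix.mul_fin_two, Matrix.trace_fin_two]
  simp only [Matrix.of_apply, Matrix.cons_val_zero, Matrix.cons_val_one, Matrix.cons_val', Matrix.cons_val_fin_one]
  rw [Nat.add_sub_cancel] at hal hbl
  have hμ0 : 0 < μ := by linarith
  have hμi : 0 < μ⁻¹ := inv_pos.2 hμ0
  have h1 := ha m (by omega)
  have h2 := hb m (by omega)
  have h3 := ha 0 (by omega)
  have h4 := hb 0 (by omega)
  have h7 : 0 < (a m + b m)⁻¹ := by positivity
  have key : 0 < f1 m * (μ ^ 2 * v1 0) + f2 m * v2 0 := by
    simp only [v1, v2, f1, f2]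
    by_cases hs : s m = true <;> by_cases hs' : s 0 = true
    · rw [if_pos hs, if_pos hs', if_pos hs']
      positivity
    · rw [if_pos hs, if_neg hs', if_neg hs']
      have : (a m + b m)⁻¹ * (μ ^ 2 * b 0) + (a m + b m)⁻¹ * b m * -1 = (a m + b m)⁻¹ * (μ ^ 2 * b 0 - b m) := by ring
      rw [this]
      exact mul_pos h7 (by linarith)
    · rw [if_neg hs, if_pos hs', if_pos hs']
      have : (a m + b m)⁻¹ * (μ ^ 2 * a 0) + -((a m + b m)⁻¹ * a m) * 1 = (a m + b m)⁻¹ * (μ ^ 2 * a 0 - a m) := by ring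
      rw [this]
      exact mul_pos h7 (by linarith)
    · rw [if_neg hs, if_neg hs', if_neg hs']
      have : (a m + b m)⁻¹ * (μ ^ 2 * b 0) + -((a m + b m)⁻¹ * a m) * -1 = (a m + b m)⁻¹ * (μ ^ 2 * b 0 + a m) := by ring
      rw [this]
      positivity
  have e2 : t * v1 0 * f1 m * μ + t * v1 0 * f2 m * 0 + (t * v2 0 * f1 m * 0 + t * v2 0 * f2 m * μ⁻¹) =
      t * μ⁻¹ * (f1 m * (μ ^ 2 * v1 0) + f2 m * v2 0) := by
    field_simp
    ring
  rw [e2]
  exact mul_pos (mul_pos ht hμi) key

theorem j8_congr {n : ℕ} {R R' : ℕ → Matrix (Fin 2) (Fin 2) ℝ} (h : ∀ k < n, R k = R' k) :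
    prM R n = prM R' n := by
  induction n with
  | zero => rfl
  | succ n ih =>
    show prM R n * R n = prM R' n * R' n
    rw [ih fun k hk => h k (by omega), h n (by omega)]

theorem j8_one (n : ℕ) : prM (fun _ => 1) n = 1 := by
  induction n with
  | zero => rfl
  | succ n ih =>
    show prM (fun _ => 1) n * 1 = 1
    rw [ih, one_mul]

theorem j8_amgm {x : ℝ} (hx : 0 < x) : 2 ≤ x + x⁻¹ := by
  have h1 : x + x⁻¹ - 2 = (x - 1) ^ 2 * x⁻¹ := by
    field_simp
    ring
  have h2 : 0 ≤ (x - 1) ^ 2 * x⁻¹ := by positivity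
  linarith

theorem j8_amgm' {x : ℝ} (hx : 0 < x) (h : 1 < x) : 2 < x + x⁻¹ := by
  have h1 : x + x⁻¹ - 2 = (x - 1) ^ 2 * x⁻¹ := by
    field_simp
    ring
  have h3 : 0 < x - 1 := by linarith
  have h2 : 0 < (x - 1) ^ 2 * x⁻¹ := by positivity
  linarith

theorem j8_expand (x y a b : ℕ → ℝ) (n : ℕ) :
    prM (fun k => x k • proj (a k) (b k) true + y k • proj (a k) (b k) false) n =
      ∑ A ∈ (Finset.range n).powerset, (∏ k ∈ Finset.range n, if k ∈ A then x k else y k) •
        prM (fun k => proj (a k) (b k) (decide (k ∈ A))) n := by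
  classical
  induction n with
  | zero =>
    rw [Finset.range_zero, Finset.powerset_empty, Finset.sum_singleton, Finset.prod_empty, one_smul]
    rfl
  | succ n ih =>
    show prM (fun k => x k • proj (a k) (b k) true + y k • proj (a k) (b k) false) n *
      (x n • proj (a n) (b n) true + y n • proj (a n) (b n) false) = _
    rw [ih, Finset.range_add_one, Finset.sum_powerset_insert Finset.notMem_range_self, Finset.sum_mul,
      ← Finset.sum_add_distrib]
    refine Finset.sum_congr rfl fun A hA => ?_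
    have hnA : n ∉ A := fun h => Finset.notMem_range_self (Finset.mem_powerset.1 hA h)
    have e1 : prM (fun k => proj (a k) (b k) (decide (k ∈ A))) (n + 1) =
        prM (fun k => proj (a k) (b k) (decide (k ∈ A))) n * proj (a n) (b n) false := by
      show _ * proj (a n) (b n) (decide (n ∈ A)) = _
      rw [decide_eq_false hnA]
    have e2 : prM (fun k => proj (a k) (b k) (decide (k ∈ insert n A))) (n + 1) =
        prM (fun k => proj (a k) (b k) (decide (k ∈ A))) n * proj (a n) (b n) true := by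
      show prM (fun k => proj (a k) (b k) (decide (k ∈ insert n A))) n *
        proj (a n) (b n) (decide (n ∈ insert n A)) = _
      rw [decide_eq_true (Finset.mem_insert_self n A)]
      congr 1
      apply j8_congr
      intro k hk
      have : k ∈ insert n A ↔ k ∈ A := by
        rw [Finset.mem_insert]
        constructor
        · rintro (h | h)
          · omega
          · exact h
        · exact Or.inr
      simp only [this]
    rw [e1, e2, Finset.prod_insert Finset.notMem_range_self, Finset.prod_insert Finset.notMem_range_self,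
      if_neg hnA, if_pos (Finset.mem_insert_self n A)]
    have e3 : (∏ k ∈ Finset.range n, if k ∈ insert n A then x k else y k) =
        ∏ k ∈ Finset.range n, if k ∈ A then x k else y k := by
      refine Finset.prod_congr rfl fun k hk => ?_
      have hk' := Finset.mem_range.1 hk
      have : k ∈ insert n A ↔ k ∈ A := by
        rw [Finset.mem_insert]
        constructor
        · rintro (h | h)
          · omega
          · exact h
        · exact Or.inr
      simp only [this]
    rw [e3, mul_add, Matrix.smul_mul, Matrix.mul_smul, Matrix.smul_mul, Matrix.mul_smul, smul_smul, smul_smul,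
      add_comm, mul_comm (y n), mul_comm (x n)]

/-- `u = λ P + λ⁻¹ Q` with `P = proj a b true`, `Q = proj a b false`. Expand the product. -/
theorem trace_convex_coord {μ : ℝ} (hμ : 1 < μ) (n : ℕ) (a b l : ℕ → ℝ) (e : ℕ → ℤ)
    (ha : ∀ k < n, 0 < a k) (hb : ∀ k < n, 0 < b k) (hl : ∀ k < n, 1 < l k)
    (ha' : ∀ k, k + 1 < n → a k < a (k + 1)) (hb' : ∀ k, k + 1 < n → b k < b (k + 1))
    (hal : 0 < n → a (n - 1) < μ ^ 2 * a 0) (hbl : 0 < n → b (n - 1) < μ ^ 2 * b 0)
    (he : ∃ k < n, e k ≠ 0) :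
    0 < (prM (fun k => l k ^ e k • proj (a k) (b k) true + l k ^ (-e k) • proj (a k) (b k) false) n *
        !![μ, 0; 0, μ⁻¹]).trace ∧
    2 * (μ + μ⁻¹) <
      (prM (fun k => l k ^ e k • proj (a k) (b k) true + l k ^ (-e k) • proj (a k) (b k) false) n *
        !![μ, 0; 0, μ⁻¹]).trace +
      (prM (fun k => l k ^ (-e k) • proj (a k) (b k) true + l k ^ e k • proj (a k) (b k) false) n *
        !![μ, 0; 0, μ⁻¹]).trace := by
  classical
  obtain ⟨k0, hk0, he0⟩ := he
  have hn : 0 < n := by omega
  let t : Finset ℕ → ℝ := fun A => (prM (fun k => proj (a k) (b k) (decide (k ∈ A))) n * !![μ, 0; 0, μ⁻¹]).trace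
  have ht : ∀ A, 0 < t A := fun A => trace_proj_pos hμ n hn a b _ ha hb ha' hb' (hal hn) (hbl hn)
  have hexp : ∀ x y : ℕ → ℝ, (prM (fun k => x k • proj (a k) (b k) true + y k • proj (a k) (b k) false) n *
      !![μ, 0; 0, μ⁻¹]).trace =
      ∑ A ∈ (Finset.range n).powerset, (∏ k ∈ Finset.range n, if k ∈ A then x k else y k) * t A := by
    intro x y
    rw [j8_expand, Finset.sum_mul, Matrix.trace_sum]
    refine Finset.sum_congr rfl fun A _ => ?_
    rw [Matrix.smul_mul, Matrix.trace_smul, smul_eq_mul]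
  let w : Finset ℕ → ℝ := fun A => ∏ k ∈ Finset.range n, if k ∈ A then l k ^ e k else l k ^ (-e k)
  have hl0 : ∀ k ∈ Finset.range n, 0 < l k := fun k hk => by
    have := hl k (Finset.mem_range.1 hk)
    linarith
  have hw : ∀ A, 0 < w A := by
    intro A
    refine Finset.prod_pos fun k hk => ?_
    have := hl0 k hk
    split_ifs <;> positivity
  have hw' : ∀ A, (∏ k ∈ Finset.range n, if k ∈ A then l k ^ (-e k) else l k ^ e k) = (w A)⁻¹ := by
    intro A
    rw [← Finset.prod_inv_distrib]
    refine Finset.prod_congr rfl fun k _ => ?_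
    by_cases h : k ∈ A
    · rw [if_pos h, if_pos h, _root_.zpow_neg]
    · rw [if_neg h, if_neg h, _root_.zpow_neg, inv_inv]
  have h0 : μ + μ⁻¹ = ∑ A ∈ (Finset.range n).powerset, t A := by
    have h1 := hexp (fun _ => 1) (fun _ => 1)
    have h2 : ∀ k < n, (1 : ℝ) • proj (a k) (b k) true + (1 : ℝ) • proj (a k) (b k) false = 1 := by
      intro k hk
      have h3 := ha k hk
      have h4 := hb k hk
      have h5 : a k + b k ≠ 0 := by positivity
      unfold proj
      ext i j
      fin_cases i <;> fin_cases j <;> simp <;> field_simp <;> ring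
    rw [j8_congr h2, j8_one, one_mul, Matrix.trace_fin_two] at h1
    simp only [ite_self, Finset.prod_const_one, one_mul] at h1
    rw [← h1]
    simp
  rw [hexp (fun k => l k ^ e k) (fun k => l k ^ (-e k)), hexp (fun k => l k ^ (-e k)) (fun k => l k ^ e k)]
  constructor
  · refine Finset.sum_pos (fun A _ => mul_pos (hw A) (ht A)) ⟨∅, Finset.empty_mem_powerset _⟩
  · rw [h0, Finset.mul_sum, ← Finset.sum_add_distrib]
    refine Finset.sum_lt_sum (fun A _ => ?_) ⟨(Finset.range n).filter (fun k => 0 ≤ e k), ?_, ?_⟩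
    · rw [hw' A]
      have h1 : (∏ k ∈ Finset.range n, if k ∈ A then l k ^ e k else l k ^ (-e k)) = w A := rfl
      rw [h1, ← add_mul]
      exact mul_le_mul_of_nonneg_right (j8_amgm (hw A)) (ht A).le
    · exact Finset.mem_powerset.2 (Finset.filter_subset _ _)
    · rw [hw']
      set A0 := (Finset.range n).filter (fun k => 0 ≤ e k) with hA0
      have h1 : (∏ k ∈ Finset.range n, if k ∈ A0 then l k ^ e k else l k ^ (-e k)) = w A0 := rfl
      rw [h1, ← add_mul]
      refine mul_lt_mul_of_pos_right (j8_amgm' (hw A0) ?_) (ht A0)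
      have hge : ∀ k ∈ Finset.range n, 1 ≤ (if k ∈ A0 then l k ^ e k else l k ^ (-e k)) := by
        intro k hk
        have h2 := hl k (Finset.mem_range.1 hk)
        by_cases h3 : 0 ≤ e k
        · rw [if_pos (Finset.mem_filter.2 ⟨hk, h3⟩)]
          exact one_le_zpow₀ h2.le h3
        · have h6 : k ∉ A0 := fun h => h3 (Finset.mem_filter.1 h).2
          rw [if_neg h6]
          exact one_le_zpow₀ h2.le (by omega)
      have hk0' := Finset.mem_range.2 hk0
      have hgt : 1 < (if k0 ∈ A0 then l k0 ^ e k0 else l k0 ^ (-e k0)) := by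
        have h2 := hl k0 hk0
        by_cases h3 : 0 ≤ e k0
        · rw [if_pos (Finset.mem_filter.2 ⟨hk0', h3⟩)]
          exact one_lt_zpow₀ h2 (by omega)
        · have h6 : k0 ∉ A0 := fun h => h3 (Finset.mem_filter.1 h).2
          rw [if_neg h6]
          exact one_lt_zpow₀ h2 (by omega)
      have h4 : w A0 = (if k0 ∈ A0 then l k0 ^ e k0 else l k0 ^ (-e k0)) *
          ∏ k ∈ (Finset.range n).erase k0, (if k ∈ A0 then l k ^ e k else l k ^ (-e k)) :=
        (Finset.mul_prod_erase _ _ hk0').symm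
      have h5 : 1 ≤ ∏ k ∈ (Finset.range n).erase k0, (if k ∈ A0 then l k ^ e k else l k ^ (-e k)) :=
        Finset.prod_induction _ (fun x : ℝ => 1 ≤ x)
          (fun a b ha hb => one_le_mul_of_one_le_of_one_le ha hb) le_rfl
          (fun k hk => hge k (Finset.mem_of_mem_erase hk))
      rw [h4]
      exact one_lt_mul_of_lt_of_le hgt h5

end H21D
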