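import Pool.Agent.Lib.H21D.J7
import Pool.Agent.Lib.H21D.J8
import Pool.Agent.Lib.H21D.H1

/-! # J9: `|trace|` satisfies `TP` -/
namespace H21D
open Matrix

noncomputable def j9_T (v w : Fin 2 → ℝ) : Matrix (Fin 2) (Fin 2) ℝ := !![v 0, w 0; v 1, w 1]

noncomputable def j9_Ti (v w : Fin 2 → ℝ) : Matrix (Fin 2) (Fin 2) ℝ := !![w 1, -w 0; -v 1, v 0]

noncomputable def j9_N (v w : Fin 2 → ℝ) (g : SL2) : Matrix (Fin 2) (Fin 2) ℝ := j9_Ti v w * g.1 * j9_T v w

def j9_z (v w : Fin 2 → ℝ) (s t : ℝ) : Fin 2 → ℝ := s • v + t • w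

noncomputable def j9_s (x : ℝ) : ℝ := if 0 < x then 1 else -1

theorem j9_no {C : Type*} [LinearOrder C] {p q r : C} (h : cyc4 p q r q) : False := by
  (obtain ⟨lab, hlab⟩ := H21D.exists_lab [p, q, r]; simp only [List.forall_mem_cons, List.not_mem_nil, IsEmpty.forall_iff, implies_true, and_true, forall_eq_or_imp, List.mem_cons, forall_eq, or_false] at hlab; simp only [H21D.cyc, H21D.cyc4, H21D.arc, ne_eq, hlab] at *; omega)

theorem j9_s_abs (x : ℝ) : |j9_s x| = 1 := by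
  unfold j9_s
  split_ifs <;> simp

theorem j9_s_inv (x : ℝ) : (j9_s x)⁻¹ = j9_s x := by
  unfold j9_s
  split_ifs <;> norm_num

theorem j9_s_mul_abs (x : ℝ) : j9_s x * |x| = x := by
  unfold j9_s
  split_ifs with h
  · rw [abs_of_pos h, one_mul]
  · rw [abs_of_nonpos (not_lt.1 h)]
    ring

theorem j9_TTi {v w : Fin 2 → ℝ} (e : dt v w = 1) : j9_T v w * j9_Ti v w = 1 := by
  unfold dt at e
  unfold j9_T j9_Ti
  rw [Matrix.mul_fin_two, Matrix.one_fin_two]
  ext i j
  fin_cases i <;> fin_cases j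
  · show v 0 * w 1 + w 0 * -v 1 = 1
    linear_combination e
  · show v 0 * -w 0 + w 0 * v 0 = 0
    ring
  · show v 1 * w 1 + w 1 * -v 1 = 0
    ring
  · show v 1 * -w 0 + w 1 * v 0 = 1
    linear_combination e

theorem j9_TiT {v w : Fin 2 → ℝ} (e : dt v w = 1) : j9_Ti v w * j9_T v w = 1 := by
  unfold dt at e
  unfold j9_T j9_Ti
  rw [Matrix.mul_fin_two, Matrix.one_fin_two]
  ext i j
  fin_cases i <;> fin_cases j
  · show w 1 * v 0 + -w 0 * v 1 = 1
    linear_combination e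
  · show w 1 * w 0 + -w 0 * w 1 = 0
    ring
  · show -v 1 * v 0 + v 0 * v 1 = 0
    ring
  · show -v 1 * w 0 + v 0 * w 1 = 1
    linear_combination e

theorem j9_N_mul {v w : Fin 2 → ℝ} (e : dt v w = 1) (g h : SL2) :
    j9_N v w (g * h) = j9_N v w g * j9_N v w h := by
  unfold j9_N
  have h1 : (g * h).1 = g.1 * h.1 := rfl
  calc j9_Ti v w * (g * h).1 * j9_T v w = j9_Ti v w * g.1 * 1 * h.1 * j9_T v w := by
        rw [h1, Matrix.mul_one, Matrix.mul_assoc (j9_Ti v w) g.1 h.1]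
    _ = _ := by
        rw [← j9_TTi e]
        simp only [Matrix.mul_assoc]

theorem j9_N_one {v w : Fin 2 → ℝ} (e : dt v w = 1) : j9_N v w 1 = 1 := by
  unfold j9_N
  have h1 : (1 : SL2).1 = 1 := rfl
  rw [h1, Matrix.mul_one, j9_TiT e]

theorem j9_N_trace {v w : Fin 2 → ℝ} (e : dt v w = 1) (g : SL2) : (j9_N v w g).trace = g.1.trace := by
  unfold j9_N
  rw [Matrix.trace_mul_cycle, j9_TTi e, Matrix.one_mul]

theorem j9_N_entries {v w : Fin 2 → ℝ} (_e : dt v w = 1) (g : SL2) :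
    j9_N v w g = !![dt (g.1 *ᵥ v) w, dt (g.1 *ᵥ w) w; dt v (g.1 *ᵥ v), dt v (g.1 *ᵥ w)] := by
  have e0 : ∀ v : Fin 2 → ℝ, (g.1 *ᵥ v) 0 = g.1 0 0 * v 0 + g.1 0 1 * v 1 := by
    intro v
    simp [Matrix.mulVec, dotProduct, Fin.sum_univ_two]
  have e1 : ∀ v : Fin 2 → ℝ, (g.1 *ᵥ v) 1 = g.1 1 0 * v 0 + g.1 1 1 * v 1 := by
    intro v
    simp [Matrix.mulVec, dotProduct, Fin.sum_univ_two]
  unfold dt
  rw [e0, e0, e1, e1]
  unfold j9_N j9_Ti j9_T
  have hg : g.1 = !![g.1 0 0, g.1 0 1; g.1 1 0, g.1 1 1] := Matrix.eta_fin_two g.1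
  generalize g.1 0 0 = x at *
  generalize g.1 0 1 = y at *
  generalize g.1 1 0 = z at *
  generalize g.1 1 1 = t at *
  rw [hg, Matrix.mul_fin_two, Matrix.mul_fin_two]
  ext i j
  fin_cases i <;> fin_cases j <;> simp <;> ring

theorem j9_d1 {v w : Fin 2 → ℝ} (e : dt v w = 1) (s t : ℝ) : dt v (j9_z v w s t) = t := by
  unfold dt j9_z at *
  simp only [Pi.add_apply, Pi.smul_apply, smul_eq_mul]
  linear_combination t * e

theorem j9_d2 {v w : Fin 2 → ℝ} (e : dt v w = 1) (s t : ℝ) : dt (j9_z v w s t) w = s := by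
  unfold dt j9_z at *
  simp only [Pi.add_apply, Pi.smul_apply, smul_eq_mul]
  linear_combination s * e

theorem j9_d3 {v w : Fin 2 → ℝ} (e : dt v w = 1) (s t s' t' : ℝ) :
    dt (j9_z v w s t) (j9_z v w s' t') = s * t' - t * s' := by
  unfold dt j9_z at *
  simp only [Pi.add_apply, Pi.smul_apply, smul_eq_mul]
  linear_combination (s * t' - t * s') * e

theorem j9_anti (v w : Fin 2 → ℝ) : dt w v = -dt v w := by
  unfold dt
  ring

theorem j9_z_ne {v w : Fin 2 → ℝ} (e : dt v w = 1) {s t : ℝ} (ht : t ≠ 0) : j9_z v w s t ≠ 0 := by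
  intro h
  apply ht
  rw [← j9_d1 e s t, h]
  simp [dt]

theorem j9_cyc_v {v w : Fin 2 → ℝ} (e : dt v w = 1) {b b' : ℝ} :
    cyc (pt v) (pt (j9_z v w b' (-1))) (pt (j9_z v w b (-1))) ↔ b < b' := by
  rw [cyc_pt_iff (j2_ne1 e) (j9_z_ne e (by norm_num)) (j9_z_ne e (by norm_num)), j9_d1 e, j9_d3 e,
    j9_anti v (j9_z v w b (-1)), j9_d1 e]
  constructor <;> intro h <;> linarith

theorem j9_cyc_w {v w : Fin 2 → ℝ} (e : dt v w = 1) {a a' : ℝ} (ha : 0 < a) (ha' : 0 < a') :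
    cyc (pt w) (pt (j9_z v w a 1)) (pt (j9_z v w a' 1)) ↔ a < a' := by
  rw [cyc_pt_iff (j2_ne2 e) (j9_z_ne e (by norm_num)) (j9_z_ne e (by norm_num)), j9_d2 e, j9_d3 e,
    j9_anti (j9_z v w a 1) w, j9_d2 e]
  have h1 : -a * (a * 1 - 1 * a') * a' = a * a' * (a' - a) := by ring
  rw [h1, mul_pos_iff_of_pos_left (mul_pos ha ha'), sub_pos]

theorem j9_smul_z {c : SL2} {l : ℝ} {v w : Fin 2 → ℝ} (hl : l ≠ 0) (e1 : c.1 *ᵥ v = l • v)
    (e2 : c.1 *ᵥ w = l⁻¹ • w) (_e3 : dt v w = 1) {s t : ℝ} (hz : j9_z v w s t ≠ 0) :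
    c • pt (j9_z v w s t) = pt (j9_z v w (l ^ 2 * s) t) := by
  rw [smul_pt c hz]
  have h1 : c.1 *ᵥ (j9_z v w s t) = l⁻¹ • j9_z v w (l ^ 2 * s) t := by
    unfold j9_z
    rw [Matrix.mulVec_add, Matrix.mulVec_smul, Matrix.mulVec_smul, e1, e2, smul_add, smul_smul, smul_smul,
      smul_smul, smul_smul]
    congr 2
    · field_simp
    · ring
  rw [h1, pt_smul' (inv_ne_zero hl)]

theorem j9_trace_inv (g : SL2) : (g⁻¹).1.trace = g.1.trace := by
  have h := Matrix.SpecialLinearGroup.SL2_inv_expl g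
  rw [h]
  rw [Matrix.trace_fin_two, Matrix.trace_fin_two]
  simp [add_comm]

theorem j9_proj {x y x' y' : ℝ} (hy : y ≠ 0) (hy' : y' ≠ 0) (h : x * y' - y * x' = 1) :
    proj (x' / y') (-x / y) false = !![x * y', -(x * x'); y * y', -(y * x')] ∧
    proj (x' / y') (-x / y) true = !![-(y * x'), x * x'; -(y * y'), x * y'] := by
  have h1 : (x' / y' + -x / y)⁻¹ = -(y * y') := by
    have h2 : x' / y' + -x / y = -(y * y')⁻¹ := by
      field_simp
      linear_combination -h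
    rw [h2, inv_neg, inv_inv]
  constructor
  · unfold proj
    rw [h1]
    ext i j
    fin_cases i <;> fin_cases j <;> simp <;> field_simp
  · unfold proj
    rw [h1]
    ext i j
    fin_cases i <;> fin_cases j <;> simp <;> field_simp

theorem j9_coord {v w : Fin 2 → ℝ} (e : dt v w = 1) {u : SL2} (hu : 2 < |u.1.trace|)
    (h : cyc4 (pt v) (attr u) (pt w) (attr u⁻¹)) : ∃ L a b : ℝ, 1 < |L| ∧ 0 < a ∧ 0 < b ∧
      attr u = pt (j9_z v w b (-1)) ∧ attr u⁻¹ = pt (j9_z v w a 1) ∧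
      ∀ j : ℤ, j9_N v w (u ^ j) = L ^ j • proj a b false + L ^ (-j) • proj a b true := by
  obtain ⟨L, p, q, hL, e1, e2, e3⟩ := exists_eig hu
  have hv : v ≠ 0 := j2_ne1 e
  have hw : w ≠ 0 := j2_ne2 e
  have hp : p ≠ 0 := j2_ne1 e3
  have hq : q ≠ 0 := j2_ne2 e3
  have hL0 : L ≠ 0 := by
    rintro rfl
    rw [abs_zero] at hL
    linarith
  rw [attr_eq hp hL e1, attr_inv_eq hq hL e2] at h ⊢
  obtain ⟨h1, h2⟩ := h
  rw [cyc_pt_iff hv hp hw, j9_anti v w, e] at h1
  rw [cyc_pt_iff hv hw hq, e, j9_anti q w, j9_anti v q] at h2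
  have dp := j4_dec e p
  have dq := j4_dec e q
  set x := dt p w with hx
  set y := dt v p with hy
  set x' := dt q w with hx'
  set y' := dt v q with hy'
  have hxy : x * y < 0 := by nlinarith
  have hxy' : 0 < x' * y' := by nlinarith
  have hy0 : y ≠ 0 := by
    intro h0
    rw [h0, mul_zero] at hxy
    exact lt_irrefl _ hxy
  have hy0' : y' ≠ 0 := by
    intro h0
    rw [h0, mul_zero] at hxy'
    exact lt_irrefl _ hxy'
  have hdet : x * y' - y * x' = 1 := by
    have h3 := j9_d3 e x y x' y'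
    have h4 : j9_z v w x y = p := dp.symm
    have h5 : j9_z v w x' y' = q := dq.symm
    rw [h4, h5, e3] at h3
    exact h3.symm
  obtain ⟨P1, P2⟩ := j9_proj hy0 hy0' hdet
  refine ⟨L, x' / y', -x / y, hL, ?_, ?_, ?_, ?_, ?_⟩
  · have : x' / y' = x' * y' / (y' * y') := by field_simp
    rw [this]
    exact div_pos hxy' (mul_self_pos.2 hy0')
  · have : -x / y = -(x * y) / (y * y) := by field_simp
    rw [this]
    have h3 : 0 < -(x * y) := by linarith
    exact div_pos h3 (mul_self_pos.2 hy0)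
  · have h3 : p = (-y) • j9_z v w (-x / y) (-1) := by
      unfold j9_z
      rw [smul_add, smul_smul, smul_smul]
      have h4 : -y * (-x / y) = x := by field_simp
      have h5 : -y * -1 = y := by ring
      rw [h4, h5]
      exact dp
    conv_lhs => rw [h3]
    rw [pt_smul' (neg_ne_zero.2 hy0)]
  · have h3 : q = y' • j9_z v w (x' / y') 1 := by
      unfold j9_z
      rw [smul_add, smul_smul, smul_smul]
      have h4 : y' * (x' / y') = x' := by field_simp
      have h5 : y' * 1 = y' := by ring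
      rw [h4, h5]
      exact dq
    conv_lhs => rw [h3]
    rw [pt_smul' hy0']
  · intro j
    rw [P1, P2, j9_N_entries e]
    have z1 := j6_zpow hL0 e1 j
    have z2 := j6_zpow (inv_ne_zero hL0) e2 j
    have hz : ∀ z : Fin 2 → ℝ, (u ^ j).1 *ᵥ z = (dt z q * L ^ j) • p + (dt p z * L ^ (-j)) • q := by
      intro z
      conv_lhs => rw [j4_dec e3 z]
      rw [Matrix.mulVec_add, Matrix.mulVec_smul, Matrix.mulVec_smul, z1, z2, smul_smul, smul_smul, _root_.inv_zpow,
        _root_.zpow_neg]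
    have f1 : ∀ (s t : ℝ), dt (s • p + t • q) w = s * x + t * x' := by
      intro s t
      rw [hx, hx']
      unfold dt
      simp only [Pi.add_apply, Pi.smul_apply, smul_eq_mul]
      ring
    have f2 : ∀ (s t : ℝ), dt v (s • p + t • q) = s * y + t * y' := by
      intro s t
      rw [hy, hy']
      unfold dt
      simp only [Pi.add_apply, Pi.smul_apply, smul_eq_mul]
      ring
    have g1 : dt w q = -x' := j9_anti q w
    have g2 : dt p v = -y := j9_anti v p
    rw [hz, hz, f1, f1, f2, f2, g1, g2, ← hx, ← hy']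
    ext i k
    fin_cases i <;> fin_cases k <;> simp <;> ring

/-- change of basis to the eigenvectors of `c`, signs of `c` and of the `u k` chosen such that the
eigenvalues are positive. -/
theorem trace_convex {c : SL2} (hc : 2 < |c.1.trace|) (n : ℕ) (u : ℕ → SL2) (e : ℕ → ℤ)
    (hu : ∀ k < n, 2 < |(u k).1.trace|)
    (h1 : ∀ k < n, cyc4 (attr c) (attr (u k)) (attr c⁻¹) (attr (u k)⁻¹))
    (h2 : ∀ k, k + 1 < n → cyc4 (attr c) (attr (u (k + 1))) (attr (u k)) (attr c⁻¹) ∧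
      cyc4 (attr c⁻¹) (attr (u k)⁻¹) (attr (u (k + 1))⁻¹) (attr c))
    (h3 : 0 < n → cyc4 (attr c) (attr (c * u 0 * c⁻¹)) (attr (u (n - 1))) (attr c⁻¹) ∧
      cyc4 (attr c⁻¹) (attr (u (n - 1))⁻¹) (attr (c * u 0 * c⁻¹)⁻¹) (attr c))
    (he : ∃ k < n, e k ≠ 0) :
    2 * |c.1.trace| < |(pr u e n * c).1.trace| + |(pr u (fun k => -e k) n * c).1.trace| := by
  classical
  obtain ⟨l, v, w, hl, e1, e2, e3⟩ := exists_eig hc
  have hv : v ≠ 0 := j2_ne1 e3
  have hw : w ≠ 0 := j2_ne2 e3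
  have hac : attr c = pt v := attr_eq hv hl e1
  have hac' : attr c⁻¹ = pt w := attr_inv_eq hw hl e2
  have hl0 : l ≠ 0 := by
    rintro rfl
    rw [abs_zero] at hl
    linarith
  have hk : ∀ k, ∃ L a b : ℝ, k < n → 1 < |L| ∧ 0 < a ∧ 0 < b ∧ attr (u k) = pt (j9_z v w b (-1)) ∧
      attr (u k)⁻¹ = pt (j9_z v w a 1) ∧
      ∀ j : ℤ, j9_N v w (u k ^ j) = L ^ j • proj a b false + L ^ (-j) • proj a b true := by
    intro k
    by_cases hkn : k < n
    · have h4 := h1 k hkn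
      rw [hac, hac'] at h4
      obtain ⟨L, a, b, H⟩ := j9_coord e3 (hu k hkn) h4
      exact ⟨L, a, b, fun _ => H⟩
    · exact ⟨0, 0, 0, fun h => absurd h hkn⟩
  choose L a b H using hk
  have ha : ∀ k < n, 0 < a k := fun k hk => (H k hk).2.1
  have hb : ∀ k < n, 0 < b k := fun k hk => (H k hk).2.2.1
  have hL : ∀ k < n, 1 < |L k| := fun k hk => (H k hk).1
  have ha' : ∀ k, k + 1 < n → a k < a (k + 1) := by
    intro k hk
    have h4 := (h2 k hk).2.1
    rw [hac', (H k (by omega)).2.2.2.2.1, (H (k + 1) hk).2.2.2.2.1] at h4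
    exact (j9_cyc_w e3 (ha k (by omega)) (ha (k + 1) hk)).1 h4
  have hb' : ∀ k, k + 1 < n → b k < b (k + 1) := by
    intro k hk
    have h4 := (h2 k hk).1.1
    rw [hac, (H k (by omega)).2.2.2.1, (H (k + 1) hk).2.2.2.1] at h4
    exact (j9_cyc_v e3).1 h4
  have hl2 : 0 < l ^ 2 := by positivity
  have hal : 0 < n → a (n - 1) < |l| ^ 2 * a 0 := by
    intro hn
    have h4 := (h3 hn).2.1
    have h5 : attr (c * u 0 * c⁻¹)⁻¹ = pt (j9_z v w (l ^ 2 * a 0) 1) := by
      have h6 : (c * u 0 * c⁻¹)⁻¹ = c * (u 0)⁻¹ * c⁻¹ := by group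
      have h7 : 2 < |((u 0)⁻¹).1.trace| := by
        rw [j9_trace_inv]
        exact hu 0 hn
      rw [h6, attr_conj c h7, (H 0 hn).2.2.2.2.1, j9_smul_z hl0 e1 e2 e3 (j9_z_ne e3 (by norm_num))]
    rw [hac', (H (n - 1) (by omega)).2.2.2.2.1, h5] at h4
    have h8 := (j9_cyc_w e3 (ha (n - 1) (by omega)) (mul_pos hl2 (ha 0 hn))).1 h4
    rwa [sq_abs]
  have hbl : 0 < n → b (n - 1) < |l| ^ 2 * b 0 := by
    intro hn
    have h4 := (h3 hn).1.1
    have h5 : attr (c * u 0 * c⁻¹) = pt (j9_z v w (l ^ 2 * b 0) (-1)) := by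
      rw [attr_conj c (hu 0 hn), (H 0 hn).2.2.2.1, j9_smul_z hl0 e1 e2 e3 (j9_z_ne e3 (by norm_num))]
    rw [hac, (H (n - 1) (by omega)).2.2.2.1, h5] at h4
    have h8 := (j9_cyc_v e3).1 h4
    rwa [sq_abs]
  have hNc : j9_N v w c = j9_s l • !![|l|, 0; 0, |l|⁻¹] := by
    rw [j9_N_entries e3, e1, e2]
    have d1 := j1_dt_smul l 1 v w
    have d2 := j1_dt_smul l⁻¹ 1 w w
    have d3 := j1_dt_smul 1 l v v
    have d4 := j1_dt_smul 1 l⁻¹ v w
    rw [one_smul] at d1 d2 d3 d4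
    rw [d1, d2, d3, d4, j1_dt_self, j1_dt_self, e3]
    have s1 := j9_s_mul_abs l
    have s2 : j9_s l * |l|⁻¹ = l⁻¹ := by
      conv_rhs => rw [← s1, mul_inv, j9_s_inv]
    ext i j
    fin_cases i <;> fin_cases j <;> simp [s1, s2]
  have hkey : ∀ e : ℕ → ℤ, |(pr u e n * c).1.trace| =
      |(prM (fun k => |L k| ^ (-e k) • proj (a k) (b k) true + |L k| ^ (e k) • proj (a k) (b k) false) n *
        !![|l|, 0; 0, |l|⁻¹]).trace| := by
    intro e
    have h4 : j9_N v w (pr u e n) = (∏ k ∈ Finset.range n, j9_s (L k) ^ e k) •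
        prM (fun k => |L k| ^ (-e k) • proj (a k) (b k) true + |L k| ^ (e k) • proj (a k) (b k) false) n := by
      have h5 : ∀ m ≤ n, j9_N v w (pr u e m) = (∏ k ∈ Finset.range m, j9_s (L k) ^ e k) •
          prM (fun k => |L k| ^ (-e k) • proj (a k) (b k) true + |L k| ^ (e k) • proj (a k) (b k) false) m := by
        intro m
        induction m with
        | zero =>
          intro _
          rw [Finset.range_zero, Finset.prod_empty, one_smul]
          show j9_N v w 1 = 1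
          exact j9_N_one e3
        | succ m ih =>
          intro hm
          show j9_N v w (pr u e m * u m ^ e m) = _ • (prM _ m * _)
          rw [j9_N_mul e3, ih (by omega), (H m (by omega)).2.2.2.2.2, Finset.prod_range_succ,
            ← smul_smul, Matrix.smul_mul]
          congr 1
          rw [← Matrix.mul_smul]
          congr 1
          have s1 := j9_s_mul_abs (L m)
          have s3 : j9_s (L m) ^ e m * |L m| ^ e m = L m ^ e m := by rw [← mul_zpow, s1]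
          have s4 : j9_s (L m) ^ e m * |L m| ^ (-e m) = L m ^ (-e m) := by
            rw [_root_.zpow_neg, ← j9_s_inv (L m), _root_.inv_zpow, ← mul_inv, ← mul_zpow, s1, _root_.zpow_neg]
          rw [← s3, ← s4, smul_add, smul_smul, smul_smul, add_comm]
      exact h5 n le_rfl
    rw [← j9_N_trace e3, j9_N_mul e3, h4, hNc, Matrix.smul_mul, Matrix.mul_smul, Matrix.trace_smul,
      Matrix.trace_smul, smul_eq_mul, smul_eq_mul, abs_mul, abs_mul, j9_s_abs, one_mul]
    have h6 : |∏ k ∈ Finset.range n, j9_s (L k) ^ e k| = 1 := by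
      rw [Finset.abs_prod]
      refine Finset.prod_eq_one fun k _ => ?_
      rw [abs_zpow, j9_s_abs, _root_.one_zpow]
    rw [h6, one_mul]
  have hct : |c.1.trace| = |l| + |l|⁻¹ := by
    rw [← j9_N_trace e3, hNc, Matrix.trace_smul, smul_eq_mul, abs_mul, j9_s_abs, one_mul, Matrix.trace_fin_two]
    simp only [Matrix.of_apply, Matrix.cons_val_zero, Matrix.cons_val_one, Matrix.cons_val', Matrix.cons_val_fin_one]
    exact abs_of_nonneg (by positivity)
  have he' : ∃ k < n, (fun k => -e k) k ≠ 0 := by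
    obtain ⟨k, hk, hek⟩ := he
    exact ⟨k, hk, neg_ne_zero.2 hek⟩
  obtain ⟨p1, q1⟩ := trace_convex_coord (μ := |l|) hl n a b (fun k => |L k|) (fun k => -e k) ha hb hL ha' hb' hal hbl he'
  obtain ⟨p2, -⟩ := trace_convex_coord (μ := |l|) hl n a b (fun k => |L k|) e ha hb hL ha' hb' hal hbl he
  rw [hkey e, hkey (fun k => -e k), hct]
  simp only [neg_neg] at p1 q1 ⊢
  rw [abs_of_pos p1, abs_of_pos p2]
  exact q1

theorem TP_trace {Γ : Subgroup SL2} (hΓ : IsSurf Γ) :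
    TP (sysOf hΓ) (fun g : Γ => |g.1.1.trace|) := by
  refine ⟨?_, ?_, ?_⟩
  · intro h g
    show |((h * g * h⁻¹ : Γ) : SL2).1.trace| = |(g : SL2).1.trace|
    have e1 : ((h * g * h⁻¹ : Γ) : SL2).1 = (h : SL2).1 * (g : SL2).1 * ((h : SL2)⁻¹).1 := rfl
    have e2 : ((h : SL2)⁻¹).1 * (h : SL2).1 = 1 := congrArg (fun x : SL2 => x.1) (inv_mul_cancel (h : SL2))
    rw [e1, Matrix.trace_mul_cycle, e2, Matrix.one_mul]
  · intro g
    show |((g⁻¹ : Γ) : SL2).1.trace| = |(g : SL2).1.trace|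
    have e1 : ((g⁻¹ : Γ) : SL2) = (g : SL2)⁻¹ := rfl
    rw [e1, j9_trace_inv]
  · intro c n u e hc h1 h2 h3 he
    have hpr : ∀ (e : ℕ → ℤ) (m : ℕ), ((pr u e m : Γ) : SL2) = pr (fun k => (u k : SL2)) e m := by
      intro e m
      induction m with
      | zero => rfl
      | succ m ih =>
        show ((pr u e m * u m ^ e m : Γ) : SL2) = pr (fun k => (u k : SL2)) e m * (u m : SL2) ^ e m
        rw [Subgroup.coe_mul, ih, SubgroupClass.coe_zpow]
    have hu : ∀ k < n, 2 < |((u k : Γ) : SL2).1.trace| := by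
      intro k hk
      apply j7_hyp hΓ
      intro h0
      have h4 := h1 k hk
      rw [h0] at h4
      unfold Sys.PosX at h4
      rw [inv_one] at h4
      exact j9_no h4
    have := trace_convex (c := (c : SL2)) (j7_hyp hΓ hc) n (fun k => (u k : SL2)) e hu h1 h2 h3 he
    show 2 * |(c : SL2).1.trace| < |((pr u e n * c : Γ) : SL2).1.trace| + |((pr u (fun k => -e k) n * c : Γ) : SL2).1.trace|
    rw [Subgroup.coe_mul, Subgroup.coe_mul, hpr, hpr]
    exact this

end H21D
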