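import Pool.Agent.Lib.H21D.Stmt
import Pool.Agent.Lib.H21D.J7
import Pool.Agent.Lib.H21D.A2

/-! # K1: the notions of the statement agree with those of `sysOf` -/
namespace H21D

/-- primitive = not a proper power -/
theorem Sys.prim_iff {G C : Type*} [Group G] [LinearOrder C] [MulAction G C] (S : Sys G C) {x : G} :
    S.Prim x ↔ x ≠ 1 ∧ ∀ (z : G) (n : ℤ), z ^ n = x → n = 1 ∨ n = -1 := by
  constructor
  · rintro ⟨hx, h⟩
    refine ⟨hx, fun z n hz => ?_⟩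
    have h1 : z * x * z⁻¹ = x := by
      rw [← hz]
      group
    have h2 : z • S.att x = S.att x := by
      rw [← S.att_conj z hx, h1]
    obtain ⟨k, hk⟩ := h z h2
    have h3 : x ^ (k * n - 1) = 1 := by
      rw [zpow_sub_one, zpow_mul, ← hk, hz, mul_inv_cancel]
    have h4 : k * n = 1 := by
      by_contra hne
      exact S.zpow_ne_one hx (sub_ne_zero.2 hne) h3
    rcases Int.mul_eq_one_iff_eq_one_or_neg_one.1 h4 with ⟨_, h5⟩ | ⟨_, h5⟩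
    · exact Or.inl h5
    · exact Or.inr h5
  · rintro ⟨hx, h⟩
    refine ⟨hx, fun y hy => ?_⟩
    obtain ⟨r, hr1, hr2, hr3, hr4⟩ := S.root hx
    obtain ⟨k, hk⟩ := hr4 x (S.smul_att hx)
    obtain ⟨j, hj⟩ := hr4 y hy
    rcases h r k hk.symm with h1 | h1
    · exact ⟨j, by rw [hj, hk, h1, zpow_one]⟩
    · exact ⟨-j, by rw [hj, hk, h1, ← zpow_mul]; congr 1; ring⟩

namespace Stmt
open Matrix

variable {Γ : Subgroup SL2}

theorem SurfaceGroup.isSurf (hΓ : SurfaceGroup Γ) : IsSurf Γ := ⟨hΓ.discrete, hΓ.hyperbolic⟩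

theorem attracting_iff {g : SL2} (hg : 2 < |g.1.trace|) {v : Fin 2 → ℝ} :
    Attracting g v ↔ v ≠ 0 ∧ pt v = attr g := by
  constructor
  · rintro ⟨hv, l, hl, h⟩
    exact ⟨hv, (attr_eq hv hl h).symm⟩
  · rintro ⟨hv, h⟩
    obtain ⟨l, v', w, hl, h1, h2, h3⟩ := exists_eig hg
    have hv' : v' ≠ 0 := by
      rintro rfl
      unfold dt at h3
      simp at h3
    rw [attr_eq hv' hl h1] at h
    refine ⟨hv, l, hl, ?_⟩
    obtain ⟨s, hs, e1⟩ := vec_pt hv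
    obtain ⟨t, ht, e2⟩ := vec_pt hv'
    have e3 : v = (s * t⁻¹) • v' := by
      rw [e2, ← h, smul_smul, mul_assoc, inv_mul_cancel₀ ht, mul_one]
      exact e1
    rw [e3, Matrix.mulVec_smul, h1, smul_comm]

theorem k1_hyp (hΓ : SurfaceGroup Γ) {x : Γ} (hx : x ≠ 1) : 2 < |x.1.1.trace| :=
  hΓ.hyperbolic x.1 x.2 (fun h => hx (Subtype.ext h))

theorem k1_ccw {u v w : Fin 2 → ℝ} {p q r : OnePoint ℝ} (hu : u ≠ 0 ∧ pt u = p) (hv : v ≠ 0 ∧ pt v = q)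
    (hw : w ≠ 0 ∧ pt w = r) : Ccw u v w ↔ cyc p q r := by
  rw [← hu.2, ← hv.2, ← hw.2]
  exact (cyc_pt_iff hu.1 hv.1 hw.1).symm

theorem crosses_iff (hΓ : SurfaceGroup Γ) {x u : Γ} (hx : x ≠ 1) (hu : u ≠ 1) :
    Crosses x.1 u.1 ↔ (sysOf hΓ.isSurf).PosX x u := by
  show _ ↔ cyc4 (attr x.1) (attr u.1) (attr (x⁻¹ : Γ).1) (attr (u⁻¹ : Γ).1)
  have h1 := k1_hyp hΓ hx
  have h2 := k1_hyp hΓ hu
  have h3 := k1_hyp hΓ (inv_ne_one.2 hx)
  have h4 := k1_hyp hΓ (inv_ne_one.2 hu)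
  constructor
  · rintro ⟨a, b, c, d, ha, hb, hc, hd, h5, h6⟩
    rw [attracting_iff h1] at ha
    rw [attracting_iff h2] at hb
    have hc' := (attracting_iff h3).1 hc
    have hd' := (attracting_iff h4).1 hd
    exact ⟨(k1_ccw ha hb hc').1 h5, (k1_ccw ha hc' hd').1 h6⟩
  · rintro ⟨h5, h6⟩
    have ha : vec (attr x.1) ≠ 0 ∧ pt (vec (attr x.1)) = attr x.1 := ⟨vec_ne_zero _, pt_vec _⟩
    have hb : vec (attr u.1) ≠ 0 ∧ pt (vec (attr u.1)) = attr u.1 := ⟨vec_ne_zero _, pt_vec _⟩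
    have hc : vec (attr (x⁻¹ : Γ).1) ≠ 0 ∧ pt (vec (attr (x⁻¹ : Γ).1)) = attr (x⁻¹ : Γ).1 :=
      ⟨vec_ne_zero _, pt_vec _⟩
    have hd : vec (attr (u⁻¹ : Γ).1) ≠ 0 ∧ pt (vec (attr (u⁻¹ : Γ).1)) = attr (u⁻¹ : Γ).1 :=
      ⟨vec_ne_zero _, pt_vec _⟩
    exact ⟨_, _, _, _, (attracting_iff h1).2 ha, (attracting_iff h2).2 hb, (attracting_iff h3).2 hc,
      (attracting_iff h4).2 hd, (k1_ccw ha hb hc).2 h5, (k1_ccw ha hc hd).2 h6⟩

theorem before_iff (hΓ : SurfaceGroup Γ) {x u w : Γ} (hx : x ≠ 1) (hu : u ≠ 1) (hw : w ≠ 1) :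
    Before x.1 u.1 w.1 ↔ (sysOf hΓ.isSurf).Bef x u w := by
  show _ ↔ cyc4 (attr x.1) (attr w.1) (attr u.1) (attr (x⁻¹ : Γ).1) ∧
    cyc4 (attr (x⁻¹ : Γ).1) (attr (u⁻¹ : Γ).1) (attr (w⁻¹ : Γ).1) (attr x.1)
  have h1 := k1_hyp hΓ hx
  have h2 := k1_hyp hΓ hu
  have h3 := k1_hyp hΓ (inv_ne_one.2 hx)
  have h4 := k1_hyp hΓ (inv_ne_one.2 hu)
  have h5 := k1_hyp hΓ hw
  have h6 := k1_hyp hΓ (inv_ne_one.2 hw)
  constructor
  · rintro ⟨a, b, c, d, e, f, ha, hb, hc, hd, he, hf, h7, h8, h9, h10⟩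
    have ha' := (attracting_iff h1).1 ha
    have hb' := (attracting_iff h5).1 hb
    have hc' := (attracting_iff h2).1 hc
    have hd' := (attracting_iff h3).1 hd
    have he' := (attracting_iff h4).1 he
    have hf' := (attracting_iff h6).1 hf
    exact ⟨⟨(k1_ccw ha' hb' hc').1 h7, (k1_ccw ha' hc' hd').1 h8⟩,
      ⟨(k1_ccw hd' he' hf').1 h9, (k1_ccw hd' hf' ha').1 h10⟩⟩
  · rintro ⟨⟨h7, h8⟩, h9, h10⟩
    have key : ∀ p : OnePoint ℝ, vec p ≠ 0 ∧ pt (vec p) = p := fun p => ⟨vec_ne_zero _, pt_vec _⟩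
    exact ⟨_, _, _, _, _, _, (attracting_iff h1).2 (key _), (attracting_iff h5).2 (key _),
      (attracting_iff h2).2 (key _), (attracting_iff h3).2 (key _), (attracting_iff h4).2 (key _),
      (attracting_iff h6).2 (key _), (k1_ccw (key _) (key _) (key _)).2 h7,
      (k1_ccw (key _) (key _) (key _)).2 h8, (k1_ccw (key _) (key _) (key _)).2 h9,
      (k1_ccw (key _) (key _) (key _)).2 h10⟩

theorem lifts_eq (y : Γ) : Lifts y = cls y := rfl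

theorem isSimple_iff (hΓ : SurfaceGroup Γ) {x : Γ} :
    IsSimple x ↔ (sysOf hΓ.isSurf).Simp x := by
  unfold IsSimple Sys.Simp
  rw [Sys.prim_iff, and_assoc]
  refine and_congr_right fun hx => and_congr_right fun _ => ?_
  rw [lifts_eq]
  refine forall_congr' fun w => forall_congr' fun hw => ?_
  rw [crosses_iff hΓ hx (cls_ne_one hx hw)]

end Stmt
end H21D
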