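import Pool.Agent.Lib.H21D.K1
import Pool.Agent.Lib.H21D.G1
import Pool.Agent.Lib.H21D.D2

/-! # K2: `IsTwist` is the twist -/
namespace H21D
variable {G C : Type*} [Group G] [LinearOrder C] [MulAction G C]

/-- abstract version of `Stmt.IsTwist` -/
def IsTw (S : Sys G C) (y x z : G) : Prop :=
  ∃ (m : ℕ) (u : ℕ → G),
    (∀ k < m, u k ∈ cls y ∧ S.PosX x (u k)) ∧
    (∀ k, k + 1 < m → S.Bef x (u k) (u (k + 1))) ∧
    (0 < m → S.Bef x (u (m - 1)) (x * u 0 * x⁻¹)) ∧
    (∀ w ∈ cls y, S.PosX x w → ∃ k < m, ∃ j : ℤ, w = x ^ j * u k * (x ^ j)⁻¹) ∧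
    z ∈ cls (((List.range m).map u).prod * x)

theorem k2_prod {S : Sys G C} {F : Fam S} {x : G} (K : Crs F x) (n : ℕ) :
    K.gg n = ((List.range n).map (fun k : ℕ => K.u ((k : ℤ) + 1))).prod := by
  induction n with
  | zero => simp [K.gg_zero]
  | succ n ih =>
    rw [K.gg_succ, List.range_succ, List.map_append, List.prod_append, ih]
    simp

theorem k2_bef_zpow {S : Sys G C} {x u w : G} (hx : x ≠ 1) (hu : u ≠ 1) (hw : w ≠ 1) (j : ℤ)
    (h : S.Bef x u w) :
    S.Bef x (x ^ j * u * (x ^ j)⁻¹) (x ^ j * w * (x ^ j)⁻¹) := by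
  have h1 := (S.Bef_conj (x ^ j) hx hu hw).2 h
  have h2 : x ^ j * x * (x ^ j)⁻¹ = x := by group
  rwa [h2] at h1

theorem k2_pos_zpow {S : Sys G C} {x u : G} (hx : x ≠ 1) (hu : u ≠ 1) (j : ℤ)
    (h : S.PosX x u) : S.PosX x (x ^ j * u * (x ^ j)⁻¹) := by
  have h1 := (S.PosX_conj (x ^ j) hx hu).2 h
  have h2 : x ^ j * x * (x ^ j)⁻¹ = x := by group
  rwa [h2] at h1

/-- the enumeration defined by one period -/
noncomputable def k2_crs {S : Sys G C} {y x : G} (hy : S.Simp y) (hx : x ≠ 1) (m : ℕ) (hm : 0 < m)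
    (u : ℕ → G) (h1 : ∀ k < m, u k ∈ cls y ∧ S.PosX x (u k))
    (h2 : ∀ k, k + 1 < m → S.Bef x (u k) (u (k + 1)))
    (h3 : 0 < m → S.Bef x (u (m - 1)) (x * u 0 * x⁻¹))
    (h4 : ∀ w ∈ cls y, S.PosX x w → ∃ k < m, ∃ j : ℤ, w = x ^ j * u k * (x ^ j)⁻¹) :
    Crs (famOf hy) x where
  m := m
  pos := hm
  u := fun i => x ^ ((i - 1) / m) * u ((i - 1) % m).toNat * (x ^ ((i - 1) / m))⁻¹
  mem := by
    intro i
    apply cls_conj
    apply (h1 _ _).1
    have := Int.emod_lt_of_pos (i - 1) (by exact_mod_cast hm : (0 : ℤ) < m)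
    have := Int.emod_nonneg (i - 1) (by exact_mod_cast hm.ne' : (m : ℤ) ≠ 0)
    omega
  crs := by
    intro i
    have hlt : ((i - 1) % m).toNat < m := by
      have := Int.emod_lt_of_pos (i - 1) (by exact_mod_cast hm : (0 : ℤ) < m)
      have := Int.emod_nonneg (i - 1) (by exact_mod_cast hm.ne' : (m : ℤ) ≠ 0)
      omega
    exact k2_pos_zpow hx (cls_ne_one hy.1.1 (h1 _ hlt).1) _ (h1 _ hlt).2
  lt := by
    have hm0 : (0 : ℤ) < m := by exact_mod_cast hm
    have step : ∀ i : ℤ, S.Bef x (x ^ ((i - 1) / m) * u ((i - 1) % m).toNat * (x ^ ((i - 1) / m))⁻¹)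
        (x ^ ((i + 1 - 1) / m) * u ((i + 1 - 1) % m).toNat * (x ^ ((i + 1 - 1) / m))⁻¹) := by
      intro i
      obtain ⟨q, r, hr0, hr, hi⟩ : ∃ (q r : ℤ), 0 ≤ r ∧ r < m ∧ i - 1 = r + m * q :=
        ⟨(i - 1) / m, (i - 1) % m, Int.emod_nonneg _ hm0.ne', Int.emod_lt_of_pos _ hm0,
          (Int.emod_add_mul_ediv (i - 1) m).symm⟩
      have hq : (i - 1) / m = q := by
        rw [hi, Int.add_mul_ediv_left _ _ hm0.ne', Int.ediv_eq_zero_of_lt hr0 hr, zero_add]
      have hr' : (i - 1) % m = r := by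
        rw [hi, Int.add_mul_emod_self_left, Int.emod_eq_of_lt hr0 hr]
      rw [hq, hr']
      have hrm : r.toNat < m := by omega
      by_cases hlast : r + 1 < m
      · have hi2 : i + 1 - 1 = (r + 1) + m * q := by omega
        have hq2 : (i + 1 - 1) / m = q := by
          rw [hi2, Int.add_mul_ediv_left _ _ hm0.ne', Int.ediv_eq_zero_of_lt (by omega) hlast, zero_add]
        have hr2 : (i + 1 - 1) % m = r + 1 := by
          rw [hi2, Int.add_mul_emod_self_left, Int.emod_eq_of_lt (by omega) hlast]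
        rw [hq2, hr2]
        have e : (r + 1).toNat = r.toNat + 1 := by omega
        rw [e]
        exact k2_bef_zpow hx (cls_ne_one hy.1.1 (h1 _ hrm).1)
          (cls_ne_one hy.1.1 (h1 (r.toNat + 1) (by omega)).1) _ (h2 _ (by omega))
      · have hrl : r = m - 1 := by omega
        have hi2 : i + 1 - 1 = 0 + m * (q + 1) := by rw [mul_add]; omega
        have hq2 : (i + 1 - 1) / m = q + 1 := by
          rw [hi2, Int.add_mul_ediv_left _ _ hm0.ne']; simp
        have hr2 : (i + 1 - 1) % m = 0 := by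
          rw [hi2, Int.add_mul_emod_self_left]; simp
        rw [hq2, hr2]
        have e : r.toNat = m - 1 := by omega
        have e2 : x ^ (q + 1) * u (0 : ℤ).toNat * (x ^ (q + 1))⁻¹ =
            x ^ q * (x * u 0 * x⁻¹) * (x ^ q)⁻¹ := by
          rw [zpow_add_one]
          simp only [Int.toNat_zero]
          group
        rw [e, e2]
        exact k2_bef_zpow hx (cls_ne_one hy.1.1 (h1 _ (by omega)).1)
          (S.conj_ne_one x (cls_ne_one hy.1.1 (h1 0 hm).1)) _ (h3 hm)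
    intro i j hij
    obtain ⟨n, rfl⟩ : ∃ n : ℕ, j = i + 1 + n := ⟨(j - (i + 1)).toNat, by omega⟩
    clear hij
    induction n with
    | zero =>
      have := step i
      simpa using this
    | succ n ih =>
      refine S.Bef_trans ih ?_
      have := step (i + 1 + n)
      have e : i + 1 + ((n + 1 : ℕ) : ℤ) = i + 1 + (n : ℤ) + 1 := by push_cast; ring
      rw [e]
      exact this
  all := by
    intro w hw hx'
    obtain ⟨k, hk, j, hj⟩ := h4 w hw hx'
    have hm0 : (0 : ℤ) < m := by exact_mod_cast hm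
    refine ⟨(k : ℤ) + m * j + 1, ?_⟩
    have hi : (k : ℤ) + m * j + 1 - 1 = (k : ℤ) + m * j := by ring
    have hk' : (k : ℤ) < m := by exact_mod_cast hk
    have hq : ((k : ℤ) + m * j + 1 - 1) / m = j := by
      rw [hi, Int.add_mul_ediv_left _ _ hm0.ne', Int.ediv_eq_zero_of_lt (by omega) hk', zero_add]
    have hr' : ((k : ℤ) + m * j + 1 - 1) % m = k := by
      rw [hi, Int.add_mul_emod_self_left, Int.emod_eq_of_lt (by omega) hk']
    rw [hq, hr', hj]
    simp
  per := by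
    intro i
    have hm0 : (m : ℤ) ≠ 0 := by exact_mod_cast hm.ne'
    have e : i + m - 1 = (i - 1) + m * 1 := by ring
    rw [e, Int.add_mul_ediv_left _ _ hm0, Int.add_mul_emod_self_left, zpow_add_one]
    have e2 : x ^ ((i - 1) / (m : ℤ)) * x = x * x ^ ((i - 1) / (m : ℤ)) := by
      rw [← zpow_add_one, ← zpow_one_add, add_comm]
    rw [e2]
    group

/-- (→) if `m = 0` nothing crosses: `tw_free`.  Otherwise the data are a `Crs (famOf hy) x` with the same
`m` (put `u (k + j m) = x ^ j u k x ^ -j`, shift the index by one) : `tw_crs`. -/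
theorem isTw_iff {S : Sys G C} {y x z : G} (hy : S.Simp y) (hx : S.Prim x) :
    IsTw S y x z ↔ z ∈ cls (tw hy x) := by
  have hx1 : x ≠ 1 := hx.1
  constructor
  · rintro ⟨m, u, h1, h2, h3, h4, h5⟩
    rcases Nat.eq_zero_or_pos m with hm | hm
    · subst hm
      have hd : S.Disj x y := by
        intro w hw hP
        obtain ⟨k, hk, -⟩ := h4 w hw hP
        omega
      obtain ⟨h, hh⟩ := tw_free hy hx1 hd
      have e : ((List.range 0).map u).prod * x = x := by simp
      rw [e] at h5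
      have : tw hy x ∈ cls x := ⟨h, Or.inl hh⟩
      rw [cls_eq this]
      exact h5
    · have hK : ((List.range m).map u).prod * x = (k2_crs hy hx1 m hm u h1 h2 h3 h4).X := by
        unfold Crs.X
        congr 1
        rw [k2_prod]
        show _ = ((List.range m).map _).prod
        congr 1
        apply List.map_congr_left
        intro k hk
        have hk' : k < m := List.mem_range.1 hk
        show u k = x ^ (((k : ℤ) + 1 - 1) / m) * u (((k : ℤ) + 1 - 1) % m).toNat *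
          (x ^ (((k : ℤ) + 1 - 1) / m))⁻¹
        have e : (k : ℤ) + 1 - 1 = k := by ring
        rw [e, Int.ediv_eq_zero_of_lt (by omega) (by exact_mod_cast hk'),
          Int.emod_eq_of_lt (by omega) (by exact_mod_cast hk')]
        simp
      obtain ⟨h, hh⟩ := tw_crs hy (k2_crs hy hx1 m hm u h1 h2 h3 h4)
      rw [← hK] at hh
      have : tw hy x ∈ cls (((List.range m).map u).prod * x) := ⟨h, Or.inl hh⟩
      rw [cls_eq this]
      exact h5
  · intro hz
    by_cases hd : S.Disj x y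
    · obtain ⟨h, hh⟩ := tw_free hy hx1 hd
      refine ⟨0, fun _ => 1, by omega, by omega, by omega, ?_, ?_⟩
      · intro w hw hP
        exact absurd hP (hd w hw)
      · have e : ((List.range 0).map (fun _ : ℕ => (1 : G))).prod * x = x := by simp
        rw [e]
        have : tw hy x ∈ cls x := ⟨h, Or.inl hh⟩
        rwa [cls_eq this] at hz
    · have hex : ∃ w ∈ (famOf hy).U, S.PosX x w := by
        unfold Sys.Disj at hd
        push Not at hd
        exact hd
      obtain ⟨K⟩ := (famOf hy).exists_crs hx1 hex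
      have hm0 : (0 : ℤ) < K.m := by exact_mod_cast K.pos
      obtain ⟨h, hh⟩ := tw_crs hy K
      refine ⟨K.m, fun k => K.u ((k : ℤ) + 1), ?_, ?_, ?_, ?_, ?_⟩
      · intro k _
        exact ⟨K.mem _, K.crs _⟩
      · intro k _
        exact K.lt _ _ (by push_cast; omega)
      · intro _
        show S.Bef x (K.u (((K.m - 1 : ℕ) : ℤ) + 1)) (x * K.u (((0 : ℕ) : ℤ) + 1) * x⁻¹)
        rw [← K.per]
        have := K.pos
        exact K.lt _ _ (by push_cast; omega)
      · intro w hw hP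
        obtain ⟨i, rfl⟩ := K.all w hw hP
        have h3 := Int.emod_nonneg (i - 1) hm0.ne'
        have h4 := Int.emod_lt_of_pos (i - 1) hm0
        refine ⟨((i - 1) % K.m).toNat, by omega, (i - 1) / K.m, ?_⟩
        rw [← K.per_mul]
        congr 1
        rw [Int.toNat_of_nonneg h3]
        have := Int.emod_add_mul_ediv (i - 1) K.m
        rw [mul_comm ((i - 1) / (K.m : ℤ)) (K.m : ℤ)]
        omega
      · rw [← k2_prod K]
        show z ∈ cls K.X
        have : tw hy x ∈ cls K.X := ⟨h, Or.inl hh⟩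
        rwa [cls_eq this] at hz

namespace Stmt
variable {Γ : Subgroup SL2}

theorem isTwist_iff (hΓ : SurfaceGroup Γ) {y x z : Γ} (hy : (sysOf hΓ.isSurf).Simp y)
    (hx : (sysOf hΓ.isSurf).Prim x) : IsTwist y x z ↔ z ∈ cls (tw hy x) := by
  rw [← isTw_iff hy hx]
  have hx1 : x ≠ 1 := hx.1
  have hy1 : y ≠ 1 := hy.1.1
  have c1 : ∀ w ∈ cls y, (Crosses x.1 w.1 ↔ (sysOf hΓ.isSurf).PosX x w) := fun w hw =>
    crosses_iff hΓ hx1 (cls_ne_one hy1 hw)
  have c2 : ∀ u ∈ cls y, ∀ w ∈ cls y, (Before x.1 u.1 w.1 ↔ (sysOf hΓ.isSurf).Bef x u w) :=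
    fun u hu w hw => before_iff hΓ hx1 (cls_ne_one hy1 hu) (cls_ne_one hy1 hw)
  unfold IsTwist IsTw
  refine exists_congr fun m => exists_congr fun u => ?_
  constructor
  · rintro ⟨h1, h2, h3, h4, h5⟩
    refine ⟨fun k hk => ⟨(h1 k hk).1, (c1 _ (h1 k hk).1).1 (h1 k hk).2⟩, fun k hk => ?_,
      fun hm => ?_, fun w hw hP => h4 w hw ((c1 w hw).2 hP), h5⟩
    · exact (c2 _ (h1 k (by omega)).1 _ (h1 (k + 1) hk).1).1 (h2 k hk)
    · exact (c2 _ (h1 (m - 1) (by omega)).1 _ (cls_conj x (h1 0 hm).1)).1 (h3 hm)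
  · rintro ⟨h1, h2, h3, h4, h5⟩
    refine ⟨fun k hk => ⟨(h1 k hk).1, (c1 _ (h1 k hk).1).2 (h1 k hk).2⟩, fun k hk => ?_,
      fun hm => ?_, fun w hw hP => h4 w hw ((c1 w hw).1 hP), h5⟩
    · exact (c2 _ (h1 k (by omega)).1 _ (h1 (k + 1) hk).1).2 (h2 k hk)
    · exact (c2 _ (h1 (m - 1) (by omega)).1 _ (cls_conj x (h1 0 hm).1)).2 (h3 hm)

end Stmt
end H21D
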