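import Pool.Agent.Lib.H21D.Stmt
import Pool.Agent.Lib.H69.Transvection

/-! # K3: the torus -/
namespace H21D.Stmt

open Pool.Agent.Lib.H69.Transvection in
/-- the form `omega` as a bi-additive map -/
def k3_form : (ℤ × ℤ) →+ (ℤ × ℤ) →+ ℤ :=
  AddMonoidHom.mk' (fun v => AddMonoidHom.mk' (fun w => omega v w)
    (by intro a b; simp only [omega, Prod.fst_add, Prod.snd_add]; ring))
    (by
      intro a b
      apply AddMonoidHom.ext
      intro w
      change omega (a + b) w = omega a w + omega b w
      simp only [omega, Prod.fst_add, Prod.snd_add]; ring)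

theorem k3_form_apply (v w : ℤ × ℤ) : k3_form v w = omega v w := rfl

/-- the twist of a primitive vector -/
def k3_tw (a b : PrimVec) : PrimVec :=
  ⟨a.1 + omega a.1 b.1 • b.1, by
    obtain ⟨s, t, hst⟩ := a.2
    refine ⟨s - s * b.1.2 * b.1.1 - t * b.1.2 * b.1.2, t + s * b.1.1 * b.1.1 + t * b.1.1 * b.1.2, ?_⟩
    simp only [omega, Prod.fst_add, Prod.snd_add, Prod.smul_fst, Prod.smul_snd, smul_eq_mul]
    linear_combination hst⟩

theorem k3_omega_neg_left (v w : ℤ × ℤ) : omega (-v) w = - omega v w := by
  simp only [omega, Prod.fst_neg, Prod.snd_neg]; ring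

theorem k3_omega_neg_right (v w : ℤ × ℤ) : omega v (-w) = - omega v w := by
  simp only [omega, Prod.fst_neg, Prod.snd_neg]; ring

def k3_mul : Slope → Slope → Slope :=
  Quotient.map₂ k3_tw (by
    intro a a' ha b b' hb
    change (k3_tw a' b').1 = (k3_tw a b).1 ∨ (k3_tw a' b').1 = -(k3_tw a b).1
    have ha' : a'.1 = a.1 ∨ a'.1 = -a.1 := ha
    have hb' : b'.1 = b.1 ∨ b'.1 = -b.1 := hb
    simp only [k3_tw]
    rcases ha' with ha' | ha' <;> rcases hb' with hb' | hb' <;> rw [ha', hb'] <;>
      simp only [k3_omega_neg_left, k3_omega_neg_right, neg_neg, neg_smul, smul_neg]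
    · left; trivial
    · left; trivial
    · right; rw [neg_add]
    · right; rw [neg_add])

theorem k3_mk_eq (a b : PrimVec) : Slope.mk a = Slope.mk b ↔ b.1 = a.1 ∨ b.1 = -a.1 := by
  constructor
  · intro h
    exact Quotient.exact (s := sameSlope) h
  · intro h
    exact Quotient.sound (s := sameSlope) h

theorem k3_parallel (a b : PrimVec) (h : omega a.1 b.1 = 0) : Slope.mk a = Slope.mk b := by
  rw [k3_mk_eq]
  obtain ⟨s, t, hst⟩ := a.2
  obtain ⟨s', t', hst'⟩ := b.2
  have h' : a.1.1 * b.1.2 = a.1.2 * b.1.1 := by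
    unfold omega at h; linarith
  -- `b = k a`
  set k := s * b.1.1 + t * b.1.2 with hk
  have h1 : b.1.1 = k * a.1.1 := by
    rw [hk]
    linear_combination (-b.1.1) * hst - t * h'
  have h2 : b.1.2 = k * a.1.2 := by
    rw [hk]
    linear_combination (-b.1.2) * hst + s * h'
  have h3 : k ∣ 1 := ⟨s' * a.1.1 + t' * a.1.2, by
    rw [h1, h2] at hst'; linear_combination -hst'⟩
  rcases Int.isUnit_iff.1 (isUnit_of_dvd_one h3) with h4 | h4
  · left
    rw [h4] at h1 h2
    ext
    · rw [h1]; ring
    · rw [h2]; ring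
  · right
    rw [h4] at h1 h2
    ext
    · rw [h1]; simp
    · rw [h2]; simp

open Pool.Agent.Lib.H69.Transvection in
/-- Well-definedness of the product and `idempotent_orthogonal` of H69 (see the proof of
`Pool.Agent.Results.MP_5b5d66_al.HomologyClasses.result`, copy what is needed; do not import files of
`Results`).  Two classes with `omega = 0` are equal, so an idempotent `u ≠ 0` is `n • single a` with
`n ^ 2 = n`. -/
theorem torus : ∃ _ : Mul Slope,
    (∀ a b c : PrimVec, Slope.mk a * Slope.mk b = Slope.mk c ↔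
      (c.1 = a.1 + omega a.1 b.1 • b.1 ∨ c.1 = -(a.1 + omega a.1 b.1 • b.1))) ∧
    ∀ u : MonoidAlgebra ℤ Slope, u ≠ 0 → u * u = u →
      (∀ a b : PrimVec, u.coeff (Slope.mk a) ≠ 0 → u.coeff (Slope.mk b) ≠ 0 → omega a.1 b.1 = 0) ∧
      u.coeff.sum (fun _ n => n) = 1 := by
  classical
  let inst : Mul Slope := ⟨k3_mul⟩
  have hmul : ∀ a b : PrimVec, Slope.mk a * Slope.mk b = Slope.mk (k3_tw a b) := fun a b => rfl
  refine ⟨inst, ?_, ?_⟩
  · intro a b c
    rw [hmul, k3_mk_eq]
    rfl
  intro u hu0 hu
  have halt : ∀ x, k3_form x x = 0 := by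
    intro x; rw [k3_form_apply, omega]; ring
  have hmkeq : ∀ a b : PrimVec, mk k3_form a.1 = mk k3_form b.1 ↔ Slope.mk a = Slope.mk b := by
    intro a b
    rw [k3_mk_eq, mk_eq_mk]
    constructor
    · rintro (h | h)
      · exact Or.inl h.symm
      · right; rw [h, neg_neg]
    · rintro (h | h)
      · exact Or.inl h.symm
      · right; rw [h, neg_neg]
  let p : Slope →ₙ* TQ k3_form :=
    { toFun := Quotient.lift (fun a : PrimVec => mk k3_form a.1) (by
        intro a b hab
        exact (hmkeq a b).2 (Quotient.sound hab))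
      map_mul' := by
        intro a b
        induction a using Quotient.inductionOn with | _ a =>
        induction b using Quotient.inductionOn with | _ b =>
        change mk k3_form (k3_tw a b).1 = mk k3_form a.1 * mk k3_form b.1
        rw [mk_mul_mk]
        rfl }
  have hp : ∀ a : PrimVec, p (Slope.mk a) = mk k3_form a.1 := fun a => rfl
  have hpinj : Function.Injective p := by
    intro a b
    induction a using Quotient.inductionOn with | _ a =>
    induction b using Quotient.inductionOn with | _ b =>
    intro h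
    exact (hmkeq a b).1 h
  set v : MonoidAlgebra ℤ (TQ k3_form) := MonoidAlgebra.mapDomain p u with hv
  have hvv : v * v = v := by
    rw [hv, ← MonoidAlgebra.mapDomain_mul, hu]
  have hcoef : ∀ a : PrimVec, v.coeff (mk k3_form a.1) = u.coeff (Slope.mk a) := by
    intro a
    have h1 : v.coeff = Finsupp.mapDomain p u.coeff := rfl
    rw [h1, ← hp, Finsupp.mapDomain_apply hpinj]
  have horth : ∀ a b : PrimVec, u.coeff (Slope.mk a) ≠ 0 → u.coeff (Slope.mk b) ≠ 0 →
      omega a.1 b.1 = 0 := by
    intro a b ha hb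
    have := idempotent_orthogonal k3_form halt v hvv a.1 b.1 (by rw [hcoef]; exact ha)
      (by rw [hcoef]; exact hb)
    exact this
  refine ⟨horth, ?_⟩
  -- `u` is a single class
  have hne : u.coeff ≠ 0 := by
    intro h
    apply hu0
    exact MonoidAlgebra.coeff_injective (by rw [h]; rfl)
  obtain ⟨s, hs⟩ : ∃ s, u.coeff s ≠ 0 := by
    by_contra hcon
    push Not at hcon
    exact hne (Finsupp.ext hcon)
  induction s using Quotient.inductionOn with | _ a =>
  change u.coeff (Slope.mk a) ≠ 0 at hs
  have hall : ∀ t, u.coeff t ≠ 0 → t = Slope.mk a := by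
    intro t ht
    induction t using Quotient.inductionOn with | _ b =>
    exact k3_parallel b a (horth b a ht hs)
  have hsingle : u.coeff = Finsupp.single (Slope.mk a) (u.coeff (Slope.mk a)) := by
    ext t
    rw [Finsupp.single_apply]
    by_cases h : Slope.mk a = t
    · rw [if_pos h, h]
    · rw [if_neg h]
      by_contra hcon
      exact h (hall t hcon).symm
  set n : ℤ := u.coeff (Slope.mk a) with hn
  have husingle : u = MonoidAlgebra.single (Slope.mk a) n :=
    MonoidAlgebra.coeff_injective (by rw [hsingle]; rfl)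
  have haa : Slope.mk a * Slope.mk a = Slope.mk a := by
    rw [hmul]
    congr 1
    apply Subtype.ext
    simp only [k3_tw]
    have : omega a.1 a.1 = 0 := by rw [omega]; ring
    rw [this, zero_smul, add_zero]
  have hnn : n * n = n := by
    have h1 := hu
    rw [husingle, MonoidAlgebra.single_mul_single, haa] at h1
    have h2 := congrArg (fun w : MonoidAlgebra ℤ Slope => w.coeff (Slope.mk a)) h1
    simpa using h2
  have hn1 : n = 1 := by
    have : n * (n - 1) = 0 := by linear_combination hnn
    rcases mul_eq_zero.1 this with h | h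
    · exact absurd h hs
    · linarith
  rw [hsingle, Finsupp.sum_single_index rfl, hn1]

end H21D.Stmt
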