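import Pool.Agent.Lib.H21D.K2
import Pool.Agent.Lib.H21D.J9
import Pool.Agent.Lib.H21D.I2

/-! # K4: hyperbolic surfaces -/
namespace H21D

/-- transport of a twist system along a bijection -/
def TwSys.transport {D D' : Type*} (W : TwSys D) (e : D' ≃ D) : TwSys D' where
  T b a := e.symm (W.T (e b) (e a))
  i a b := W.i (e a) (e b)
  f a := W.f (e a)
  T_inj := by
    intro b a a' h
    exact e.injective (W.T_inj (e.symm.injective h))
  i_symm a b := W.i_symm _ _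
  i_self a := W.i_self _
  i_T b a c := by
    rw [e.apply_symm_apply, e.apply_symm_apply]
    exact W.i_T _ _ _
  T_fix := by
    intro a b h
    rw [W.T_fix h, e.symm_apply_apply]
  upper a b c := by
    rw [e.apply_symm_apply]
    exact W.upper _ _ _
  lower a b c := by
    rw [e.apply_symm_apply]
    exact W.lower _ _ _
  cross := by
    intro b b' d h1 h2 h3 h4 h5
    rw [e.apply_symm_apply] at h4 h5
    exact W.cross h1 h2 h3 h4 h5
  conv1 := by
    intro a b h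
    rw [e.apply_symm_apply, e.apply_symm_apply]
    exact W.conv1 h
  conv2 := by
    intro a a' b b' h1 h2 h3 h4
    rw [e.apply_symm_apply, e.apply_symm_apply, e.apply_symm_apply]
    exact W.conv2 h1 (fun h => h2 (e.injective h)) (e.symm.injective h3) h4
  rel1 := by
    intro a b h
    rw [e.apply_symm_apply, W.rel1 h, e.symm_apply_apply]
  rel2 := by
    intro a b h
    rw [e.apply_symm_apply, W.rel2 h, e.symm_apply_apply]

theorem k4_mul {D : Type*} (W : TwSys D) (m : Mul D) (hm : ∀ a b : D, a * b = W.T b a)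
    (u : MonoidAlgebra ℤ D) : (u * u).coeff = W.mul u.coeff u.coeff := by
  rw [MonoidAlgebra.mul_def, MonoidAlgebra.coeff_finsuppSum]
  unfold TwSys.mul
  refine Finsupp.sum_congr fun a _ => ?_
  rw [MonoidAlgebra.coeff_finsuppSum]
  refine Finsupp.sum_congr fun b _ => ?_
  rw [MonoidAlgebra.coeff_single, hm]

namespace Stmt
open Matrix

variable {Γ : Subgroup SL2}

/-- the two descriptions of the set of curves -/
noncomputable def curveEquiv (hΓ : SurfaceGroup Γ) : Curve Γ ≃ H21D.Curve (sysOf hΓ.isSurf) :=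
  Quotient.congr (Equiv.subtypeEquivRight (fun _ => isSimple_iff hΓ)) (fun _ _ => Iff.rfl)

theorem curveEquiv_mk (hΓ : SurfaceGroup Γ) (x : {x : Γ // IsSimple x}) :
    curveEquiv hΓ (Curve.mk x) =
      (Quotient.mk (curveSetoid (sysOf hΓ.isSurf)) ⟨x.1, (isSimple_iff hΓ).1 x.2⟩ :
        H21D.Curve (sysOf hΓ.isSurf)) := rfl

/-- the twist system of a surface group -/
noncomputable def sysTw (hΓ : SurfaceGroup Γ) : TwSys (Curve Γ) :=
  (twSys (S := sysOf hΓ.isSurf) (fun g : Γ => |g.1.1.trace|) (TP_trace hΓ.isSurf)).transport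
    (curveEquiv hΓ)

theorem sysTw_T (hΓ : SurfaceGroup Γ) (x y z : {x : Γ // IsSimple x}) :
    (sysTw hΓ).T (Curve.mk y) (Curve.mk x) = Curve.mk z ↔ IsTwist y.1 x.1 z.1 := by
  have hy := (isSimple_iff hΓ).1 y.2
  have hx := (isSimple_iff hΓ).1 x.2
  rw [isTwist_iff hΓ hy hx.1]
  show (curveEquiv hΓ).symm _ = _ ↔ _
  rw [Equiv.symm_apply_eq, curveEquiv_mk]
  show (Quotient.mk (curveSetoid (sysOf hΓ.isSurf)) ⟨tw hy x.1, tw_simp hx hy⟩ :
        H21D.Curve (sysOf hΓ.isSurf)) = _ ↔ _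
  exact Quotient.eq

theorem sysTw_i (hΓ : SurfaceGroup Γ) (x y : {x : Γ // IsSimple x}) :
    (sysTw hΓ).i (Curve.mk x) (Curve.mk y) = 0 → ∀ w ∈ Lifts y.1, ¬ Crosses x.1.1 w.1 := by
  have hy := (isSimple_iff hΓ).1 y.2
  have hx := (isSimple_iff hΓ).1 x.2
  intro h w hw hc
  have h1 : (sysOf hΓ.isSurf).iN x.1 y.1 = 0 := h
  have h2 := ((sysOf hΓ.isSurf).iN_eq_zero_iff hx.1.1 hy.1.1).1 h1
  exact h2 w hw ((crosses_iff hΓ hx.1.1 (cls_ne_one hy.1.1 hw)).1 hc)

/-- `Curve Γ` is `H21D.Curve (sysOf _)` (isSimple_iff), the product is `twSys.T` (isTwist_iff),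
`u * u` is `TwSys.mul`, conclusion by `TwSys.idempotent` and `iN_eq_zero_iff`. -/
theorem hyperbolic (Γ : Subgroup (SpecialLinearGroup (Fin 2) ℝ)) (hΓ : SurfaceGroup Γ) :
    ∃ _ : Mul (Curve Γ),
    (∀ x y z : {x : Γ // IsSimple x}, Curve.mk x * Curve.mk y = Curve.mk z ↔
      IsTwist y.1 x.1 z.1) ∧
    ∀ u : MonoidAlgebra ℤ (Curve Γ), u ≠ 0 → u * u = u →
      (∀ x y : {x : Γ // IsSimple x}, u.coeff (Curve.mk x) ≠ 0 → u.coeff (Curve.mk y) ≠ 0 →
        ∀ w ∈ Lifts y.1, ¬ Crosses x.1.1 w.1) ∧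
      u.coeff.sum (fun _ n => n) = 1 := by
  refine ⟨⟨fun a b => (sysTw hΓ).T b a⟩, fun x y z => sysTw_T hΓ x y z, ?_⟩
  let m : Mul (Curve Γ) := ⟨fun a b => (sysTw hΓ).T b a⟩
  intro u hu huu
  have h1 := k4_mul (sysTw hΓ) m (fun _ _ => rfl) u
  have h2 : (u * u).coeff = u.coeff := congrArg MonoidAlgebra.coeff huu
  rw [h2] at h1
  have hu' : u.coeff ≠ 0 := fun h => hu (MonoidAlgebra.coeff_eq_zero.1 h)
  obtain ⟨h3, h4⟩ := (sysTw hΓ).idempotent u.coeff hu' h1.symm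
  refine ⟨fun x y hx hy => ?_, h4⟩
  exact sysTw_i hΓ x y (h3 _ (Finsupp.mem_support_iff.2 hx) _ (Finsupp.mem_support_iff.2 hy))

end Stmt
end H21D
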