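import Pool.Agent.Lib.H21D.E5

/-! # N1: cancelling partners -/
namespace H21D
namespace Sys
variable {G C : Type*} [Group G] [LinearOrder C] [MulAction G C] (S : Sys G C)

theorem Opp_PosX {c u δ : G} (h : S.Opp c u δ) : S.PosX c u ∧ S.PosX c δ ∧ S.PosX u δ⁻¹ ∧
    S.PosX u c⁻¹ := by
  unfold Opp at h
  unfold PosX
  rw [inv_inv, inv_inv]
  generalize S.att c = a at *; generalize S.att c⁻¹ = b at *
  generalize S.att u = p at *; generalize S.att u⁻¹ = q at *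
  generalize S.att δ = r at *; generalize S.att δ⁻¹ = s at *
  refine ⟨?_, ?_, ?_, ?_⟩ <;> (obtain ⟨lab, hlab⟩ := H21D.exists_lab [a, b, p, q, r, s]; simp only [List.forall_mem_cons, List.not_mem_nil, IsEmpty.forall_iff, implies_true, and_true, forall_eq_or_imp, List.mem_cons, forall_eq, or_false] at hlab; simp only [H21D.cyc, H21D.cyc4, H21D.arc, ne_eq, hlab] at *; omega)

theorem Opp_inv {c u δ : G} (h : S.Opp c u δ) : S.Opp c⁻¹ u⁻¹ δ⁻¹ := by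
  unfold Opp at *
  rw [inv_inv, inv_inv, inv_inv]
  exact ⟨h.2, h.1⟩

/-- two lines of a simple class cross two crossing lines in the same way (quadrants). -/
theorem Opp_quadrant {b' c u c'' δ : G} (hb' : S.Simp b') (hc : c ∈ cls b') (hc'' : c'' ∈ cls b')
    (h : S.Opp c u δ) : ¬ S.Opp u c'' δ⁻¹ := by
  intro h'
  have hs : ¬ S.PosX c c''⁻¹ := (Simp.cls hb' hc).2 _ (by
    rw [cls_eq hc]
    exact cls_inv hc'')
  apply hs
  unfold Opp at h h'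
  unfold PosX
  rw [inv_inv] at h' ⊢
  clear hs
  generalize S.att c = a at *; generalize S.att c⁻¹ = b at *
  generalize S.att u = p at *; generalize S.att u⁻¹ = q at *
  generalize S.att δ = r at *; generalize S.att δ⁻¹ = s at *
  generalize S.att c'' = x at *; generalize S.att c''⁻¹ = y at *
  clear hb' hc hc''
  (obtain ⟨lab, hlab⟩ := H21D.exists_lab [a, b, p, q, r, s, x, y]; simp only [List.forall_mem_cons, List.not_mem_nil, IsEmpty.forall_iff, implies_true, and_true, forall_eq_or_imp, List.mem_cons, forall_eq, or_false] at hlab; simp only [H21D.cyc, H21D.cyc4, H21D.arc, ne_eq, hlab] at *; omega)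

/-- two lines `δ, δ'` of a simple class that cross both `u` and `c'`. -/
theorem Opp_quadrant' {d c u δ δ' : G} (hd : S.Simp d) (hδ : δ ∈ cls d) (hδ' : δ' ∈ cls d)
    (h : S.Opp c u δ) : ¬ S.Opp u c⁻¹ δ' := by
  intro h'
  have hs : ¬ S.PosX δ δ' := (Simp.cls hd hδ).2 _ (by
    rw [cls_eq hδ]
    exact hδ')
  apply hs
  unfold Opp at h h'
  unfold PosX
  rw [inv_inv] at h'
  clear hs
  generalize S.att c = a at *; generalize S.att c⁻¹ = b at *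
  generalize S.att u = p at *; generalize S.att u⁻¹ = q at *
  generalize S.att δ = r at *; generalize S.att δ⁻¹ = s at *
  generalize S.att δ' = x at *; generalize S.att δ'⁻¹ = y at *
  clear hd hδ hδ'
  (obtain ⟨lab, hlab⟩ := H21D.exists_lab [a, b, p, q, r, s, x, y]; simp only [List.forall_mem_cons, List.not_mem_nil, IsEmpty.forall_iff, implies_true, and_true, forall_eq_or_imp, List.mem_cons, forall_eq, or_false] at hlab; simp only [H21D.cyc, H21D.cyc4, H21D.arc, ne_eq, hlab] at *; omega)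

theorem exists_opp {b b' d : G} (hb' : b' ≠ 1) (hd : d ≠ 1)
    (h : S.nFree b' b d ≠ S.iN b' d) : ∃ δ ∈ cls d, ∃ u ∈ cls b, S.Opp b' u δ := by
  by_contra hcon
  apply h
  unfold nFree iN
  congr 1
  ext δ
  constructor
  · intro hδ
    exact hδ.1
  · intro hδ
    refine ⟨hδ, ?_⟩
    rintro ⟨u, hu, hopp⟩
    exact hcon ⟨δ, hδ.1, u, hu, hopp⟩

theorem n1_finite {a b : G} (ha : a ≠ 1) (hb : b ≠ 1) (X : Set G) (hX : X ⊆ S.PosSet a b) :
    Finite (Quotient (orbRel a X)) := by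
  have := S.finite_iN ha hb
  let f : Quotient (orbRel a X) → Quotient (orbRel a (S.PosSet a b)) :=
    Quotient.map (sa := orbRel a X) (sb := orbRel a (S.PosSet a b))
      (fun w => ⟨w.1, hX w.2⟩) (fun w w' h => h)
  refine Finite.of_injective f ?_
  intro x y
  induction x using Quotient.inductionOn with
  | h x =>
    induction y using Quotient.inductionOn with
    | h y =>
      intro hxy
      have h1 : Quotient.mk (orbRel a (S.PosSet a b)) ⟨x.1, hX x.2⟩ =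
          Quotient.mk (orbRel a (S.PosSet a b)) ⟨y.1, hX y.2⟩ := hxy
      have h2 : ∃ k : ℤ, (y : G) = a ^ k * x * (a ^ k)⁻¹ := Quotient.exact h1
      exact Quotient.sound h2

/-- transfer from `u` to `b` -/
theorem n1_transfer {b u : G} (hb : b ≠ 1) (hu : u ∈ cls b) :
    ∃ k : G, (u = k * b * k⁻¹ ∧ (∀ x ≠ 1, S.PosX u x → S.PosX b (k⁻¹ * x * k)) ∧
        (∀ x ≠ 1, ∀ y ≠ 1, S.Opp b x y → S.Opp u (k * x * k⁻¹) (k * y * k⁻¹))) ∨
      (u = k * b⁻¹ * k⁻¹ ∧ (∀ x ≠ 1, S.PosX u x → S.PosX b (k⁻¹ * x⁻¹ * k)) ∧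
        (∀ x ≠ 1, ∀ y ≠ 1, S.Opp b x y → S.Opp u (k * x⁻¹ * k⁻¹) (k * y⁻¹ * k⁻¹))) := by
  have hc : ∀ (k x : G), x ≠ 1 → k⁻¹ * x * k ≠ 1 := by
    intro k x hx
    have := S.conj_ne_one k⁻¹ hx
    rwa [inv_inv] at this
  obtain ⟨k, hk | hk⟩ := hu
  · refine ⟨k, Or.inl ⟨hk, ?_, ?_⟩⟩
    · intro x hx h
      have h1 : x = k * (k⁻¹ * x * k) * k⁻¹ := by group
      rw [hk, h1, S.PosX_conj k hb (hc k x hx)] at h
      exact h
    · intro x hx y hy h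
      rw [hk, S.Opp_conj k hb hx hy]
      exact h
  · refine ⟨k, Or.inr ⟨hk, ?_, ?_⟩⟩
    · intro x hx h
      have h1 : x = k * (k⁻¹ * x * k) * k⁻¹ := by group
      rw [hk, h1, S.PosX_conj k (inv_ne_one.2 hb) (hc k x hx)] at h
      have h2 := S.PosX_inv_inv h
      have h3 : (k⁻¹ * x * k)⁻¹ = k⁻¹ * x⁻¹ * k := by group
      rw [inv_inv, h3] at h2
      exact h2
    · intro x hx y hy h
      rw [hk, S.Opp_conj k (inv_ne_one.2 hb) (inv_ne_one.2 hx) (inv_ne_one.2 hy)]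
      exact S.Opp_inv h

theorem n1_conj {G : Type*} [Group G] {b x : G} (k : G) (h : x ∈ cls b) : k⁻¹ * x * k ∈ cls b := by
  have := cls_conj k⁻¹ h
  rwa [inv_inv] at this

theorem nFree_dich {b b' d : G} (hb : S.Simp b) (hb' : S.Simp b') (hd : S.Simp d)
    (h : S.nFree b' b d ≠ S.iN b' d) : 1 ≤ S.nFree b b' d := by
  obtain ⟨δ, hδ, u, hu, hopp⟩ := S.exists_opp hb'.1.1 hd.1.1 h
  have hδ1 : δ ≠ 1 := cls_ne_one hd.1.1 hδ
  have hp : S.PosX u δ⁻¹ := (S.Opp_PosX hopp).2.2.1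
  have hq : ∀ c'' ∈ cls b', ¬ S.Opp u c'' δ⁻¹ := fun c'' hc'' =>
    S.Opp_quadrant hb' (mem_cls_self b') hc'' hopp
  unfold nFree
  have hfin : Finite (Quotient (orbRel b {δ | δ ∈ S.PosSet b d ∧ ¬ ∃ u ∈ cls b', S.Opp b u δ})) :=
    S.n1_finite hb.1.1 hd.1.1 _ (fun x hx => hx.1)
  have hne : Nonempty (Quotient (orbRel b {δ | δ ∈ S.PosSet b d ∧
      ¬ ∃ u ∈ cls b', S.Opp b u δ})) := by
    obtain ⟨k, ⟨hk, h1, h2⟩ | ⟨hk, h1, h2⟩⟩ := S.n1_transfer hb.1.1 hu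
    · refine ⟨Quotient.mk _ ⟨k⁻¹ * δ⁻¹ * k, ⟨n1_conj k (cls_inv hδ),
        h1 _ (inv_ne_one.2 hδ1) hp⟩, ?_⟩⟩
      rintro ⟨c'', hc'', ho⟩
      have hm : k⁻¹ * δ⁻¹ * k ∈ cls d := n1_conj k (cls_inv hδ)
      have h3 := h2 c'' (cls_ne_one hb'.1.1 hc'') _ (cls_ne_one hd.1.1 hm) ho
      have e : k * (k⁻¹ * δ⁻¹ * k) * k⁻¹ = δ⁻¹ := by group
      rw [e] at h3
      exact hq _ (cls_conj k hc'') h3
    · have hp' := h1 _ (inv_ne_one.2 hδ1) hp
      rw [inv_inv] at hp'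
      refine ⟨Quotient.mk _ ⟨k⁻¹ * δ * k, ⟨n1_conj k hδ, hp'⟩, ?_⟩⟩
      rintro ⟨c'', hc'', ho⟩
      have hm : k⁻¹ * δ * k ∈ cls d := n1_conj k hδ
      have h3 := h2 c'' (cls_ne_one hb'.1.1 hc'') _ (cls_ne_one hd.1.1 hm) ho
      have e : k * (k⁻¹ * δ * k)⁻¹ * k⁻¹ = δ⁻¹ := by group
      rw [e] at h3
      exact hq _ (cls_conj k (cls_inv hc'')) h3
  unfold orbCard
  exact Nat.card_pos

theorem nFree_one {b b' d : G} (hb : S.Simp b) (hb' : S.Simp b') (hd : S.Simp d)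
    (hE : S.iN b b' = 1) (h : S.nFree b' b d ≠ S.iN b' d) : S.nFree b b' d = S.iN b d := by
  obtain ⟨δ, hδ, u, hu, hopp⟩ := S.exists_opp hb'.1.1 hd.1.1 h
  have hb1 : b ≠ 1 := hb.1.1
  have hb'1 : b' ≠ 1 := hb'.1.1
  have hp : S.PosX u b'⁻¹ := (S.Opp_PosX hopp).2.2.2
  by_contra hcon
  obtain ⟨δ', hδ', c'', hc'', hopp'⟩ := S.exists_opp (b := b') (b' := b) (d := d) hb1 hd.1.1 hcon
  have hδ'1 : δ' ≠ 1 := cls_ne_one hd.1.1 hδ'
  have hc''1 : c'' ≠ 1 := cls_ne_one hb'1 hc''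
  have hmem : c'' ∈ S.PosSet b b' := ⟨hc'', (S.Opp_PosX hopp').1⟩
  -- all elements of the set are in one orbit
  have horb : ∀ x ∈ S.PosSet b b', ∃ j : ℤ, c'' = b ^ j * x * (b ^ j)⁻¹ := by
    intro x hx
    unfold iN orbCard at hE
    obtain ⟨hsub, -⟩ := Nat.card_eq_one_iff_unique.1 hE
    have h1 : (Quotient.mk (orbRel b (S.PosSet b b')) ⟨x, hx⟩) =
        Quotient.mk (orbRel b (S.PosSet b b')) ⟨c'', hmem⟩ := Subsingleton.elim _ _
    exact Quotient.exact h1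
  obtain ⟨k, ⟨hk, h1, -⟩ | ⟨hk, h1, -⟩⟩ := S.n1_transfer hb1 hu
  · obtain ⟨j, hj⟩ := horb (k⁻¹ * b'⁻¹ * k) ⟨n1_conj k (cls_inv (mem_cls_self b')),
      h1 _ (inv_ne_one.2 hb'1) hp⟩
    have h2 := (S.Opp_conj (k * (b ^ j)⁻¹) hb1 hc''1 hδ'1).2 hopp'
    have e1 : (k * (b ^ j)⁻¹) * b * (k * (b ^ j)⁻¹)⁻¹ = u := by
      rw [hk]
      group
    have e2 : (k * (b ^ j)⁻¹) * c'' * (k * (b ^ j)⁻¹)⁻¹ = b'⁻¹ := by
      rw [hj]
      group
    rw [e1, e2] at h2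
    exact S.Opp_quadrant' hd hδ (cls_conj _ hδ') hopp h2
  · have hp' := h1 _ (inv_ne_one.2 hb'1) hp
    rw [inv_inv] at hp'
    obtain ⟨j, hj⟩ := horb (k⁻¹ * b' * k) ⟨n1_conj k (mem_cls_self b'), hp'⟩
    have h2 := (S.Opp_conj (k * (b ^ j)⁻¹) (inv_ne_one.2 hb1) (inv_ne_one.2 hc''1)
      (inv_ne_one.2 hδ'1)).2 (S.Opp_inv hopp')
    have e1 : (k * (b ^ j)⁻¹) * b⁻¹ * (k * (b ^ j)⁻¹)⁻¹ = u := by
      rw [hk]
      group
    have e2 : (k * (b ^ j)⁻¹) * c''⁻¹ * (k * (b ^ j)⁻¹)⁻¹ = b'⁻¹ := by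
      rw [hj]
      group
    rw [e1, e2] at h2
    exact S.Opp_quadrant' hd hδ (cls_conj _ (cls_inv hδ')) hopp h2

end Sys
end H21D
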