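import Pool.Agent.Lib.H21D.F5
import Pool.Agent.Lib.H21D.G1
import Pool.Agent.Lib.H21D.N1
import Pool.Agent.Lib.H21D.D2

/-! # N2: intersection numbers of twisted curves -/
namespace H21D
variable {G C : Type*} [Group G] [LinearOrder C] [MulAction G C] {S : Sys G C}

theorem N2_crs {a b : G} (ha : S.Prim a) (hb : S.Simp b) (h : S.iN a b ≠ 0) :
    Nonempty (Crs (famOf hb) a) := by
  apply (famOf hb).exists_crs ha.1
  have h1 : ¬ S.Disj a b := fun h2 => h ((S.iN_eq_zero_iff ha.1 hb.1.1).2 h2)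
  unfold Sys.Disj at h1
  push Not at h1
  exact h1

theorem tw_upper {a b : G} (ha : S.Prim a) (hb : S.Simp b) {c : G} (hc : c ≠ 1) :
    S.iN (tw hb a) c ≤ S.iN a b * S.iN b c + S.iN a c := by
  by_cases h : S.iN a b = 0
  · have hd : S.Disj a b := (S.iN_eq_zero_iff ha.1 hb.1.1).1 h
    obtain ⟨k, hk⟩ := tw_free hb ha.1 hd
    rw [hk, S.iN_conj_left k ha.1 hc]
    exact Nat.le_add_left _ _
  · obtain ⟨K⟩ := N2_crs ha hb h
    obtain ⟨k, hk⟩ := tw_crs hb K
    rw [hk, S.iN_conj_left k (K.X_ne_one ha) hc, ← Sys.crs_m ha.1 K rfl]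
    exact K.stair_upper hc hb.1 rfl ha

theorem tw_lower {a b : G} (ha : S.Prim a) (hb : S.Simp b) {c : G} (hc : c ≠ 1) :
    S.iN a b * S.iN b c ≤ S.iN (tw hb a) c + S.iN a c := by
  by_cases h : S.iN a b = 0
  · rw [h, zero_mul]
    exact Nat.zero_le _
  · obtain ⟨K⟩ := N2_crs ha hb h
    obtain ⟨k, hk⟩ := tw_crs hb K
    rw [hk, S.iN_conj_left k (K.X_ne_one ha) hc, ← Sys.crs_m ha.1 K rfl]
    have h1 := K.stair_lower hc hb.1 rfl ha
    omega

theorem tw_lower' {a b : G} (ha : S.Prim a) (hb : S.Simp b) {c : G} (hc : c ≠ 1)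
    (h : 1 ≤ S.iN a b) :
    S.iN a b * S.iN b c + 2 * S.nFree a b c ≤ S.iN (tw hb a) c + S.iN a c := by
  obtain ⟨K⟩ := N2_crs ha hb (by omega)
  obtain ⟨k, hk⟩ := tw_crs hb K
  rw [hk, S.iN_conj_left k (K.X_ne_one ha) hc, ← Sys.crs_m ha.1 K rfl]
  exact K.stair_lower hc hb.1 rfl ha

/-- **the crossing case** -/
theorem cross_case {b b' d : G} (hb : S.Simp b) (hb' : S.Simp b') (hd : S.Simp d)
    (h1 : 1 ≤ S.iN b b') (h2 : 1 ≤ S.iN d b') (h3 : S.iN d b' ≤ S.iN d b)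
    (h4 : S.iN (tw hb b') d ≤ S.iN d b) (h5 : S.iN (tw hb' b) d ≤ S.iN d b) : False := by
  have e1 : S.iN b' b = S.iN b b' := S.iN_symm hb'.1 hb.1
  have e2 : S.iN b d = S.iN d b := S.iN_symm hb.1 hd.1
  have e3 : S.iN b' d = S.iN d b' := S.iN_symm hb'.1 hd.1
  have hP := tw_lower' hb'.1 hb hd.1.1 (by rw [e1]; exact h1)
  have hQ := tw_lower' hb.1 hb' hd.1.1 h1
  rw [e1, e2, e3] at hP
  rw [e2, e3] at hQ
  have n1 := S.nFree_dich hb hb' hd
  have n2 := S.nFree_one hb hb' hd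
  rw [e3] at n1 n2
  rw [e2] at n2
  generalize S.nFree b' b d = nP at *
  generalize S.nFree b b' d = nQ at *
  generalize S.iN (tw hb b') d = P at *
  generalize S.iN (tw hb' b) d = Q at *
  generalize S.iN b b' = E at *
  generalize S.iN d b = m at *
  generalize S.iN d b' = m' at *
  by_cases h6 : nP = m'
  · have h7 : m ≤ E * m := Nat.le_mul_of_pos_left _ h1
    omega
  · have h7 := n1 h6
    rcases Nat.lt_or_ge E 2 with h8 | h8
    · have h9 : E = 1 := by omega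
      have h10 := n2 h9 h6
      rw [h9, one_mul] at hQ
      omega
    · have h9 : 2 * m ≤ E * m := Nat.mul_le_mul_right _ h8
      have h10 : 2 * m' ≤ E * m' := Nat.mul_le_mul_right _ h8
      omega

end H21D
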