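import Mathlib

/-!
Definitions used in the statement of the theorem on idempotents of the integral quandle ring of the
Dehn quandle (MP_5b5d66_al).
-/
namespace H21D.Stmt
open Matrix

/-- `Γ` is a discrete subgroup of `SL(2,ℝ)` all of whose elements other than `1` are hyperbolic.
It acts freely and properly discontinuously on the hyperbolic plane `ℍ`. -/
structure SurfaceGroup (Γ : Subgroup (SpecialLinearGroup (Fin 2) ℝ)) : Prop where
  discrete : DiscreteTopology Γ
  hyperbolic : ∀ g ∈ Γ, g ≠ 1 → 2 < |g.1.trace|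

/-- `v` is a homogeneous coordinate vector of the attracting fixed point of `g` on the circle at
infinity `P¹(ℝ)` of `ℍ`. -/
def Attracting (g : SpecialLinearGroup (Fin 2) ℝ) (v : Fin 2 → ℝ) : Prop :=
  v ≠ 0 ∧ ∃ l : ℝ, 1 < |l| ∧ g.1 *ᵥ v = l • v

/-- The determinant of two vectors. -/
def det2 (v w : Fin 2 → ℝ) : ℝ := v 0 * w 1 - v 1 * w 0

/-- The points of `P¹(ℝ)` with coordinate vectors `u, v, w` are distinct and met in this order when
`P¹(ℝ)` is run through counterclockwise (on `ℝ`: from left to right). -/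
def Ccw (u v w : Fin 2 → ℝ) : Prop := 0 < det2 u v * det2 v w * det2 w u

/-- The axis of `u` crosses the axis of `x` from right to left:
the fixed points are met in the counterclockwise order `x⁺, u⁺, x⁻, u⁻`. -/
def Crosses (x u : SpecialLinearGroup (Fin 2) ℝ) : Prop :=
  ∃ a b c d : Fin 2 → ℝ, Attracting x a ∧ Attracting u b ∧ Attracting x⁻¹ c ∧
    Attracting u⁻¹ d ∧ Ccw a b c ∧ Ccw a c d

/-- `u` and `w` cross `x` from right to left, are disjoint and `u` comes before `w` on the axis of `x`: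
the fixed points are met in the counterclockwise order `x⁺, w⁺, u⁺, x⁻, u⁻, w⁻`. -/
def Before (x u w : SpecialLinearGroup (Fin 2) ℝ) : Prop :=
  ∃ a b c d e f : Fin 2 → ℝ, Attracting x a ∧ Attracting w b ∧ Attracting u c ∧
    Attracting x⁻¹ d ∧ Attracting u⁻¹ e ∧ Attracting w⁻¹ f ∧
    Ccw a b c ∧ Ccw a c d ∧ Ccw d e f ∧ Ccw d f a

/-- The oriented lifts of the closed curve `y`: all conjugates of `y` and of `y⁻¹`. -/
def Lifts {Γ : Subgroup (SpecialLinearGroup (Fin 2) ℝ)} (y : Γ) : Set Γ :=
  {w | ∃ h : Γ, w = h * y * h⁻¹ ∨ w = h * y⁻¹ * h⁻¹}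

/-- `x` represents a simple closed curve: it is not a proper power and no lift of `x` crosses its
axis. -/
def IsSimple {Γ : Subgroup (SpecialLinearGroup (Fin 2) ℝ)} (x : Γ) : Prop :=
  x ≠ 1 ∧ (∀ (z : Γ) (n : ℤ), z ^ n = x → n = 1 ∨ n = -1) ∧
    ∀ w ∈ Lifts x, ¬ Crosses x.1 w.1

/-- Two elements represent the same unoriented closed curve. -/
def sameCurve (Γ : Subgroup (SpecialLinearGroup (Fin 2) ℝ)) :
    Setoid {x : Γ // IsSimple x} where
  r x y := y.1 ∈ Lifts x.1
  iseqv := {
    refl := fun x => ⟨1, Or.inl (by simp)⟩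
    symm := by
      rintro x y ⟨h, hh | hh⟩
      · exact ⟨h⁻¹, Or.inl (by rw [hh]; group)⟩
      · exact ⟨h⁻¹, Or.inr (by rw [hh]; group)⟩
    trans := by
      rintro x y z ⟨h, hh | hh⟩ ⟨k, hk | hk⟩
      · exact ⟨k * h, Or.inl (by rw [hk, hh]; group)⟩
      · exact ⟨k * h, Or.inr (by rw [hk, hh]; group)⟩
      · exact ⟨k * h, Or.inr (by rw [hk, hh]; group)⟩
      · exact ⟨k * h, Or.inl (by rw [hk, hh]; group)⟩ }

/-- The set of isotopy classes of essential simple closed curves of the surface `ℍ / Γ`. -/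
def Curve (Γ : Subgroup (SpecialLinearGroup (Fin 2) ℝ)) : Type := Quotient (sameCurve Γ)

/-- The class of `x`. -/
def Curve.mk {Γ : Subgroup (SpecialLinearGroup (Fin 2) ℝ)} (x : {x : Γ // IsSimple x}) : Curve Γ :=
  Quotient.mk (sameCurve Γ) x

/-- `z` is the image of `x` under the (left) Dehn twist along `y`.  Let `u 0, ..., u (m-1)` be the
lifts of `y` that cross the axis of `x` from right to left in one period, in their order on the axis.
Then `z` is the class of `u 0 * ... * u (m-1) * x`. -/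
def IsTwist {Γ : Subgroup (SpecialLinearGroup (Fin 2) ℝ)} (y x z : Γ) : Prop :=
  ∃ (m : ℕ) (u : ℕ → Γ),
    (∀ k < m, u k ∈ Lifts y ∧ Crosses x.1 (u k).1) ∧
    (∀ k, k + 1 < m → Before x.1 (u k).1 (u (k + 1)).1) ∧
    (0 < m → Before x.1 (u (m - 1)).1 (x * u 0 * x⁻¹ : Γ).1) ∧
    (∀ w ∈ Lifts y, Crosses x.1 w.1 → ∃ k < m, ∃ j : ℤ, w = x ^ j * u k * (x ^ j)⁻¹) ∧
    z ∈ Lifts (((List.range m).map u).prod * x)

/-- Primitive vectors of `ℤ²`. -/
def PrimVec : Type := {v : ℤ × ℤ // IsCoprime v.1 v.2}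

/-- `v` and `-v` are the same curve on the torus. -/
def sameSlope : Setoid PrimVec where
  r v w := w.1 = v.1 ∨ w.1 = -v.1
  iseqv := {
    refl := fun v => Or.inl rfl
    symm := by
      rintro v w (h | h)
      · exact Or.inl h.symm
      · exact Or.inr (by rw [h, neg_neg])
    trans := by
      rintro u v w (h | h) (h' | h')
      · exact Or.inl (by rw [h', h])
      · exact Or.inr (by rw [h', h])
      · exact Or.inr (by rw [h', h])
      · exact Or.inl (by rw [h', h, neg_neg]) }

/-- The set of isotopy classes of essential simple closed curves of the torus. -/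
def Slope : Type := Quotient sameSlope

/-- The class of `v`. -/
def Slope.mk (v : PrimVec) : Slope := Quotient.mk sameSlope v

/-- Algebraic intersection number on the torus. -/
def omega (v w : ℤ × ℤ) : ℤ := v.1 * w.2 - v.2 * w.1

end H21D.Stmt
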